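import Mathlib

set_option autoImplicit false

/-!
Two elementary sums for the diagonalisation of the quadratic form (helper4 for helper5).
-/

namespace Pool.Agent.Zk4

open Finset Nat

noncomputable section

/-- `∏_{p ∣ d} (p^s - 1)⁻¹` for squarefree `d` -/
def ws (s : ℝ) (d : ℕ) : ℝ :=
  open Classical in if Squarefree d then ∏ p ∈ d.primeFactors, ((p : ℝ) ^ s - 1)⁻¹ else 0

/-- the completely multiplicative function `n ^ (-s)` -/
def fpw (s : ℝ) : ℕ →* ℝ where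
  toFun n := (n : ℝ) ^ (-s)
  map_one' := by simp
  map_mul' m n := by
    push_cast
    rw [Real.mul_rpow (Nat.cast_nonneg _) (Nat.cast_nonneg _)]

lemma fpw_apply (s : ℝ) (n : ℕ) : fpw s n = (n : ℝ) ^ (-s) := rfl

lemma fpw_lt {s : ℝ} (hs : 0 < s) {p : ℕ} (hp : p.Prime) : ‖fpw s p‖ < 1 := by
  rw [fpw_apply, Real.norm_of_nonneg (by positivity)]
  exact Real.rpow_lt_one_of_one_lt_of_neg (by exact_mod_cast hp.one_lt) (by linarith)

lemma prime_rpow_gt {s : ℝ} (hs : 0 < s) {p : ℕ} (hp : p.Prime) : 1 < (p : ℝ) ^ s :=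
  Real.one_lt_rpow (by exact_mod_cast hp.one_lt) hs

lemma ws_nonneg {s : ℝ} (hs : 0 < s) (d : ℕ) : 0 ≤ ws s d := by
  unfold ws
  split_ifs
  · refine Finset.prod_nonneg fun p hp => ?_
    have := prime_rpow_gt hs (Nat.prime_of_mem_primeFactors hp)
    exact inv_nonneg.mpr (by linarith)
  · exact le_rfl

/-- `w` as a sum over the numbers with radical `d` -/
lemma ws_hasSum {s : ℝ} (hs : 0 < s) {d : ℕ} (hd : Squarefree d) :
    HasSum (fun m : factoredNumbers d.primeFactors => ((d * (m : ℕ) : ℕ) : ℝ) ^ (-s)) (ws s d) := by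
  have h := (EulerProduct.summable_and_hasSum_factoredNumbers_prod_filter_prime_geometric
    (f := fpw s) (fun hp => fpw_lt hs hp) d.primeFactors).2
  have h2 := h.mul_left ((d : ℝ) ^ (-s))
  have e1 : (d : ℝ) ^ (-s) * ∏ p ∈ d.primeFactors with p.Prime, (1 - fpw s p)⁻¹ = ws s d := by
    unfold ws
    rw [if_pos hd]
    have e2 : (d.primeFactors.filter fun p => p.Prime) = d.primeFactors := by
      refine Finset.filter_true_of_mem fun p hp => Nat.prime_of_mem_primeFactors hp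
    rw [e2]
    have e3 : (d : ℝ) ^ (-s) = ∏ p ∈ d.primeFactors, (p : ℝ) ^ (-s) := by
      conv_lhs => rw [← Nat.prod_primeFactors_of_squarefree hd]
      push_cast
      rw [Real.finsetProd_rpow _ _ (fun p _ => Nat.cast_nonneg _)]
    rw [e3, ← Finset.prod_mul_distrib]
    refine Finset.prod_congr rfl fun p hp => ?_
    have hp' := Nat.prime_of_mem_primeFactors hp
    have h3 := prime_rpow_gt hs hp'
    rw [fpw_apply, Real.rpow_neg (Nat.cast_nonneg _)]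
    have h4 : (p : ℝ) ^ s ≠ 0 := by linarith
    have h5 : (p : ℝ) ^ s - 1 ≠ 0 := by linarith
    rw [← mul_inv]
    congr 1
    field_simp
  rw [e1] at h2
  refine h2.congr_fun ?_
  intro m
  rw [fpw_apply]
  push_cast
  rw [Real.mul_rpow (Nat.cast_nonneg _) (Nat.cast_nonneg _)]

/-- the radical -/
def rd (n : ℕ) : ℕ := ∏ p ∈ n.primeFactors, p

lemma rd_sqf (n : ℕ) : Squarefree (rd n) := by
  unfold rd
  refine Finset.squarefree_prod_of_pairwise_isCoprime ?_ fun p hp =>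
    (Nat.prime_of_mem_primeFactors hp).squarefree
  intro p hp q hq hpq
  have hp' := Nat.prime_of_mem_primeFactors (Finset.mem_coe.mp hp)
  have hq' := Nat.prime_of_mem_primeFactors (Finset.mem_coe.mp hq)
  exact Nat.coprime_iff_isRelPrime.mp ((Nat.coprime_primes hp' hq').mpr hpq)

lemma rd_dvd (n : ℕ) : rd n ∣ n := Nat.prod_primeFactors_dvd n

lemma rd_pos (n : ℕ) : 0 < rd n := Finset.prod_pos fun _ hp => (Nat.prime_of_mem_primeFactors hp).pos

lemma rd_primeFactors (n : ℕ) : (rd n).primeFactors = n.primeFactors := by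
  unfold rd
  exact Nat.primeFactors_prod fun p hp => Nat.prime_of_mem_primeFactors hp

lemma rd_mul {d m : ℕ} (hd : Squarefree d) (hm : m ∈ factoredNumbers d.primeFactors) : rd (d * m) = d := by
  have hm0 : m ≠ 0 := ne_zero_of_mem_factoredNumbers hm
  have hd0 : d ≠ 0 := hd.ne_zero
  unfold rd
  have h1 : (d * m).primeFactors = d.primeFactors := by
    rw [Nat.primeFactors_mul hd0 hm0]
    exact Finset.union_eq_left.mpr (primeFactors_subset_of_mem_factoredNumbers hm)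
  rw [h1, Nat.prod_primeFactors_of_squarefree hd]

/-- the sum over the numbers up to `N` with radical `d` is at most `w d` -/
lemma sum_rd_le {s : ℝ} (hs : 0 < s) {d : ℕ} (hd : Squarefree d) (N : ℕ) :
    ∑ n ∈ (Finset.Icc 1 N).filter (fun n => rd n = d), (n : ℝ) ^ (-s) ≤ ws s d := by
  classical
  have hmem : ∀ n ∈ (Finset.Icc 1 N).filter (fun n => rd n = d), n / d ∈ factoredNumbers d.primeFactors ∧
      d * (n / d) = n := by
    intro n hn
    rw [Finset.mem_filter, Finset.mem_Icc] at hn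
    obtain ⟨⟨h1, h2⟩, h3⟩ := hn
    have h4 : d ∣ n := h3 ▸ rd_dvd n
    have h5 : d * (n / d) = n := Nat.mul_div_cancel' h4
    refine ⟨?_, h5⟩
    have h6 : n / d ≠ 0 := by
      intro h
      rw [h, mul_zero] at h5
      omega
    apply mem_factoredNumbers_of_primeFactors_subset h6
    have h7 : (n / d).primeFactors ⊆ n.primeFactors :=
      Nat.primeFactors_mono (Nat.div_dvd_of_dvd h4) (by omega)
    rw [← h3, rd_primeFactors]
    rw [h3]
    exact h7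
  have h := ws_hasSum hs hd
  let F : Finset (factoredNumbers d.primeFactors) :=
    ((Finset.Icc 1 N).filter (fun n => rd n = d)).attach.image (fun n => ⟨n.1 / d, (hmem n.1 n.2).1⟩)
  have h8 := sum_le_hasSum F (fun m _ => by positivity) h
  refine le_trans (le_of_eq ?_) h8
  rw [Finset.sum_image]
  · rw [← Finset.sum_attach]
    refine Finset.sum_congr rfl fun n _ => ?_
    rw [(hmem n.1 n.2).2]
  · intro a _ b _ hab
    have h9 : a.1 / d = b.1 / d := congrArg Subtype.val hab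
    apply Subtype.ext
    rw [← (hmem a.1 a.2).2, ← (hmem b.1 b.2).2, h9]

/-- `w d` is at most the sum over the numbers up to `N` with radical `d`, plus a small multiple of the
value at a smaller exponent -/
lemma ws_le_sum {s κ : ℝ} (hκ : 0 < κ) (hs : κ < s) {d : ℕ} (hd : Squarefree d) {N : ℕ} (hN : 1 ≤ N) :
    ws s d ≤ ∑ n ∈ (Finset.Icc 1 N).filter (fun n => rd n = d), (n : ℝ) ^ (-s) +
      (N : ℝ) ^ (-κ) * ws (s - κ) d := by
  classical
  have hs0 : 0 < s := hκ.trans hs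
  have hN0 : (0 : ℝ) < N := by exact_mod_cast hN
  have h1 := ws_hasSum hs0 hd
  have h2 := (ws_hasSum (show 0 < s - κ by linarith) hd).mul_left ((N : ℝ) ^ (-κ))
  have h3 : Summable (fun m : factoredNumbers d.primeFactors =>
      if d * (m : ℕ) ≤ N then ((d * (m : ℕ) : ℕ) : ℝ) ^ (-s) else 0) := by
    refine Summable.of_nonneg_of_le (fun m => by split_ifs <;> positivity) (fun m => ?_) h1.summable
    split_ifs
    · exact le_rfl
    · positivity
  have h4 : ∑' m : factoredNumbers d.primeFactors, (if d * (m : ℕ) ≤ N then ((d * (m : ℕ) : ℕ) : ℝ) ^ (-s) else 0) ≤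
      ∑ n ∈ (Finset.Icc 1 N).filter (fun n => rd n = d), (n : ℝ) ^ (-s) := by
    refine h3.tsum_le_of_sum_le fun F => ?_
    rw [← Finset.sum_filter]
    have hinj : Set.InjOn (fun m : factoredNumbers d.primeFactors => d * (m : ℕ))
        (↑(F.filter fun m : factoredNumbers d.primeFactors => d * (m : ℕ) ≤ N) :
          Set (factoredNumbers d.primeFactors)) := by
      intro a _ b _ hab
      exact Subtype.ext (Nat.eq_of_mul_eq_mul_left (Nat.pos_of_ne_zero hd.ne_zero) hab)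
    rw [← Finset.sum_image (f := fun n : ℕ => (n : ℝ) ^ (-s)) hinj]
    refine Finset.sum_le_sum_of_subset_of_nonneg ?_ fun n _ _ => by positivity
    intro n hn
    rw [Finset.mem_image] at hn
    obtain ⟨m, hm, rfl⟩ := hn
    rw [Finset.mem_filter] at hm
    rw [Finset.mem_filter, Finset.mem_Icc]
    refine ⟨⟨?_, hm.2⟩, rd_mul hd m.2⟩
    exact Nat.one_le_iff_ne_zero.mpr (mul_ne_zero hd.ne_zero (ne_zero_of_mem_factoredNumbers m.2))
  have h5 := hasSum_le (fun m : factoredNumbers d.primeFactors => ?_) h1 (h3.hasSum.add h2)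
  · exact h5.trans (add_le_add_left h4 _)
  · have hpos : 0 < d * (m : ℕ) :=
      Nat.pos_of_ne_zero (mul_ne_zero hd.ne_zero (ne_zero_of_mem_factoredNumbers m.2))
    obtain ⟨x, hx⟩ : ∃ x : ℕ, x = d * (m : ℕ) := ⟨_, rfl⟩
    rw [← hx] at hpos ⊢
    have hx0 : (0 : ℝ) < x := by exact_mod_cast hpos
    split_ifs with h6
    · have : 0 ≤ (N : ℝ) ^ (-κ) * (x : ℝ) ^ (-(s - κ)) := by positivity
      linarith
    · push Not at h6
      have h7 : (N : ℝ) ≤ x := by exact_mod_cast h6.le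
      have h8 : (x : ℝ) ^ (-s) = (x : ℝ) ^ (-κ) * (x : ℝ) ^ (-(s - κ)) := by
        rw [← Real.rpow_add hx0]
        congr 1
        ring
      have h9 : (x : ℝ) ^ (-κ) ≤ (N : ℝ) ^ (-κ) := Real.rpow_le_rpow_of_nonpos hN0 h7 (by linarith)
      rw [zero_add, h8]
      exact mul_le_mul_of_nonneg_right h9 (by positivity)

lemma sum_fiber (s : ℝ) (N : ℕ) : ∑ n ∈ Finset.Icc 1 N, (n : ℝ) ^ (-s) =
    ∑ d ∈ Finset.Icc 1 N, ∑ n ∈ (Finset.Icc 1 N).filter (fun n => rd n = d), (n : ℝ) ^ (-s) := by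
  rw [Finset.sum_fiberwise_of_maps_to]
  intro n hn
  rw [Finset.mem_Icc] at hn ⊢
  exact ⟨rd_pos n, (Nat.le_of_dvd (by omega) (rd_dvd n)).trans hn.2⟩

lemma filter_empty {d : ℕ} (hd : ¬ Squarefree d) (N : ℕ) : (Finset.Icc 1 N).filter (fun n => rd n = d) = ∅ := by
  refine Finset.filter_eq_empty_iff.mpr fun n _ h => ?_
  exact hd (h ▸ rd_sqf n)

theorem pow_sum_le_ws {s : ℝ} (hs : 0 < s) (N : ℕ) :
    ∑ n ∈ Finset.Icc 1 N, (n : ℝ) ^ (-s) ≤ ∑ d ∈ Finset.Icc 1 N, ws s d := by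
  rw [sum_fiber]
  refine Finset.sum_le_sum fun d _ => ?_
  by_cases hd : Squarefree d
  · exact sum_rd_le hs hd N
  · rw [filter_empty hd, Finset.sum_empty]
    exact ws_nonneg hs d

theorem ws_le_pow_sum {s κ : ℝ} (hκ : 0 < κ) (hs : κ < s) {N : ℕ} (hN : 1 ≤ N) :
    ∑ d ∈ Finset.Icc 1 N, ws s d ≤ ∑ n ∈ Finset.Icc 1 N, (n : ℝ) ^ (-s) +
      (N : ℝ) ^ (-κ) * ∑ d ∈ Finset.Icc 1 N, ws (s - κ) d := by
  rw [sum_fiber, Finset.mul_sum, ← Finset.sum_add_distrib]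
  refine Finset.sum_le_sum fun d _ => ?_
  by_cases hd : Squarefree d
  · exact ws_le_sum hκ hs hd hN
  · rw [filter_empty hd, Finset.sum_empty]
    unfold ws
    rw [if_neg hd, if_neg hd]
    simp

/-! ### sums of powers -/

/-- one step: `M^(1-σ) + (1-σ) (M+1)^(-σ) ≤ (M+1)^(1-σ)` for `0 < σ < 1` -/
lemma step_lt {σ : ℝ} (h0 : 0 < σ) (h1 : σ < 1) (M : ℕ) :
    (M : ℝ) ^ (1 - σ) + (1 - σ) * ((M + 1 : ℕ) : ℝ) ^ (-σ) ≤ ((M + 1 : ℕ) : ℝ) ^ (1 - σ) := by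
  obtain ⟨x, hx⟩ : ∃ x : ℝ, x = ((M + 1 : ℕ) : ℝ) := ⟨_, rfl⟩
  have hx1 : 1 ≤ x := by rw [hx]; exact_mod_cast Nat.le_add_left 1 M
  have hM : (M : ℝ) = x * (1 + (-1 / x)) := by
    rw [hx]; push_cast; field_simp; ring
  rw [← hx]
  have hx0 : 0 < x := by linarith
  have h2 : -1 ≤ -1 / x := by
    rw [le_div_iff₀ hx0]; linarith
  have h3 := _root_.rpow_one_add_le_one_add_mul_self h2 (p := 1 - σ) (by linarith) (by linarith)
  have h4 : (M : ℝ) ^ (1 - σ) = x ^ (1 - σ) * (1 + (-1 / x)) ^ (1 - σ) := by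
    rw [hM, Real.mul_rpow hx0.le (by linarith)]
  have h5 : x ^ (-σ) = x ^ (1 - σ) / x := by
    rw [show -σ = (1 - σ) - 1 by ring, Real.rpow_sub_one hx0.ne']
  rw [h4, h5]
  have h6 : 0 < x ^ (1 - σ) := by positivity
  have h7 := mul_le_mul_of_nonneg_left h3 h6.le
  have h8 : x ^ (1 - σ) * (1 + (1 - σ) * (-1 / x)) + (1 - σ) * (x ^ (1 - σ) / x) = x ^ (1 - σ) := by
    field_simp
    ring
  linarith

lemma sum_pow_lt {σ : ℝ} (h0 : 0 < σ) (h1 : σ < 1) (M : ℕ) :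
    ∑ n ∈ Finset.Icc 1 M, (n : ℝ) ^ (-σ) ≤ (M : ℝ) ^ (1 - σ) / (1 - σ) := by
  have h2 : 0 < 1 - σ := by linarith
  induction M with
  | zero =>
    simp only [Nat.cast_zero]
    rw [Real.zero_rpow h2.ne']
    simp
  | succ M ih =>
    rw [Finset.sum_Icc_succ_top (by omega), le_div_iff₀ h2]
    rw [le_div_iff₀ h2] at ih
    have := step_lt h0 h1 M
    linarith

lemma sum_pow_lt' {σ : ℝ} (h0 : 0 < σ) (h1 : σ < 1) {M : ℕ} (hM : 1 ≤ M) :
    ∑ n ∈ Finset.Icc 1 M, (n : ℝ) ^ (-σ) ≤ ((M : ℝ) ^ (1 - σ) - 1) / (1 - σ) + 1 := by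
  have h2 : 0 < 1 - σ := by linarith
  induction M, hM using Nat.le_induction with
  | base => simp
  | succ M hM ih =>
    rw [Finset.sum_Icc_succ_top (by omega)]
    have h3 := step_lt h0 h1 M
    have h4 : ((M + 1 : ℕ) : ℝ) ^ (-σ) ≤ (((M + 1 : ℕ) : ℝ) ^ (1 - σ) - (M : ℝ) ^ (1 - σ)) / (1 - σ) := by
      rw [le_div_iff₀ h2]
      linarith
    have h5 : (((M + 1 : ℕ) : ℝ) ^ (1 - σ) - 1) / (1 - σ) = ((M : ℝ) ^ (1 - σ) - 1) / (1 - σ) +
        (((M + 1 : ℕ) : ℝ) ^ (1 - σ) - (M : ℝ) ^ (1 - σ)) / (1 - σ) := by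
      field_simp
      ring
    rw [h5]
    linarith

/-- Bernoulli for a nonpositive exponent -/
lemma bern_neg {x p : ℝ} (hx : 0 ≤ x) (hp : p ≤ 0) : 1 + p * x ≤ (1 + x) ^ p := by
  rw [Real.rpow_def_of_pos (by linarith)]
  have h1 := Real.log_le_sub_one_of_pos (show 0 < 1 + x by linarith)
  have h2 := Real.add_one_le_exp (Real.log (1 + x) * p)
  nlinarith

lemma sum_pow_gt {s : ℝ} (hs : 1 < s) (N : ℕ) :
    (1 - ((N + 1 : ℕ) : ℝ) ^ (1 - s)) / (s - 1) ≤ ∑ n ∈ Finset.Icc 1 N, (n : ℝ) ^ (-s) := by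
  have h2 : 0 < s - 1 := by linarith
  induction N with
  | zero => simp
  | succ M ih =>
    rw [Finset.sum_Icc_succ_top (by omega)]
    obtain ⟨x, hx⟩ : ∃ x : ℝ, x = ((M + 1 : ℕ) : ℝ) := ⟨_, rfl⟩
    have hx1 : 1 ≤ x := by rw [hx]; exact_mod_cast Nat.le_add_left 1 M
    have hx0 : 0 < x := by linarith
    have e1 : ((M + 1 + 1 : ℕ) : ℝ) = x * (1 + 1 / x) := by
      rw [hx]; push_cast; field_simp
    rw [e1]
    rw [← hx] at ih ⊢
    have h3 := bern_neg (x := 1 / x) (p := 1 - s) (by positivity) (by linarith)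
    have h4 : x ^ (-s) = x ^ (1 - s) / x := by
      rw [show -s = (1 - s) - 1 by ring, Real.rpow_sub_one hx0.ne']
    rw [Real.mul_rpow hx0.le (by positivity), h4]
    have h5 : 0 < x ^ (1 - s) := by positivity
    have h6 := mul_le_mul_of_nonneg_left h3 h5.le
    have h7 : (1 - x ^ (1 - s) * (1 + 1 / x) ^ (1 - s)) / (s - 1) ≤
        (1 - x ^ (1 - s) * (1 + (1 - s) * (1 / x))) / (s - 1) :=
      div_le_div_of_nonneg_right (by linarith) h2.le
    have h8 : (1 - x ^ (1 - s) * (1 + (1 - s) * (1 / x))) / (s - 1) =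
        (1 - x ^ (1 - s)) / (s - 1) + x ^ (1 - s) / x := by
      field_simp
      ring
    linarith

/-- **(MSG)** -/
theorem msg (s : ℝ) (hs : 1 < s) (N : ℕ) (hN : 1 ≤ N) :
    (1 - (N : ℝ) ^ (1 - s)) / (s - 1) ≤ ∑ d ∈ Finset.Icc 1 N, ws s d := by
  refine le_trans ?_ ((sum_pow_gt hs N).trans (pow_sum_le_ws (by linarith) N))
  apply div_le_div_of_nonneg_right _ (by linarith)
  have h1 : ((N + 1 : ℕ) : ℝ) ^ (1 - s) ≤ (N : ℝ) ^ (1 - s) :=
    Real.rpow_le_rpow_of_nonpos (by exact_mod_cast hN) (by push_cast; linarith) (by linarith)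
  linarith

/-! ### the upper bound for exponents in `[5/8, 7/8]` -/

lemma sum_multiples {σ : ℝ} (h0 : 0 < σ) (h1 : σ < 1) {e : ℕ} (he : 1 ≤ e) (N : ℕ) :
    ∑ d ∈ (Finset.Icc 1 N).filter (fun d => e ∣ d), (d : ℝ) ^ (-σ) ≤ (N : ℝ) ^ (1 - σ) / (1 - σ) * (1 / e) := by
  classical
  have h2 : 0 < 1 - σ := by linarith
  have he0 : (0 : ℝ) < e := by exact_mod_cast he
  have himg : (Finset.Icc 1 N).filter (fun d => e ∣ d) = (Finset.Icc 1 (N / e)).image (fun m => e * m) := by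
    ext d
    simp only [Finset.mem_filter, Finset.mem_Icc, Finset.mem_image]
    constructor
    · rintro ⟨⟨h3, h4⟩, m, rfl⟩
      refine ⟨m, ⟨?_, ?_⟩, rfl⟩
      · rcases Nat.eq_zero_or_pos m with h | h
        · subst h
          simp at h3
        · exact h
      · exact (Nat.le_div_iff_mul_le he).mpr (by rw [mul_comm]; exact h4)
    · rintro ⟨m, ⟨h3, h4⟩, rfl⟩
      refine ⟨⟨Nat.mul_pos he h3, ?_⟩, dvd_mul_right _ _⟩
      have := (Nat.le_div_iff_mul_le he).mp h4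
      rwa [mul_comm] at this
  rw [himg, Finset.sum_image (fun a _ b _ hab => Nat.eq_of_mul_eq_mul_left he hab)]
  have h3 : ∀ m : ℕ, ((e * m : ℕ) : ℝ) ^ (-σ) = (e : ℝ) ^ (-σ) * (m : ℝ) ^ (-σ) := by
    intro m
    push_cast
    rw [Real.mul_rpow he0.le (Nat.cast_nonneg _)]
  simp_rw [h3]
  rw [← Finset.mul_sum]
  have h4 := sum_pow_lt h0 h1 (N / e)
  have h5 : ((N / e : ℕ) : ℝ) ≤ (N : ℝ) / e := Nat.cast_div_le
  have h6 : ((N / e : ℕ) : ℝ) ^ (1 - σ) ≤ ((N : ℝ) / e) ^ (1 - σ) :=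
    Real.rpow_le_rpow (Nat.cast_nonneg _) h5 h2.le
  rw [Real.div_rpow (Nat.cast_nonneg _) he0.le] at h6
  have h7 : (e : ℝ) ^ (-σ) * ((N : ℝ) ^ (1 - σ) / (e : ℝ) ^ (1 - σ) / (1 - σ)) =
      (N : ℝ) ^ (1 - σ) / (1 - σ) * (1 / e) := by
    have h8 : (e : ℝ) ^ (1 - σ) = (e : ℝ) ^ (-σ) * e := by
      rw [show 1 - σ = -σ + 1 by ring, Real.rpow_add_one he0.ne']
    rw [h8]
    have h9 : (e : ℝ) ^ (-σ) ≠ 0 := by positivity
    field_simp
  rw [← h7]
  apply mul_le_mul_of_nonneg_left _ (by positivity)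
  exact h4.trans (div_le_div_of_nonneg_right h6 h2.le)

lemma hp_bound {σ : ℝ} (h0 : 5 / 8 ≤ σ) {p : ℕ} (hp : p.Prime) :
    ((p : ℝ) ^ σ - 1)⁻¹ ≤ 4 * (p : ℝ) ^ (-(5 / 8) : ℝ) := by
  have hp2 : (2 : ℝ) ≤ p := by exact_mod_cast hp.two_le
  have h1 : (p : ℝ) ^ (5 / 8 : ℝ) ≤ (p : ℝ) ^ σ := Real.rpow_le_rpow_of_exponent_le (by linarith) h0
  have h2 : (4 / 3 : ℝ) ≤ (p : ℝ) ^ (5 / 8 : ℝ) := by
    have h3 : (p : ℝ) ^ (1 / 2 : ℝ) ≤ (p : ℝ) ^ (5 / 8 : ℝ) :=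
      Real.rpow_le_rpow_of_exponent_le (by linarith) (by norm_num)
    have h4 : (4 / 3 : ℝ) ≤ (p : ℝ) ^ (1 / 2 : ℝ) := by
      rw [← Real.sqrt_eq_rpow]
      apply Real.le_sqrt_of_sq_le
      linarith
    linarith
  have h5 : 0 < (p : ℝ) ^ (5 / 8 : ℝ) := by positivity
  rw [Real.rpow_neg (by linarith), inv_le_comm₀ (by linarith) (by positivity), mul_inv, inv_inv]
  linarith

/-- the finite constant -/
lemma const_bound : ∃ K : ℝ, 0 < K ∧ ∀ N : ℕ,
    ∏ p ∈ (Finset.Icc 1 N).filter Nat.Prime, (1 + 4 * (p : ℝ) ^ (-(13 / 8) : ℝ)) ≤ K := by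
  have hsum : Summable (fun n : ℕ => 4 * (n : ℝ) ^ (-(13 / 8) : ℝ)) :=
    (Real.summable_nat_rpow.mpr (by norm_num)).mul_left 4
  refine ⟨Real.exp (∑' n : ℕ, 4 * (n : ℝ) ^ (-(13 / 8) : ℝ)), Real.exp_pos _, fun N => ?_⟩
  calc ∏ p ∈ (Finset.Icc 1 N).filter Nat.Prime, (1 + 4 * (p : ℝ) ^ (-(13 / 8) : ℝ)) ≤
      ∏ p ∈ (Finset.Icc 1 N).filter Nat.Prime, Real.exp (4 * (p : ℝ) ^ (-(13 / 8) : ℝ)) := by
        refine Finset.prod_le_prod (fun p _ => by positivity) fun p _ => ?_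
        have := Real.add_one_le_exp (4 * (p : ℝ) ^ (-(13 / 8) : ℝ))
        linarith
    _ = Real.exp (∑ p ∈ (Finset.Icc 1 N).filter Nat.Prime, 4 * (p : ℝ) ^ (-(13 / 8) : ℝ)) := by
        rw [Real.exp_sum]
    _ ≤ _ := by
        apply Real.exp_le_exp.mpr
        exact hsum.sum_le_tsum _ fun n _ => by positivity

lemma ws_expand {σ : ℝ} (h0 : 0 < σ) {d : ℕ} (hd : Squarefree d) :
    ws σ d = (d : ℝ) ^ (-σ) * ∑ S ∈ d.primeFactors.powerset, ∏ p ∈ S, ((p : ℝ) ^ σ - 1)⁻¹ := by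
  unfold ws
  rw [if_pos hd]
  have e3 : (d : ℝ) ^ (-σ) = ∏ p ∈ d.primeFactors, (p : ℝ) ^ (-σ) := by
    conv_lhs => rw [← Nat.prod_primeFactors_of_squarefree hd]
    push_cast
    rw [Real.finsetProd_rpow _ _ (fun p _ => Nat.cast_nonneg _)]
  rw [e3, ← Finset.prod_one_add, ← Finset.prod_mul_distrib]
  refine Finset.prod_congr rfl fun p hp => ?_
  have h3 := prime_rpow_gt h0 (Nat.prime_of_mem_primeFactors hp)
  rw [Real.rpow_neg (Nat.cast_nonneg _)]
  have h4 : (p : ℝ) ^ σ ≠ 0 := by linarith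
  have h5 : (p : ℝ) ^ σ - 1 ≠ 0 := by linarith
  field_simp
  ring

theorem ws_sum_le : ∃ K : ℝ, 0 < K ∧ ∀ (σ : ℝ) (N : ℕ), 5 / 8 ≤ σ → σ ≤ 7 / 8 →
    ∑ d ∈ Finset.Icc 1 N, ws σ d ≤ 8 * K * (N : ℝ) ^ (1 - σ) := by
  classical
  obtain ⟨K, hK, hprod⟩ := const_bound
  refine ⟨K, hK, fun σ N h0 h1 => ?_⟩
  have hσ : 0 < σ := by linarith
  have h2 : 0 < 1 - σ := by linarith
  obtain ⟨P, hP⟩ : ∃ P : Finset ℕ, P = (Finset.Icc 1 N).filter Nat.Prime := ⟨_, rfl⟩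
  have hPp : ∀ p ∈ P, p.Prime := fun p hp => by rw [hP] at hp; exact (Finset.mem_filter.mp hp).2
  have hhp : ∀ p ∈ P, 0 ≤ ((p : ℝ) ^ σ - 1)⁻¹ := fun p hp => by
    have := prime_rpow_gt hσ (hPp p hp)
    exact inv_nonneg.mpr (by linarith)
  have hS0 : ∀ S ∈ P.powerset, 0 ≤ ∏ p ∈ S, ((p : ℝ) ^ σ - 1)⁻¹ := fun S hS =>
    Finset.prod_nonneg fun p hp => hhp p (Finset.mem_powerset.mp hS hp)
  have step1 : ∑ d ∈ Finset.Icc 1 N, ws σ d ≤ ∑ d ∈ Finset.Icc 1 N, ∑ S ∈ P.powerset,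
      (if (∏ p ∈ S, p) ∣ d then (d : ℝ) ^ (-σ) * ∏ p ∈ S, ((p : ℝ) ^ σ - 1)⁻¹ else 0) := by
    refine Finset.sum_le_sum fun d hd => ?_
    rw [Finset.mem_Icc] at hd
    by_cases hsq : Squarefree d
    · rw [ws_expand hσ hsq, Finset.mul_sum]
      have hsub : d.primeFactors.powerset ⊆ P.powerset := by
        refine Finset.powerset_mono.mpr fun p hp => ?_
        rw [hP, Finset.mem_filter, Finset.mem_Icc]
        have hp' := Nat.prime_of_mem_primeFactors hp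
        exact ⟨⟨hp'.one_le, (Nat.le_of_dvd (by omega) (Nat.dvd_of_mem_primeFactors hp)).trans hd.2⟩, hp'⟩
      refine le_trans ?_ (Finset.sum_le_sum_of_subset_of_nonneg hsub fun S hS _ => ?_)
      · refine Finset.sum_le_sum fun S hS => ?_
        rw [if_pos]
        have h3 : (∏ p ∈ S, p) ∣ ∏ p ∈ d.primeFactors, p :=
          Finset.prod_dvd_prod_of_subset _ _ _ (Finset.mem_powerset.mp hS)
        exact h3.trans (Nat.prod_primeFactors_dvd d)
      · split_ifs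
        · exact mul_nonneg (by positivity) (hS0 S hS)
        · exact le_rfl
    · have : ws σ d = 0 := by unfold ws; rw [if_neg hsq]
      rw [this]
      refine Finset.sum_nonneg fun S hS => ?_
      split_ifs
      · exact mul_nonneg (by positivity) (hS0 S hS)
      · exact le_rfl
  refine step1.trans ?_
  rw [Finset.sum_comm]
  have step2 : ∀ S ∈ P.powerset, ∑ d ∈ Finset.Icc 1 N,
      (if (∏ p ∈ S, p) ∣ d then (d : ℝ) ^ (-σ) * ∏ p ∈ S, ((p : ℝ) ^ σ - 1)⁻¹ else 0) ≤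
      (N : ℝ) ^ (1 - σ) / (1 - σ) * ∏ p ∈ S, (4 * (p : ℝ) ^ (-(13 / 8) : ℝ)) := by
    intro S hS
    have hSP := Finset.mem_powerset.mp hS
    rw [← Finset.sum_filter, ← Finset.sum_mul]
    have he : 1 ≤ ∏ p ∈ S, p := Finset.prod_pos fun p hp => (hPp p (hSP hp)).pos
    have h4 := sum_multiples hσ (by linarith : σ < 1) he N
    refine (mul_le_mul_of_nonneg_right h4 (hS0 S hS)).trans ?_
    rw [mul_assoc]
    apply mul_le_mul_of_nonneg_left _ (by positivity)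
    push_cast
    rw [one_div, ← Finset.prod_inv_distrib, ← Finset.prod_mul_distrib]
    refine Finset.prod_le_prod (fun p hp => mul_nonneg (by positivity) (hhp p (hSP hp))) fun p hp => ?_
    have hpp := hPp p (hSP hp)
    have hp0 : (0 : ℝ) < p := by exact_mod_cast hpp.pos
    have h5 := hp_bound h0 hpp
    have h6 : (p : ℝ) ^ (-(13 / 8) : ℝ) = (p : ℝ)⁻¹ * (p : ℝ) ^ (-(5 / 8) : ℝ) := by
      rw [← Real.rpow_neg_one, ← Real.rpow_add hp0]
      congr 1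
      norm_num
    rw [h6]
    have h7 : (0 : ℝ) < (p : ℝ)⁻¹ := by positivity
    nlinarith
  refine (Finset.sum_le_sum step2).trans ?_
  rw [← Finset.mul_sum, ← Finset.prod_one_add, hP]
  have h8 := hprod N
  have h9 : (N : ℝ) ^ (1 - σ) / (1 - σ) ≤ 8 * (N : ℝ) ^ (1 - σ) := by
    rw [div_le_iff₀ h2]
    have : 0 ≤ (N : ℝ) ^ (1 - σ) := by positivity
    nlinarith
  have h10 : 0 ≤ (N : ℝ) ^ (1 - σ) := by positivity
  calc _ ≤ (8 * (N : ℝ) ^ (1 - σ)) * K :=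
        mul_le_mul h9 h8 (Finset.prod_nonneg fun p _ => by positivity) (by positivity)
    _ = _ := by ring

/-- **(MSV)** -/
theorem msv : ∃ C : ℝ, 0 < C ∧ ∀ (s : ℝ) (N : ℕ), 3 / 4 ≤ s → s < 1 → 1 ≤ N →
    ∑ d ∈ Finset.Icc 1 N, ws s d ≤ ((N : ℝ) ^ (1 - s) - 1) / (1 - s) + C * (N : ℝ) ^ (1 - s) := by
  obtain ⟨K, hK, h⟩ := ws_sum_le
  refine ⟨8 * K + 1, by positivity, fun s N hs0 hs1 hN => ?_⟩
  have hN0 : (0 : ℝ) < N := by exact_mod_cast hN
  have h1 := ws_le_pow_sum (s := s) (κ := 1 / 8) (by norm_num) (by linarith) hN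
  have h2 := sum_pow_lt' (σ := s) (by linarith) hs1 hN
  have h3 := h (s - 1 / 8) N (by linarith) (by linarith)
  have h4 : (N : ℝ) ^ (-(1 / 8) : ℝ) * (8 * K * (N : ℝ) ^ (1 - (s - 1 / 8))) = 8 * K * (N : ℝ) ^ (1 - s) := by
    have : (N : ℝ) ^ (1 - s) = (N : ℝ) ^ (-(1 / 8) : ℝ) * (N : ℝ) ^ (1 - (s - 1 / 8)) := by
      rw [← Real.rpow_add hN0]
      congr 1
      ring
    rw [this]
    ring
  have h5 := mul_le_mul_of_nonneg_left h3 (by positivity : 0 ≤ (N : ℝ) ^ (-(1 / 8) : ℝ))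
  rw [h4] at h5
  have h6 : 1 ≤ (N : ℝ) ^ (1 - s) := Real.one_le_rpow (by exact_mod_cast hN) (by linarith)
  nlinarith

end

end Pool.Agent.Zk4
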