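import Pool.Agent.Zk4.Ca

/-! # Every finite set of zeros to the right of the line is seen, for a general L-function -/

set_option autoImplicit false

open Complex Finset MeasureTheory Set
open scoped ComplexConjugate

namespace Pool.Agent.Zk4.C

open Pool.Agent.Y23 (TT Fa)
open Pool.Agent.Y23.G (GG QQ Dom Hd Zt mu ZD ZC Lg one_le_Lg zsum_le)

/-- every finite set of zeros to the right of the critical line gives a negative definite space of the same dimension,
for all large lengths -/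
theorem index_gen_all [D : ZD] [EC : ZC] (S : Finset ℂ) (hS : ∀ s ∈ S, s ∈ D.Zs ∧ 1 / 2 < s.re) :
    ∃ l0 : ℝ, ∀ l : ℝ, l0 ≤ l →
      ∃ F : {x // x ∈ S} → ℝ → ℂ, ∀ c : {x // x ∈ S} → ℂ, c ≠ 0 →
        Hd (l / 2) (fun x => ∑ i, c i * F i x) ∧ QQ (fun x => ∑ i, c i * F i x) < 0 := by
  classical
  obtain ⟨K, hK, hKz⟩ := zsum_le (D := D)
  obtain ⟨c, A, hc, hA, h⟩ := index_gen' (C := max 1 K) (le_max_left _ _)
  have h0 := h (D := D) (EC := EC) 1 le_rfl (fun t => by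
    refine (hKz t).trans ?_
    have h1 := one_le_Lg t
    calc K * Lg t ≤ max 1 K * Lg t := mul_le_mul_of_nonneg_right (le_max_right _ _) (by linarith)
      _ ≤ max 1 K * (1 + Lg t) := mul_le_mul_of_nonneg_left (by linarith) (zero_le_one.trans (le_max_left _ _)))
  -- a common lower bound
  obtain ⟨d, hd, h1⟩ : ∃ d : ℝ, 0 < d ∧ ∀ s ∈ S, d ≤ s.re - 1 / 2 := by
    rcases S.eq_empty_or_nonempty with h0 | h0
    · exact ⟨1, one_pos, fun s hs => by rw [h0] at hs; exact absurd hs (Finset.notMem_empty _)⟩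
    · obtain ⟨m, hm, hm2⟩ := S.exists_min_image (fun s : ℂ => s.re - 1 / 2) h0
      exact ⟨m.re - 1 / 2, by linarith [(hS m hm).2], hm2⟩
  obtain ⟨e, he, h2⟩ : ∃ e : ℝ, 0 < e ∧ ∀ s ∈ S, ∀ s' ∈ S, s ≠ s' → e ≤ ‖s - s'‖ := by
    rcases (S.offDiag).eq_empty_or_nonempty with h0 | h0
    · refine ⟨1, one_pos, fun s hs s' hs' hne => ?_⟩
      have : (s, s') ∈ S.offDiag := Finset.mem_offDiag.2 ⟨hs, hs', hne⟩
      rw [h0] at this
      exact absurd this (Finset.notMem_empty _)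
    · obtain ⟨m, hm, hm2⟩ := S.offDiag.exists_min_image (fun p : ℂ × ℂ => ‖p.1 - p.2‖) h0
      rw [Finset.mem_offDiag] at hm
      exact ⟨‖m.1 - m.2‖, norm_pos_iff.2 (sub_ne_zero.2 hm.2.2), fun s hs s' hs' hne =>
        hm2 (s, s') (Finset.mem_offDiag.2 ⟨hs, hs', hne⟩)⟩
  obtain ⟨Y, hY, h3⟩ : ∃ Y : ℝ, 0 ≤ Y ∧ ∀ s ∈ S, |s.im| ≤ Y := by
    rcases S.eq_empty_or_nonempty with h0 | h0
    · exact ⟨0, le_rfl, fun s hs => by rw [h0] at hs; exact absurd hs (Finset.notMem_empty _)⟩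
    · obtain ⟨m, hm, hm2⟩ := S.exists_max_image (fun s : ℂ => |s.im|) h0
      exact ⟨|m.im|, abs_nonneg _, hm2⟩
  have hgen : ∀ l : ℝ, max A (max (Y / c) (max (1 / d / c) (1 / e / c))) ≤ l →
      A ≤ l ∧ Y ≤ Real.exp (c * l) ∧ Real.exp (-Real.exp (c * l)) ≤ d ∧ Real.exp (-Real.exp (c * l)) ≤ e := by
    intro l hl
    have k0 : A ≤ l := (le_max_left _ _).trans hl
    have k1 : Y / c ≤ l := (le_max_left _ _).trans ((le_max_right _ _).trans hl)
    have k2 : 1 / d / c ≤ l := (le_max_left _ _).trans ((le_max_right _ _).trans ((le_max_right _ _).trans hl))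
    have k3 : 1 / e / c ≤ l := (le_max_right _ _).trans ((le_max_right _ _).trans ((le_max_right _ _).trans hl))
    rw [div_le_iff₀ hc] at k1 k2 k3
    have k4 := Real.add_one_le_exp (c * l)
    have k5 := Real.add_one_le_exp (Real.exp (c * l))
    have k6 : 0 < 1 / d := by positivity
    have k7 : 0 < 1 / e := by positivity
    refine ⟨k0, by linarith, ?_, ?_⟩
    · rw [Real.exp_neg, inv_le_comm₀ (Real.exp_pos _) hd, ← one_div]
      linarith
    · rw [Real.exp_neg, inv_le_comm₀ (Real.exp_pos _) he, ← one_div]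
      linarith
  refine ⟨max A (max (Y / c) (max (1 / d / c) (1 / e / c))), fun l hl => ?_⟩
  obtain ⟨k0, k1, k2, k3⟩ := hgen l hl
  exact h0 l (by rw [mul_one]; exact k0) S (fun s hs => ⟨(hS s hs).1, (h3 s hs).trans k1, k2.trans (h1 s hs)⟩)
    fun s hs s' hs' hne => k3.trans (h2 s hs s' hs' hne)

end Pool.Agent.Zk4.C
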