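import Pool.Agent.Zk4.Nb
import Pool.Agent.H370R2.Digamma

set_option autoImplicit false

/-!
A lower bound for the digamma function (helper4).
-/

namespace Pool.Agent.Zk4

open Complex Filter Topology Set
open H370.DG (er logDeriv_Gamma' summable_er)

noncomputable section

/-- `h(x) = x / (x^2 + b^2)` -/
def hh (b x : ℝ) : ℝ := x / (x ^ 2 + b ^ 2)

/-- `½ log (x^2 + b^2)` -/
def ll (b x : ℝ) : ℝ := Real.log (x ^ 2 + b ^ 2) / 2

/-- `1 / (x^2 + b^2)` -/
def gq (b x : ℝ) : ℝ := 1 / (x ^ 2 + b ^ 2)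

lemma den_pos' {b : ℝ} (hb : 16 ≤ b ^ 2) (x : ℝ) : 0 < x ^ 2 + b ^ 2 := by positivity

lemma hasDerivAt_ll {b : ℝ} (hb : 16 ≤ b ^ 2) (x : ℝ) : HasDerivAt (ll b) (hh b x) x := by
  have h1 : HasDerivAt (fun x : ℝ => x ^ 2 + b ^ 2) (2 * x) x := by
    simpa using ((hasDerivAt_id x).pow 2).add_const (b ^ 2)
  have h2 := (h1.log (den_pos' hb x).ne').div_const 2
  refine h2.congr_deriv ?_
  unfold hh
  have := den_pos' hb x
  field_simp

lemma hasDerivAt_hh {b : ℝ} (hb : 16 ≤ b ^ 2) (x : ℝ) :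
    HasDerivAt (hh b) ((b ^ 2 - x ^ 2) / (x ^ 2 + b ^ 2) ^ 2) x := by
  have h1 : HasDerivAt (fun x : ℝ => x ^ 2 + b ^ 2) (2 * x) x := by
    simpa using ((hasDerivAt_id x).pow 2).add_const (b ^ 2)
  have h2 := (hasDerivAt_id x).div h1 (den_pos' hb x).ne'
  refine h2.congr_deriv ?_
  simp only [id]
  congr 1
  ring

lemma hasDerivAt_gq {b : ℝ} (hb : 16 ≤ b ^ 2) (x : ℝ) :
    HasDerivAt (gq b) (-(2 * x) / (x ^ 2 + b ^ 2) ^ 2) x := by
  have h1 : HasDerivAt (fun x : ℝ => x ^ 2 + b ^ 2) (2 * x) x := by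
    simpa using ((hasDerivAt_id x).pow 2).add_const (b ^ 2)
  have h2 := (hasDerivAt_const x (1:ℝ)).div h1 (den_pos' hb x).ne'
  refine h2.congr_deriv ?_
  congr 1
  ring

lemma trapezoid {b x : ℝ} (hb : 16 ≤ b ^ 2) (hx : 0 < x) :
    (hh b x + hh b (x + 1)) / 2 ≤ ll b (x + 1) - ll b x + 0.26 * (gq b x - gq b (x + 1)) := by
  have hder : ∀ τ : ℝ, HasDerivAt (fun τ => ll b (x + τ) - ll b x - τ / 2 * (hh b x + hh b (x + τ)) +
      0.26 * (gq b x - gq b (x + τ)))
      (hh b (x + τ) - (1 / 2 * (hh b x + hh b (x + τ)) + τ / 2 * ((b ^ 2 - (x + τ) ^ 2) / ((x + τ) ^ 2 + b ^ 2) ^ 2)) +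
        0.26 * (-(-(2 * (x + τ)) / ((x + τ) ^ 2 + b ^ 2) ^ 2))) τ := by
    intro τ
    have h1 : HasDerivAt (fun τ => ll b (x + τ)) (hh b (x + τ)) τ := by
      simpa using (hasDerivAt_ll hb (x + τ)).comp_const_add x τ
    have h2 : HasDerivAt (fun τ => hh b (x + τ)) ((b ^ 2 - (x + τ) ^ 2) / ((x + τ) ^ 2 + b ^ 2) ^ 2) τ := by
      simpa using (hasDerivAt_hh hb (x + τ)).comp_const_add x τ
    have h3 : HasDerivAt (fun τ => gq b (x + τ)) (-(2 * (x + τ)) / ((x + τ) ^ 2 + b ^ 2) ^ 2) τ := by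
      simpa using (hasDerivAt_gq hb (x + τ)).comp_const_add x τ
    have h4 : HasDerivAt (fun τ : ℝ => τ / 2) (1 / 2) τ := (hasDerivAt_id τ).div_const 2
    exact ((h1.sub_const _).sub (h4.mul (h2.const_add _))).add ((h3.const_sub _).const_mul 0.26)
  have hmono : MonotoneOn (fun τ => ll b (x + τ) - ll b x - τ / 2 * (hh b x + hh b (x + τ)) +
      0.26 * (gq b x - gq b (x + τ))) (Icc 0 1) := by
    apply monotoneOn_of_deriv_nonneg (convex_Icc 0 1)
    · exact fun τ _ => (hder τ).continuousAt.continuousWithinAt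
    · exact fun τ _ => (hder τ).differentiableAt.differentiableWithinAt
    · intro τ hτ
      rw [interior_Icc] at hτ
      obtain ⟨h0, h1⟩ := hτ
      rw [(hder τ).deriv]
      obtain ⟨v, hv⟩ : ∃ v : ℝ, v = x + τ := ⟨_, rfl⟩
      rw [← hv]
      have hv0 : 0 < v := by linarith
      have hX : 0 < x ^ 2 + b ^ 2 := den_pos' hb x
      have hV : 0 < v ^ 2 + b ^ 2 := den_pos' hb v
      have hτ' : τ = v - x := by linarith
      have key : hh b v - (1 / 2 * (hh b x + hh b v) + τ / 2 * ((b ^ 2 - v ^ 2) / (v ^ 2 + b ^ 2) ^ 2)) +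
          0.26 * (-(-(2 * v) / (v ^ 2 + b ^ 2) ^ 2)) =
          (τ ^ 2 * (b ^ 2 * (2 * v + x) - x * v ^ 2) + 1.04 * v * (x ^ 2 + b ^ 2)) /
            (2 * (x ^ 2 + b ^ 2) * (v ^ 2 + b ^ 2) ^ 2) := by
        unfold hh
        rw [hτ']
        field_simp
        ring
      rw [key]
      apply div_nonneg _ (by positivity)
      have h2 : 0 ≤ τ ^ 2 * (b ^ 2 * (2 * v + x)) := by positivity
      have h3 : 0 ≤ v * (1.04 * x ^ 2 - τ ^ 2 * x * v + 1.04 * b ^ 2) := by
        apply mul_nonneg hv0.le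
        have h4 : τ ^ 2 ≤ 1 := by nlinarith
        have h5 : τ ^ 2 * x * v ≤ x ^ 2 + x := by
          rw [hv]
          have h6 : τ ^ 2 * x * (x + τ) ≤ 1 * x * (x + 1) := by gcongr
          linarith
        nlinarith [sq_nonneg (x - 12.5)]
      nlinarith
  have h := hmono (show (0:ℝ) ∈ Icc (0:ℝ) 1 by simp) (show (1:ℝ) ∈ Icc (0:ℝ) 1 by simp) zero_le_one
  simp only [add_zero] at h
  linarith

lemma hh_sum {b x : ℝ} (hb : 16 ≤ b ^ 2) (hx : 0 < x) (n : ℕ) :
    ∑ k ∈ Finset.range n, hh b (x + k) ≤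
      hh b x / 2 - hh b (x + n) / 2 + ll b (x + n) - ll b x + 0.26 * (gq b x - gq b (x + n)) := by
  induction n with
  | zero => simp
  | succ n ih =>
    rw [Finset.sum_range_succ]
    have h := trapezoid hb (show 0 < x + n by positivity)
    push_cast
    rw [← add_assoc]
    linarith

lemma digamma_tendsto {s : ℂ} (hs : 0 < s.re) :
    Tendsto (fun m : ℕ => log (s + (m + 2)) - ∑ k ∈ Finset.range (m + 2), 1 / (s + k)) atTop
      (𝓝 (logDeriv Gamma s)) := by
  have h1 := (summable_er hs).hasSum.tendsto_sum_nat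
  have h2 := h1.const_add (log (s + 2) - 1 / s - 1 / (s + 1))
  rw [← logDeriv_Gamma' hs] at h2
  refine h2.congr fun m => ?_
  induction m with
  | zero =>
    simp [Finset.sum_range_succ]
    ring
  | succ m ih =>
    rw [Finset.sum_range_succ, ← add_assoc, ih, Finset.sum_range_succ _ (m + 2)]
    unfold er
    push_cast
    rw [show s + ((m : ℂ) + 1 + 2) = s + (m + 3) by ring]
    ring

/-- lower bound for the real part of the digamma function -/
theorem digamma_lower {b x : ℝ} (hb : 16 ≤ b ^ 2) (hx : 0 < x) :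
    ll b x - hh b x / 2 - 0.26 * gq b x ≤ (logDeriv Gamma (x + I * b)).re := by
  have h1 := (Complex.continuous_re.tendsto _).comp (digamma_tendsto (s := x + I * b) (by simpa using hx))
  refine ge_of_tendsto' h1 fun m => ?_
  simp only [Function.comp_apply]
  rw [Complex.sub_re, Complex.re_sum, Complex.log_re]
  have h2 : ∀ k : ℕ, (1 / ((x : ℂ) + I * b + k)).re = hh b (x + k) := by
    intro k
    unfold hh
    rw [one_div, Complex.inv_re, Complex.normSq_apply]
    simp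
    ring
  have h3 : Real.log ‖(x : ℂ) + I * b + (m + 2)‖ = ll b (x + ((m + 2 : ℕ) : ℝ)) := by
    unfold ll
    have h4 : (x + ((m + 2 : ℕ) : ℝ)) ^ 2 + b ^ 2 = ‖(x : ℂ) + I * b + (m + 2)‖ ^ 2 := by
      rw [Complex.sq_norm, Complex.normSq_apply]
      simp
      ring
    rw [h4, Real.log_pow]
    push_cast
    ring
  rw [h3, Finset.sum_congr rfl fun k _ => h2 k]
  have h5 := hh_sum hb hx (m + 2)
  have h6 : 0 ≤ hh b (x + ((m + 2 : ℕ) : ℝ)) := by
    unfold hh
    positivity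
  have h7 : 0 ≤ gq b (x + ((m + 2 : ℕ) : ℝ)) := by
    unfold gq
    positivity
  linarith

end

end Pool.Agent.Zk4
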