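import Mathlib

set_option autoImplicit false

/-!
# Weil positivity for supports of length `log 3`: the statements of the parts

`SP1`: link with the zeros and passage to the limit; `SP2a`, `SP2b`, `SP2c`: numerical parts.
-/

namespace Pool.Agent.Zk4.W

open MeasureTheory Set

open scoped ComplexConjugate

/-- the archimedean kernel -/
noncomputable def kap (x : ℝ) : ℝ := Real.exp (x / 2) / Real.sinh x

/-- the autocorrelation of a real function -/
noncomputable def hcor (f : ℝ → ℝ) (x : ℝ) : ℝ := ∫ y, f y * f (y + x)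

/-- the constant of the archimedean part: `digamma (1/4) - log π + ∫_{2a}^∞ kap` -/
noncomputable def K1 (a : ℝ) : ℝ :=
  (logDeriv Complex.Gamma (1 / 4)).re - Real.log Real.pi + ∫ x in Ioi (2 * a), kap x

/-- the Weil form of a real function supported in `[-a, a]`, with the primes powers up to `N` -/
noncomputable def PhiR (a : ℝ) (N : ℕ) (f : ℝ → ℝ) : ℝ :=
  2 * (∫ x, f x * Real.exp (x / 2)) * (∫ x, f x * Real.exp (-(x / 2))) + K1 a * (∫ x, f x ^ 2) +
    (∫ x in (0 : ℝ)..(2 * a), kap x * (hcor f 0 - hcor f x)) -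
    2 * ∑ n ∈ Finset.Icc 1 N, ArithmeticFunction.vonMangoldt n / Real.sqrt n * hcor f (Real.log n)

/-- the inequality for Lipschitz functions which vanish off `(-a, a)` -/
def Ineq (a : ℝ) (N : ℕ) (ε : ℝ) : Prop :=
  ∀ f : ℝ → ℝ, (∃ K : NNReal, LipschitzWith K f) → (∀ x, a ≤ |x| → f x = 0) →
    ε * ∫ x, f x ^ 2 ≤ PhiR a N f

/-- the Laplace transform -/
noncomputable def Ml (f : ℝ → ℂ) (z : ℂ) : ℂ := ∫ x : ℝ, f x * Complex.exp (z * x)

/-- the zeros of the zeta function in the critical strip -/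
def Zs : Set ℂ := {ρ : ℂ | riemannZeta ρ = 0 ∧ 0 < ρ.re ∧ ρ.re < 1}

/-- the summand of the Weil form -/
noncomputable def wterm (f : ℝ → ℂ) (ρ : Zs) : ℂ :=
  (analyticOrderNatAt riemannZeta (ρ : ℂ) : ℂ) * (Ml f ((ρ : ℂ) - 1 / 2) * conj (Ml f (1 / 2 - conj (ρ : ℂ))))

/-- PART P1 (link with the zeros, complex functions, passage to the limit in the form domain) -/
def SP1 : Prop := ∀ (a₀ a ε : ℝ) (N : ℕ), 0 < a₀ → a₀ < a → Real.exp (2 * a₀) ≤ N + 1 → Ineq a N ε →
  ∀ (f : ℝ → ℂ) (c : ℝ), MemLp f 2 volume → (∀ x, x ∉ Icc (c - a₀) (c + a₀) → f x = 0) →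
    Integrable (fun t : ℝ => Real.log (3 + |t|) * ‖Ml f (t * Complex.I)‖ ^ 2) →
    Summable (wterm f) ∧ (∑' ρ, wterm f ρ).im = 0 ∧ ε * ∫ x, ‖f x‖ ^ 2 ≤ (∑' ρ, wterm f ρ).re

/-- polynomials with rational coefficients -/
noncomputable def evL : List ℚ → ℝ → ℝ
  | [], _ => 0
  | c :: L, x => (c : ℝ) + x * evL L x

/-- scaled integers -/
def scl (L : List ℤ) (d : ℕ) : List ℚ := L.map fun x => mkRat x d

/-- the half length -/
noncomputable def aa : ℝ := 4 / 5 * Real.log 2

/-- the smooth part of the kernel -/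
def rhoL : List ℚ := scl [2772588722226801, -128120803818978, -106567887867198, 1149042406630, 3413401426147,
  -9337629668, -106666347109, 18094024, 3383598378, -47881457, -73533502, -14588111, 8432449, -1264965, 69309]
  (10 ^ 16)

/-- the hyperbolic cosine -/
def chL : List ℚ := scl [10000000000000000, 0, 384362411134561, 0, 2462241051553, 0, 6309286049, 0, 8660901, 0, 7398]
  (10 ^ 16)

/-- the hyperbolic sine -/
def shL : List ℚ := scl [0, 2772588722239781, 0, 35522629545486, 0, 136535635419, 0, 249900791, 0, 266812, 0, 186]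
  (10 ^ 16)

/-- PART P2a (the true difference is between 1.2e-12 and 2.5e-12 on the whole interval) -/
def SP2a : Prop := ∀ u : ℝ, 0 < u → u ≤ 2 → 1 / u + evL rhoL u ≤ aa * kap (aa * u)

/-- PART P2b (the true differences are below 1e-15) -/
def SP2b : Prop := ∀ s : ℝ, |s| ≤ 1 → |Real.cosh (aa * s / 2) - evL chL s| ≤ 1 / 10 ^ 12 ∧
  |Real.sinh (aa * s / 2) - evL shL s| ≤ 1 / 10 ^ 12

/-- PART P2c (the true value is -3.021515454918385956...) -/
def SP2c : Prop := -(30215154549284 / 10 ^ 13 : ℝ) ≤ K1 aa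

/-- PART P2d -/
def SP2d : Prop := (69314718055994 / 10 ^ 14 : ℝ) ≤ Real.log 2 ∧ Real.log 2 ≤ 69314718055995 / 10 ^ 14 ∧
  |Real.sqrt 2 * Real.log 2 - 98025814346854 / 10 ^ 14| ≤ 1 / 10 ^ 13

end Pool.Agent.Zk4.W
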