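import Pool.Agent.Zk2.LW.C

/-! # The converse of the local Weil criterion: roots of minus one -/

set_option autoImplicit false

open Complex Finset
open scoped ComplexConjugate

namespace Pool.Agent.Zk4.B

/-- the distance from 1 to the `j`-th root of -1 -/
noncomputable def fz (N j : ℕ) : ℝ := ‖cexp (I * ((Real.pi * (2 * j + 1) / N : ℝ) : ℂ)) - 1‖

lemma fz_per {N : ℕ} (hN : 0 < N) (j : ℕ) : fz N (j + N) = fz N j := by
  unfold fz
  congr 2
  rw [Complex.exp_eq_exp_iff_exists_int]
  refine ⟨1, ?_⟩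
  have h : (N : ℂ) ≠ 0 := by exact_mod_cast hN.ne'
  push_cast
  field_simp
  ring

lemma sum_shift {α : Type} [AddCommMonoid α] {N : ℕ} {g : ℕ → α} (hg : ∀ j, g (j + N) = g j) (c : ℕ) :
    ∑ i ∈ range N, g (i + c) = ∑ i ∈ range N, g i := by
  induction c with
  | zero => rfl
  | succ c ih =>
    rw [← ih]
    have h1 : ∑ i ∈ range (N + 1), g (i + c) = ∑ i ∈ range N, g (i + (c + 1)) + g (0 + c) := by
      rw [sum_range_succ']
      congr 1
      refine sum_congr rfl fun i _ => ?_
      congr 1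
      omega
    have h2 : ∑ i ∈ range (N + 1), g (i + c) = ∑ i ∈ range N, g (i + c) + g (0 + c) := by
      rw [sum_range_succ]
      congr 1
      rw [show N + c = c + N by omega, hg, zero_add]
    rcases Nat.eq_zero_or_pos N with h0 | h0
    · subst h0; simp
    · -- both are cyclic rearrangements
      obtain ⟨M, rfl⟩ : ∃ M, N = M + 1 := ⟨N - 1, by omega⟩
      rw [sum_range_succ, sum_range_succ' (fun i => g (i + c))]
      have e1 : g (M + (c + 1)) = g (0 + c) := by
        rw [show M + (c + 1) = (0 + c) + (M + 1) by omega, hg]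
      rw [e1]
      congr 1
      refine sum_congr rfl fun i _ => ?_
      congr 1
      omega

lemma prod_shift {N : ℕ} {g : ℕ → ℝ} (hg : ∀ j, g (j + N) = g j) (c : ℕ) :
    ∏ i ∈ range N, g (i + c) = ∏ i ∈ range N, g i := by
  have := sum_shift (α := Additive ℝ) (N := N) (g := fun j => Additive.ofMul (g j)) (fun j => by rw [hg]) c
  simpa [← ofMul_prod] using this

lemma fz_prod {N : ℕ} (hN : 0 < N) : ∏ j ∈ range N, fz N j = 2 := by
  have hNne : (N : ℂ) ≠ 0 := by exact_mod_cast hN.ne'
  set ζ : ℂ := cexp (2 * Real.pi * I / N) with hζ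
  have hprim : IsPrimitiveRoot ζ N := Complex.isPrimitiveRoot_exp N hN.ne'
  set μ : ℂ := cexp (Real.pi * I / N) with hμ
  have hμN : μ ^ N = -1 := by
    rw [hμ, ← Complex.exp_nat_mul, mul_div_cancel₀ _ hNne, Complex.exp_pi_mul_I]
  have hroots := hprim.nthRoots_eq (α := μ) (a := -1) hμN
  have hmon : (Polynomial.X ^ N - Polynomial.C (-1) : Polynomial ℂ).Monic := Polynomial.monic_X_pow_sub_C _ hN.ne'
  have hdeg : (Polynomial.X ^ N - Polynomial.C (-1) : Polynomial ℂ).natDegree = N := Polynomial.natDegree_X_pow_sub_C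
  have hcard : Multiset.card (Polynomial.X ^ N - Polynomial.C (-1) : Polynomial ℂ).roots = N := by
    have : (Polynomial.X ^ N - Polynomial.C (-1) : Polynomial ℂ).roots = Polynomial.nthRoots N (-1) := rfl
    rw [this, hroots, Multiset.card_map, Multiset.card_range]
  have hprod := Polynomial.prod_multiset_X_sub_C_of_monic_of_roots_card_eq hmon (by rw [hcard, hdeg])
  have hr : (Polynomial.X ^ N - Polynomial.C (-1) : Polynomial ℂ).roots = Polynomial.nthRoots N (-1) := rfl
  rw [hr, hroots] at hprod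
  have h2 := congrArg (Polynomial.eval 1) hprod
  rw [Multiset.map_map, Polynomial.eval_multiset_prod, Multiset.map_map] at h2
  simp only [Polynomial.eval_sub, Polynomial.eval_pow, Polynomial.eval_X, Polynomial.eval_C, one_pow, sub_neg_eq_add] at h2
  have h3 : ∏ j ∈ range N, (1 - ζ ^ j * μ) = 2 := by
    rw [show (2 : ℂ) = 1 + 1 by norm_num, ← h2]
    show ((Multiset.range N).map (fun j => 1 - ζ ^ j * μ)).prod = _
    congr 1
    refine Multiset.map_congr rfl fun j _ => ?_
    simp [Function.comp]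
  have h4 := congrArg norm h3
  rw [norm_prod, Complex.norm_two] at h4
  rw [← h4]
  refine prod_congr rfl fun j _ => ?_
  unfold fz
  rw [norm_sub_rev]
  congr 2
  rw [hζ, hμ, ← Complex.exp_nat_mul, ← Complex.exp_add]
  congr 1
  push_cast
  field_simp

lemma fz_eq (N j : ℕ) : fz N j = 2 * |Real.sin (Real.pi * (2 * j + 1) / (2 * N))| := by
  unfold fz
  rw [Complex.norm_exp_I_mul_ofReal_sub_one, Real.norm_eq_abs, abs_mul, abs_two]
  congr 3
  ring

lemma fz_lower {N j : ℕ} (hj : 2 * j + 1 ≤ N) : 2 * (2 * j + 1) / N ≤ fz N j := by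
  have hN : (0 : ℝ) < N := by
    have : 0 < N := by omega
    exact_mod_cast this
  have hj' : (2 * j + 1 : ℝ) ≤ N := by exact_mod_cast hj
  have hpi := Real.pi_pos
  rw [fz_eq]
  have h1 : (0 : ℝ) ≤ Real.pi * (2 * j + 1) / (2 * N) := by positivity
  have h2 : Real.pi * (2 * j + 1) / (2 * N) ≤ Real.pi / 2 := by
    rw [div_le_div_iff₀ (by positivity) (by norm_num)]
    nlinarith
  have h3 := Real.mul_le_sin h1 h2
  have h4 : 2 / Real.pi * (Real.pi * (2 * j + 1) / (2 * N)) = (2 * j + 1) / N := by field_simp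
  rw [h4] at h3
  have h5 := le_abs_self (Real.sin (Real.pi * (2 * j + 1) / (2 * N)))
  calc 2 * (2 * (j : ℝ) + 1) / N = 2 * ((2 * j + 1) / N) := by ring
    _ ≤ _ := by linarith

lemma fz_refl {N j : ℕ} (hj : j < N) : fz N (N - 1 - j) = fz N j := by
  rw [fz_eq, fz_eq]
  have hN : (0 : ℝ) < N := by
    have : 0 < N := by omega
    exact_mod_cast this
  have e : ((N - 1 - j : ℕ) : ℝ) = N - 1 - j := by
    rw [Nat.cast_sub (by omega), Nat.cast_sub (by omega)]
    simp
  rw [e]
  have e2 : Real.pi * (2 * ((N : ℝ) - 1 - j) + 1) / (2 * N) = Real.pi - Real.pi * (2 * j + 1) / (2 * N) := by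
    field_simp
    ring
  rw [e2, Real.sin_pi_sub]

lemma fz_pos {N : ℕ} (hN : 0 < N) (j : ℕ) : 0 < fz N j := by
  have h : ∀ j < N, 0 < fz N j := by
    intro j hj
    rcases le_or_gt (2 * j + 1) N with h | h
    · have := fz_lower h
      have hN' : (0 : ℝ) < N := by exact_mod_cast hN
      exact lt_of_lt_of_le (by positivity) this
    · rw [← fz_refl hj]
      have h2 : 2 * (N - 1 - j) + 1 ≤ N := by omega
      have := fz_lower h2
      have hN' : (0 : ℝ) < N := by exact_mod_cast hN
      exact lt_of_lt_of_le (by positivity) this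
  have h2 : ∀ k i, fz N (i + k * N) = fz N i := by
    intro k
    induction k with
    | zero => intro i; simp
    | succ k ih =>
      intro i
      rw [show i + (k + 1) * N = (i + k * N) + N by ring, fz_per hN, ih]
  have h3 := h2 (j / N) (j % N)
  rw [mul_comm (j / N) N, Nat.mod_add_div] at h3
  rw [h3]
  exact h _ (Nat.mod_lt _ hN)

lemma fz_inv {N j : ℕ} (hj : j < N) :
    1 / fz N j ≤ N / 2 * (1 / (j + 1) + 1 / (((N - 1 - j : ℕ) : ℝ) + 1)) := by
  have hN' : (0 : ℝ) < N := by
    have : 0 < N := by omega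
    exact_mod_cast this
  have key : ∀ i : ℕ, 2 * i + 1 ≤ N → 1 / fz N i ≤ N / 2 * (1 / (i + 1)) := by
    intro i hi
    have h1 := fz_lower hi
    have h2 : (0 : ℝ) < 2 * (2 * i + 1) / N := by positivity
    calc 1 / fz N i ≤ 1 / (2 * (2 * i + 1) / N) := one_div_le_one_div_of_le h2 h1
      _ = N / 2 * (1 / (2 * i + 1)) := by field_simp
      _ ≤ N / 2 * (1 / (i + 1)) := by
        refine mul_le_mul_of_nonneg_left ?_ (by positivity)
        refine one_div_le_one_div_of_le (by positivity) ?_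
        have : (0 : ℝ) ≤ i := Nat.cast_nonneg i
        linarith
  rcases le_or_gt (2 * j + 1) N with h | h
  · refine (key j h).trans ?_
    refine mul_le_mul_of_nonneg_left ?_ (by positivity)
    have : (0 : ℝ) ≤ 1 / (((N - 1 - j : ℕ) : ℝ) + 1) := by positivity
    linarith
  · have h2 : 2 * (N - 1 - j) + 1 ≤ N := by omega
    have h3 := key _ h2
    rw [fz_refl hj] at h3
    refine h3.trans ?_
    refine mul_le_mul_of_nonneg_left ?_ (by positivity)
    have : (0 : ℝ) ≤ 1 / ((j : ℝ) + 1) := by positivity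
    linarith

lemma fz_sum {N : ℕ} (_ : 0 < N) : ∑ j ∈ range N, 1 / fz N j ≤ N * (1 + Real.log N) := by
  have h1 : ∑ j ∈ range N, 1 / fz N j ≤ ∑ j ∈ range N, (N : ℝ) / 2 * (1 / ((j : ℝ) + 1) + 1 / (((N - 1 - j : ℕ) : ℝ) + 1)) :=
    sum_le_sum fun j hj => fz_inv (mem_range.1 hj)
  refine h1.trans ?_
  rw [← mul_sum, sum_add_distrib, sum_range_reflect (fun j : ℕ => 1 / ((j : ℝ) + 1)) N]
  have h2 := harmonic_le_one_add_log N
  have h3 : ((harmonic N : ℚ) : ℝ) = ∑ j ∈ range N, 1 / ((j : ℝ) + 1) := by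
    unfold harmonic
    push_cast
    refine sum_congr rfl fun j _ => ?_
    rw [one_div]
  rw [h3] at h2
  have h4 : (0 : ℝ) ≤ N := Nat.cast_nonneg N
  nlinarith

/-- products close to the product over the roots of -1: upper bound -/
lemma prod_upper {N : ℕ} (hN : 0 < N) {κ : ℝ} (hκ : 0 ≤ κ) (c : ℕ) {g : ℕ → ℝ} (hg0 : ∀ i < N, 0 ≤ g i)
    (hg : ∀ i < N, g i ≤ fz N (i + c) + κ) : ∏ i ∈ range N, g i ≤ 2 * Real.exp (κ * (N * (1 + Real.log N))) := by
  calc ∏ i ∈ range N, g i ≤ ∏ i ∈ range N, (fz N (i + c) * Real.exp (κ * (1 / fz N (i + c)))) := by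
        refine prod_le_prod (fun i hi => hg0 i (mem_range.1 hi)) fun i hi => ?_
        refine (hg i (mem_range.1 hi)).trans ?_
        have hf := fz_pos hN (i + c)
        have h1 := Real.add_one_le_exp (κ * (1 / fz N (i + c)))
        calc fz N (i + c) + κ = fz N (i + c) * (κ * (1 / fz N (i + c)) + 1) := by field_simp; ring
          _ ≤ _ := mul_le_mul_of_nonneg_left h1 hf.le
    _ = 2 * Real.exp (κ * ∑ i ∈ range N, 1 / fz N i) := by
        rw [prod_mul_distrib, prod_shift (fun j => fz_per hN j) c, fz_prod hN, ← Real.exp_sum, ← mul_sum]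
        rw [sum_shift (g := fun i => 1 / fz N i) (fun j => by rw [fz_per hN]) c]
    _ ≤ _ := by
        refine mul_le_mul_of_nonneg_left (Real.exp_le_exp.2 ?_) (by norm_num)
        exact mul_le_mul_of_nonneg_left (fz_sum hN) hκ

/-- products close to the product over the roots of -1: lower bound -/
lemma prod_lower {N : ℕ} (hN : 0 < N) {κ t : ℝ} (hκ : 0 ≤ κ) (hκ1 : 2 * κ ≤ 1) (ht : 0 ≤ t) (c : ℕ) {g : ℕ → ℝ}
    (hg : ∀ i < N, fz N (i + c) - κ ≤ g i) (hg2 : ∀ i < N, Real.exp (-t) ≤ g i) :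
    2 * Real.exp (-(2 * κ * (1 + t) * (N * (1 + Real.log N)))) ≤ ∏ i ∈ range N, g i := by
  have key : ∀ i < N, fz N (i + c) * Real.exp (-(2 * κ * (1 + t)) * (1 / fz N (i + c))) ≤ g i := by
    intro i hi
    have hf := fz_pos hN (i + c)
    set f := fz N (i + c) with hfd
    rcases le_or_gt (2 * κ) f with h | h
    · refine le_trans ?_ (hg i hi)
      have h1 : Real.exp (-(2 * κ * (1 + t)) * (1 / f)) ≤ 1 - κ / f := by
        set x := κ / f with hx
        have hx0 : 0 ≤ x := by positivity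
        have hx1 : 2 * x ≤ 1 := by
          rw [hx]
          have : 2 * (κ / f) = 2 * κ / f := by ring
          rw [this, div_le_one hf]
          exact h
        have h2 : Real.exp (-(2 * κ * (1 + t)) * (1 / f)) ≤ Real.exp (-(2 * x)) := by
          refine Real.exp_le_exp.2 ?_
          have : -(2 * κ * (1 + t)) * (1 / f) = -(2 * x) * (1 + t) := by rw [hx]; ring
          rw [this]
          nlinarith
        refine h2.trans ?_
        rw [Real.exp_neg]
        have h3 := Real.add_one_le_exp (2 * x)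
        have h4 : (Real.exp (2 * x))⁻¹ ≤ (2 * x + 1)⁻¹ := inv_anti₀ (by positivity) h3
        refine h4.trans ?_
        rw [inv_le_iff_one_le_mul₀ (by positivity)]
        nlinarith
      calc f * Real.exp (-(2 * κ * (1 + t)) * (1 / f)) ≤ f * (1 - κ / f) := mul_le_mul_of_nonneg_left h1 hf.le
        _ = f - κ := by field_simp
    · refine le_trans ?_ (hg2 i hi)
      have h1 : 1 ≤ 2 * κ * (1 / f) := by
        rw [mul_one_div, le_div_iff₀ hf]
        linarith
      have h2 : Real.exp (-(2 * κ * (1 + t)) * (1 / f)) ≤ Real.exp (-t) := by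
        refine Real.exp_le_exp.2 ?_
        have : -(2 * κ * (1 + t)) * (1 / f) = -(2 * κ * (1 / f) * (1 + t)) := by ring
        rw [this]
        nlinarith
      have h3 := Real.exp_pos (-t)
      have h4 := Real.exp_pos (-(2 * κ * (1 + t)) * (1 / f))
      nlinarith
  calc 2 * Real.exp (-(2 * κ * (1 + t) * (N * (1 + Real.log N)))) ≤
        2 * Real.exp (-(2 * κ * (1 + t)) * ∑ i ∈ range N, 1 / fz N i) := by
        refine mul_le_mul_of_nonneg_left (Real.exp_le_exp.2 ?_) (by norm_num)
        rw [neg_mul]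
        refine neg_le_neg (mul_le_mul_of_nonneg_left (fz_sum hN) (by positivity))
    _ = ∏ i ∈ range N, (fz N (i + c) * Real.exp (-(2 * κ * (1 + t)) * (1 / fz N (i + c)))) := by
        rw [prod_mul_distrib, prod_shift (fun j => fz_per hN j) c, fz_prod hN, ← Real.exp_sum, ← mul_sum]
        rw [sum_shift (g := fun i => 1 / fz N i) (fun j => by rw [fz_per hN]) c]
    _ ≤ _ := prod_le_prod (fun i _ => mul_nonneg (fz_pos hN _).le (Real.exp_pos _).le)
        fun i hi => key i (mem_range.1 hi)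

end Pool.Agent.Zk4.B
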