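import Pool.Agent.Zk4.Ba

/-! # The converse of the local Weil criterion: the factors -/

set_option autoImplicit false

open Complex Finset
open scoped ComplexConjugate

namespace Pool.Agent.Zk4.B

/-- the factor with the zeros `2 π i k / h` -/
noncomputable def Sf (h : ℝ) (v : ℂ) : ℂ := cexp (v * (h / 2 : ℝ)) - cexp (-(v * (h / 2 : ℝ)))

lemma exp_lip (α β : ℝ) : ‖cexp (I * α) - cexp (I * β)‖ ≤ |α - β| := by
  have e : cexp (I * α) - cexp (I * β) = cexp (I * β) * (cexp (I * ((α - β : ℝ) : ℂ)) - 1) := by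
    rw [mul_sub, ← Complex.exp_add, mul_one]
    congr 2
    push_cast
    ring
  rw [e, norm_mul, mul_comm I (β : ℂ), Complex.norm_exp_ofReal_mul_I, one_mul]
  exact Real.norm_exp_I_mul_ofReal_sub_one_le

lemma Sf_near {h : ℝ} (hh : 0 < h) (hh1 : h ≤ 1 / 2) {v : ℂ} (hv : |v.re| ≤ 2) :
    |‖Sf h v‖ - ‖cexp (I * ((h * v.im : ℝ) : ℂ)) - 1‖| ≤ 4 * h := by
  set a := v.re with ha
  set b := v.im with hb
  have hab : v = a + b * I := (Complex.re_add_im v).symm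
  set E : ℂ := cexp (I * ((h * b / 2 : ℝ) : ℂ)) with hE
  set E' : ℂ := cexp (I * ((-(h * b / 2) : ℝ) : ℂ)) with hE'
  have nE : ‖E‖ = 1 := by rw [hE, mul_comm, Complex.norm_exp_ofReal_mul_I]
  have nE' : ‖E'‖ = 1 := by rw [hE', mul_comm, Complex.norm_exp_ofReal_mul_I]
  have e1 : cexp (v * (h / 2 : ℝ)) = E * cexp ((a * h / 2 : ℝ) : ℂ) := by
    rw [hE, ← Complex.exp_add, hab]
    congr 1
    push_cast
    ring
  have e2 : cexp (-(v * (h / 2 : ℝ))) = E' * cexp ((-(a * h / 2) : ℝ) : ℂ) := by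
    rw [hE', ← Complex.exp_add, hab]
    congr 1
    push_cast
    ring
  have e3 : E - E' = E' * (cexp (I * ((h * b : ℝ) : ℂ)) - 1) := by
    rw [hE, hE', mul_sub, ← Complex.exp_add, mul_one]
    congr 2
    push_cast
    ring
  have e4 : ‖E - E'‖ = ‖cexp (I * ((h * b : ℝ) : ℂ)) - 1‖ := by rw [e3, norm_mul, nE', one_mul]
  have hx : |a * h / 2| ≤ h := by
    rw [abs_div, abs_mul, abs_of_pos hh, abs_two]
    nlinarith
  have h1 : ‖cexp ((a * h / 2 : ℝ) : ℂ) - 1‖ ≤ 2 * h := by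
    have := Complex.norm_exp_sub_one_le (x := ((a * h / 2 : ℝ) : ℂ)) (by
      rw [Complex.norm_real, Real.norm_eq_abs]; linarith)
    refine this.trans ?_
    rw [Complex.norm_real, Real.norm_eq_abs]
    linarith
  have h2 : ‖cexp ((-(a * h / 2) : ℝ) : ℂ) - 1‖ ≤ 2 * h := by
    have := Complex.norm_exp_sub_one_le (x := ((-(a * h / 2) : ℝ) : ℂ)) (by
      rw [Complex.norm_real, Real.norm_eq_abs, abs_neg]; linarith)
    refine this.trans ?_
    rw [Complex.norm_real, Real.norm_eq_abs, abs_neg]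
    linarith
  have e5 : Sf h v - (E - E') = E * (cexp ((a * h / 2 : ℝ) : ℂ) - 1) - E' * (cexp ((-(a * h / 2) : ℝ) : ℂ) - 1) := by
    unfold Sf
    rw [e1, e2]
    ring
  rw [← e4]
  refine (abs_norm_sub_norm_le _ _).trans ?_
  rw [e5]
  refine (norm_sub_le _ _).trans ?_
  rw [norm_mul, norm_mul, nE, nE']
  linarith

lemma Sf_lower {h : ℝ} (hh : 0 < h) {v : ℂ} (hv : |v.im| * h ≤ Real.pi) : ‖v‖ * (h / 2) ≤ ‖Sf h v‖ := by
  set u : ℂ := v * (h / 2 : ℝ) with hu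
  have hSf : Sf h v = 2 * Complex.sinh u := by
    unfold Sf Complex.sinh
    rw [← hu]
    ring
  have hun : ‖u‖ = ‖v‖ * (h / 2) := by
    rw [hu, norm_mul, Complex.norm_real, Real.norm_of_nonneg (by positivity)]
  set x := u.re with hx
  set y := u.im with hy
  have hyv : y = v.im * (h / 2) := by rw [hy, hu]; simp
  have hyb : |y| ≤ Real.pi / 2 := by
    rw [hyv, abs_mul, abs_of_pos (by positivity : 0 < h / 2)]
    linarith
  have hpi := Real.pi_pos
  have h1 : Complex.sinh u = ((Real.sinh x * Real.cos y : ℝ) : ℂ) + ((Real.cosh x * Real.sin y : ℝ) : ℂ) * I := by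
    have : u = x + y * I := (Complex.re_add_im u).symm
    rw [this, Complex.sinh_add, Complex.sinh_mul_I, Complex.cosh_mul_I]
    push_cast
    ring
  have h2 : ‖Complex.sinh u‖ ^ 2 = Real.sinh x ^ 2 + Real.sin y ^ 2 := by
    rw [← Complex.normSq_eq_norm_sq, h1, Complex.normSq_add_mul_I]
    have := Real.cosh_sq x
    have h3 := Real.sin_sq_add_cos_sq y
    rw [mul_pow, mul_pow, this]
    nlinarith
  have h3 : x ^ 2 ≤ Real.sinh x ^ 2 := by
    rw [← sq_abs x, ← sq_abs (Real.sinh x)]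
    refine pow_le_pow_left₀ (abs_nonneg _) ?_ 2
    rcases abs_cases x with ⟨h, h'⟩ | ⟨h, h'⟩
    · rw [h]
      exact (Real.self_le_sinh_iff.2 h').trans (le_abs_self _)
    · rw [h]
      have : -x ≤ Real.sinh (-x) := Real.self_le_sinh_iff.2 (by linarith)
      rw [Real.sinh_neg] at this
      exact this.trans (neg_le_abs _)
  have h4 : y ^ 2 / 4 ≤ Real.sin y ^ 2 := by
    have k1 := Real.mul_le_sin (abs_nonneg y) hyb
    have k2 : |y| / 2 ≤ Real.sin |y| := by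
      refine le_trans ?_ k1
      have : 1 / 2 ≤ 2 / Real.pi := by
        rw [div_le_div_iff₀ (by norm_num) hpi]
        have := Real.pi_le_four
        linarith
      nlinarith [abs_nonneg y]
    have k3 : Real.sin |y| ^ 2 = Real.sin y ^ 2 := by
      rcases abs_choice y with h | h <;> rw [h]
      rw [Real.sin_neg, neg_sq]
    rw [← k3]
    have k4 : (|y| / 2) ^ 2 ≤ Real.sin |y| ^ 2 := pow_le_pow_left₀ (by positivity) k2 2
    rw [div_pow, sq_abs] at k4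
    linarith
  have h5 : ‖u‖ ^ 2 = x ^ 2 + y ^ 2 := by
    rw [← Complex.normSq_eq_norm_sq, Complex.normSq_apply, ← hx, ← hy]
    ring
  have h6 : ‖u‖ ^ 2 ≤ (2 * ‖Complex.sinh u‖) ^ 2 := by
    rw [mul_pow, h2, h5]
    nlinarith [sq_nonneg x]
  have h7 : ‖u‖ ≤ 2 * ‖Complex.sinh u‖ := by
    exact le_of_sq_le_sq h6 (by positivity)
  have h8 : ‖2 * Complex.sinh u‖ = 2 * ‖Complex.sinh u‖ := by rw [norm_mul, Complex.norm_two]
  rw [← hun, hSf, h8]
  exact h7

lemma exp_half : Real.exp (1 / 2) ≤ 2 := by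
  have h6 := Real.exp_one_lt_d9
  have h7 : Real.exp (1 / 2) * Real.exp (1 / 2) = Real.exp 1 := by rw [← Real.exp_add]; norm_num
  have h8 := Real.exp_pos (1 / 2)
  nlinarith

lemma Sf_diff {h : ℝ} (hh : 0 < h) (hh1 : h ≤ 1 / 2) {v η : ℂ} (hv : |v.re| ≤ 2) (hη : ‖η‖ ≤ 1) :
    ‖Sf h (v + η) - Sf h v‖ ≤ 4 * h * ‖η‖ := by
  have e : Sf h (v + η) - Sf h v = cexp (v * (h / 2 : ℝ)) * (cexp (η * (h / 2 : ℝ)) - 1) -
      cexp (-(v * (h / 2 : ℝ))) * (cexp (-(η * (h / 2 : ℝ))) - 1) := by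
    unfold Sf
    rw [mul_sub, mul_sub, ← Complex.exp_add, ← Complex.exp_add, mul_one, mul_one]
    have e1 : (v + η) * ((h / 2 : ℝ) : ℂ) = v * (h / 2 : ℝ) + η * (h / 2 : ℝ) := by ring
    rw [e1, neg_add]
    ring
  have hx : |(v * ((h / 2 : ℝ) : ℂ)).re| ≤ h := by
    rw [Complex.re_mul_ofReal, abs_mul, abs_of_pos (by positivity : 0 < h / 2)]
    nlinarith
  have h1 : ‖cexp (v * (h / 2 : ℝ))‖ ≤ 2 := by
    rw [Complex.norm_exp]
    refine le_trans (Real.exp_le_exp.2 ?_) exp_half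
    exact (le_abs_self _).trans (hx.trans hh1)
  have h2 : ‖cexp (-(v * (h / 2 : ℝ)))‖ ≤ 2 := by
    rw [Complex.norm_exp, Complex.neg_re]
    refine le_trans (Real.exp_le_exp.2 ?_) exp_half
    exact (neg_le_abs _).trans (hx.trans hh1)
  have hn : ‖η * ((h / 2 : ℝ) : ℂ)‖ = ‖η‖ * (h / 2) := by
    rw [norm_mul, Complex.norm_real, Real.norm_of_nonneg (by positivity)]
  have hn1 : ‖η * ((h / 2 : ℝ) : ℂ)‖ ≤ 1 := by
    rw [hn]
    have := norm_nonneg η
    nlinarith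
  have h3 : ‖cexp (η * (h / 2 : ℝ)) - 1‖ ≤ h * ‖η‖ := by
    refine (Complex.norm_exp_sub_one_le hn1).trans ?_
    rw [hn]
    linarith
  have h4 : ‖cexp (-(η * (h / 2 : ℝ))) - 1‖ ≤ h * ‖η‖ := by
    refine (Complex.norm_exp_sub_one_le (by rw [norm_neg]; exact hn1)).trans ?_
    rw [norm_neg, hn]
    linarith
  rw [e]
  refine (norm_sub_le _ _).trans ?_
  rw [norm_mul, norm_mul]
  have h5 : 0 ≤ h * ‖η‖ := by positivity
  calc _ ≤ 2 * (h * ‖η‖) + 2 * (h * ‖η‖) :=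
        add_le_add (mul_le_mul h1 h3 (norm_nonneg _) (by norm_num)) (mul_le_mul h2 h4 (norm_nonneg _) (by norm_num))
    _ = _ := by ring

/-- comparison with the roots of -1 -/
lemma near_roots {N : ℕ} (hN : 0 < N) {R y0 : ℝ} (hR : 0 < R) (y : ℝ) : ∃ c : ℕ, ∀ i : ℕ, ∀ s D : ℝ,
    |s - (y0 - R + 2 * R * i / N)| ≤ D →
      |‖cexp (I * ((Real.pi / R * (y - s) : ℝ) : ℂ)) - 1‖ - fz N (i + c)| ≤ Real.pi / R * (D + R / N) := by
  have hN' : (0 : ℝ) < N := by exact_mod_cast hN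
  have hpi := Real.pi_pos
  set θ : ℝ := -(Real.pi / R * (y - y0 + R)) with hθ
  set c0 : ℤ := ⌊θ * N / (2 * Real.pi)⌋ with hc0
  have hc : |θ - (2 * Real.pi * c0 + Real.pi) / N| ≤ Real.pi / N := by
    have h1 := Int.floor_le (θ * N / (2 * Real.pi))
    have h2 := Int.lt_floor_add_one (θ * N / (2 * Real.pi))
    rw [← hc0] at h1 h2
    rw [le_div_iff₀ (by positivity)] at h1
    rw [div_lt_iff₀ (by positivity)] at h2
    have e : θ - (2 * Real.pi * c0 + Real.pi) / N = (θ * N - (2 * Real.pi * c0 + Real.pi)) / N := by field_simp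
    rw [e, abs_div, abs_of_pos hN']
    refine div_le_div_of_nonneg_right ?_ hN'.le
    rw [abs_le]
    constructor <;> nlinarith
  set c : ℕ := (c0 % N).toNat with hcd
  have hcc : ((c : ℤ)) = c0 % N := Int.toNat_of_nonneg (Int.emod_nonneg _ (by exact_mod_cast hN.ne'))
  have hdiv : c0 = c + N * (c0 / N) := by
    rw [hcc]
    have := Int.emod_add_mul_ediv c0 N
    linarith
  refine ⟨c, fun i s D hs => ?_⟩
  have e1 : fz N (i + c) = ‖cexp (I * ((Real.pi * (2 * (i + c0) + 1) / N : ℝ) : ℂ)) - 1‖ := by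
    unfold fz
    congr 2
    rw [Complex.exp_eq_exp_iff_exists_int]
    refine ⟨-(c0 / N), ?_⟩
    have hd : (c0 : ℂ) = c + N * ((c0 / N : ℤ) : ℂ) := by exact_mod_cast hdiv
    have h : (N : ℂ) ≠ 0 := by exact_mod_cast hN.ne'
    push_cast
    rw [hd]
    field_simp
    ring
  have e2 : ‖cexp (I * ((Real.pi / R * (y - s) : ℝ) : ℂ)) - 1‖ = ‖cexp (I * ((-(Real.pi / R * (y - s)) : ℝ) : ℂ)) - 1‖ := by
    rw [Complex.norm_exp_I_mul_ofReal_sub_one, Complex.norm_exp_I_mul_ofReal_sub_one, neg_div, Real.sin_neg, mul_neg,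
      norm_neg]
  rw [e1, e2]
  refine (abs_norm_sub_norm_le _ _).trans ?_
  rw [sub_sub_sub_cancel_right]
  refine (exp_lip _ _).trans ?_
  have e3 : -(Real.pi / R * (y - s)) - Real.pi * (2 * (i + c0) + 1) / N =
      Real.pi / R * (s - (y0 - R + 2 * R * i / N)) + (θ - (2 * Real.pi * c0 + Real.pi) / N) := by
    rw [hθ]
    field_simp
    ring
  rw [e3]
  refine (abs_add_le _ _).trans ?_
  rw [abs_mul, abs_of_pos (by positivity : 0 < Real.pi / R)]
  have e4 : Real.pi / R * (D + R / N) = Real.pi / R * D + Real.pi / N := by field_simp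
  rw [e4]
  exact add_le_add (mul_le_mul_of_nonneg_left hs (by positivity)) hc

/-- the bounds of the factors -/
lemma factor_near {N : ℕ} (hN : 0 < N) {R y0 D : ℝ} (hR : 2 * Real.pi ≤ R) (hRN : R ≤ N) {z : ℕ → ℂ}
    (hz : ∀ i < N, |(z i).im - (y0 - R + 2 * R * i / N)| ≤ D) (y : ℝ) : ∃ c : ℕ, ∀ i < N, ∀ w : ℂ, w.im = y →
      |(w - z i).re| ≤ 2 → |‖Sf (Real.pi / R) (w - z i)‖ - fz N (i + c)| ≤ Real.pi / R * (D + 5) := by
  have hpi := Real.pi_pos
  have hR0 : 0 < R := by linarith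
  have hN' : (0 : ℝ) < N := by exact_mod_cast hN
  obtain ⟨c, hc⟩ := near_roots hN (y0 := y0) hR0 y
  refine ⟨c, fun i hi w hw hre => ?_⟩
  have h1 := hc i (z i).im D (hz i hi)
  have h2 := Sf_near (h := Real.pi / R) (by positivity) (by rw [div_le_iff₀ hR0]; linarith) hre
  have e : (w - z i).im = y - (z i).im := by rw [Complex.sub_im, hw]
  rw [e] at h2
  have h3 : R / N ≤ 1 := by rw [div_le_one hN']; exact hRN
  have h4 : Real.pi / R * (D + R / N) ≤ Real.pi / R * (D + 1) := mul_le_mul_of_nonneg_left (by linarith) (by positivity)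
  have h5 := abs_add_le (‖Sf (Real.pi / R) (w - z i)‖ - ‖cexp (I * ((Real.pi / R * (y - (z i).im) : ℝ) : ℂ)) - 1‖)
    (‖cexp (I * ((Real.pi / R * (y - (z i).im) : ℝ) : ℂ)) - 1‖ - fz N (i + c))
  rw [sub_add_sub_cancel] at h5
  have e5 : Real.pi / R * (D + 5) = Real.pi / R * (D + 1) + 4 * (Real.pi / R) := by ring
  rw [e5]
  linarith

/-- the product -/
noncomputable def Qz (h : ℝ) (N : ℕ) (z : ℕ → ℂ) (w : ℂ) : ℂ := ∏ i ∈ range N, Sf h (w - z i)

lemma Qz_upper {N : ℕ} (hN : 0 < N) {R y0 D : ℝ} (hR : 2 * Real.pi ≤ R) (hRN : R ≤ N) (hD : 0 ≤ D) {z : ℕ → ℂ}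
    (hz : ∀ i < N, |(z i).im - (y0 - R + 2 * R * i / N)| ≤ D) {w : ℂ} (hre : ∀ i < N, |(w - z i).re| ≤ 2) :
    ‖Qz (Real.pi / R) N z w‖ ≤ 2 * Real.exp (Real.pi / R * (D + 5) * (N * (1 + Real.log N))) := by
  have hpi := Real.pi_pos
  have hR0 : 0 < R := by linarith
  obtain ⟨c, hc⟩ := factor_near hN hR hRN hz w.im
  unfold Qz
  rw [norm_prod]
  refine prod_upper hN (by positivity) c (fun i _ => norm_nonneg _) fun i hi => ?_
  have := (abs_le.1 (hc i hi w rfl (hre i hi))).2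
  linarith

lemma Qz_lower {N : ℕ} (hN : 0 < N) {R y0 D t : ℝ} (hR : 2 * Real.pi ≤ R) (hRN : R ≤ N) (hD : 0 ≤ D)
    (hDR : 2 * (Real.pi / R * (D + 5)) ≤ 1) (ht : 0 ≤ t) {z : ℕ → ℂ}
    (hz : ∀ i < N, |(z i).im - (y0 - R + 2 * R * i / N)| ≤ D) {w : ℂ} (hre : ∀ i < N, |(w - z i).re| ≤ 2)
    (him : ∀ i < N, |(w - z i).im| ≤ R) (hdist : ∀ i < N, Real.exp (-t) ≤ ‖w - z i‖ * (Real.pi / R / 2)) :
    2 * Real.exp (-(2 * (Real.pi / R * (D + 5)) * (1 + t) * (N * (1 + Real.log N)))) ≤ ‖Qz (Real.pi / R) N z w‖ := by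
  have hpi := Real.pi_pos
  have hR0 : 0 < R := by linarith
  obtain ⟨c, hc⟩ := factor_near hN hR hRN hz w.im
  unfold Qz
  rw [norm_prod]
  refine prod_lower hN (by positivity) hDR ht c (fun i hi => ?_) fun i hi => ?_
  · have := (abs_le.1 (hc i hi w rfl (hre i hi))).1
    linarith
  · refine (hdist i hi).trans (Sf_lower (by positivity) ?_)
    have := him i hi
    rw [mul_div_assoc', div_le_iff₀ hR0, mul_comm Real.pi]
    exact mul_le_mul_of_nonneg_right this hpi.le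

/-- the variation of the product -/
lemma Qz_var {N : ℕ} {R M r : ℝ} (hR : 2 * Real.pi ≤ R) (hr : 0 < r) (hr1 : r ≤ 1) (hM : 0 < M) {z : ℕ → ℂ}
    {w w0 : ℂ} (hre : ∀ i < N, |(w0 - z i).re| ≤ 2) (him : ∀ i < N, |(w0 - z i).im| ≤ R)
    (hdist : ∀ i < N, r * M ≤ ‖w0 - z i‖) (hw : ‖w - w0‖ ≤ r) :
    ∃ e : ℕ → ℂ, (∀ i, ‖e i‖ ≤ 8 / M) ∧ Qz (Real.pi / R) N z w = Qz (Real.pi / R) N z w0 * ∏ i ∈ range N, (1 + e i) := by
  have hpi := Real.pi_pos
  have hR0 : 0 < R := by linarith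
  set h := Real.pi / R with hh
  have hh0 : 0 < h := by positivity
  have hh1 : h ≤ 1 / 2 := by rw [hh, div_le_iff₀ hR0]; linarith
  have key : ∀ i, ∃ ei : ℂ, ‖ei‖ ≤ 8 / M ∧ (i < N → Sf h (w - z i) = Sf h (w0 - z i) * (1 + ei)) := by
    intro i
    by_cases hi : i < N
    · have h1 : ‖w0 - z i‖ * (h / 2) ≤ ‖Sf h (w0 - z i)‖ := by
        refine Sf_lower hh0 ?_
        rw [hh, mul_div_assoc', div_le_iff₀ hR0, mul_comm Real.pi]
        exact mul_le_mul_of_nonneg_right (him i hi) hpi.le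
      have h2 : 0 < ‖w0 - z i‖ := lt_of_lt_of_le (by positivity) (hdist i hi)
      have h3 : 0 < ‖Sf h (w0 - z i)‖ := lt_of_lt_of_le (by positivity) h1
      have h4 : Sf h (w0 - z i) ≠ 0 := norm_pos_iff.1 h3
      have h5 := Sf_diff hh0 hh1 (hre i hi) (hw.trans hr1)
      have e5 : w0 - z i + (w - w0) = w - z i := by ring
      rw [e5] at h5
      refine ⟨(Sf h (w - z i) - Sf h (w0 - z i)) / Sf h (w0 - z i), ?_, fun _ => by field_simp; ring⟩
      rw [norm_div, div_le_iff₀ h3]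
      refine h5.trans ?_
      have h6 : r * M * (h / 2) ≤ ‖Sf h (w0 - z i)‖ :=
        le_trans (mul_le_mul_of_nonneg_right (hdist i hi) (by positivity)) h1
      calc 4 * h * ‖w - w0‖ ≤ 4 * h * r := mul_le_mul_of_nonneg_left hw (by positivity)
        _ = 8 / M * (r * M * (h / 2)) := by field_simp; ring
        _ ≤ _ := mul_le_mul_of_nonneg_left h6 (by positivity)
    · exact ⟨0, by rw [norm_zero]; positivity, fun h => absurd h hi⟩
  choose e he1 he2 using key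
  refine ⟨e, he1, ?_⟩
  unfold Qz
  rw [← prod_mul_distrib]
  exact prod_congr rfl fun i hi => he2 i (mem_range.1 hi)

end Pool.Agent.Zk4.B
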