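import Pool.Agent.Zk4.Bb
import Pool.Agent.Zk2.LW.E

/-! # The converse of the local Weil criterion: the test function -/

set_option autoImplicit false

open Complex Finset MeasureTheory Set
open scoped ComplexConjugate

namespace Pool.Agent.Zk4.B

open Pool.Agent.Y23 (TT Fa N2 TT_mul_exp TT_smul TT_sub TT_add TT_conj)
open Pool.Agent.Y23.G (TT_shift Fa_shift)
open Pool.Agent.Zk2.WP (Av sg zL)
open Pool.Agent.Zk2.LW (Ai Ai_Fa TT_Ai sg_far')

/-- the base function -/
noncomputable def bas (a : ℝ) : ℝ → ℂ := (Set.Icc (-a) a).indicator (fun _ : ℝ => (((2 * a)⁻¹ : ℝ) : ℂ))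

lemma bas_Fa (a : ℝ) : Fa a (bas a) := by
  unfold bas
  refine ⟨memLp_indicator_const 2 measurableSet_Icc _ (Or.inr ?_), fun x hx => ?_⟩
  · rw [Real.volume_Icc]
    exact ENNReal.ofReal_ne_top
  · refine indicator_of_notMem (fun h => ?_) _
    exact absurd (abs_le.2 h) (not_le.2 hx)

lemma TT_bas {a : ℝ} (ha : 0 < a) (w : ℂ) : TT (bas a) w = sg a w := by
  unfold TT sg bas
  have e : ∀ x : ℝ, (Set.Icc (-a) a).indicator (fun _ : ℝ => (((2 * a)⁻¹ : ℝ) : ℂ)) x * cexp (w * x) =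
      (Set.Icc (-a) a).indicator (fun x : ℝ => (((2 * a)⁻¹ : ℝ) : ℂ) * cexp (w * x)) x := by
    intro x
    by_cases hx : x ∈ Set.Icc (-a) a
    · rw [indicator_of_mem hx, indicator_of_mem hx]
    · rw [indicator_of_notMem hx, indicator_of_notMem hx, zero_mul]
  simp_rw [e]
  rw [integral_indicator measurableSet_Icc, integral_const_mul, integral_Icc_eq_integral_Ioc,
    intervalIntegral.integral_of_le (by linarith)]

/-- multiplication with a factor -/
lemma exists_factor {b h : ℝ} (hh : 0 < h) {f : ℝ → ℂ} (hf : Fa b f) (z : ℂ) :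
    ∃ g : ℝ → ℂ, Fa (b + h / 2) g ∧ ∀ w, TT g w = TT f w * Sf h (w - z) := by
  have hb : |(-(h / 2))| = h / 2 := by rw [abs_neg, abs_of_pos (by positivity)]
  have h1 : Fa (b + h / 2) (fun x => f (x + -(h / 2))) := Fa_shift (L := zL) (by rw [hb]) hf
  have h2 : Fa (b + h / 2) (fun x => f (x + h / 2)) := Fa_shift (L := zL) (by rw [abs_of_pos (by positivity)]) hf
  refine ⟨fun x => cexp (-(z * (h / 2 : ℝ))) * f (x + -(h / 2)) - cexp (z * (h / 2 : ℝ)) * f (x + h / 2),
    (h1.smul _).sub (h2.smul _), fun w => ?_⟩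
  rw [TT_sub (h1.smul _) (h2.smul _), TT_smul, TT_smul, TT_shift (L := zL), TT_shift (L := zL)]
  unfold Sf
  rw [mul_sub]
  have e1 : cexp ((w - z) * ((h / 2 : ℝ) : ℂ)) = cexp (-(z * (h / 2 : ℝ))) * cexp (-(w * ((-(h / 2) : ℝ) : ℂ))) := by
    rw [← Complex.exp_add]
    congr 1
    push_cast
    ring
  have e2 : cexp (-((w - z) * ((h / 2 : ℝ) : ℂ))) = cexp (z * (h / 2 : ℝ)) * cexp (-(w * ((h / 2 : ℝ) : ℂ))) := by
    rw [← Complex.exp_add]
    congr 1
    push_cast
    ring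
  rw [e1, e2]
  ring

lemma exists_prod {b h : ℝ} (hh : 0 < h) {f : ℝ → ℂ} (hf : Fa b f) (z : ℕ → ℂ) : ∀ N : ℕ,
    ∃ g : ℝ → ℂ, Fa (b + N * (h / 2)) g ∧ ∀ w, TT g w = TT f w * Qz h N z w
  | 0 => ⟨f, by simpa using hf, fun w => by simp [Qz]⟩
  | N + 1 => by
    obtain ⟨g, h1, h2⟩ := exists_prod hh hf z N
    obtain ⟨g', h3, h4⟩ := exists_factor hh h1 (z N)
    refine ⟨g', ?_, fun w => ?_⟩
    · have e : b + ((N + 1 : ℕ) : ℝ) * (h / 2) = b + N * (h / 2) + h / 2 := by push_cast; ring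
      rw [e]
      exact h3
    · rw [h4, h2]
      unfold Qz
      rw [prod_range_succ, mul_assoc]

/-- the function -/
lemma exists_f1 {a h : ℝ} (ha : 0 < a) (hh : 0 < h) (k N : ℕ) (z : ℕ → ℂ) (y0 : ℝ) :
    ∃ f : ℝ → ℂ, Fa ((k + 1) * a + N * (h / 2)) f ∧ ∀ w, TT f w = sg a (w - y0 * I) ^ (k + 1) * Qz h N z w := by
  have h1 : Fa (a + k * a) (Ai a (bas a) k) := Ai_Fa ha (bas_Fa a) k
  have h2 : Fa (a + k * a) (fun x => Ai a (bas a) k x * cexp (-(y0 * I : ℂ) * x)) := h1.mul_bdd (by fun_prop)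
  obtain ⟨g, h3, h4⟩ := exists_prod hh h2 z N
  refine ⟨g, ?_, fun w => ?_⟩
  · have e : ((k : ℝ) + 1) * a + N * (h / 2) = a + k * a + N * (h / 2) := by ring
    rw [e]
    exact h3
  · rw [h4, TT_mul_exp, TT_Ai ha (bas_Fa a), TT_bas ha]
    have e : -(y0 * I : ℂ) + w = w - y0 * I := by ring
    rw [e, pow_succ]
    ring

/-- the reflected function -/
lemma exists_star {b : ℝ} {f : ℝ → ℂ} (hf : Fa b f) :
    ∃ g : ℝ → ℂ, Fa b g ∧ ∀ w, TT g w = conj (TT f (-conj w)) := by
  refine ⟨fun x => conj (f (-x)), ⟨?_, fun x hx => ?_⟩, fun w => ?_⟩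
  · have h1 : MemLp (fun x => f (-x)) 2 volume := hf.1.comp_measurePreserving (Measure.measurePreserving_neg volume)
    exact h1.star
  · show conj (f (-x)) = 0
    rw [hf.2 (-x) (by rw [abs_neg]; exact hx), map_zero]
  · unfold TT
    rw [← integral_conj]
    have h2 := integral_neg_eq_self (fun x : ℝ => conj (f x * cexp (-conj w * x))) volume
    rw [← h2]
    congr 1
    funext x
    rw [map_mul, ← Complex.exp_conj, map_mul, conj_ofReal, map_neg, Complex.conj_conj]
    congr 2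
    push_cast
    ring

/-! ### The multiplier -/

lemma sg_zero_re {a δ : ℝ} (ha : 0 < a) : ∃ c : ℝ, 1 ≤ c ∧ sg a (δ : ℂ) = (c : ℂ) := by
  refine ⟨(2 * a)⁻¹ * ∫ y in (-a)..a, Real.exp (δ * y), ?_, ?_⟩
  · have h1 : ∫ y in (-a)..a, (1 + δ * y) ≤ ∫ y in (-a)..a, Real.exp (δ * y) := by
      refine intervalIntegral.integral_mono_on (by linarith) (Continuous.intervalIntegrable (by fun_prop) _ _)
        (Continuous.intervalIntegrable (by fun_prop) _ _) fun y _ => ?_
      have := Real.add_one_le_exp (δ * y)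
      linarith
    have h2 : ∫ y in (-a)..a, (1 + δ * y) = 2 * a := by
      rw [intervalIntegral.integral_add (Continuous.intervalIntegrable (by fun_prop) _ _) (Continuous.intervalIntegrable (by fun_prop) _ _),
        intervalIntegral.integral_const, intervalIntegral.integral_const_mul, integral_id]
      simp only [smul_eq_mul, mul_one]
      ring
    rw [h2] at h1
    calc (1 : ℝ) = (2 * a)⁻¹ * (2 * a) := by field_simp
      _ ≤ _ := mul_le_mul_of_nonneg_left h1 (by positivity)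
  · unfold sg
    rw [Complex.ofReal_mul, ← intervalIntegral.integral_ofReal]
    congr 1
    refine intervalIntegral.integral_congr fun y _ => ?_
    show cexp (δ * y) = ((Real.exp (δ * y) : ℝ) : ℂ)
    push_cast
    rfl

lemma sg_var {a δ r : ℝ} (ha : 0 < a) (ha1 : a ≤ 1 / 2) (hδ : |δ| ≤ 1) (hr1 : r ≤ 1) {v : ℂ} (hv : ‖v - δ‖ ≤ r) :
    ∃ e : ℂ, ‖e‖ ≤ 4 * a * r ∧ sg a v = sg a (δ : ℂ) * (1 + e) := by
  obtain ⟨c, hc1, hc⟩ := sg_zero_re (δ := δ) ha
  have hc0 : (c : ℂ) ≠ 0 := by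
    have : c ≠ 0 := by linarith
    exact_mod_cast this
  have hr0 : 0 ≤ r := (norm_nonneg _).trans hv
  have key : ‖sg a v - sg a (δ : ℂ)‖ ≤ 4 * a * r := by
    unfold sg
    rw [← mul_sub, ← intervalIntegral.integral_sub (Continuous.intervalIntegrable (by fun_prop) _ _)
      (Continuous.intervalIntegrable (by fun_prop) _ _), norm_mul, Complex.norm_real, Real.norm_of_nonneg (by positivity)]
    have h1 : ‖∫ y in (-a)..a, (cexp (v * y) - cexp (δ * y))‖ ≤ (4 * a * r) * |a - -a| := by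
      refine intervalIntegral.norm_integral_le_of_norm_le_const fun y hy => ?_
      rw [uIoc_of_le (by linarith)] at hy
      have hy' : |y| ≤ a := abs_le.2 ⟨by linarith [hy.1], hy.2⟩
      have e : cexp (v * y) - cexp (δ * y) = cexp (δ * y) * (cexp ((v - δ) * y) - 1) := by
        rw [mul_sub, ← Complex.exp_add, mul_one]
        congr 2
        ring
      rw [e, norm_mul]
      have h2 : ‖cexp (δ * y)‖ ≤ 2 := by
        rw [Complex.norm_exp]
        refine le_trans (Real.exp_le_exp.2 ?_) exp_half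
        have e3 : ((δ : ℂ) * (y : ℂ)).re = δ * y := by
          rw [← Complex.ofReal_mul, Complex.ofReal_re]
        rw [e3]
        refine (le_abs_self _).trans ?_
        rw [abs_mul]
        calc |δ| * |y| ≤ 1 * (1 / 2) := mul_le_mul hδ (hy'.trans ha1) (abs_nonneg _) (by norm_num)
          _ = 1 / 2 := by norm_num
      have h3 : ‖(v - δ) * (y : ℂ)‖ ≤ r * a := by
        rw [norm_mul, Complex.norm_real, Real.norm_eq_abs]
        exact mul_le_mul hv hy' (abs_nonneg _) hr0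
      have h4 : ‖cexp ((v - δ) * y) - 1‖ ≤ 2 * (r * a) := by
        refine (Complex.norm_exp_sub_one_le (h3.trans ?_)).trans (by linarith)
        nlinarith
      calc ‖cexp (δ * y)‖ * ‖cexp ((v - δ) * y) - 1‖ ≤ 2 * (2 * (r * a)) :=
            mul_le_mul h2 h4 (norm_nonneg _) (by norm_num)
        _ = 4 * a * r := by ring
    rw [show a - -a = 2 * a by ring, abs_of_pos (by positivity)] at h1
    calc (2 * a)⁻¹ * ‖∫ y in (-a)..a, (cexp (v * y) - cexp (δ * y))‖ ≤ (2 * a)⁻¹ * ((4 * a * r) * (2 * a)) :=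
          mul_le_mul_of_nonneg_left h1 (by positivity)
      _ = 4 * a * r := by field_simp
  refine ⟨(sg a v - sg a (δ : ℂ)) / sg a (δ : ℂ), ?_, by rw [hc]; field_simp; ring⟩
  rw [norm_div, hc, Complex.norm_real, Real.norm_of_nonneg (by linarith), div_le_iff₀ (by linarith), ← hc]
  refine key.trans ?_
  have : 0 ≤ 4 * a * r := by positivity
  nlinarith

end Pool.Agent.Zk4.B
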