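import Pool.Agent.Zk4.Bc

/-! # The converse of the local Weil criterion: the core -/

set_option autoImplicit false

open Complex Finset MeasureTheory Set
open scoped ComplexConjugate

namespace Pool.Agent.Zk4.B

open Pool.Agent.Y23 (TT Fa N2 TT_mul_exp TT_smul TT_sub TT_add TT_conj)
open Pool.Agent.Y23.G (TT_shift Fa_shift GG GG_refl QQ Dom Hd Hd_iff Zt mu ZD ZC zsummable half_re Lg one_le_Lg summable_GG)
open Pool.Agent.Zk2.WP (Av sg zL)
open Pool.Agent.Zk2.LW (Ai Ai_Fa TT_Ai sg_far')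

lemma norm_sg {a : ℝ} (ha : 0 < a) (ha1 : a ≤ 1 / 2) {v : ℂ} (hv : |v.re| ≤ 1) : ‖sg a v‖ ≤ 2 := by
  unfold sg
  rw [norm_mul, Complex.norm_real, Real.norm_of_nonneg (by positivity)]
  have h1 : ‖∫ y in (-a)..a, cexp (v * y)‖ ≤ 2 * |a - -a| := by
    refine intervalIntegral.norm_integral_le_of_norm_le_const fun y hy => ?_
    rw [uIoc_of_le (by linarith)] at hy
    have hy' : |y| ≤ a := abs_le.2 ⟨by linarith [hy.1], hy.2⟩
    rw [Complex.norm_exp, Complex.re_mul_ofReal]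
    refine le_trans (Real.exp_le_exp.2 ?_) exp_half
    refine (le_abs_self _).trans ?_
    rw [abs_mul]
    calc |v.re| * |y| ≤ 1 * (1 / 2) := mul_le_mul hv (hy'.trans ha1) (abs_nonneg _) (by norm_num)
      _ = 1 / 2 := by norm_num
  rw [show a - -a = 2 * a by ring, abs_of_pos (by positivity)] at h1
  calc (2 * a)⁻¹ * ‖∫ y in (-a)..a, cexp (v * y)‖ ≤ (2 * a)⁻¹ * (2 * (2 * a)) :=
        mul_le_mul_of_nonneg_left h1 (by positivity)
    _ = 2 := by field_simp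

lemma exp_eighth : Real.exp (1 / 8) - 1 ≤ 1 / 7 := by
  have h1 := Real.add_one_le_exp (-(1 / 8 : ℝ))
  rw [Real.exp_neg] at h1
  have h2 := Real.exp_pos (1 / 8)
  have h3 : (-(1 / 8) + 1) * Real.exp (1 / 8) ≤ 1 := by
    calc (-(1 / 8) + 1) * Real.exp (1 / 8) ≤ (Real.exp (1 / 8))⁻¹ * Real.exp (1 / 8) :=
          mul_le_mul_of_nonneg_right h1 h2.le
      _ = 1 := inv_mul_cancel₀ h2.ne'
  linarith

/-- the variation of the whole function on the cluster -/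
lemma P_var {a R M r δ y0 : ℝ} {k N : ℕ} {z : ℕ → ℂ} (ha : 0 < a) (ha1 : a ≤ 1 / 2) (hR : 2 * Real.pi ≤ R)
    (hδ : 0 < δ) (hδ1 : δ ≤ 1) (hr : 0 < r) (hr1 : r ≤ 1) (hM : 0 < M)
    (hre : ∀ i < N, |((δ + y0 * I : ℂ) - z i).re| ≤ 2) (him : ∀ i < N, |((δ + y0 * I : ℂ) - z i).im| ≤ R)
    (hdist : ∀ i < N, r * M ≤ ‖(δ + y0 * I : ℂ) - z i‖)
    (hvar : 8 * N / M + (k + 1) * (4 * a * r) ≤ 1 / 8) {w : ℂ} (hw : ‖w - (δ + y0 * I)‖ ≤ r) :
    ∃ e : ℂ, ‖e‖ ≤ 1 / 7 ∧ sg a (w - y0 * I) ^ (k + 1) * Qz (Real.pi / R) N z w =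
      sg a ((δ + y0 * I : ℂ) - y0 * I) ^ (k + 1) * Qz (Real.pi / R) N z (δ + y0 * I) * (1 + e) := by
  obtain ⟨e1, h1, h2⟩ := Qz_var hR hr hr1 hM hre him hdist hw
  have hv : ‖(w - y0 * I) - δ‖ ≤ r := by
    have : (w - y0 * I) - δ = w - (δ + y0 * I) := by ring
    rw [this]
    exact hw
  obtain ⟨e2, h3, h4⟩ := sg_var ha ha1 (by rw [abs_of_pos hδ]; exact hδ1) hr1 hv
  set g : ℕ → ℂ := fun i => if i < N then e1 i else e2 with hg
  have hprod : ∏ i ∈ range (N + (k + 1)), (1 + g i) = (∏ i ∈ range N, (1 + e1 i)) * (1 + e2) ^ (k + 1) := by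
    rw [prod_range_add]
    congr 1
    · refine prod_congr rfl fun i hi => ?_
      simp only [hg, if_pos (mem_range.1 hi)]
    · rw [← Finset.card_range (k + 1), ← prod_const, Finset.card_range]
      refine prod_congr rfl fun i _ => ?_
      simp only [hg, if_neg (by omega : ¬ N + i < N)]
  have hsum : ∑ i ∈ range (N + (k + 1)), ‖g i‖ ≤ 1 / 8 := by
    rw [sum_range_add]
    have k1 : ∑ i ∈ range N, ‖g i‖ ≤ ∑ _i ∈ range N, 8 / M := by
      refine sum_le_sum fun i hi => ?_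
      simp only [hg, if_pos (mem_range.1 hi)]
      exact h1 i
    have k2 : ∑ i ∈ range (k + 1), ‖g (N + i)‖ ≤ ∑ _i ∈ range (k + 1), 4 * a * r := by
      refine sum_le_sum fun i _ => ?_
      simp only [hg, if_neg (by omega : ¬ N + i < N)]
      exact h3
    rw [sum_const, card_range, nsmul_eq_mul] at k1 k2
    have k3 : (N : ℝ) * (8 / M) = 8 * N / M := by ring
    push_cast at k2
    linarith
  refine ⟨(∏ i ∈ range N, (1 + e1 i)) * (1 + e2) ^ (k + 1) - 1, ?_, ?_⟩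
  · rw [← hprod]
    refine (Finset.norm_prod_one_add_sub_one_le _ _).trans ?_
    have := Real.exp_le_exp.2 hsum
    linarith [exp_eighth]
  · rw [h4, h2]
    have e5 : (δ + y0 * I : ℂ) - y0 * I = δ := by ring
    rw [e5, mul_pow]
    ring

section
variable [D : ZD] [EC : ZC]

/-- THE CORE -/
theorem core {a R y0 D0 t r M δ K : ℝ} {k N : ℕ} {z : ℕ → ℂ}
    (ha : 0 < a) (ha1 : a ≤ 1 / 2) (haR : 12 ≤ a * R) (hR : 2 * Real.pi ≤ R) (hN : 0 < N) (hRN : R ≤ N) (hD0 : 0 ≤ D0)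
    (hDR : 2 * (Real.pi / R * (D0 + 5)) ≤ 1) (ht : 0 ≤ t)
    (hz : ∀ i < N, |(z i).im - (y0 - R + 2 * R * i / N)| ≤ D0)
    (hzre : ∀ i < N, |(z i).re| ≤ 1) (hzim : ∀ i < N, |(z i).im - y0| ≤ R)
    (hδ : 0 < δ) (hδ1 : δ ≤ 1) (hρ : 1 / 2 + (δ + y0 * I : ℂ) ∈ D.Zs)
    (hr : 0 < r) (hr1 : r ≤ 1) (hrδ : r < δ) (hM : 0 < M)
    (hdist : ∀ i < N, r * M ≤ ‖(δ + y0 * I : ℂ) - z i‖)
    (hdist2 : ∀ i < N, Real.exp (-t) ≤ ‖(δ + y0 * I : ℂ) - z i‖ * (Real.pi / R / 2))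
    (hwin : ∀ ρ ∈ D.Zs, |ρ.im - y0| < R → ‖ρ - (1 / 2 + (δ + y0 * I))‖ ≤ r ∨ ∃ i < N, z i = ρ - 1 / 2)
    (hvar : 8 * N / M + (k + 1) * (4 * a * r) ≤ 1 / 8)
    (hK : ∑' ρ : Zt, (mu ρ : ℝ) * (1 / (1 + ((ρ : ℂ).im - y0) ^ 2)) ≤ K * Lg y0)
    (hbig : 64 * (K * Lg y0) / a ^ 2 * Real.exp (6 * (Real.pi / R * (D0 + 5)) * (1 + t) * (N * (1 + Real.log N))) < 36 ^ k) :
    ∃ f : ℝ → ℂ, Hd ((k + 1) * a + N * (Real.pi / R / 2)) f ∧ QQ f < 0 := by
  classical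
  have hpi := Real.pi_pos
  have hpi3 := Real.pi_gt_three
  have hR0 : 0 < R := by linarith
  have hR6 : 6 ≤ R := by linarith
  have hNr : (0 : ℝ) < N := by exact_mod_cast hN
  set h := Real.pi / R with hh
  have hh0 : 0 < h := by positivity
  set w0 : ℂ := δ + y0 * I with hw0
  have w0re : w0.re = δ := by rw [hw0]; simp
  have w0im : w0.im = y0 := by rw [hw0]; simp
  obtain ⟨f1, hf1, hTf1⟩ := exists_f1 ha hh0 k N z y0
  obtain ⟨f2, hf2, hTf2⟩ := exists_star hf1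
  obtain ⟨P, hP⟩ : ∃ P : ℂ → ℂ, P = fun w => sg a (w - y0 * I) ^ (k + 1) * Qz h N z w := ⟨_, rfl⟩
  have hTP : ∀ w, TT f1 w = P w := fun w => by rw [hTf1, hP]
  have hTP2 : ∀ w, TT f2 w = conj (P (-conj w)) := fun w => by rw [hTf2, hTP]
  -- geometry of the factors
  have hre : ∀ w : ℂ, |w.re| ≤ 1 → ∀ i < N, |(w - z i).re| ≤ 2 := by
    intro w hw i hi
    rw [Complex.sub_re]
    refine (abs_sub _ _).trans ?_
    linarith [hzre i hi]
  have hre0 : ∀ i < N, |(w0 - z i).re| ≤ 2 := hre w0 (by rw [w0re, abs_of_pos hδ]; exact hδ1)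
  have him0 : ∀ i < N, |(w0 - z i).im| ≤ R := by
    intro i hi
    rw [Complex.sub_im, w0im, abs_sub_comm]
    exact hzim i hi
  -- the value at the zero
  set X : ℝ := N * (1 + Real.log N) with hX
  have hlogN : 0 ≤ Real.log N := Real.log_natCast_nonneg N
  have hX0 : 0 ≤ X := by positivity
  set κ : ℝ := h * (D0 + 5) with hκ
  have hκ0 : 0 ≤ κ := by positivity
  have hlow := Qz_lower hN hR hRN hD0 hDR ht hz hre0 him0 hdist2
  rw [← hh, ← hκ, ← hX] at hlow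
  obtain ⟨cs, hcs1, hcs⟩ := sg_zero_re (δ := δ) ha
  obtain ⟨c0, hc0⟩ : ∃ c0 : ℂ, c0 = P w0 := ⟨_, rfl⟩
  have hc0n : 2 * Real.exp (-(2 * κ * (1 + t) * X)) ≤ ‖c0‖ := by
    rw [hc0, hP]
    simp only
    have e5 : w0 - y0 * I = (δ : ℂ) := by rw [hw0]; ring
    rw [norm_mul, norm_pow, e5, hcs, Complex.norm_real, Real.norm_of_nonneg (by linarith)]
    have h1 : 1 ≤ cs ^ (k + 1) := one_le_pow₀ hcs1
    have h2 : 0 ≤ ‖Qz h N z w0‖ := norm_nonneg _
    nlinarith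
  have hc0p : 0 < ‖c0‖ := lt_of_lt_of_le (by positivity) hc0n
  have hc0ne : c0 ≠ 0 := norm_pos_iff.1 hc0p
  -- the function
  set β : ℂ := -(c0 ^ 2 / ((‖c0‖ ^ 2 : ℝ) : ℂ)) with hβ
  have hβn : ‖β‖ = 1 := by
    rw [hβ, norm_neg, norm_div, norm_pow, Complex.norm_real, Real.norm_of_nonneg (by positivity)]
    field_simp
  set f : ℝ → ℂ := fun x => f1 x + β * f2 x with hf
  set b : ℝ := (k + 1) * a + N * (h / 2) with hb
  have hb0 : 0 < b := by positivity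
  have hfFa : Fa b f := hf1.add (hf2.smul β)
  have hTf : ∀ w, TT f w = P w + β * conj (P (-conj w)) := by
    intro w
    rw [hf, TT_add hf1 (hf2.smul β), TT_smul, hTP, hTP2]
  have hcc : ∀ w : ℂ, -conj (-conj w) = w := fun w => by simp
  -- bound of P
  set U : ℝ := 2 * Real.exp (κ * X) with hU
  have hU0 : 0 < U := by positivity
  have hPle : ∀ w : ℂ, |w.re| ≤ 1 → ‖P w‖ ≤ ‖sg a (w - y0 * I)‖ ^ (k + 1) * U := by
    intro w hw
    rw [hP]
    simp only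
    rw [norm_mul, norm_pow]
    refine mul_le_mul_of_nonneg_left ?_ (by positivity)
    exact Qz_upper hN hR hRN hD0 hz (hre w hw)
  have hsgY : ∀ w : ℂ, |w.re| ≤ 1 → |w.im - y0| * ‖sg a (w - y0 * I)‖ ≤ 2 / a := by
    intro w hw
    have e1 : (w - y0 * I).re = w.re := by simp
    have e2 : (w - y0 * I).im = w.im - y0 := by simp
    have h1 := sg_far' ha ha1 (w := w - y0 * I) (by rw [e1]; exact hw)
    refine le_trans (mul_le_mul_of_nonneg_right ?_ (norm_nonneg _)) h1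
    rw [← e2]
    exact Complex.abs_im_le_norm _
  have hsg2 : ∀ w : ℂ, |w.re| ≤ 1 → ‖sg a (w - y0 * I)‖ ≤ 2 := by
    intro w hw
    have e1 : (w - y0 * I).re = w.re := by simp
    exact norm_sg ha ha1 (by rw [e1]; exact hw)
  have hnc : ∀ w : ℂ, (-conj w).im = w.im ∧ |(-conj w).re| = |w.re| := fun w => by
    constructor <;> simp
  -- the domain
  have hDom : Dom f := by
    unfold Dom
    set C : ℝ := (2 * (U * 2 ^ k)) ^ 2 * (4 + 4 / a ^ 2) with hC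
    refine Summable.of_nonneg_of_le (fun ρ => by positivity) (fun ρ => ?_) ((zsummable y0).mul_left C)
    set w : ℂ := (ρ : ℂ) - 1 / 2 with hw
    have hw1 : |w.re| ≤ 1 := half_re ρ
    have wim : w.im = (ρ : ℂ).im := by rw [hw]; simp
    have g1 : ∀ v : ℂ, |v.re| ≤ 1 → v.im = w.im → ‖P v‖ ^ 2 ≤ (U * 2 ^ k) ^ 2 * ((4 + 4 / a ^ 2) * (1 / (1 + ((ρ : ℂ).im - y0) ^ 2))) := by
      intro v hv hvi
      have k1 := hPle v hv
      have k2 := hsgY v hv
      have k3 := hsg2 v hv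
      set s := ‖sg a (v - y0 * I)‖ with hs
      have hs0 : 0 ≤ s := norm_nonneg _
      set Y := (ρ : ℂ).im - y0 with hY
      rw [hvi, wim, ← hY] at k2
      have k4 : s ^ 2 * (1 + Y ^ 2) ≤ 4 + 4 / a ^ 2 := by
        have q1 : s ^ 2 ≤ 4 := by nlinarith
        have q2 : s ^ 2 * Y ^ 2 ≤ 4 / a ^ 2 := by
          have : (|Y| * s) ^ 2 ≤ (2 / a) ^ 2 := pow_le_pow_left₀ (by positivity) k2 2
          rw [mul_pow, sq_abs, div_pow] at this
          calc s ^ 2 * Y ^ 2 = Y ^ 2 * s ^ 2 := by ring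
            _ ≤ 2 ^ 2 / a ^ 2 := this
            _ = 4 / a ^ 2 := by norm_num
        linarith
      have k5 : s ^ 2 ≤ (4 + 4 / a ^ 2) * (1 / (1 + Y ^ 2)) := by
        rw [mul_one_div, le_div_iff₀ (by positivity)]
        exact k4
      have k6 : ‖P v‖ ≤ s * (U * 2 ^ k) := by
        refine k1.trans ?_
        rw [pow_succ]
        have : s ^ k ≤ 2 ^ k := pow_le_pow_left₀ hs0 k3 k
        calc s ^ k * s * U ≤ 2 ^ k * s * U := by gcongr
          _ = _ := by ring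
      calc ‖P v‖ ^ 2 ≤ (s * (U * 2 ^ k)) ^ 2 := pow_le_pow_left₀ (norm_nonneg _) k6 2
        _ = (U * 2 ^ k) ^ 2 * s ^ 2 := by ring
        _ ≤ _ := mul_le_mul_of_nonneg_left k5 (by positivity)
    have g2 : ‖TT f w‖ ^ 2 ≤ 2 * ‖P w‖ ^ 2 + 2 * ‖P (-conj w)‖ ^ 2 := by
      rw [hTf]
      refine (Pool.Agent.Y23.G.sq_add_le' _ _).trans ?_
      rw [norm_mul, hβn, one_mul, RCLike.norm_conj]
    have g3 := g1 w hw1 rfl
    have g4 := g1 (-conj w) (by rw [(hnc w).2]; exact hw1) (hnc w).1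
    have hμ : (0 : ℝ) ≤ mu (ρ : ℂ) := Nat.cast_nonneg _
    have g5 : ‖TT f w‖ ^ 2 ≤ C * (1 / (1 + ((ρ : ℂ).im - y0) ^ 2)) := by
      rw [hC]
      nlinarith
    calc (mu (ρ : ℂ) : ℝ) * ‖TT f w‖ ^ 2 ≤ (mu (ρ : ℂ) : ℝ) * (C * (1 / (1 + ((ρ : ℂ).im - y0) ^ 2))) :=
          mul_le_mul_of_nonneg_left g5 hμ
      _ = _ := by ring
  have hHd : Hd b f := (Hd_iff hb0 f).2 ⟨hfFa, hDom⟩
  refine ⟨f, hHd, ?_⟩
  -- the cluster
  have hclus : ∀ w : ℂ, ‖w - w0‖ ≤ r → P (-conj w) = 0 → (GG f f w).re ≤ -(1 / 2 * ‖c0‖ ^ 2) := by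
    intro w hw hz0
    obtain ⟨e, he, hPe⟩ := P_var (k := k) ha ha1 hR hδ hδ1 hr hr1 hM hre0 him0 hdist hvar hw
    have hPw : P w = c0 * (1 + e) := by
      rw [hc0, hP]
      exact hPe
    have hG : GG f f w = -(((‖c0‖ ^ 2 : ℝ) : ℂ) * (1 + e) ^ 2) := by
      unfold GG
      rw [hTf, hTf, hcc, hz0]
      simp only [map_zero, mul_zero, add_zero, zero_add]
      rw [map_mul, Complex.conj_conj, hPw, hβ, map_neg, map_div₀, map_pow, Complex.conj_ofReal]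
      have hcn : c0 * conj c0 = ((‖c0‖ ^ 2 : ℝ) : ℂ) := by
        rw [Complex.mul_conj, Complex.normSq_eq_norm_sq]
      have hne : ((‖c0‖ ^ 2 : ℝ) : ℂ) ≠ 0 := by
        have : ‖c0‖ ^ 2 ≠ 0 := by positivity
        exact_mod_cast this
      field_simp
      have : (conj c0) ^ 2 * c0 ^ 2 = ((‖c0‖ ^ 2 : ℝ) : ℂ) ^ 2 := by rw [← hcn]; ring
      linear_combination (-(1 + e) ^ 2) * this
    rw [hG, Complex.neg_re, Complex.re_ofReal_mul]
    have h1 : 1 / 2 ≤ ((1 + e) ^ 2).re := by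
      have e1 : (1 + e) ^ 2 = 1 + (2 * e + e ^ 2) := by ring
      rw [e1, Complex.add_re, Complex.one_re]
      have h2 : ‖2 * e + e ^ 2‖ ≤ 1 / 2 := by
        refine (norm_add_le _ _).trans ?_
        rw [norm_mul, norm_pow, Complex.norm_two]
        nlinarith [norm_nonneg e]
      have h3 := neg_le_of_abs_le ((Complex.abs_re_le_norm _).trans h2)
      linarith
    have h2 : 0 < ‖c0‖ ^ 2 := by positivity
    nlinarith
  -- the zeros of the window
  have hP0 : ∀ i < N, P (z i) = 0 := by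
    intro i hi
    rw [hP]
    simp only
    have : Qz h N z (z i) = 0 := by
      unfold Qz
      refine prod_eq_zero (mem_range.2 hi) ?_
      unfold Sf
      simp
    rw [this, mul_zero]
  have hwinP : ∀ ρ : Zt, |(ρ : ℂ).im - y0| < R → P ((ρ : ℂ) - 1 / 2) = 0 ∨
      (‖((ρ : ℂ) - 1 / 2) - w0‖ ≤ r ∧ P (-conj ((ρ : ℂ) - 1 / 2)) = 0) := by
    intro ρ hρw
    rcases hwin _ ρ.2 hρw with h1 | ⟨i, hi, h1⟩
    · right
      have h2 : ‖((ρ : ℂ) - 1 / 2) - w0‖ ≤ r := by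
        have : ((ρ : ℂ) - 1 / 2) - w0 = (ρ : ℂ) - (1 / 2 + w0) := by ring
        rw [this]
        exact h1
      refine ⟨h2, ?_⟩
      have hmem : 1 - conj (ρ : ℂ) ∈ D.Zs := D.refl _ ρ.2
      have e3 : -conj ((ρ : ℂ) - 1 / 2) = (1 - conj (ρ : ℂ)) - 1 / 2 := by
        rw [map_sub, map_div₀, map_one, map_ofNat]
        ring
      have him2 : (1 - conj (ρ : ℂ)).im = (ρ : ℂ).im := by simp
      rcases hwin _ hmem (by rw [him2]; exact hρw) with h3 | ⟨i, hi, h3⟩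
      · exfalso
        have k1 := (Complex.abs_re_le_norm _).trans h1
        have k2 := (Complex.abs_re_le_norm _).trans h3
        have k3 : ((ρ : ℂ) - (1 / 2 + w0)).re = (ρ : ℂ).re - (1 / 2 + δ) := by
          rw [Complex.sub_re, Complex.add_re, w0re]; norm_num
        have k4 : ((1 - conj (ρ : ℂ)) - (1 / 2 + w0)).re = 1 - (ρ : ℂ).re - (1 / 2 + δ) := by
          rw [Complex.sub_re, Complex.add_re, w0re, Complex.sub_re, Complex.conj_re, Complex.one_re]; norm_num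
        rw [k3] at k1
        rw [k4] at k2
        have k5 := (abs_le.1 k1).1
        have k6 := (abs_le.1 k2).1
        linarith
      · rw [e3, ← h3]
        exact hP0 i hi
    · left
      rw [← h1]
      exact hP0 i hi
  have hneg : ∀ ρ : Zt, |(ρ : ℂ).im - y0| < R → (GG f f ((ρ : ℂ) - 1 / 2)).re ≤ 0 := by
    intro ρ hρw
    have hc2 : -(1 / 2 * ‖c0‖ ^ 2) ≤ 0 := by
      have : 0 ≤ ‖c0‖ ^ 2 := by positivity
      linarith
    rcases hwinP ρ hρw with h1 | ⟨h1, h2⟩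
    · -- P w = 0
      set w : ℂ := (ρ : ℂ) - 1 / 2 with hw
      set ρ' : Zt := Pool.Agent.Y23.G.rfZ ρ with hρ'
      have e1 : (ρ' : ℂ) - 1 / 2 = -conj w := Pool.Agent.Y23.G.rfZ_sub ρ
      have him2 : (ρ' : ℂ).im = (ρ : ℂ).im := by rw [hρ', Pool.Agent.Y23.G.rfZ_val]; simp
      rcases hwinP ρ' (by rw [him2]; exact hρw) with h3 | ⟨h3, h4⟩
      · have : GG f f w = 0 := by
          unfold GG
          rw [hTf, hTf, hcc, h1]
          rw [e1] at h3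
          rw [h3]
          simp
        rw [this, Complex.zero_re]
      · rw [e1] at h3 h4
        have h5 := hclus (-conj w) h3 h4
        rw [GG_refl, Complex.conj_re] at h5
        linarith
    · have h5 := hclus _ h1 h2
      linarith
  have hρ0 : (GG f f w0).re ≤ -(1 / 2 * ‖c0‖ ^ 2) := by
    set ρ0 : Zt := ⟨1 / 2 + w0, hρ⟩ with hρ0
    have e1 : (ρ0 : ℂ) - 1 / 2 = w0 := by rw [hρ0]; ring
    have e2 : (ρ0 : ℂ).im - y0 = 0 := by
      have : (ρ0 : ℂ).im = w0.im := by rw [hρ0]; simp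
      rw [this, w0im, sub_self]
    rcases hwinP ρ0 (by rw [e2, abs_zero]; exact hR0) with h1 | ⟨h1, h2⟩
    · rw [e1] at h1
      rw [← hc0] at h1
      exact absurd h1 hc0ne
    · rw [e1] at h1 h2
      exact hclus w0 h1 h2
  -- the far zeros
  set CF : ℝ := 32 * U ^ 2 / (36 ^ k * a ^ 2) with hCF
  have hCF0 : 0 ≤ CF := by positivity
  have hfar : ∀ ρ : Zt, R ≤ |(ρ : ℂ).im - y0| → (GG f f ((ρ : ℂ) - 1 / 2)).re ≤ CF * (1 / (1 + ((ρ : ℂ).im - y0) ^ 2)) := by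
    intro ρ hρR
    set w : ℂ := (ρ : ℂ) - 1 / 2 with hw
    have hw1 : |w.re| ≤ 1 := half_re ρ
    have wim : w.im = (ρ : ℂ).im := by rw [hw]; simp
    set Y := |(ρ : ℂ).im - y0| with hY
    have hY0 : 0 < Y := by linarith
    have g1 : ∀ v : ℂ, |v.re| ≤ 1 → v.im = w.im → ‖P v‖ ≤ (1 / 6) ^ k * (2 / (a * Y)) * U := by
      intro v hv hvi
      have k1 := hPle v hv
      have k2 := hsgY v hv
      set s := ‖sg a (v - y0 * I)‖ with hs
      have hs0 : 0 ≤ s := norm_nonneg _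
      rw [hvi, wim, ← hY] at k2
      have k3 : s ≤ 2 / (a * Y) := by
        rw [le_div_iff₀ (by positivity)]
        rw [le_div_iff₀ ha] at k2
        linarith
      have k4 : s ≤ 1 / 6 := by
        refine k3.trans ?_
        rw [div_le_div_iff₀ (by positivity) (by norm_num)]
        nlinarith
      refine k1.trans ?_
      rw [pow_succ]
      have : s ^ k ≤ (1 / 6) ^ k := pow_le_pow_left₀ hs0 k4 k
      gcongr
    have g2 : ‖TT f w‖ ≤ 2 * ((1 / 6) ^ k * (2 / (a * Y)) * U) := by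
      rw [hTf]
      refine (norm_add_le _ _).trans ?_
      rw [norm_mul, hβn, one_mul, RCLike.norm_conj]
      have := g1 w hw1 rfl
      have := g1 (-conj w) (by rw [(hnc w).2]; exact hw1) (hnc w).1
      linarith
    have g3 : ‖TT f (-conj w)‖ ≤ 2 * ((1 / 6) ^ k * (2 / (a * Y)) * U) := by
      rw [hTf, hcc]
      refine (norm_add_le _ _).trans ?_
      rw [norm_mul, hβn, one_mul, RCLike.norm_conj]
      have := g1 w hw1 rfl
      have := g1 (-conj w) (by rw [(hnc w).2]; exact hw1) (hnc w).1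
      linarith
    have g4 : (GG f f w).re ≤ (2 * ((1 / 6) ^ k * (2 / (a * Y)) * U)) ^ 2 := by
      refine (le_abs_self _).trans ((Complex.abs_re_le_norm _).trans ?_)
      unfold GG
      rw [norm_mul, RCLike.norm_conj, sq]
      exact mul_le_mul g2 g3 (norm_nonneg _) (by positivity)
    refine g4.trans ?_
    have hY2 : ((ρ : ℂ).im - y0) ^ 2 = Y ^ 2 := by rw [hY, sq_abs]
    rw [hY2, hCF]
    have e6 : ((1 / 6 : ℝ) ^ k) ^ 2 = 1 / 36 ^ k := by
      rw [← pow_mul, mul_comm k 2, pow_mul, show ((1 : ℝ) / 6) ^ 2 = 1 / 36 by norm_num, one_div_pow]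
    have e7 : (2 * ((1 / 6) ^ k * (2 / (a * Y)) * U)) ^ 2 = 16 * U ^ 2 / (36 ^ k * a ^ 2) * (1 / Y ^ 2) := by
      calc (2 * ((1 / 6) ^ k * (2 / (a * Y)) * U)) ^ 2 = ((1 / 6 : ℝ) ^ k) ^ 2 * (16 * U ^ 2 / (a ^ 2 * Y ^ 2)) := by
            field_simp; ring
        _ = _ := by rw [e6]; field_simp
    rw [e7]
    have e8 : 1 / Y ^ 2 ≤ 2 * (1 / (1 + Y ^ 2)) := by
      rw [mul_one_div, div_le_div_iff₀ (by positivity) (by positivity)]
      nlinarith
    calc 16 * U ^ 2 / (36 ^ k * a ^ 2) * (1 / Y ^ 2) ≤ 16 * U ^ 2 / (36 ^ k * a ^ 2) * (2 * (1 / (1 + Y ^ 2))) :=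
          mul_le_mul_of_nonneg_left e8 (by positivity)
      _ = _ := by ring
  -- the sum
  have hsG : Summable (fun ρ : Zt => (mu ρ : ℝ) * (GG f f ((ρ : ℂ) - 1 / 2)).re) := by
    have h1 := (summable_GG hDom hDom).hasSum
    have h2 := (Complex.hasSum_re h1).summable
    refine h2.congr fun ρ => ?_
    have ecast : (mu (ρ : ℂ) : ℂ) * GG f f ((ρ : ℂ) - 1 / 2) = ((mu (ρ : ℂ) : ℝ) : ℂ) * GG f f ((ρ : ℂ) - 1 / 2) := by
      push_cast; rfl
    rw [ecast, Complex.re_ofReal_mul]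
  set ρ0 : Zt := ⟨1 / 2 + w0, hρ⟩ with hρ0d
  set maj : Zt → ℝ := fun ρ => CF * ((mu ρ : ℝ) * (1 / (1 + ((ρ : ℂ).im - y0) ^ 2))) +
    (if ρ = ρ0 then -(1 / 2 * ‖c0‖ ^ 2) else 0) with hmaj
  have hs1 := (zsummable (D := D) y0).mul_left CF
  have hs2 : Summable (fun ρ : Zt => if ρ = ρ0 then -(1 / 2 * ‖c0‖ ^ 2) else 0) :=
    summable_of_ne_finset_zero (s := {ρ0}) fun b hb => by
      rw [Finset.mem_singleton] at hb
      rw [if_neg hb]
  have hle : ∀ ρ : Zt, (mu ρ : ℝ) * (GG f f ((ρ : ℂ) - 1 / 2)).re ≤ maj ρ := by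
    intro ρ
    have hμ : (1 : ℝ) ≤ mu (ρ : ℂ) := by
      have := D.mpos _ ρ.2
      exact_mod_cast this
    have hp : 0 ≤ CF * ((mu (ρ : ℂ) : ℝ) * (1 / (1 + ((ρ : ℂ).im - y0) ^ 2))) := by positivity
    rw [hmaj]
    simp only
    by_cases h0 : ρ = ρ0
    · rw [if_pos h0]
      have e1 : (ρ : ℂ) - 1 / 2 = w0 := by rw [h0, hρ0d]; ring
      rw [e1]
      have hc2 : 0 ≤ ‖c0‖ ^ 2 := by positivity
      nlinarith
    · rw [if_neg h0, add_zero]
      rcases lt_or_ge |(ρ : ℂ).im - y0| R with h1 | h1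
      · have := hneg ρ h1
        nlinarith
      · have := hfar ρ h1
        calc (mu (ρ : ℂ) : ℝ) * (GG f f ((ρ : ℂ) - 1 / 2)).re ≤
              (mu (ρ : ℂ) : ℝ) * (CF * (1 / (1 + ((ρ : ℂ).im - y0) ^ 2))) :=
                mul_le_mul_of_nonneg_left this (by linarith)
          _ = _ := by ring
  have htot : QQ f ≤ CF * (K * Lg y0) - 1 / 2 * ‖c0‖ ^ 2 := by
    unfold QQ
    refine (hsG.tsum_le_tsum hle (hs1.add hs2)).trans ?_
    rw [hmaj, hs1.tsum_add hs2, tsum_mul_left, tsum_ite_eq]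
    have := mul_le_mul_of_nonneg_left hK hCF0
    linarith
  refine lt_of_le_of_lt htot ?_
  -- the final comparison
  have hKL : 0 ≤ K * Lg y0 := le_trans (tsum_nonneg fun ρ => by positivity) hK
  have hc2 : 4 * Real.exp (-(4 * κ * (1 + t) * X)) ≤ ‖c0‖ ^ 2 := by
    have h1 := pow_le_pow_left₀ (by positivity) hc0n 2
    have e1 : (2 * Real.exp (-(2 * κ * (1 + t) * X))) ^ 2 = 4 * Real.exp (-(4 * κ * (1 + t) * X)) := by
      rw [mul_pow, ← Real.exp_nat_mul]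
      norm_num
      ring
    rwa [e1] at h1
  have hU2 : U ^ 2 = 4 * Real.exp (2 * κ * X) := by
    rw [hU, mul_pow, ← Real.exp_nat_mul]
    norm_num
    ring
  have h1 : CF * (K * Lg y0) < 2 * Real.exp (-(4 * κ * (1 + t) * X)) := by
    have e1 : CF * (K * Lg y0) = 2 * (64 * (K * Lg y0) / a ^ 2 * Real.exp (2 * κ * X)) / 36 ^ k := by
      rw [hCF, hU2]
      field_simp
      ring
    rw [e1, div_lt_iff₀ (by positivity)]
    have e2 : Real.exp (2 * κ * X) = Real.exp (-(4 * κ * (1 + t) * X)) * Real.exp (2 * κ * X + 4 * κ * (1 + t) * X) := by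
      rw [← Real.exp_add]
      congr 1
      ring
    have e3 : 64 * (K * Lg y0) / a ^ 2 * Real.exp (2 * κ * X + 4 * κ * (1 + t) * X) < 36 ^ k := by
      refine lt_of_le_of_lt ?_ hbig
      refine mul_le_mul_of_nonneg_left (Real.exp_le_exp.2 ?_) (by positivity)
      have : 0 ≤ κ * X := by positivity
      nlinarith
    have e4 : 64 * (K * Lg y0) / a ^ 2 * Real.exp (2 * κ * X) < Real.exp (-(4 * κ * (1 + t) * X)) * 36 ^ k := by
      rw [e2]
      have e5 : 64 * (K * Lg y0) / a ^ 2 * (Real.exp (-(4 * κ * (1 + t) * X)) * Real.exp (2 * κ * X + 4 * κ * (1 + t) * X))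
        = Real.exp (-(4 * κ * (1 + t) * X)) * (64 * (K * Lg y0) / a ^ 2 * Real.exp (2 * κ * X + 4 * κ * (1 + t) * X)) := by
          ring
      rw [e5]
      exact mul_lt_mul_of_pos_left e3 (Real.exp_pos _)
    linarith
  linarith

end

end Pool.Agent.Zk4.B
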