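import Pool.Agent.Zk4.Bd

/-! # The converse of the local Weil criterion: from a zero off the line to a negative value -/

set_option autoImplicit false

open Complex Finset MeasureTheory Set
open scoped ComplexConjugate

namespace Pool.Agent.Zk4.B

open Pool.Agent.Y23.G (QQ Dom Hd Zt mu ZD ZC Lg one_le_Lg)

section
variable [D : ZD]

/-- an isolated cluster of zeros -/
lemma cluster {C : ℝ} (hcnt : ∀ t : ℝ, ∀ S : Finset ℂ, (∀ s ∈ S, s ∈ D.Zs ∧ |s.im - t| ≤ 1) →
      ((∑ s ∈ S, mu s : ℕ) : ℝ) ≤ C * Lg t) {ρ0 : ℂ} {δ M : ℝ} (hδ : 0 < δ) (hδ1 : δ ≤ 1) (hM : 1 < M) {n : ℕ}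
    (hn : C * Lg ρ0.im < n + 1) :
    ∃ r : ℝ, δ / M ^ (n + 1) ≤ r ∧ r * M ≤ δ ∧ ∀ ρ ∈ D.Zs, ‖ρ - ρ0‖ ≤ r ∨ r * M < ‖ρ - ρ0‖ := by
  have hM0 : 0 < M := by linarith
  by_contra hcon
  push Not at hcon
  have h1 : ∀ i : ℕ, i ≤ n → ∃ ρ ∈ D.Zs, δ / M ^ (i + 1) < ‖ρ - ρ0‖ ∧ ‖ρ - ρ0‖ ≤ δ / M ^ i := by
    intro i hi
    have h2 : δ / M ^ (n + 1) ≤ δ / M ^ (i + 1) :=
      div_le_div_of_nonneg_left hδ.le (by positivity) (pow_le_pow_right₀ hM.le (by omega))
    have e : δ / M ^ (i + 1) * M = δ / M ^ i := by rw [pow_succ]; field_simp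
    have h3 : δ / M ^ (i + 1) * M ≤ δ := by
      rw [e]
      exact div_le_self hδ.le (one_le_pow₀ hM.le)
    obtain ⟨ρ, hρ, h4, h5⟩ := hcon _ h2 h3
    rw [e] at h5
    exact ⟨ρ, hρ, h4, h5⟩
  choose! g hg1 hg2 hg3 using h1
  have hinj : ∀ i ∈ range (n + 1), ∀ j ∈ range (n + 1), g i = g j → i = j := by
    have key : ∀ i j, i ≤ n → j ≤ n → i < j → g i ≠ g j := by
      intro i j hi hj hij h
      have k1 := hg2 i hi
      have k2 := hg3 j hj
      rw [h] at k1
      have k3 : δ / M ^ j ≤ δ / M ^ (i + 1) :=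
        div_le_div_of_nonneg_left hδ.le (by positivity) (pow_le_pow_right₀ hM.le (by omega))
      linarith
    intro i hi j hj h
    rw [Finset.mem_range] at hi hj
    rcases lt_trichotomy i j with h1 | h1 | h1
    · exact absurd h (key i j (by omega) (by omega) h1)
    · exact h1
    · exact absurd h.symm (key j i (by omega) (by omega) h1)
  have hcard : ((range (n + 1)).image g).card = n + 1 := by
    rw [Finset.card_image_of_injOn (fun i hi j hj h => hinj i hi j hj h), Finset.card_range]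
  have h2 := hcnt ρ0.im ((range (n + 1)).image g) (by
    intro s hs
    rw [Finset.mem_image] at hs
    obtain ⟨i, hi, rfl⟩ := hs
    rw [Finset.mem_range] at hi
    refine ⟨hg1 i (by omega), ?_⟩
    have k1 := hg3 i (by omega)
    have k2 : δ / M ^ i ≤ δ := div_le_self hδ.le (one_le_pow₀ hM.le)
    have k3 := Complex.abs_im_le_norm (g i - ρ0)
    rw [Complex.sub_im] at k3
    linarith)
  have h3 : ((((range (n + 1)).image g).card : ℕ) : ℝ) ≤ ((∑ s ∈ (range (n + 1)).image g, mu s : ℕ) : ℝ) := by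
    have : ((range (n + 1)).image g).card ≤ ∑ s ∈ (range (n + 1)).image g, mu s := by
      rw [Finset.card_eq_sum_ones]
      refine Finset.sum_le_sum fun s hs => ?_
      rw [Finset.mem_image] at hs
      obtain ⟨i, hi, rfl⟩ := hs
      rw [Finset.mem_range] at hi
      exact D.mpos _ (hg1 i (by omega))
    exact_mod_cast this
  rw [hcard] at h3
  push_cast at h2 h3
  linarith

/-- the points of the product -/
lemma points {y0 Dl r δ rM : ℝ} {q B : ℕ} (hq : 0 < q) (hB : 0 < B) (hDl : 0 < Dl) (hδ : 0 < δ) (hrM1 : rM ≤ 1)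
    (hcntB : ∀ m < B, ∀ S : Finset ℂ, (∀ s ∈ S, s ∈ D.Zs ∧ y0 - B * Dl / 2 + m * Dl ≤ s.im ∧
      s.im ≤ y0 - B * Dl / 2 + m * Dl + Dl) → S.card ≤ q)
    (hsep : ∀ ρ ∈ D.Zs, ‖ρ - (1 / 2 + (δ + y0 * I))‖ ≤ r ∨ rM < ‖ρ - (1 / 2 + (δ + y0 * I))‖) :
    ∃ z : ℕ → ℂ, (∀ i < B * q, |(z i).im - (y0 - B * Dl / 2 + 2 * (B * Dl / 2) * i / ((B * q : ℕ) : ℝ))| ≤ Dl) ∧
      (∀ i < B * q, |(z i).re| ≤ 1) ∧ (∀ i < B * q, |(z i).im - y0| ≤ B * Dl / 2) ∧
      (∀ i < B * q, rM ≤ ‖(δ + y0 * I : ℂ) - z i‖) ∧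
      (∀ ρ ∈ D.Zs, |ρ.im - y0| < B * Dl / 2 → ‖ρ - (1 / 2 + (δ + y0 * I))‖ ≤ r ∨ ∃ i < B * q, z i = ρ - 1 / 2) := by
  classical
  have hqr : (0 : ℝ) < q := by exact_mod_cast hq
  have hBr : (0 : ℝ) < B := by exact_mod_cast hB
  set R : ℝ := B * Dl / 2 with hR
  have hR0 : 0 < R := by positivity
  -- the finite sets
  set J : ℕ → Set ℂ := fun m => {s | s ∈ D.Zs ∧ y0 - R + m * Dl ≤ s.im ∧ s.im ≤ y0 - R + m * Dl + Dl} with hJ
  have hfin : ∀ m < B, (J m).Finite := by
    intro m hm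
    by_contra hinf
    obtain ⟨S, hS, hcard⟩ := Set.Infinite.exists_subset_card_eq (s := J m) hinf (q + 1)
    have := hcntB m hm S (fun s hs => hS hs)
    omega
  set Fs : ℕ → Finset ℂ := fun m => if h : m < B then ((hfin m h).toFinset.filter
    (fun ρ => ¬ ‖ρ - (1 / 2 + (δ + y0 * I))‖ ≤ r)) else ∅ with hFs
  have hFmem : ∀ m < B, ∀ ρ, ρ ∈ Fs m ↔ (ρ ∈ J m ∧ ¬ ‖ρ - (1 / 2 + (δ + y0 * I))‖ ≤ r) := by
    intro m hm ρ
    simp only [hFs, dif_pos hm, Finset.mem_filter, Set.Finite.mem_toFinset]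
  have hFcard : ∀ m < B, (Fs m).card ≤ q := by
    intro m hm
    exact hcntB m hm (Fs m) fun s hs => ((hFmem m hm s).1 hs).1
  set l : ℕ → ℝ := fun i => y0 - R + 2 * R * i / ((B * q : ℕ) : ℝ) with hl
  set z : ℕ → ℂ := fun i => if h : i % q < (Fs (i / q)).toList.length then (Fs (i / q)).toList[i % q] - 1 / 2
    else -1 + (l i : ℝ) * I with hz
  -- the position of the lattice points
  have hlpos : ∀ i < B * q, y0 - R + (i / q : ℕ) * Dl ≤ l i ∧ l i ≤ y0 - R + (i / q : ℕ) * Dl + Dl := by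
    intro i _
    have e1 : l i = y0 - R + Dl / q * i := by
      simp only [hl, hR]
      push_cast
      field_simp
    have h1 : (i / q) * q ≤ i := Nat.div_mul_le_self i q
    have h2 : i < (i / q + 1) * q := by
      have := Nat.lt_div_mul_add (a := i) (b := q) hq
      linarith
    have h1' : ((i / q : ℕ) : ℝ) * q ≤ i := by exact_mod_cast h1
    have h2' : (i : ℝ) ≤ (((i / q : ℕ) : ℝ) + 1) * q := by exact_mod_cast h2.le
    have k1 : ((i / q : ℕ) : ℝ) * Dl ≤ Dl / q * i := by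
      rw [div_mul_eq_mul_div, le_div_iff₀ hqr]
      nlinarith
    have k2 : Dl / q * i ≤ ((i / q : ℕ) : ℝ) * Dl + Dl := by
      rw [div_mul_eq_mul_div, div_le_iff₀ hqr]
      nlinarith
    rw [e1]
    constructor <;> linarith
  have hmB : ∀ i < B * q, i / q < B := fun i hi => (Nat.div_lt_iff_lt_mul hq).2 hi
  have htot : ∀ m < B, (m : ℝ) * Dl + Dl ≤ 2 * R := by
    intro m hm
    have : (m : ℝ) + 1 ≤ B := by exact_mod_cast hm
    rw [hR]
    nlinarith
  -- alternatives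
  have halt : ∀ i < B * q, (∃ ρ ∈ D.Zs, z i = ρ - 1 / 2 ∧ y0 - R + (i / q : ℕ) * Dl ≤ ρ.im ∧
      ρ.im ≤ y0 - R + (i / q : ℕ) * Dl + Dl ∧ ¬ ‖ρ - (1 / 2 + (δ + y0 * I))‖ ≤ r) ∨ z i = -1 + (l i : ℝ) * I := by
    intro i hi
    by_cases h : i % q < (Fs (i / q)).toList.length
    · left
      have hm : (Fs (i / q)).toList[i % q] ∈ Fs (i / q) := by
        rw [← Finset.mem_toList]
        exact List.getElem_mem h
      have h2 := (hFmem _ (hmB i hi) _).1 hm
      exact ⟨_, h2.1.1, by simp only [hz, dif_pos h], h2.1.2.1, h2.1.2.2, h2.2⟩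
    · right
      simp only [hz, dif_neg h]
  have hli : ∀ i, (-1 + ((l i : ℝ) : ℂ) * I).im = l i := fun i => by simp
  have hlr : ∀ i, (-1 + ((l i : ℝ) : ℂ) * I).re = -1 := fun i => by simp
  refine ⟨z, fun i hi => ?_, fun i hi => ?_, fun i hi => ?_, fun i hi => ?_, fun ρ hρ hw => ?_⟩
  · have hlp := hlpos i hi
    show |(z i).im - l i| ≤ Dl
    rcases halt i hi with ⟨ρ, _, h1, h2, h3, _⟩ | h1
    · have e : (z i).im = ρ.im := by rw [h1]; simp
      rw [e, abs_le]
      constructor <;> linarith [hlp.1, hlp.2]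
    · rw [h1, hli, sub_self, abs_zero]
      exact hDl.le
  · rcases halt i hi with ⟨ρ, h0, h1, _⟩ | h1
    · have e : (z i).re = ρ.re - 1 / 2 := by rw [h1]; simp
      rw [e]
      exact D.strip ρ h0
    · rw [h1, hlr]
      norm_num
  · have hlp := hlpos i hi
    have ht := htot _ (hmB i hi)
    have h0 : (0 : ℝ) ≤ ((i / q : ℕ) : ℝ) * Dl := by positivity
    rcases halt i hi with ⟨ρ, _, h1, h2, h3, _⟩ | h1
    · have e : (z i).im = ρ.im := by rw [h1]; simp
      rw [e, abs_le]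
      constructor <;> linarith
    · rw [h1, hli, abs_le]
      constructor <;> linarith [hlp.1, hlp.2]
  · rcases halt i hi with ⟨ρ, h0, h1, _, _, h4⟩ | h1
    · rcases hsep ρ h0 with h5 | h5
      · exact absurd h5 h4
      · rw [h1]
        have : (δ + y0 * I : ℂ) - (ρ - 1 / 2) = -(ρ - (1 / 2 + (δ + y0 * I))) := by ring
        rw [this, norm_neg]
        exact h5.le
    · rw [h1]
      refine hrM1.trans ?_
      have h2 : ((δ + y0 * I : ℂ) - (-1 + (l i : ℝ) * I)).re = δ + 1 := by simp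
      have h3 := Complex.re_le_norm ((δ + y0 * I : ℂ) - (-1 + (l i : ℝ) * I))
      rw [h2] at h3
      linarith
  · by_cases hK : ‖ρ - (1 / 2 + (δ + y0 * I))‖ ≤ r
    · exact Or.inl hK
    · right
      rw [abs_lt] at hw
      set x : ℝ := (ρ.im - (y0 - R)) / Dl with hx
      have hx0 : 0 ≤ x := by
        rw [hx]
        exact div_nonneg (by linarith [hw.1]) hDl.le
      set m : ℕ := ⌊x⌋₊ with hm
      have hm1 : (m : ℝ) ≤ x := Nat.floor_le hx0
      have hm2 : x < m + 1 := Nat.lt_floor_add_one x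
      have hxm : x * Dl = ρ.im - (y0 - R) := by rw [hx]; field_simp
      have hmlt : m < B := by
        have : (m : ℝ) < B := by
          refine lt_of_le_of_lt hm1 ?_
          rw [hx, div_lt_iff₀ hDl]
          rw [hR] at hw ⊢
          linarith [hw.2]
        exact_mod_cast this
      have hρJ : ρ ∈ J m := by
        refine ⟨hρ, ?_, ?_⟩
        · nlinarith
        · nlinarith
      have hρF : ρ ∈ Fs m := (hFmem m hmlt ρ).2 ⟨hρJ, hK⟩
      rw [← Finset.mem_toList] at hρF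
      obtain ⟨j, hj, hjρ⟩ := List.getElem_of_mem hρF
      have hjq : j < q := by
        have := hFcard m hmlt
        rw [Finset.length_toList] at hj
        omega
      have e1 : (m * q + j) / q = m := by
        rw [add_comm, Nat.add_mul_div_right _ _ hq, Nat.div_eq_of_lt hjq, zero_add]
      have e2 : (m * q + j) % q = j := by
        rw [add_comm, Nat.add_mul_mod_self_right, Nat.mod_eq_of_lt hjq]
      refine ⟨m * q + j, ?_, ?_⟩
      · calc m * q + j < m * q + q := by omega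
          _ = (m + 1) * q := by ring
          _ ≤ B * q := Nat.mul_le_mul_right _ hmlt
      · simp only [hz]
        have h1 : (m * q + j) % q < (Fs ((m * q + j) / q)).toList.length := by rw [e1, e2]; exact hj
        rw [dif_pos h1]
        simp only [e1, e2]
        rw [hjρ]

end

end Pool.Agent.Zk4.B
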