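import Pool.Agent.Zk4.Be

/-! # The converse of the local Weil criterion: a zero off the line makes the form negative -/

set_option autoImplicit false

open Complex Finset MeasureTheory Set
open scoped ComplexConjugate

namespace Pool.Agent.Zk4.B

open Pool.Agent.Y23.G (QQ Dom Hd Zt mu ZD ZC Lg one_le_Lg)

section
variable [D : ZD] [EC : ZC]

theorem neg_of {C K : ℝ} (hcnt : ∀ t : ℝ, ∀ S : Finset ℂ, (∀ s ∈ S, s ∈ D.Zs ∧ |s.im - t| ≤ 1) →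
      ((∑ s ∈ S, mu s : ℕ) : ℝ) ≤ C * Lg t)
    (hK : ∀ t : ℝ, ∑' ρ : Zt, (mu ρ : ℝ) * (1 / (1 + ((ρ : ℂ).im - t) ^ 2)) ≤ K * Lg t)
    {y0 Dl δ M t R : ℝ} {q B n k : ℕ} (hRd : R = B * Dl / 2) (hq : 0 < q) (hB : 0 < B) (hDl : 0 < Dl) (hδ : 0 < δ)
    (hδ1 : δ ≤ 1) (hρ : 1 / 2 + (δ + y0 * I : ℂ) ∈ D.Zs)
    (hcntB : ∀ m < B, ∀ S : Finset ℂ, (∀ s ∈ S, s ∈ D.Zs ∧ y0 - R + m * Dl ≤ s.im ∧
      s.im ≤ y0 - R + m * Dl + Dl) → S.card ≤ q)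
    (hM : 1 < M) (hn : C * Lg y0 < n + 1) (hR : 24 ≤ R) (hDq : Dl ≤ 2 * q)
    (hDR : 2 * (Real.pi / R * (Dl + 5)) ≤ 1) (ht : 0 ≤ t) (htM : Real.exp (-t) ≤ δ / M ^ n * (Real.pi / R / 2))
    (hvar : (8 * ((B * q : ℕ) : ℝ) + (k + 1) * (4 * (12 / R))) / M ≤ 1 / 8)
    (hbig : 64 * (K * Lg y0) / (12 / R) ^ 2 * Real.exp (6 * (Real.pi / R * (Dl + 5)) * (1 + t) *
      (((B * q : ℕ) : ℝ) * (1 + Real.log ((B * q : ℕ) : ℝ)))) < 36 ^ k) :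
    ∃ f : ℝ → ℂ, Hd ((k + 1) * (12 / R) + ((B * q : ℕ) : ℝ) * (Real.pi / R / 2)) f ∧ QQ f < 0 := by
  have hpi := Real.pi_pos
  have hpi4 := Real.pi_le_four
  have hR0 : 0 < R := by linarith
  have hM0 : 0 < M := by linarith
  have hqr : (0 : ℝ) < q := by exact_mod_cast hq
  have hBr : (0 : ℝ) < B := by exact_mod_cast hB
  set ρ0 : ℂ := 1 / 2 + (δ + y0 * I : ℂ) with hρ0
  have him : ρ0.im = y0 := by rw [hρ0]; simp
  obtain ⟨r, hr1, hr2, hr3⟩ := cluster hcnt (ρ0 := ρ0) hδ hδ1 hM (n := n) (by rw [him]; exact hn)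
  have hr0 : 0 < r := lt_of_lt_of_le (by positivity) hr1
  have hrM : r ≤ 1 / M := by
    rw [le_div_iff₀ hM0]
    linarith
  have hrδ : r < δ := by nlinarith
  have hsep : ∀ ρ ∈ D.Zs, ‖ρ - (1 / 2 + (δ + y0 * I))‖ ≤ r ∨ r * M < ‖ρ - (1 / 2 + (δ + y0 * I))‖ := hr3
  obtain ⟨z, hz1, hz2, hz3, hz4, hz5⟩ := points (y0 := y0) (Dl := Dl) (r := r) (δ := δ) (rM := r * M) hq hB hDl hδ
    (by linarith) (by rw [← hRd]; exact hcntB) hsep
  rw [← hRd] at hz1 hz3 hz5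
  have hN : 0 < B * q := Nat.mul_pos hB hq
  refine core (a := 12 / R) (R := R) (y0 := y0) (D0 := Dl) (t := t) (r := r) (M := M) (δ := δ) (K := K) (k := k) (N := B * q)
    (z := z) (by positivity) ?_ ?_ (by linarith) hN ?_ hDl.le hDR ht hz1 hz2 hz3 hδ hδ1 hρ hr0 (by linarith) hrδ hM0 hz4
    (fun i hi => ?_) hz5 ?_ (hK y0) hbig
  · rw [div_le_div_iff₀ hR0 (by norm_num)]
    linarith
  · rw [div_mul_cancel₀ _ hR0.ne']
  · rw [hRd]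
    push_cast
    nlinarith
  · refine htM.trans (mul_le_mul_of_nonneg_right ?_ (by positivity))
    refine le_trans ?_ (hz4 i hi)
    have e : δ / M ^ n = δ / M ^ (n + 1) * M := by rw [pow_succ]; field_simp
    rw [e]
    exact mul_le_mul_of_nonneg_right hr1 hM0.le
  · have e1 : (8 * ((B * q : ℕ) : ℝ) + (k + 1) * (4 * (12 / R))) / M =
        8 * ((B * q : ℕ) : ℝ) / M + (k + 1) * (4 * (12 / R) * (1 / M)) := by ring
    rw [e1] at hvar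
    have h1 : ((k : ℝ) + 1) * (4 * (12 / R) * r) ≤ (k + 1) * (4 * (12 / R) * (1 / M)) := by
      refine mul_le_mul_of_nonneg_left (mul_le_mul_of_nonneg_left hrM (by positivity)) (by positivity)
    linarith

end

/-- polynomials are smaller than exponentials -/
lemma ev {c : ℝ} (hc : 0 < c) (A : ℝ) : ∃ L0 : ℝ, 1 ≤ L0 ∧ ∀ L : ℝ, L0 ≤ L → A * (L + 1) ^ 2 ≤ Real.exp (c * L) := by
  refine ⟨max 1 (24 * |A| / c ^ 3), le_max_left _ _, fun L hL => ?_⟩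
  have h1 : 1 ≤ L := (le_max_left _ _).trans hL
  have h2 : 24 * |A| / c ^ 3 ≤ L := (le_max_right _ _).trans hL
  rw [div_le_iff₀ (by positivity)] at h2
  have h3 := Real.pow_div_factorial_le_exp (x := c * L) (by positivity) 3
  refine le_trans ?_ h3
  have e : (Nat.factorial 3 : ℝ) = 6 := by norm_num [Nat.factorial]
  rw [e, le_div_iff₀ (by norm_num)]
  have h4 : A * (L + 1) ^ 2 ≤ |A| * (4 * L ^ 2) := by
    have h5 : (L + 1) ^ 2 ≤ 4 * L ^ 2 := by nlinarith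
    calc A * (L + 1) ^ 2 ≤ |A| * (L + 1) ^ 2 := mul_le_mul_of_nonneg_right (le_abs_self A) (sq_nonneg _)
      _ ≤ _ := mul_le_mul_of_nonneg_left h5 (abs_nonneg A)
  calc A * (L + 1) ^ 2 * 6 ≤ |A| * (4 * L ^ 2) * 6 := by linarith
    _ = 24 * |A| * L ^ 2 := by ring
    _ ≤ L * c ^ 3 * L ^ 2 := mul_le_mul_of_nonneg_right h2 (sq_nonneg L)
    _ = (c * L) ^ 3 := by ring

end Pool.Agent.Zk4.B
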