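import Pool.Agent.Zk4.Bf
import Pool.Agent.Zk2.WP.Fin

/-! # The converse of the local Weil criterion for the zeta function -/

set_option autoImplicit false

open Complex Finset MeasureTheory Set
open scoped ComplexConjugate

namespace Pool.Agent.Zk4.B

open Pool.Agent.Y23.G (QQ Dom Hd Zt mu ZD ZC Lg one_le_Lg zd zc zsum_le)
open Pool.Agent.Zk2.WP (zL zero_iff form_QQ)
open Pool.Agent.Zk4.W (Zs)

/-- the number of distinct zeros in windows of fixed length, with the sharp constant -/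
def SCnt : Prop := ∀ ε : ℝ, 0 < ε → ∃ D0 : ℝ, 1 ≤ D0 ∧ ∃ X0 : ℝ, ∀ X : ℝ, X0 ≤ X → ∀ t : ℝ, |t| ≤ X →
  ∀ S : Finset ℂ, (∀ s ∈ S, riemannZeta s = 0 ∧ 0 < s.re ∧ s.re < 1 ∧ t ≤ s.im ∧ s.im ≤ t + D0) →
    (S.card : ℝ) ≤ (1 + ε) * D0 / (2 * Real.pi) * Real.log X

lemma Hd_mono {a b : ℝ} {f : ℝ → ℂ} (hf : Hd a f) (h : a ≤ b) : Hd b f := ⟨hf.1.mono h, hf.2⟩

lemma four_le_exp : (4 : ℝ) ≤ Real.exp 2 := by
  have h3 : Real.exp 2 = Real.exp 1 ^ 2 := by rw [← Real.exp_nat_mul]; norm_num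
  rw [h3]
  nlinarith [Real.exp_one_gt_d9]

lemma le_exp_five : (128 : ℝ) ≤ Real.exp 5 := by
  have h3 : Real.exp 5 = Real.exp 1 ^ 5 := by rw [← Real.exp_nat_mul]; norm_num
  rw [h3]
  have h4 : (2.7 : ℝ) ^ 5 ≤ Real.exp 1 ^ 5 := pow_le_pow_left₀ (by norm_num) (by linarith [Real.exp_one_gt_d9]) 5
  norm_num at h4
  linarith

lemma exp_three_le : Real.exp 3 ≤ 36 := by
  have e2 : Real.exp 3 = Real.exp 1 ^ 3 := by rw [← Real.exp_nat_mul]; norm_num
  rw [e2]
  have h4 : Real.exp 1 ^ 3 ≤ (2.8 : ℝ) ^ 3 := pow_le_pow_left₀ (Real.exp_pos _).le (by linarith [Real.exp_one_lt_d9]) 3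
  norm_num at h4
  linarith

lemma two_exp_le (L : ℝ) : 2 * Real.exp L ≤ Real.exp (L + 1) := by
  rw [Real.exp_add]
  nlinarith [Real.exp_pos L, Real.exp_one_gt_d9]

lemma exp_neg_le_pi {R L : ℝ} (hR : 0 < R) (h : R ≤ 2 * Real.exp L) : Real.exp (-(L + 1)) ≤ Real.pi / R / 2 := by
  have h4 := two_exp_le L
  have hp := Real.exp_pos L
  rw [div_div, Real.exp_neg, le_div_iff₀ (by positivity), inv_mul_le_iff₀ (Real.exp_pos _)]
  calc R * 2 ≤ 2 * Real.exp L * 3 := by linarith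
    _ ≤ Real.exp (L + 1) * Real.pi := mul_le_mul h4 Real.pi_gt_three.le (by norm_num) (Real.exp_pos _).le

/-- one zero off the line makes the form negative -/
theorem exists_neg (hS : SCnt) {ε : ℝ} (hε : 0 < ε) (hε1 : ε < 1) : ∃ L0 : ℝ, ∀ L : ℝ, L0 ≤ L → ∀ ρ ∈ Zs,
    |ρ.im| ≤ Real.exp ((1 - ε) * L) → Real.exp (-Real.exp ((1 - ε) * L)) < ρ.re - 1 / 2 →
      ∃ f : ℝ → ℂ, Hd (L / 2) f ∧ QQ (D := zd (L := zL)) f < 0 := by
  obtain ⟨Dl, hDl1, X0, hX0⟩ := hS (ε / 8) (by positivity)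
  obtain ⟨C, hC, hcnt⟩ := (zd (L := zL)).cnt
  obtain ⟨K, hK, hKz⟩ := zsum_le (D := zd (L := zL))
  have hDl : 0 < Dl := by linarith
  have hpi := Real.pi_gt_three
  have hpi4 := Real.pi_le_four
  have hpi5 := Real.pi_lt_d2
  set A : ℝ := |X0| + 24 + 8 * (Dl + 5) + 96 / ε + 4 * K + (32 / ε) * (96 * (Dl + 5) + 10) with hA
  obtain ⟨La, hLa1, hLa⟩ := ev (c := ε / 2) (by positivity) A
  obtain ⟨Lb, hLb1, hLb⟩ := ev (c := 1 - ε) (by linarith) (10 * C + 2)
  refine ⟨max (max La Lb) (max 20 (16 / ε)), fun L hL ρ hρ him hre => ?_⟩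
  have hL1 : La ≤ L := (le_max_left _ _).trans ((le_max_left _ _).trans hL)
  have hL2 : Lb ≤ L := (le_max_right _ _).trans ((le_max_left _ _).trans hL)
  have hL3 : 20 ≤ L := (le_max_left _ _).trans ((le_max_right _ _).trans hL)
  have hL4 : 16 / ε ≤ L := (le_max_right _ _).trans ((le_max_right _ _).trans hL)
  rw [div_le_iff₀ hε] at hL4
  set Lp : ℝ := L + 1 with hLp
  have hLp1 : 1 ≤ Lp := by linarith
  have hLp2 : 1 ≤ Lp ^ 2 := one_le_pow₀ hLp1
  have hLpL : Lp ≤ Lp ^ 2 := by nlinarith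
  set Eh : ℝ := Real.exp (ε / 2 * L) with hEh
  set E1 : ℝ := Real.exp ((1 - ε) * L) with hE1
  set E2 : ℝ := Real.exp ((1 - ε / 2) * L) with hE2
  have hA1 : A * Lp ^ 2 ≤ Eh := hLa L hL1
  have hA2 : (10 * C + 2) * Lp ^ 2 ≤ E1 := hLb L hL2
  have hE21 : E2 = E1 * Eh := by rw [hE2, hE1, hEh, ← Real.exp_add]; congr 1; ring
  have hE2L : E2 * Eh = Real.exp L := by rw [hE2, hEh, ← Real.exp_add]; congr 1; ring
  have hεL : 0 ≤ (1 - ε) * L := mul_nonneg (by linarith) (by linarith)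
  have hεL2 : 0 ≤ ε * L := mul_nonneg hε.le (by linarith)
  have hE11 : 1 ≤ E1 := Real.one_le_exp hεL
  have hEhA : A ≤ Eh := by
    have hA0 : 0 ≤ A := by positivity
    exact (le_mul_of_one_le_right hA0 hLp2).trans hA1
  -- the parts of A
  have p1 : 0 ≤ |X0| := abs_nonneg _
  have p2 : 0 ≤ 96 / ε := by positivity
  have p3 : 0 ≤ (32 / ε) * (96 * (Dl + 5) + 10) := by positivity
  have hA24 : 24 ≤ A := by rw [hA]; linarith
  have hEh1 : 1 ≤ Eh := by linarith
  have hE2h : Eh ≤ E2 := by rw [hE21]; exact le_mul_of_one_le_left (by linarith) hE11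
  have hE12 : E1 ≤ E2 := by rw [hE21]; exact le_mul_of_one_le_right (by linarith) hEh1
  have hE2e : E2 ≤ Real.exp L := by rw [← hE2L]; exact le_mul_of_one_le_right (by linarith) hEh1
  have hE2A : A ≤ E2 := hEhA.trans hE2h
  have hE20 : 0 < E2 := Real.exp_pos _
  have hE10 : 0 < E1 := Real.exp_pos _
  -- the window
  set B : ℕ := ⌈2 * E2 / Dl⌉₊ with hB
  set R : ℝ := B * Dl / 2 with hR
  have hB1 : 2 * E2 / Dl ≤ B := Nat.le_ceil _
  have hB2 : (B : ℝ) < 2 * E2 / Dl + 1 := Nat.ceil_lt_add_one (by positivity)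
  have hRE : E2 ≤ R := by
    rw [hR]
    rw [div_le_iff₀ hDl] at hB1
    linarith
  have hRE2 : R ≤ 2 * E2 := by
    have h1 : (B : ℝ) * Dl ≤ 2 * E2 + Dl := by
      have := mul_le_mul_of_nonneg_right hB2.le hDl.le
      rw [add_mul, div_mul_cancel₀ _ hDl.ne', one_mul] at this
      exact this
    have h2 : Dl ≤ A := by rw [hA]; linarith
    rw [hR]
    linarith
  have hR0 : 0 < R := by linarith
  have hBpos : 0 < B := by
    have : (0 : ℝ) < B := lt_of_lt_of_le (by positivity) hB1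
    exact_mod_cast this
  have hBr : (0 : ℝ) < B := by exact_mod_cast hBpos
  set X : ℝ := 3 * E2 with hX
  have hlog3 : Real.log 3 ≤ 1.1 := by
    have h := Real.log_three_lt_d9
    linarith
  have hlog3' : 0 ≤ Real.log 3 := Real.log_nonneg (by norm_num)
  have hlogX : Real.log X = Real.log 3 + (1 - ε / 2) * L := by
    rw [hX, Real.log_mul (by norm_num) hE20.ne', hE2, Real.log_exp]
  set x : ℝ := (1 + ε / 8) * Dl / (2 * Real.pi) * Real.log X with hx
  set q : ℕ := ⌊x⌋₊ with hq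
  have hlogX0 : L / 2 ≤ Real.log X := by rw [hlogX]; linarith
  have hx0 : 0 ≤ x := by
    have : 0 ≤ Real.log X := by linarith
    positivity
  have hqx : (q : ℝ) ≤ x := Nat.floor_le hx0
  have hxq : x < q + 1 := Nat.lt_floor_add_one x
  have hxlow : Dl * L / 13 ≤ x := by
    rw [hx, div_mul_eq_mul_div, div_le_div_iff₀ (by norm_num) (by positivity)]
    have h1 : Dl * (L / 2) ≤ (1 + ε / 8) * Dl * Real.log X := by
      have h2 : Dl * (L / 2) ≤ Dl * Real.log X := mul_le_mul_of_nonneg_left hlogX0 hDl.le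
      have h3 : 0 ≤ Dl * Real.log X := by
        have : 0 ≤ Real.log X := by linarith
        positivity
      have h5 : 0 ≤ ε / 8 * (Dl * Real.log X) := mul_nonneg (by linarith) h3
      linarith
    have h4 : 0 ≤ Dl * L := mul_nonneg hDl.le (by linarith)
    have h5 : Dl * L * (2 * Real.pi) ≤ Dl * L * 6.3 := mul_le_mul_of_nonneg_left (by linarith) h4
    linarith
  have hDq : Dl ≤ 2 * q := by
    have : Dl * 20 ≤ Dl * L := mul_le_mul_of_nonneg_left hL3 hDl.le
    linarith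
  have hqpos : 0 < q := by
    have : (0 : ℝ) < q := by linarith
    exact_mod_cast this
  have hqr : (0 : ℝ) < q := by exact_mod_cast hqpos
  have hqL : (q : ℝ) ≤ Dl * Lp := by
    refine hqx.trans ?_
    rw [hx, div_mul_eq_mul_div, div_le_iff₀ (by positivity)]
    have h1 : Real.log X ≤ 2 * Lp := by rw [hlogX, hLp]; linarith
    have h2 : 0 ≤ Real.log X := by linarith
    have h3 : (1 + ε / 8) * Dl * Real.log X ≤ (9 / 8) * Dl * (2 * Lp) :=
      mul_le_mul (mul_le_mul_of_nonneg_right (by linarith) hDl.le) h1 h2 (by positivity)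
    have h4 : 0 ≤ Dl * Lp := mul_nonneg hDl.le (by linarith)
    have h5 : Dl * Lp * 6 ≤ Dl * Lp * (2 * Real.pi) := mul_le_mul_of_nonneg_left (by linarith) h4
    linarith
  have hpiq : Real.pi * q / Dl ≤ (1 + ε / 8) / 2 * (Real.log 3 + (1 - ε / 2) * L) := by
    rw [div_le_iff₀ hDl, ← hlogX]
    calc Real.pi * q ≤ Real.pi * x := mul_le_mul_of_nonneg_left hqx (by positivity)
      _ = _ := by rw [hx]; field_simp
  -- the number of factors
  set N : ℕ := B * q with hN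
  have hNr : ((N : ℕ) : ℝ) = 2 * R / Dl * q := by
    rw [hN, hR]
    push_cast
    field_simp
  have hN2 : (N : ℝ) ≤ 2 * R * Lp := by
    rw [hNr, div_mul_eq_mul_div, div_le_iff₀ hDl]
    calc 2 * R * q ≤ 2 * R * (Dl * Lp) := mul_le_mul_of_nonneg_left hqL (by linarith)
      _ = _ := by ring
  have hNL : (N : ℝ) ≤ Real.exp L := by
    refine hN2.trans ?_
    rw [← hE2L]
    have h1 : 4 * Lp ≤ Eh := by
      have h2 : 24 * Lp ^ 2 ≤ A * Lp ^ 2 := mul_le_mul_of_nonneg_right hA24 (sq_nonneg _)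
      linarith
    calc 2 * R * Lp ≤ 2 * (2 * E2) * Lp := by gcongr
      _ = E2 * (4 * Lp) := by ring
      _ ≤ E2 * Eh := mul_le_mul_of_nonneg_left h1 hE20.le
  have hNpos : 0 < N := Nat.mul_pos hBpos hqpos
  have hN0 : (0 : ℝ) < N := by exact_mod_cast hNpos
  have hlogN : Real.log N ≤ L := by
    rw [Real.log_le_iff_le_exp hN0]
    exact hNL
  have hlogN0 : 0 ≤ Real.log N := Real.log_natCast_nonneg N
  -- M and n
  set M : ℝ := 64 * (N + L) with hM
  have hM1 : 1 < M := by rw [hM]; linarith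
  have hLe : L + 1 ≤ Real.exp L := Real.add_one_le_exp L
  have he1 : 2 < Real.exp 1 := by linarith [Real.exp_one_gt_d9]
  have hMe : M ≤ Real.exp (5 * Lp) := by
    have h1 : M ≤ 128 * Real.exp L := by rw [hM]; linarith
    have h2 := le_exp_five
    calc M ≤ 128 * Real.exp L := h1
      _ ≤ Real.exp 5 * Real.exp L := mul_le_mul_of_nonneg_right h2 (Real.exp_pos _).le
      _ = Real.exp (5 + L) := by rw [Real.exp_add]
      _ ≤ _ := Real.exp_le_exp.2 (by rw [hLp]; linarith)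
  set y0 : ℝ := ρ.im with hy0
  have hLg : Lg y0 ≤ 2 * Lp := by
    unfold Lg
    rw [Real.log_le_iff_le_exp (by positivity)]
    have h1 : (3 : ℝ) + |y0| ≤ 4 * Real.exp L := by
      have := him.trans (hE12.trans hE2e)
      linarith
    have h2 := four_le_exp
    calc (3 : ℝ) + |y0| ≤ 4 * Real.exp L := h1
      _ ≤ Real.exp 2 * Real.exp L := mul_le_mul_of_nonneg_right h2 (Real.exp_pos _).le
      _ = Real.exp (2 + L) := by rw [Real.exp_add]
      _ ≤ _ := Real.exp_le_exp.2 (by rw [hLp]; linarith)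
  have hLg1 := one_le_Lg y0
  set n : ℕ := ⌊C * Lg y0⌋₊ with hn
  have hn1 : C * Lg y0 < n + 1 := Nat.lt_floor_add_one _
  have hn2 : (n : ℝ) ≤ 2 * C * Lp := by
    refine (Nat.floor_le (by positivity)).trans ?_
    calc C * Lg y0 ≤ C * (2 * Lp) := mul_le_mul_of_nonneg_left hLg hC.le
      _ = _ := by ring
  have hMn : M ^ n ≤ Real.exp (10 * C * Lp ^ 2) := by
    calc M ^ n ≤ Real.exp (5 * Lp) ^ n := pow_le_pow_left₀ (by linarith) hMe n
      _ = Real.exp (n * (5 * Lp)) := by rw [← Real.exp_nat_mul]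
      _ ≤ _ := by
        refine Real.exp_le_exp.2 ?_
        calc (n : ℝ) * (5 * Lp) ≤ 2 * C * Lp * (5 * Lp) := mul_le_mul_of_nonneg_right hn2 (by positivity)
          _ = _ := by ring
  set t : ℝ := E1 + 10 * C * Lp ^ 2 + Lp with ht
  have ht0 : 0 ≤ t := by positivity
  set δ : ℝ := ρ.re - 1 / 2 with hδ
  have hδ0 : 0 < δ := lt_trans (Real.exp_pos _) hre
  have hδ1 : δ ≤ 1 := by rw [hδ]; linarith [hρ.2.2]
  have htM : Real.exp (-t) ≤ δ / M ^ n * (Real.pi / R / 2) := by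
    have e1 : Real.exp (-t) = Real.exp (-E1) * (Real.exp (10 * C * Lp ^ 2))⁻¹ * Real.exp (-Lp) := by
      rw [← Real.exp_neg, ← Real.exp_add, ← Real.exp_add]
      congr 1
      rw [ht]
      ring
    rw [e1, div_eq_mul_inv]
    have h1 : (Real.exp (10 * C * Lp ^ 2))⁻¹ ≤ (M ^ n)⁻¹ := inv_anti₀ (by positivity) hMn
    have h2 : Real.exp (-Lp) ≤ Real.pi / R / 2 := exp_neg_le_pi hR0 (by linarith)
    exact mul_le_mul (mul_le_mul hre.le h1 (by positivity) hδ0.le) h2 (by positivity) (by positivity)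
  -- k
  set κ : ℝ := ε * L * R / 96 with hκ
  have hκ1 : 1 ≤ κ := by
    have h1 : 96 / ε ≤ R := by
      have : 96 / ε ≤ A := by rw [hA]; linarith
      linarith
    rw [div_le_iff₀ hε] at h1
    rw [hκ, le_div_iff₀ (by norm_num)]
    have h2 : R * ε * 1 ≤ R * ε * L := mul_le_mul_of_nonneg_left (by linarith) (by positivity)
    linarith
  have hfl : 1 ≤ ⌊κ⌋₊ := by
    rw [Nat.one_le_floor_iff]
    exact hκ1
  obtain ⟨k, hk⟩ : ∃ k : ℕ, ⌊κ⌋₊ = k + 1 := ⟨⌊κ⌋₊ - 1, by omega⟩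
  have hk1 : (k : ℝ) + 1 ≤ κ := by
    have := Nat.floor_le (by linarith : 0 ≤ κ)
    rw [hk] at this
    push_cast at this
    exact this
  have hk2 : κ < k + 2 := by
    have := Nat.lt_floor_add_one κ
    rw [hk] at this
    push_cast at this
    linarith
  have hka : ((k : ℝ) + 1) * (12 / R) ≤ ε * L / 8 := by
    calc ((k : ℝ) + 1) * (12 / R) ≤ κ * (12 / R) := mul_le_mul_of_nonneg_right hk1 (by positivity)
      _ = ε * L / 8 := by rw [hκ]; field_simp; ring
  -- the conditions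
  have g1 : (1 / 2 + (δ + y0 * I : ℂ)) ∈ (zd (L := zL)).Zs := by
    have : (1 / 2 + (δ + y0 * I) : ℂ) = ρ := by
      apply Complex.ext
      · simp [hδ]
      · simp [hy0]
    rw [this]
    exact (zero_iff ρ).1 hρ
  have g2 : ∀ m < B, ∀ S : Finset ℂ, (∀ s ∈ S, s ∈ (zd (L := zL)).Zs ∧ y0 - R + m * Dl ≤ s.im ∧
      s.im ≤ y0 - R + m * Dl + Dl) → S.card ≤ q := by
    intro m hm S hSm
    have hmB : (m : ℝ) * Dl ≤ 2 * R := by
      have h1 : (m : ℝ) ≤ B := by exact_mod_cast hm.le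
      have h2 := mul_le_mul_of_nonneg_right h1 hDl.le
      rw [hR]
      linarith
    have hm0 : 0 ≤ (m : ℝ) * Dl := by positivity
    have h1 := hX0 X (by
      have h2 := le_abs_self X0
      have h3 : |X0| ≤ A := by rw [hA]; linarith
      rw [hX]
      linarith) (y0 - R + m * Dl) (by
      rw [abs_le]
      have h2 := abs_le.1 him
      rw [hX]
      constructor <;> linarith [h2.1, h2.2]) S (fun s hs => by
      obtain ⟨h2, h3, h4⟩ := hSm s hs
      obtain ⟨h5, h6, h7⟩ := (zero_iff s).2 h2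
      exact ⟨h5, h6, h7, h3, h4⟩)
    exact Nat.le_floor h1
  have g3 : 2 * (Real.pi / R * (Dl + 5)) ≤ 1 := by
    have h1 : 8 * (Dl + 5) ≤ R := by
      have : 8 * (Dl + 5) ≤ A := by rw [hA]; linarith
      linarith
    have e1 : 2 * (Real.pi / R * (Dl + 5)) = 2 * Real.pi * (Dl + 5) / R := by ring
    rw [e1, div_le_one hR0]
    have h2 : 2 * Real.pi * (Dl + 5) ≤ 8 * (Dl + 5) := mul_le_mul_of_nonneg_right (by linarith) (by linarith)
    linarith
  have g4 : (8 * ((B * q : ℕ) : ℝ) + (k + 1) * (4 * (12 / R))) / M ≤ 1 / 8 := by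
    show (8 * ((N : ℕ) : ℝ) + (k + 1) * (4 * (12 / R))) / M ≤ 1 / 8
    rw [div_le_iff₀ (by linarith)]
    have h1 : ((k : ℝ) + 1) * (4 * (12 / R)) ≤ L / 2 := by
      have : ((k : ℝ) + 1) * (4 * (12 / R)) = 4 * (((k : ℝ) + 1) * (12 / R)) := by ring
      rw [this]
      have h2 : ε * L ≤ 1 * L := mul_le_mul_of_nonneg_right hε1.le (by linarith)
      linarith
    rw [hM]
    linarith
  have g5 : 64 * (K * Lg y0) / (12 / R) ^ 2 * Real.exp (6 * (Real.pi / R * (Dl + 5)) * (1 + t) *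
      (((B * q : ℕ) : ℝ) * (1 + Real.log ((B * q : ℕ) : ℝ)))) < 36 ^ k := by
    show 64 * (K * Lg y0) / (12 / R) ^ 2 * Real.exp (6 * (Real.pi / R * (Dl + 5)) * (1 + t) *
      (((N : ℕ) : ℝ) * (1 + Real.log ((N : ℕ) : ℝ)))) < 36 ^ k
    have h1 : 64 * (K * Lg y0) / (12 / R) ^ 2 ≤ Real.exp (3 * L) := by
      have e1 : 64 * (K * Lg y0) / (12 / R) ^ 2 = 4 / 9 * K * Lg y0 * R ^ 2 := by field_simp; ring
      rw [e1]
      have h2 : R ^ 2 ≤ 4 * E2 ^ 2 := by
        have := pow_le_pow_left₀ hR0.le hRE2 2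
        rw [mul_pow] at this
        norm_num at this
        exact this
      have h3 : E2 ^ 2 ≤ Real.exp L ^ 2 := pow_le_pow_left₀ hE20.le hE2e 2
      have h4 : 4 * K * Lp ≤ Real.exp L := by
        have h5 : 4 * K ≤ A := by rw [hA]; linarith
        calc 4 * K * Lp ≤ A * Lp ^ 2 := mul_le_mul h5 hLpL (by linarith) (by linarith)
          _ ≤ Eh := hA1
          _ ≤ Real.exp L := hE2h.trans hE2e
      have e3 : Real.exp (3 * L) = Real.exp L * Real.exp L ^ 2 := by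
        rw [← Real.exp_nat_mul, ← Real.exp_add]
        congr 1
        push_cast
        ring
      rw [e3]
      calc 4 / 9 * K * Lg y0 * R ^ 2 ≤ 4 / 9 * K * (2 * Lp) * (4 * Real.exp L ^ 2) := by
            gcongr
            linarith
        _ = (32 / 9) * K * Lp * Real.exp L ^ 2 := by ring
        _ ≤ 4 * K * Lp * Real.exp L ^ 2 := by
            have : 0 ≤ K * Lp * Real.exp L ^ 2 := by positivity
            linarith
        _ ≤ _ := mul_le_mul_of_nonneg_right h4 (by positivity)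
    have h2 : 6 * (Real.pi / R * (Dl + 5)) * (1 + t) * ((N : ℝ) * (1 + Real.log N)) ≤ 96 * (Dl + 5) * E1 * Lp ^ 2 := by
      have h3 : 1 + t ≤ 2 * E1 := by
        rw [ht]
        linarith
      have h4 : (N : ℝ) * (1 + Real.log N) ≤ 2 * R * Lp * Lp :=
        mul_le_mul hN2 (by rw [hLp]; linarith) (by linarith) (by positivity)
      calc 6 * (Real.pi / R * (Dl + 5)) * (1 + t) * ((N : ℝ) * (1 + Real.log N))
          ≤ 6 * (4 / R * (Dl + 5)) * (2 * E1) * (2 * R * Lp * Lp) := by gcongr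
        _ = _ := by field_simp; ring
    have h3 : Real.exp (3 * (k : ℝ)) ≤ 36 ^ k := by
      have e1 : Real.exp (3 * (k : ℝ)) = Real.exp 3 ^ k := by rw [← Real.exp_nat_mul]; congr 1; ring
      rw [e1]
      exact pow_le_pow_left₀ (Real.exp_pos _).le exp_three_le k
    refine lt_of_lt_of_le ?_ h3
    calc 64 * (K * Lg y0) / (12 / R) ^ 2 * Real.exp (6 * (Real.pi / R * (Dl + 5)) * (1 + t) *
          ((N : ℝ) * (1 + Real.log N))) ≤ Real.exp (3 * L) * Real.exp (96 * (Dl + 5) * E1 * Lp ^ 2) :=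
          mul_le_mul h1 (Real.exp_le_exp.2 h2) (Real.exp_pos _).le (Real.exp_pos _).le
      _ = Real.exp (3 * L + 96 * (Dl + 5) * E1 * Lp ^ 2) := by rw [← Real.exp_add]
      _ < Real.exp (3 * (k : ℝ)) := by
        refine Real.exp_lt_exp.2 ?_
        have h4 : κ - 2 < k := by linarith
        have h5 : (96 * (Dl + 5) + 10) * E1 * Lp ^ 2 ≤ 3 * κ := by
          have h6 : E1 * (A * Lp ^ 2) ≤ R := by
            refine le_trans ?_ hRE
            rw [hE21]
            exact mul_le_mul_of_nonneg_left hA1 hE10.le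
          have h7 : (32 / ε) * (96 * (Dl + 5) + 10) ≤ A := by rw [hA]; linarith
          have h8 : E1 * ((32 / ε) * (96 * (Dl + 5) + 10) * Lp ^ 2) ≤ R := by
            refine le_trans (mul_le_mul_of_nonneg_left (mul_le_mul_of_nonneg_right h7 (by positivity)) hE10.le) h6
          have h9 : ε * (E1 * ((32 / ε) * (96 * (Dl + 5) + 10) * Lp ^ 2)) = 32 * ((96 * (Dl + 5) + 10) * E1 * Lp ^ 2) := by
            field_simp
          have h10 : 32 * ((96 * (Dl + 5) + 10) * E1 * Lp ^ 2) ≤ ε * R := by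
            rw [← h9]
            exact mul_le_mul_of_nonneg_left h8 hε.le
          have h11 : 3 * κ = ε * R * L / 32 := by rw [hκ]; ring
          have h12 : ε * R * 1 ≤ ε * R * L := mul_le_mul_of_nonneg_left (by linarith) (by positivity)
          rw [h11]
          linarith
        have h6' : Lp ^ 2 ≤ E1 * Lp ^ 2 := le_mul_of_one_le_left (by linarith) hE11
        have h6 : L ≤ E1 * Lp ^ 2 := by linarith
        have h7 : 1 ≤ E1 * Lp ^ 2 := by linarith
        linarith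
  -- the application
  obtain ⟨f, hf, hneg⟩ := neg_of (D := zd (L := zL)) (EC := zc (L := zL)) (C := C) (K := K) hcnt hKz (y0 := y0) (Dl := Dl)
    (δ := δ) (M := M) (t := t) (R := R) (q := q) (B := B) (n := n) (k := k) hR hqpos hBpos hDl hδ0 hδ1 g1 g2 hM1 hn1
    (by linarith) hDq g3 ht0 htM g4 g5
  refine ⟨f, Hd_mono hf ?_, hneg⟩
  have h1 : ((B * q : ℕ) : ℝ) * (Real.pi / R / 2) = Real.pi * q / Dl := by
    show ((N : ℕ) : ℝ) * (Real.pi / R / 2) = Real.pi * q / Dl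
    rw [hNr]
    field_simp
  rw [h1]
  have h2 : (1 + ε / 8) / 2 * (Real.log 3 + (1 - ε / 2) * L) ≤ L / 2 - 3 * ε * L / 16 + 1 := by
    have h3 : (1 + ε / 8) / 2 * Real.log 3 ≤ 9 / 16 * 1.1 :=
      mul_le_mul (by linarith) hlog3 hlog3' (by norm_num)
    have h4 : (1 + ε / 8) / 2 * ((1 - ε / 2) * L) ≤ L / 2 - 3 * ε * L / 16 := by
      have : (1 + ε / 8) / 2 * ((1 - ε / 2) * L) = L / 2 - 3 * ε * L / 16 - ε ^ 2 * L / 32 := by ring
      rw [this]
      have : 0 ≤ ε ^ 2 * L / 32 := by positivity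
      linarith
    rw [mul_add]
    linarith
  have h5 : ε * L ≥ 16 := by linarith
  linarith

end Pool.Agent.Zk4.B
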