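import Pool.Agent.Zk4.Bg

/-! # The converse of the local Weil criterion: final form -/

set_option autoImplicit false

open Complex Finset MeasureTheory Set
open scoped ComplexConjugate

namespace Pool.Agent.Zk4.B

open Pool.Agent.Y23.G (QQ Dom Hd Zt mu ZD ZC Lg one_le_Lg zd zc)
open Pool.Agent.Zk2.WP (zL zero_iff form_QQ)
open Pool.Agent.Zk4.W (Zs Ml wterm)

/-- positivity at length `L` forces the zeros up to height `exp((1-ε)L)` to lie at distance at most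
`exp(-exp((1-ε)L))` from the critical line -/
theorem conv (hS : SCnt) {ε : ℝ} (hε : 0 < ε) (hε1 : ε < 1) : ∃ L0 : ℝ, ∀ L : ℝ, L0 ≤ L →
    (∀ f : ℝ → ℂ, MemLp f 2 volume → (∃ c : ℝ, ∀ x : ℝ, x ∉ Set.Icc c (c + L) → f x = 0) →
      Integrable (fun t : ℝ => Real.log (3 + |t|) * ‖Ml f (t * I)‖ ^ 2) → 0 ≤ (∑' ρ, wterm f ρ).re) →
    ∀ ρ ∈ Zs, |ρ.im| ≤ Real.exp ((1 - ε) * L) → |ρ.re - 1 / 2| ≤ Real.exp (-Real.exp ((1 - ε) * L)) := by
  obtain ⟨L0, h⟩ := exists_neg hS hε hε1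
  refine ⟨max L0 1, fun L hL hpos ρ hρ him => ?_⟩
  have hL0 : L0 ≤ L := (le_max_left _ _).trans hL
  have hL1 : 1 ≤ L := (le_max_right _ _).trans hL
  have key : ∀ s ∈ Zs, |s.im| ≤ Real.exp ((1 - ε) * L) → s.re - 1 / 2 ≤ Real.exp (-Real.exp ((1 - ε) * L)) := by
    intro s hs hsim
    by_contra hcon
    obtain ⟨f, hf, hneg⟩ := h L hL0 s hs hsim (not_le.1 hcon)
    have h1 := hpos f hf.1.1 ⟨-(L / 2), fun x hx => hf.1.2 x (by
      by_contra h2
      have h3 := abs_le.1 (not_lt.1 h2)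
      exact hx ⟨h3.1, by linarith [h3.2]⟩)⟩ hf.2
    rw [(form_QQ (by linarith) hf).2, Complex.ofReal_re] at h1
    linarith
  rw [abs_le]
  constructor
  · have hmem : 1 - conj ρ ∈ Zs := (zero_iff _).2 ((zd (L := zL)).refl ρ ((zero_iff ρ).1 hρ))
    have h1 := key (1 - conj ρ) hmem (by simpa using him)
    have e : (1 - conj ρ).re = 1 - ρ.re := by simp
    rw [e] at h1
    linarith
  · exact key ρ hρ him

end Pool.Agent.Zk4.B
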