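import Pool.Agent.Zk4.Bh

/-! # The index form of the converse: one block -/

set_option autoImplicit false

open Complex Finset MeasureTheory Set
open scoped ComplexConjugate

namespace Pool.Agent.Zk4.B

open Pool.Agent.Y23 (TT Fa N2 TT_mul_exp TT_smul TT_sub TT_add TT_conj)
open Pool.Agent.Y23.G (TT_shift Fa_shift GG GG_refl QQ Dom Hd Hd_iff Zt mu ZD ZC zsummable half_re Lg one_le_Lg summable_GG)
open Pool.Agent.Zk2.WP (Av sg zL)
open Pool.Agent.Zk2.LW (Ai Ai_Fa TT_Ai sg_far')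

section
variable [D : ZD] [EC : ZC]

/-- ONE BLOCK -/
theorem block {a R y0 D0 t r M δ : ℝ} {k N : ℕ} {z : ℕ → ℂ}
    (ha : 0 < a) (ha1 : a ≤ 1 / 2) (haR : 12 ≤ a * R) (hR : 2 * Real.pi ≤ R) (hN : 0 < N) (hRN : R ≤ N) (hD0 : 0 ≤ D0)
    (hDR : 2 * (Real.pi / R * (D0 + 5)) ≤ 1) (ht : 0 ≤ t)
    (hz : ∀ i < N, |(z i).im - (y0 - R + 2 * R * i / N)| ≤ D0)
    (hzre : ∀ i < N, |(z i).re| ≤ 1) (hzim : ∀ i < N, |(z i).im - y0| ≤ R)
    (hδ : 0 < δ) (hδ1 : δ ≤ 1) (hρ : 1 / 2 + (δ + y0 * I : ℂ) ∈ D.Zs)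
    (hr : 0 < r) (hr1 : r ≤ 1) (hrδ : r < δ) (hM : 0 < M)
    (hdist : ∀ i < N, r * M ≤ ‖(δ + y0 * I : ℂ) - z i‖)
    (hdist2 : ∀ i < N, Real.exp (-t) ≤ ‖(δ + y0 * I : ℂ) - z i‖ * (Real.pi / R / 2))
    (hwin : ∀ ρ ∈ D.Zs, |ρ.im - y0| < R → ‖ρ - (1 / 2 + (δ + y0 * I))‖ ≤ r ∨ ∃ i < N, z i = ρ - 1 / 2)
    (hvar : 8 * N / M + (k + 1) * (4 * a * r) ≤ 1 / 8) :
    ∃ f : ℝ → ℂ, Hd ((k + 1) * a + N * (Real.pi / R / 2)) f ∧
      (∀ ρ : Zt, |(ρ : ℂ).im - y0| < R →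
        (TT f ((ρ : ℂ) - 1 / 2) = 0 ∧ TT f (-conj ((ρ : ℂ) - 1 / 2)) = 0) ∨
        ((‖((ρ : ℂ) - 1 / 2) - (δ + y0 * I)‖ ≤ r ∨ ‖-conj ((ρ : ℂ) - 1 / 2) - (δ + y0 * I)‖ ≤ r) ∧
          (GG f f ((ρ : ℂ) - 1 / 2)).re ≤ 0)) ∧
      (GG f f (δ + y0 * I)).re ≤ -(1 / 2) ∧
      (∀ ρ : Zt, R ≤ |(ρ : ℂ).im - y0| → ‖TT f ((ρ : ℂ) - 1 / 2)‖ ≤
        4 / a * (1 / 6) ^ k * Real.exp (3 * (Real.pi / R * (D0 + 5)) * (1 + t) * (N * (1 + Real.log N))) /
          |(ρ : ℂ).im - y0|) := by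
  classical
  have hpi := Real.pi_pos
  have hpi3 := Real.pi_gt_three
  have hR0 : 0 < R := by linarith
  have hR6 : 6 ≤ R := by linarith
  have hNr : (0 : ℝ) < N := by exact_mod_cast hN
  set h := Real.pi / R with hh
  have hh0 : 0 < h := by positivity
  set w0 : ℂ := δ + y0 * I with hw0
  have w0re : w0.re = δ := by rw [hw0]; simp
  have w0im : w0.im = y0 := by rw [hw0]; simp
  obtain ⟨f1, hf1, hTf1⟩ := exists_f1 ha hh0 k N z y0
  obtain ⟨f2, hf2, hTf2⟩ := exists_star hf1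
  obtain ⟨P, hP⟩ : ∃ P : ℂ → ℂ, P = fun w => sg a (w - y0 * I) ^ (k + 1) * Qz h N z w := ⟨_, rfl⟩
  have hTP : ∀ w, TT f1 w = P w := fun w => by rw [hTf1, hP]
  have hTP2 : ∀ w, TT f2 w = conj (P (-conj w)) := fun w => by rw [hTf2, hTP]
  -- geometry of the factors
  have hre : ∀ w : ℂ, |w.re| ≤ 1 → ∀ i < N, |(w - z i).re| ≤ 2 := by
    intro w hw i hi
    rw [Complex.sub_re]
    refine (abs_sub _ _).trans ?_
    linarith [hzre i hi]
  have hre0 : ∀ i < N, |(w0 - z i).re| ≤ 2 := hre w0 (by rw [w0re, abs_of_pos hδ]; exact hδ1)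
  have him0 : ∀ i < N, |(w0 - z i).im| ≤ R := by
    intro i hi
    rw [Complex.sub_im, w0im, abs_sub_comm]
    exact hzim i hi
  -- the value at the zero
  set X : ℝ := N * (1 + Real.log N) with hX
  have hlogN : 0 ≤ Real.log N := Real.log_natCast_nonneg N
  have hX0 : 0 ≤ X := by positivity
  set κ : ℝ := h * (D0 + 5) with hκ
  have hκ0 : 0 ≤ κ := by positivity
  have hlow := Qz_lower hN hR hRN hD0 hDR ht hz hre0 him0 hdist2
  rw [← hh, ← hκ, ← hX] at hlow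
  obtain ⟨cs, hcs1, hcs⟩ := sg_zero_re (δ := δ) ha
  obtain ⟨c0, hc0⟩ : ∃ c0 : ℂ, c0 = P w0 := ⟨_, rfl⟩
  have hc0n : 2 * Real.exp (-(2 * κ * (1 + t) * X)) ≤ ‖c0‖ := by
    rw [hc0, hP]
    simp only
    have e5 : w0 - y0 * I = (δ : ℂ) := by rw [hw0]; ring
    rw [norm_mul, norm_pow, e5, hcs, Complex.norm_real, Real.norm_of_nonneg (by linarith)]
    have h1 : 1 ≤ cs ^ (k + 1) := one_le_pow₀ hcs1
    have h2 : 0 ≤ ‖Qz h N z w0‖ := norm_nonneg _
    nlinarith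
  have hc0p : 0 < ‖c0‖ := lt_of_lt_of_le (by positivity) hc0n
  have hc0ne : c0 ≠ 0 := norm_pos_iff.1 hc0p
  -- the function
  set β : ℂ := -(c0 ^ 2 / ((‖c0‖ ^ 2 : ℝ) : ℂ)) with hβ
  have hβn : ‖β‖ = 1 := by
    rw [hβ, norm_neg, norm_div, norm_pow, Complex.norm_real, Real.norm_of_nonneg (by positivity)]
    field_simp
  set f : ℝ → ℂ := fun x => f1 x + β * f2 x with hf
  set b : ℝ := (k + 1) * a + N * (h / 2) with hb
  have hb0 : 0 < b := by positivity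
  have hfFa : Fa b f := hf1.add (hf2.smul β)
  have hTf : ∀ w, TT f w = P w + β * conj (P (-conj w)) := by
    intro w
    rw [hf, TT_add hf1 (hf2.smul β), TT_smul, hTP, hTP2]
  have hcc : ∀ w : ℂ, -conj (-conj w) = w := fun w => by simp
  -- bound of P
  set U : ℝ := 2 * Real.exp (κ * X) with hU
  have hU0 : 0 < U := by positivity
  have hPle : ∀ w : ℂ, |w.re| ≤ 1 → ‖P w‖ ≤ ‖sg a (w - y0 * I)‖ ^ (k + 1) * U := by
    intro w hw
    rw [hP]
    simp only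
    rw [norm_mul, norm_pow]
    refine mul_le_mul_of_nonneg_left ?_ (by positivity)
    exact Qz_upper hN hR hRN hD0 hz (hre w hw)
  have hsgY : ∀ w : ℂ, |w.re| ≤ 1 → |w.im - y0| * ‖sg a (w - y0 * I)‖ ≤ 2 / a := by
    intro w hw
    have e1 : (w - y0 * I).re = w.re := by simp
    have e2 : (w - y0 * I).im = w.im - y0 := by simp
    have h1 := sg_far' ha ha1 (w := w - y0 * I) (by rw [e1]; exact hw)
    refine le_trans (mul_le_mul_of_nonneg_right ?_ (norm_nonneg _)) h1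
    rw [← e2]
    exact Complex.abs_im_le_norm _
  have hsg2 : ∀ w : ℂ, |w.re| ≤ 1 → ‖sg a (w - y0 * I)‖ ≤ 2 := by
    intro w hw
    have e1 : (w - y0 * I).re = w.re := by simp
    exact norm_sg ha ha1 (by rw [e1]; exact hw)
  have hnc : ∀ w : ℂ, (-conj w).im = w.im ∧ |(-conj w).re| = |w.re| := fun w => by
    constructor <;> simp
  -- the domain
  have hDom : Dom f := by
    unfold Dom
    set C : ℝ := (2 * (U * 2 ^ k)) ^ 2 * (4 + 4 / a ^ 2) with hC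
    refine Summable.of_nonneg_of_le (fun ρ => by positivity) (fun ρ => ?_) ((zsummable y0).mul_left C)
    set w : ℂ := (ρ : ℂ) - 1 / 2 with hw
    have hw1 : |w.re| ≤ 1 := half_re ρ
    have wim : w.im = (ρ : ℂ).im := by rw [hw]; simp
    have g1 : ∀ v : ℂ, |v.re| ≤ 1 → v.im = w.im → ‖P v‖ ^ 2 ≤ (U * 2 ^ k) ^ 2 * ((4 + 4 / a ^ 2) * (1 / (1 + ((ρ : ℂ).im - y0) ^ 2))) := by
      intro v hv hvi
      have k1 := hPle v hv
      have k2 := hsgY v hv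
      have k3 := hsg2 v hv
      set s := ‖sg a (v - y0 * I)‖ with hs
      have hs0 : 0 ≤ s := norm_nonneg _
      set Y := (ρ : ℂ).im - y0 with hY
      rw [hvi, wim, ← hY] at k2
      have k4 : s ^ 2 * (1 + Y ^ 2) ≤ 4 + 4 / a ^ 2 := by
        have q1 : s ^ 2 ≤ 4 := by nlinarith
        have q2 : s ^ 2 * Y ^ 2 ≤ 4 / a ^ 2 := by
          have : (|Y| * s) ^ 2 ≤ (2 / a) ^ 2 := pow_le_pow_left₀ (by positivity) k2 2
          rw [mul_pow, sq_abs, div_pow] at this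
          calc s ^ 2 * Y ^ 2 = Y ^ 2 * s ^ 2 := by ring
            _ ≤ 2 ^ 2 / a ^ 2 := this
            _ = 4 / a ^ 2 := by norm_num
        linarith
      have k5 : s ^ 2 ≤ (4 + 4 / a ^ 2) * (1 / (1 + Y ^ 2)) := by
        rw [mul_one_div, le_div_iff₀ (by positivity)]
        exact k4
      have k6 : ‖P v‖ ≤ s * (U * 2 ^ k) := by
        refine k1.trans ?_
        rw [pow_succ]
        have : s ^ k ≤ 2 ^ k := pow_le_pow_left₀ hs0 k3 k
        calc s ^ k * s * U ≤ 2 ^ k * s * U := by gcongr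
          _ = _ := by ring
      calc ‖P v‖ ^ 2 ≤ (s * (U * 2 ^ k)) ^ 2 := pow_le_pow_left₀ (norm_nonneg _) k6 2
        _ = (U * 2 ^ k) ^ 2 * s ^ 2 := by ring
        _ ≤ _ := mul_le_mul_of_nonneg_left k5 (by positivity)
    have g2 : ‖TT f w‖ ^ 2 ≤ 2 * ‖P w‖ ^ 2 + 2 * ‖P (-conj w)‖ ^ 2 := by
      rw [hTf]
      refine (Pool.Agent.Y23.G.sq_add_le' _ _).trans ?_
      rw [norm_mul, hβn, one_mul, RCLike.norm_conj]
    have g3 := g1 w hw1 rfl
    have g4 := g1 (-conj w) (by rw [(hnc w).2]; exact hw1) (hnc w).1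
    have hμ : (0 : ℝ) ≤ mu (ρ : ℂ) := Nat.cast_nonneg _
    have g5 : ‖TT f w‖ ^ 2 ≤ C * (1 / (1 + ((ρ : ℂ).im - y0) ^ 2)) := by
      rw [hC]
      nlinarith
    calc (mu (ρ : ℂ) : ℝ) * ‖TT f w‖ ^ 2 ≤ (mu (ρ : ℂ) : ℝ) * (C * (1 / (1 + ((ρ : ℂ).im - y0) ^ 2))) :=
          mul_le_mul_of_nonneg_left g5 hμ
      _ = _ := by ring
  have hHd : Hd b f := (Hd_iff hb0 f).2 ⟨hfFa, hDom⟩
  -- the cluster
  have hclus : ∀ w : ℂ, ‖w - w0‖ ≤ r → P (-conj w) = 0 → (GG f f w).re ≤ -(1 / 2 * ‖c0‖ ^ 2) := by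
    intro w hw hz0
    obtain ⟨e, he, hPe⟩ := P_var (k := k) ha ha1 hR hδ hδ1 hr hr1 hM hre0 him0 hdist hvar hw
    have hPw : P w = c0 * (1 + e) := by
      rw [hc0, hP]
      exact hPe
    have hG : GG f f w = -(((‖c0‖ ^ 2 : ℝ) : ℂ) * (1 + e) ^ 2) := by
      unfold GG
      rw [hTf, hTf, hcc, hz0]
      simp only [map_zero, mul_zero, add_zero, zero_add]
      rw [map_mul, Complex.conj_conj, hPw, hβ, map_neg, map_div₀, map_pow, Complex.conj_ofReal]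
      have hcn : c0 * conj c0 = ((‖c0‖ ^ 2 : ℝ) : ℂ) := by
        rw [Complex.mul_conj, Complex.normSq_eq_norm_sq]
      have hne : ((‖c0‖ ^ 2 : ℝ) : ℂ) ≠ 0 := by
        have : ‖c0‖ ^ 2 ≠ 0 := by positivity
        exact_mod_cast this
      field_simp
      have : (conj c0) ^ 2 * c0 ^ 2 = ((‖c0‖ ^ 2 : ℝ) : ℂ) ^ 2 := by rw [← hcn]; ring
      linear_combination (-(1 + e) ^ 2) * this
    rw [hG, Complex.neg_re, Complex.re_ofReal_mul]
    have h1 : 1 / 2 ≤ ((1 + e) ^ 2).re := by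
      have e1 : (1 + e) ^ 2 = 1 + (2 * e + e ^ 2) := by ring
      rw [e1, Complex.add_re, Complex.one_re]
      have h2 : ‖2 * e + e ^ 2‖ ≤ 1 / 2 := by
        refine (norm_add_le _ _).trans ?_
        rw [norm_mul, norm_pow, Complex.norm_two]
        nlinarith [norm_nonneg e]
      have h3 := neg_le_of_abs_le ((Complex.abs_re_le_norm _).trans h2)
      linarith
    have h2 : 0 < ‖c0‖ ^ 2 := by positivity
    nlinarith
  -- the zeros of the window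
  have hP0 : ∀ i < N, P (z i) = 0 := by
    intro i hi
    rw [hP]
    simp only
    have : Qz h N z (z i) = 0 := by
      unfold Qz
      refine prod_eq_zero (mem_range.2 hi) ?_
      unfold Sf
      simp
    rw [this, mul_zero]
  have hwinP : ∀ ρ : Zt, |(ρ : ℂ).im - y0| < R → P ((ρ : ℂ) - 1 / 2) = 0 ∨
      (‖((ρ : ℂ) - 1 / 2) - w0‖ ≤ r ∧ P (-conj ((ρ : ℂ) - 1 / 2)) = 0) := by
    intro ρ hρw
    rcases hwin _ ρ.2 hρw with h1 | ⟨i, hi, h1⟩
    · right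
      have h2 : ‖((ρ : ℂ) - 1 / 2) - w0‖ ≤ r := by
        have : ((ρ : ℂ) - 1 / 2) - w0 = (ρ : ℂ) - (1 / 2 + w0) := by ring
        rw [this]
        exact h1
      refine ⟨h2, ?_⟩
      have hmem : 1 - conj (ρ : ℂ) ∈ D.Zs := D.refl _ ρ.2
      have e3 : -conj ((ρ : ℂ) - 1 / 2) = (1 - conj (ρ : ℂ)) - 1 / 2 := by
        rw [map_sub, map_div₀, map_one, map_ofNat]
        ring
      have him2 : (1 - conj (ρ : ℂ)).im = (ρ : ℂ).im := by simp
      rcases hwin _ hmem (by rw [him2]; exact hρw) with h3 | ⟨i, hi, h3⟩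
      · exfalso
        have k1 := (Complex.abs_re_le_norm _).trans h1
        have k2 := (Complex.abs_re_le_norm _).trans h3
        have k3 : ((ρ : ℂ) - (1 / 2 + w0)).re = (ρ : ℂ).re - (1 / 2 + δ) := by
          rw [Complex.sub_re, Complex.add_re, w0re]; norm_num
        have k4 : ((1 - conj (ρ : ℂ)) - (1 / 2 + w0)).re = 1 - (ρ : ℂ).re - (1 / 2 + δ) := by
          rw [Complex.sub_re, Complex.add_re, w0re, Complex.sub_re, Complex.conj_re, Complex.one_re]; norm_num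
        rw [k3] at k1
        rw [k4] at k2
        have k5 := (abs_le.1 k1).1
        have k6 := (abs_le.1 k2).1
        linarith
      · rw [e3, ← h3]
        exact hP0 i hi
    · left
      rw [← h1]
      exact hP0 i hi
  have hneg : ∀ ρ : Zt, |(ρ : ℂ).im - y0| < R → (GG f f ((ρ : ℂ) - 1 / 2)).re ≤ 0 := by
    intro ρ hρw
    have hc2 : -(1 / 2 * ‖c0‖ ^ 2) ≤ 0 := by
      have : 0 ≤ ‖c0‖ ^ 2 := by positivity
      linarith
    rcases hwinP ρ hρw with h1 | ⟨h1, h2⟩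
    · -- P w = 0
      set w : ℂ := (ρ : ℂ) - 1 / 2 with hw
      set ρ' : Zt := Pool.Agent.Y23.G.rfZ ρ with hρ'
      have e1 : (ρ' : ℂ) - 1 / 2 = -conj w := Pool.Agent.Y23.G.rfZ_sub ρ
      have him2 : (ρ' : ℂ).im = (ρ : ℂ).im := by rw [hρ', Pool.Agent.Y23.G.rfZ_val]; simp
      rcases hwinP ρ' (by rw [him2]; exact hρw) with h3 | ⟨h3, h4⟩
      · have : GG f f w = 0 := by
          unfold GG
          rw [hTf, hTf, hcc, h1]
          rw [e1] at h3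
          rw [h3]
          simp
        rw [this, Complex.zero_re]
      · rw [e1] at h3 h4
        have h5 := hclus (-conj w) h3 h4
        rw [GG_refl, Complex.conj_re] at h5
        linarith
    · have h5 := hclus _ h1 h2
      linarith
  have hρ0 : (GG f f w0).re ≤ -(1 / 2 * ‖c0‖ ^ 2) := by
    set ρ0 : Zt := ⟨1 / 2 + w0, hρ⟩ with hρ0
    have e1 : (ρ0 : ℂ) - 1 / 2 = w0 := by rw [hρ0]; ring
    have e2 : (ρ0 : ℂ).im - y0 = 0 := by
      have : (ρ0 : ℂ).im = w0.im := by rw [hρ0]; simp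
      rw [this, w0im, sub_self]
    rcases hwinP ρ0 (by rw [e2, abs_zero]; exact hR0) with h1 | ⟨h1, h2⟩
    · rw [e1] at h1
      rw [← hc0] at h1
      exact absurd h1 hc0ne
    · rw [e1] at h1 h2
      exact hclus w0 h1 h2
  -- normalisation
  have hnn : ∀ w, TT (fun x => ((‖c0‖⁻¹ : ℝ) : ℂ) * f x) w = ((‖c0‖⁻¹ : ℝ) : ℂ) * TT f w := fun w => TT_smul _ _ _
  have hGn : ∀ w, GG (fun x => ((‖c0‖⁻¹ : ℝ) : ℂ) * f x) (fun x => ((‖c0‖⁻¹ : ℝ) : ℂ) * f x) w =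
      (((‖c0‖⁻¹) ^ 2 : ℝ) : ℂ) * GG f f w := by
    intro w
    unfold GG
    rw [hnn, hnn, map_mul, Complex.conj_ofReal]
    push_cast
    ring
  refine ⟨fun x => ((‖c0‖⁻¹ : ℝ) : ℂ) * f x, hHd.smul _, fun ρ hρw => ?_, ?_, fun ρ hρR => ?_⟩
  · set w : ℂ := (ρ : ℂ) - 1 / 2 with hw
    have hsub : ∀ x : ℂ, x - (δ + y0 * I) = x - w0 := fun x => rfl
    set ρ' : Zt := Pool.Agent.Y23.G.rfZ ρ with hρ'
    have e1 : (ρ' : ℂ) - 1 / 2 = -conj w := Pool.Agent.Y23.G.rfZ_sub ρ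
    have him2 : (ρ' : ℂ).im = (ρ : ℂ).im := by rw [hρ', Pool.Agent.Y23.G.rfZ_val]; simp
    have hle0 : (GG (fun x => ((‖c0‖⁻¹ : ℝ) : ℂ) * f x) (fun x => ((‖c0‖⁻¹ : ℝ) : ℂ) * f x) w).re ≤ 0 := by
      rw [hGn, Complex.re_ofReal_mul]
      exact mul_nonpos_of_nonneg_of_nonpos (by positivity) (hneg ρ hρw)
    rcases hwinP ρ hρw with h1 | ⟨h1, h2⟩
    · rcases hwinP ρ' (by rw [him2]; exact hρw) with h3 | ⟨h3, h4⟩
      · left
        rw [e1] at h3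
        constructor
        · rw [hnn, hTf, h1, h3]
          simp
        · rw [hnn, hTf, hcc, h1, h3]
          simp
      · right
        rw [e1] at h3
        exact ⟨Or.inr h3, hle0⟩
    · right
      exact ⟨Or.inl h1, hle0⟩
  · show (GG _ _ w0).re ≤ _
    rw [hGn, Complex.re_ofReal_mul]
    calc (‖c0‖⁻¹) ^ 2 * (GG f f w0).re ≤ (‖c0‖⁻¹) ^ 2 * (-(1 / 2 * ‖c0‖ ^ 2)) :=
          mul_le_mul_of_nonneg_left hρ0 (by positivity)
      _ = _ := by field_simp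
  · -- the far zeros
    set w : ℂ := (ρ : ℂ) - 1 / 2 with hw
    have hw1 : |w.re| ≤ 1 := half_re ρ
    have wim : w.im = (ρ : ℂ).im := by rw [hw]; simp
    set Y := |(ρ : ℂ).im - y0| with hY
    have hY0 : 0 < Y := by linarith
    have g1 : ∀ v : ℂ, |v.re| ≤ 1 → v.im = w.im → ‖P v‖ ≤ (1 / 6) ^ k * (2 / (a * Y)) * U := by
      intro v hv hvi
      have k1 := hPle v hv
      have k2 := hsgY v hv
      set s := ‖sg a (v - y0 * I)‖ with hs
      have hs0 : 0 ≤ s := norm_nonneg _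
      rw [hvi, wim, ← hY] at k2
      have k3 : s ≤ 2 / (a * Y) := by
        rw [le_div_iff₀ (by positivity)]
        rw [le_div_iff₀ ha] at k2
        linarith
      have k4 : s ≤ 1 / 6 := by
        refine k3.trans ?_
        rw [div_le_div_iff₀ (by positivity) (by norm_num)]
        nlinarith
      refine k1.trans ?_
      rw [pow_succ]
      have : s ^ k ≤ (1 / 6) ^ k := pow_le_pow_left₀ hs0 k4 k
      gcongr
    have g2 : ‖TT f w‖ ≤ 2 * ((1 / 6) ^ k * (2 / (a * Y)) * U) := by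
      rw [hTf]
      refine (norm_add_le _ _).trans ?_
      rw [norm_mul, hβn, one_mul, RCLike.norm_conj]
      have := g1 w hw1 rfl
      have := g1 (-conj w) (by rw [(hnc w).2]; exact hw1) (hnc w).1
      linarith
    rw [hnn, norm_mul, Complex.norm_real, Real.norm_of_nonneg (by positivity)]
    have g3 : ‖c0‖⁻¹ ≤ (2 * Real.exp (-(2 * κ * (1 + t) * X)))⁻¹ := inv_anti₀ (by positivity) hc0n
    have g4 : (2 * Real.exp (-(2 * κ * (1 + t) * X)))⁻¹ = 1 / 2 * Real.exp (2 * κ * (1 + t) * X) := by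
      rw [mul_inv, ← Real.exp_neg, neg_neg]
      ring
    have g5 : Real.exp (2 * κ * (1 + t) * X) * Real.exp (κ * X) ≤ Real.exp (3 * κ * (1 + t) * X) := by
      rw [← Real.exp_add]
      refine Real.exp_le_exp.2 ?_
      have : 0 ≤ κ * X * t := by positivity
      nlinarith
    rw [g4] at g3
    calc ‖c0‖⁻¹ * ‖TT f w‖ ≤ 1 / 2 * Real.exp (2 * κ * (1 + t) * X) * (2 * ((1 / 6) ^ k * (2 / (a * Y)) * U)) :=
          mul_le_mul g3 g2 (norm_nonneg _) (by positivity)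
      _ = 4 / a * (1 / 6) ^ k * (Real.exp (2 * κ * (1 + t) * X) * Real.exp (κ * X)) / Y := by
          rw [hU]
          field_simp
          try ring
      _ ≤ 4 / a * (1 / 6) ^ k * Real.exp (3 * κ * (1 + t) * X) / Y := by gcongr

end

end Pool.Agent.Zk4.B
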