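import Pool.Agent.Zk4.Bj

/-! # The index form of the converse: families of blocks -/

set_option autoImplicit false

open Complex Finset MeasureTheory Set
open scoped ComplexConjugate

namespace Pool.Agent.Zk4.B

open Pool.Agent.Y23 (TT Fa N2 TT_mul_exp TT_smul TT_sub TT_add TT_conj)
open Pool.Agent.Y23.G (TT_shift Fa_shift GG GG_refl QQ Dom Hd Hd_iff Zt mu ZD ZC zsummable half_re Lg one_le_Lg summable_GG)

lemma fam_sum [D : ZD] [EC : ZC] {ι : Type} [Fintype ι] {b : ℝ} {f : ι → ℝ → ℂ} (hf : ∀ i, Hd b (f i)) (c : ι → ℂ)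
    (s : Finset ι) : Hd b (fun x => ∑ i ∈ s, c i * f i x) ∧
      ∀ w, TT (fun x => ∑ i ∈ s, c i * f i x) w = ∑ i ∈ s, c i * TT (f i) w := by
  classical
  induction s using Finset.induction_on with
  | empty =>
    refine ⟨by simpa using Hd.zero, fun w => ?_⟩
    simp only [Finset.sum_empty]
    simp [TT]
  | insert j s hj ih =>
    have e : (fun x => ∑ i ∈ insert j s, c i * f i x) = fun x => c j * f j x + ∑ i ∈ s, c i * f i x := by
      funext x
      rw [Finset.sum_insert hj]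
    rw [e]
    refine ⟨((hf j).smul (c j)).add ih.1, fun w => ?_⟩
    rw [TT_add ((hf j).smul (c j)).1 ih.1.1, TT_smul, ih.2, Finset.sum_insert hj]

section
variable [D : ZD] [EC : ZC]

/-- THE COMBINATION of blocks is negative definite -/
theorem comb {ι : Type} [Fintype ι] {b R σ K Lm : ℝ} (hb : 0 < b) (hR : 2 ≤ R) (hσ : 0 ≤ σ) {f : ι → ℝ → ℂ}
    {v : ι → ℂ} {r : ι → ℝ} (hf : ∀ i, Hd b (f i)) (hv : ∀ i, 1 / 2 + v i ∈ D.Zs) (hr : ∀ i, 0 ≤ r i)
    (hr1 : ∀ i, r i ≤ 1) (hre : ∀ i, r i < (v i).re) (hsep : ∀ i j, i ≠ j → r i + r j < ‖v i - v j‖)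
    (hwin : ∀ i j, |(v i).im - (v j).im| + 1 < R)
    (ha : ∀ i, ∀ ρ : Zt, |(ρ : ℂ).im - (v i).im| < R →
        (TT (f i) ((ρ : ℂ) - 1 / 2) = 0 ∧ TT (f i) (-conj ((ρ : ℂ) - 1 / 2)) = 0) ∨
        ((‖((ρ : ℂ) - 1 / 2) - v i‖ ≤ r i ∨ ‖-conj ((ρ : ℂ) - 1 / 2) - v i‖ ≤ r i) ∧
          (GG (f i) (f i) ((ρ : ℂ) - 1 / 2)).re ≤ 0))
    (h0 : ∀ i, (GG (f i) (f i) (v i)).re ≤ -(1 / 2))
    (hfar : ∀ i, ∀ ρ : Zt, R ≤ |(ρ : ℂ).im - (v i).im| → ‖TT (f i) ((ρ : ℂ) - 1 / 2)‖ ≤ σ / |(ρ : ℂ).im - (v i).im|)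
    (hK : ∀ i, ∑' ρ : Zt, (mu ρ : ℝ) * (1 / (1 + ((ρ : ℂ).im - (v i).im) ^ 2)) ≤ K)
    (hsmall : 4 * σ ^ 2 * K * Fintype.card ι < 1) (c : ι → ℂ) (hc : c ≠ 0) :
    Hd b (fun x => ∑ i, c i * f i x) ∧ QQ (fun x => ∑ i, c i * f i x) < 0 := by
  classical
  obtain ⟨hH, hT⟩ := fam_sum hf c Finset.univ
  refine ⟨hH, ?_⟩
  set F : ℝ → ℂ := fun x => ∑ i, c i * f i x with hF
  have hDom : Dom F := ((Hd_iff hb F).1 hH).2
  set A : ℝ := ∑ i, ‖c i‖ ^ 2 with hA
  have hA0 : 0 < A := by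
    obtain ⟨i, hi⟩ := Function.ne_iff.1 hc
    have hi' : c i ≠ 0 := hi
    refine Finset.sum_pos' (fun j _ => by positivity) ⟨i, Finset.mem_univ _, by positivity⟩
  -- sign of a single block
  have hGc : ∀ i, ∀ w : ℂ, TT F w = c i * TT (f i) w → TT F (-conj w) = c i * TT (f i) (-conj w) →
      GG F F w = ((‖c i‖ ^ 2 : ℝ) : ℂ) * GG (f i) (f i) w := by
    intro i w h1 h2
    unfold GG
    rw [h1, h2, map_mul]
    have : c i * conj (c i) = ((‖c i‖ ^ 2 : ℝ) : ℂ) := by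
      rw [Complex.mul_conj, Complex.normSq_eq_norm_sq]
    rw [← this]
    ring
  -- in a cluster
  have hclus : ∀ i, ∀ ρ : Zt, (‖((ρ : ℂ) - 1 / 2) - v i‖ ≤ r i ∨ ‖-conj ((ρ : ℂ) - 1 / 2) - v i‖ ≤ r i) →
      GG F F ((ρ : ℂ) - 1 / 2) = ((‖c i‖ ^ 2 : ℝ) : ℂ) * GG (f i) (f i) ((ρ : ℂ) - 1 / 2) ∧
      (GG (f i) (f i) ((ρ : ℂ) - 1 / 2)).re ≤ 0 ∧
      ∀ j, j ≠ i → ¬ ‖((ρ : ℂ) - 1 / 2) - v j‖ ≤ r j := by
    intro i ρ hi
    set w : ℂ := (ρ : ℂ) - 1 / 2 with hw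
    have wim : w.im = (ρ : ℂ).im := by rw [hw]; simp
    have hcim : |w.im - (v i).im| ≤ 1 := by
      rcases hi with h | h
      · have := (Complex.abs_im_le_norm _).trans h
        rw [Complex.sub_im] at this
        exact this.trans (hr1 i)
      · have := (Complex.abs_im_le_norm _).trans h
        have e : (-conj w - v i).im = w.im - (v i).im := by simp
        rw [e] at this
        exact this.trans (hr1 i)
    have hin : ∀ j, |(ρ : ℂ).im - (v j).im| < R := by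
      intro j
      have h1 := hwin i j
      rw [← wim]
      calc |w.im - (v j).im| = |(w.im - (v i).im) + ((v i).im - (v j).im)| := by ring_nf
        _ ≤ |w.im - (v i).im| + |(v i).im - (v j).im| := abs_add_le _ _
        _ < R := by linarith
    have hnot : ∀ j, j ≠ i → ¬ (‖w - v j‖ ≤ r j ∨ ‖-conj w - v j‖ ≤ r j) := by
      intro j hji hcon
      have key : ∀ u : ℂ, ∀ i j : ι, i ≠ j → ‖u - v i‖ ≤ r i → ‖u - v j‖ ≤ r j → False := by
        intro u i j hij h1 h2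
        have h3 := hsep i j hij
        have h4 : ‖v i - v j‖ ≤ ‖u - v i‖ + ‖u - v j‖ := by
          have : v i - v j = (u - v j) - (u - v i) := by ring
          rw [this]
          refine (norm_sub_le _ _).trans ?_
          linarith
        linarith
      have key2 : ∀ u : ℂ, ∀ i j : ι, ‖u - v i‖ ≤ r i → ‖-conj u - v j‖ ≤ r j → False := by
        intro u i j h1 h2
        have k1 := neg_le_of_abs_le ((Complex.abs_re_le_norm _).trans h1)
        have k2 := neg_le_of_abs_le ((Complex.abs_re_le_norm _).trans h2)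
        have e1 : (u - v i).re = u.re - (v i).re := by simp
        have e2 : (-conj u - v j).re = -u.re - (v j).re := by simp
        rw [e1] at k1
        rw [e2] at k2
        have := hre i
        have := hre j
        linarith
      rcases hi with h1 | h1 <;> rcases hcon with h2 | h2
      · exact key w i j (Ne.symm hji) h1 h2
      · exact key2 w i j h1 h2
      · exact key2 w j i h2 h1
      · exact key (-conj w) i j (Ne.symm hji) h1 h2
    have hz : ∀ j, j ≠ i → TT (f j) w = 0 ∧ TT (f j) (-conj w) = 0 := by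
      intro j hji
      rcases ha j ρ (hin j) with h | h
      · exact h
      · exact absurd h.1 (hnot j hji)
    refine ⟨hGc i w ?_ ?_, ?_, fun j hji h => hnot j hji (Or.inl h)⟩
    · rw [hT, Finset.sum_eq_single i (fun j _ hji => by rw [(hz j hji).1, mul_zero]) (fun h => absurd (Finset.mem_univ _) h)]
    · rw [hT, Finset.sum_eq_single i (fun j _ hji => by rw [(hz j hji).2, mul_zero]) (fun h => absurd (Finset.mem_univ _) h)]
    · rcases ha i ρ (hin i) with h | h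
      · unfold GG
        rw [h.1, zero_mul, Complex.zero_re]
      · exact h.2
  -- outside of the clusters
  have htail : ∀ i, ∀ ρ : Zt, ¬ (‖((ρ : ℂ) - 1 / 2) - v i‖ ≤ r i ∨ ‖-conj ((ρ : ℂ) - 1 / 2) - v i‖ ≤ r i) →
      ‖TT (f i) ((ρ : ℂ) - 1 / 2)‖ ^ 2 ≤ 2 * σ ^ 2 * (1 / (1 + ((ρ : ℂ).im - (v i).im) ^ 2)) := by
    intro i ρ hi
    rcases lt_or_ge |(ρ : ℂ).im - (v i).im| R with h1 | h1
    · rcases ha i ρ h1 with h | h
      · rw [h.1, norm_zero, zero_pow two_ne_zero]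
        positivity
      · exact absurd h.1 hi
    · have h2 := hfar i ρ h1
      set Y := |(ρ : ℂ).im - (v i).im| with hY
      have hY0 : 0 < Y := by linarith
      have hY2 : ((ρ : ℂ).im - (v i).im) ^ 2 = Y ^ 2 := by rw [hY, sq_abs]
      rw [hY2]
      have h3 := pow_le_pow_left₀ (norm_nonneg _) h2 2
      refine h3.trans ?_
      rw [div_pow, mul_one_div, div_le_div_iff₀ (by positivity) (by positivity)]
      have : 1 ≤ Y ^ 2 := by nlinarith
      have : 0 ≤ σ ^ 2 := sq_nonneg _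
      nlinarith
  have htail2 : ∀ ρ : Zt, (∀ i, ¬ (‖((ρ : ℂ) - 1 / 2) - v i‖ ≤ r i ∨ ‖-conj ((ρ : ℂ) - 1 / 2) - v i‖ ≤ r i)) →
      (GG F F ((ρ : ℂ) - 1 / 2)).re ≤ ∑ i, A * (2 * σ ^ 2) * (1 / (1 + ((ρ : ℂ).im - (v i).im) ^ 2)) := by
    intro ρ hi
    set w : ℂ := (ρ : ℂ) - 1 / 2 with hw
    have hn : ∀ u : ℂ, (∀ i, ‖TT (f i) u‖ ^ 2 ≤ 2 * σ ^ 2 * (1 / (1 + ((ρ : ℂ).im - (v i).im) ^ 2))) →
        ‖TT F u‖ ^ 2 ≤ ∑ i, A * (2 * σ ^ 2) * (1 / (1 + ((ρ : ℂ).im - (v i).im) ^ 2)) := by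
      intro u hu
      have h1 : ‖TT F u‖ ≤ ∑ i, ‖c i‖ * ‖TT (f i) u‖ := by
        rw [hT]
        refine (norm_sum_le _ _).trans (le_of_eq ?_)
        exact Finset.sum_congr rfl fun i _ => norm_mul _ _
      have h2 : (∑ i, ‖c i‖ * ‖TT (f i) u‖) ^ 2 ≤ (∑ i, ‖c i‖ ^ 2) * ∑ i, ‖TT (f i) u‖ ^ 2 :=
        Finset.sum_mul_sq_le_sq_mul_sq _ _ _
      have h3 := pow_le_pow_left₀ (norm_nonneg _) h1 2
      refine h3.trans (h2.trans ?_)
      rw [← hA, Finset.mul_sum]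
      refine Finset.sum_le_sum fun i _ => ?_
      rw [mul_assoc]
      exact mul_le_mul_of_nonneg_left (hu i) hA0.le
    have h1 := hn w fun i => htail i ρ (hi i)
    have h2 := hn (-conj w) fun i => by
      set ρ' : Zt := Pool.Agent.Y23.G.rfZ ρ with hρ'
      have e1 : (ρ' : ℂ) - 1 / 2 = -conj w := Pool.Agent.Y23.G.rfZ_sub ρ
      have him2 : (ρ' : ℂ).im = (ρ : ℂ).im := by rw [hρ', Pool.Agent.Y23.G.rfZ_val]; simp
      have h3 := htail i ρ' (by
        rw [e1]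
        have : -conj (-conj w) = w := by simp
        rw [this]
        intro h
        exact hi i h.symm)
      rw [e1, him2] at h3
      exact h3
    have h3 : ‖GG F F w‖ ≤ 1 / 2 * (‖TT F w‖ ^ 2 + ‖TT F (-conj w)‖ ^ 2) := Pool.Agent.Y23.G.norm_GG_zero F F w
    have h4 := (le_abs_self _).trans (Complex.abs_re_le_norm (GG F F w))
    linarith
  -- the sum
  have hsG : Summable (fun ρ : Zt => (mu ρ : ℝ) * (GG F F ((ρ : ℂ) - 1 / 2)).re) := by
    have h1 := (summable_GG hDom hDom).hasSum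
    have h2 := (Complex.hasSum_re h1).summable
    refine h2.congr fun ρ => ?_
    have ecast : (mu (ρ : ℂ) : ℂ) * GG F F ((ρ : ℂ) - 1 / 2) = ((mu (ρ : ℂ) : ℝ) : ℂ) * GG F F ((ρ : ℂ) - 1 / 2) := by
      push_cast; rfl
    rw [ecast, Complex.re_ofReal_mul]
  set p : ι → Zt := fun i => ⟨1 / 2 + v i, hv i⟩ with hp
  have hpv : ∀ i, ((p i : Zt) : ℂ) - 1 / 2 = v i := fun i => by simp only [hp]; ring
  have hpin : ∀ i j, p i = p j → i = j := by
    intro i j hij
    by_contra hne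
    have h1 := hsep i j hne
    rw [← hpv i, ← hpv j, hij, sub_self, norm_zero] at h1
    linarith [hr i, hr j]
  set T1 : ι → Zt → ℝ := fun i ρ => A * (2 * σ ^ 2) * ((mu ρ : ℝ) * (1 / (1 + ((ρ : ℂ).im - (v i).im) ^ 2))) with hT1
  set T2 : ι → Zt → ℝ := fun i ρ => if ρ = p i then -(1 / 2 * ‖c i‖ ^ 2) else 0 with hT2
  have hs1 : ∀ i, Summable (T1 i) := fun i => (zsummable (D := D) (v i).im).mul_left _
  have hs2 : ∀ i, Summable (T2 i) := fun i =>
    summable_of_ne_finset_zero (s := {p i}) fun b hb => by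
      rw [Finset.mem_singleton] at hb
      simp only [hT2]
      rw [if_neg hb]
  have hle : ∀ ρ : Zt, (mu ρ : ℝ) * (GG F F ((ρ : ℂ) - 1 / 2)).re ≤ ∑ i, (T1 i ρ + T2 i ρ) := by
    intro ρ
    have hμ : (1 : ℝ) ≤ mu (ρ : ℂ) := by
      have := D.mpos _ ρ.2
      exact_mod_cast this
    have hpos : 0 ≤ ∑ i, T1 i ρ := Finset.sum_nonneg fun i _ => by
      simp only [hT1]
      positivity
    rw [Finset.sum_add_distrib]
    by_cases hcl : ∃ i, (‖((ρ : ℂ) - 1 / 2) - v i‖ ≤ r i ∨ ‖-conj ((ρ : ℂ) - 1 / 2) - v i‖ ≤ r i)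
    · obtain ⟨i, hi⟩ := hcl
      obtain ⟨h1, h2, h3⟩ := hclus i ρ hi
      have h4 : ∀ j, j ≠ i → T2 j ρ = 0 := by
        intro j hji
        simp only [hT2]
        rw [if_neg]
        intro hρj
        refine h3 j hji ?_
        rw [hρj, hpv, sub_self, norm_zero]
        exact hr j
      rw [Finset.sum_eq_single i (fun j _ hji => h4 j hji) (fun h => absurd (Finset.mem_univ _) h)]
      by_cases hρi : ρ = p i
      · have e2 : T2 i ρ = -(1 / 2 * ‖c i‖ ^ 2) := by simp only [hT2]; rw [if_pos hρi]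
        rw [e2, h1, Complex.re_ofReal_mul]
        have h5 := h0 i
        have e3 : (ρ : ℂ) - 1 / 2 = v i := by rw [hρi, hpv]
        rw [e3]
        have h6 : 0 ≤ ‖c i‖ ^ 2 := by positivity
        have h7 : ‖c i‖ ^ 2 * (GG (f i) (f i) (v i)).re ≤ ‖c i‖ ^ 2 * (-(1 / 2)) := mul_le_mul_of_nonneg_left h5 h6
        nlinarith
      · have e2 : T2 i ρ = 0 := by simp only [hT2]; rw [if_neg hρi]
        rw [e2, h1, Complex.re_ofReal_mul, add_zero]
        have h6 : 0 ≤ ‖c i‖ ^ 2 := by positivity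
        have h7 : ‖c i‖ ^ 2 * (GG (f i) (f i) ((ρ : ℂ) - 1 / 2)).re ≤ 0 := mul_nonpos_of_nonneg_of_nonpos h6 h2
        have h8 : (mu (ρ : ℂ) : ℝ) * (‖c i‖ ^ 2 * (GG (f i) (f i) ((ρ : ℂ) - 1 / 2)).re) ≤ 0 :=
          mul_nonpos_of_nonneg_of_nonpos (by linarith) h7
        linarith
    · push Not at hcl
      have h1 := htail2 ρ (fun i h => by
        rcases h with h | h
        · exact absurd h (not_le.2 (hcl i).1)
        · exact absurd h (not_le.2 (hcl i).2))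
      have h4 : ∑ j, T2 j ρ = 0 := Finset.sum_eq_zero fun j _ => by
        simp only [hT2]
        rw [if_neg]
        intro hρj
        have h5 := (hcl j).1
        rw [hρj, hpv, sub_self, norm_zero] at h5
        linarith [hr j]
      rw [h4, add_zero]
      calc (mu (ρ : ℂ) : ℝ) * (GG F F ((ρ : ℂ) - 1 / 2)).re ≤
            (mu (ρ : ℂ) : ℝ) * ∑ i, A * (2 * σ ^ 2) * (1 / (1 + ((ρ : ℂ).im - (v i).im) ^ 2)) :=
              mul_le_mul_of_nonneg_left h1 (by linarith)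
        _ = ∑ i, T1 i ρ := by
            rw [Finset.mul_sum]
            refine Finset.sum_congr rfl fun i _ => ?_
            simp only [hT1]
            ring
  have hs3 : Summable (fun ρ : Zt => ∑ i, (T1 i ρ + T2 i ρ)) :=
    summable_sum fun i _ => (hs1 i).add (hs2 i)
  have htot : QQ F ≤ ∑ i, (A * (2 * σ ^ 2) * K - 1 / 2 * ‖c i‖ ^ 2) := by
    unfold QQ
    refine (hsG.tsum_le_tsum hle hs3).trans ?_
    rw [Summable.tsum_finsetSum fun i _ => (hs1 i).add (hs2 i)]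
    refine Finset.sum_le_sum fun i _ => ?_
    rw [(hs1 i).tsum_add (hs2 i)]
    simp only [hT1, hT2]
    rw [tsum_mul_left, tsum_ite_eq]
    have := mul_le_mul_of_nonneg_left (hK i) (by positivity : 0 ≤ A * (2 * σ ^ 2))
    linarith
  refine lt_of_le_of_lt htot ?_
  rw [Finset.sum_sub_distrib, Finset.sum_const, Finset.card_univ, nsmul_eq_mul, ← Finset.mul_sum, ← hA]
  have e : (Fintype.card ι : ℝ) * (A * (2 * σ ^ 2) * K) = A * (4 * σ ^ 2 * K * Fintype.card ι) / 2 := by ring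
  rw [e]
  have := mul_lt_mul_of_pos_left hsmall hA0
  linarith

end

end Pool.Agent.Zk4.B
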