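import Pool.Agent.Zk4.Bk

/-! # The index form of the converse: blocks from the counting of zeros -/

set_option autoImplicit false

open Complex Finset MeasureTheory Set
open scoped ComplexConjugate

namespace Pool.Agent.Zk4.B

open Pool.Agent.Y23 (TT Fa)
open Pool.Agent.Y23.G (GG QQ Dom Hd Zt mu ZD ZC Lg one_le_Lg)

section
variable [D : ZD] [EC : ZC]

theorem block_of {C : ℝ} (hcnt : ∀ t : ℝ, ∀ S : Finset ℂ, (∀ s ∈ S, s ∈ D.Zs ∧ |s.im - t| ≤ 1) →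
      ((∑ s ∈ S, mu s : ℕ) : ℝ) ≤ C * Lg t)
    {y0 Dl δ δ' M t R : ℝ} {q B n k : ℕ} (hRd : R = B * Dl / 2) (hq : 0 < q) (hB : 0 < B) (hDl : 0 < Dl)
    (hδ' : 0 < δ') (hδδ : δ' ≤ δ) (hδ1 : δ ≤ 1) (hρ : 1 / 2 + (δ + y0 * I : ℂ) ∈ D.Zs)
    (hcntB : ∀ m < B, ∀ S : Finset ℂ, (∀ s ∈ S, s ∈ D.Zs ∧ y0 - R + m * Dl ≤ s.im ∧
      s.im ≤ y0 - R + m * Dl + Dl) → S.card ≤ q)
    (hM : 64 ≤ M) (hn : C * Lg y0 < n + 1) (hR : 24 ≤ R) (hDq : Dl ≤ 2 * q)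
    (hDR : 2 * (Real.pi / R * (Dl + 5)) ≤ 1) (ht : 0 ≤ t) (htM : Real.exp (-t) ≤ δ' / M ^ n * (Real.pi / R / 2))
    (hvar : (8 * ((B * q : ℕ) : ℝ) + (k + 1) * (4 * (12 / R))) / M ≤ 1 / 8) :
    ∃ f : ℝ → ℂ, ∃ r : ℝ, 0 ≤ r ∧ r ≤ δ' / 64 ∧
      Hd ((k + 1) * (12 / R) + ((B * q : ℕ) : ℝ) * (Real.pi / R / 2)) f ∧
      (∀ ρ : Zt, |(ρ : ℂ).im - y0| < R →
        (TT f ((ρ : ℂ) - 1 / 2) = 0 ∧ TT f (-conj ((ρ : ℂ) - 1 / 2)) = 0) ∨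
        ((‖((ρ : ℂ) - 1 / 2) - (δ + y0 * I)‖ ≤ r ∨ ‖-conj ((ρ : ℂ) - 1 / 2) - (δ + y0 * I)‖ ≤ r) ∧
          (GG f f ((ρ : ℂ) - 1 / 2)).re ≤ 0)) ∧
      (GG f f (δ + y0 * I)).re ≤ -(1 / 2) ∧
      (∀ ρ : Zt, R ≤ |(ρ : ℂ).im - y0| → ‖TT f ((ρ : ℂ) - 1 / 2)‖ ≤
        4 / (12 / R) * (1 / 6) ^ k * Real.exp (3 * (Real.pi / R * (Dl + 5)) * (1 + t) *
          (((B * q : ℕ) : ℝ) * (1 + Real.log ((B * q : ℕ) : ℝ)))) / |(ρ : ℂ).im - y0|) := by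
  have hpi := Real.pi_pos
  have hpi4 := Real.pi_le_four
  have hR0 : 0 < R := by linarith
  have hM0 : 0 < M := by linarith
  have hqr : (0 : ℝ) < q := by exact_mod_cast hq
  have hBr : (0 : ℝ) < B := by exact_mod_cast hB
  have hδ : 0 < δ := by linarith
  set ρ0 : ℂ := 1 / 2 + (δ + y0 * I : ℂ) with hρ0
  have him : ρ0.im = y0 := by rw [hρ0]; simp
  obtain ⟨r, hr1, hr2, hr3⟩ := cluster hcnt (ρ0 := ρ0) hδ' (by linarith) (by linarith) (n := n) (by rw [him]; exact hn)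
    (M := M)
  have hr0 : 0 < r := lt_of_lt_of_le (by positivity) hr1
  have hrM : r ≤ 1 / M := by
    rw [le_div_iff₀ hM0]
    linarith
  have hr64 : r ≤ δ' / 64 := by
    rw [le_div_iff₀ (by norm_num)]
    nlinarith
  have hrδ : r < δ := by linarith
  have hsep : ∀ ρ ∈ D.Zs, ‖ρ - (1 / 2 + (δ + y0 * I))‖ ≤ r ∨ r * M < ‖ρ - (1 / 2 + (δ + y0 * I))‖ := hr3
  obtain ⟨z, hz1, hz2, hz3, hz4, hz5⟩ := points (y0 := y0) (Dl := Dl) (r := r) (δ := δ) (rM := r * M) hq hB hDl hδ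
    (by linarith) (by rw [← hRd]; exact hcntB) hsep
  rw [← hRd] at hz1 hz3 hz5
  have hN : 0 < B * q := Nat.mul_pos hB hq
  obtain ⟨f, hf1, hf2, hf3, hf4⟩ := block (a := 12 / R) (R := R) (y0 := y0) (D0 := Dl) (t := t) (r := r) (M := M) (δ := δ)
    (k := k) (N := B * q) (z := z) (by positivity) (by
      rw [div_le_div_iff₀ hR0 (by norm_num)]
      linarith) (by rw [div_mul_cancel₀ _ hR0.ne']) (by linarith) hN (by
      rw [hRd]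
      push_cast
      nlinarith) hDl.le hDR ht hz1 hz2 hz3 hδ hδ1 hρ hr0 (by linarith) hrδ hM0 hz4
    (fun i hi => by
      refine htM.trans (mul_le_mul_of_nonneg_right ?_ (by positivity))
      refine le_trans ?_ (hz4 i hi)
      have e : δ' / M ^ n = δ' / M ^ (n + 1) * M := by rw [pow_succ]; field_simp
      rw [e]
      exact mul_le_mul_of_nonneg_right hr1 hM0.le) hz5 (by
      have e1 : (8 * ((B * q : ℕ) : ℝ) + (k + 1) * (4 * (12 / R))) / M =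
          8 * ((B * q : ℕ) : ℝ) / M + (k + 1) * (4 * (12 / R) * (1 / M)) := by ring
      rw [e1] at hvar
      have h1 : ((k : ℝ) + 1) * (4 * (12 / R) * r) ≤ (k + 1) * (4 * (12 / R) * (1 / M)) := by
        refine mul_le_mul_of_nonneg_left (mul_le_mul_of_nonneg_left hrM (by positivity)) (by positivity)
      linarith)
  exact ⟨f, r, hr0.le, hr64, hf1, hf2, hf3, hf4⟩

end

end Pool.Agent.Zk4.B
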