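import Pool.Agent.Zk2.LX.C
import Pool.Agent.Zk2.LW.E

/-! # The sharp local Weil criterion: zeros near the line are harmless (the side of the zeros) -/

set_option autoImplicit false
set_option linter.unusedSectionVars false
set_option maxHeartbeats 1000000

open Complex Filter Topology Set MeasureTheory Metric
open scoped ComplexConjugate

namespace Pool.Agent.Zk4.R

open Pool.Agent.Zk2.LX (nb lo hi WP hi_sum hi_map hi_nonneg norm_hi_le nb_nonneg sg_far)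
open Pool.Agent.Y23 (TT Fa N2 plancherel N2_nonneg norm_TT_le)
open Pool.Agent.Y23.G (gsq gsq_nonneg gsq_cont gsq_int CC CC_zero Fa_shift Lg one_le_Lg Hd TT_shift GG GG_line QQ QB QB_self
  summable_GG Dom dom_of_Hd Zt mu ZD ZC zsummable half_re rfZ rfZ_sub GG_diff)
open Pool.Agent.Zk2.WP (Av sg Av_Fa TT_Av zL)
open Pool.Agent.Zk2.LW (sg_line sg_mul sg_conj Ai Ai_Fa TT_Ai sq sq_nonneg' sq_le_one sq_cont gsq_Ai Hd_Ai GG_Ai Hd_mono
  norm_GG sg_diff)

/-- the trivial bound of the multiplier -/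
lemma sg_triv {ε : ℝ} (hε : 0 < ε) {w : ℂ} (hw : |w.re| ≤ 1) : ‖sg ε w‖ ≤ Real.exp ε := by
  unfold sg
  rw [norm_mul, Complex.norm_real, Real.norm_of_nonneg (by positivity)]
  have h6 : ‖∫ y in (-ε)..ε, cexp (w * y)‖ ≤ Real.exp ε * |ε - -ε| := by
    refine intervalIntegral.norm_integral_le_of_norm_le_const fun y hy => ?_
    rw [Set.uIoc_of_le (by linarith)] at hy
    rw [Complex.norm_exp]
    refine Real.exp_le_exp.2 ?_
    have e : (w * (y : ℂ)).re = w.re * y := by simp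
    rw [e]
    have hy' : |y| ≤ ε := abs_le.2 ⟨hy.1.le, hy.2⟩
    calc w.re * y ≤ |w.re * y| := le_abs_self _
      _ = |w.re| * |y| := abs_mul _ _
      _ ≤ 1 * ε := mul_le_mul hw hy' (abs_nonneg _) zero_le_one
      _ = ε := one_mul _
  have e : |ε - -ε| = 2 * ε := by
    rw [sub_neg_eq_add, abs_of_pos (by linarith)]
    ring
  rw [e] at h6
  calc (2 * ε)⁻¹ * ‖∫ y in (-ε)..ε, cexp (w * y)‖ ≤ (2 * ε)⁻¹ * (Real.exp ε * (2 * ε)) :=
        mul_le_mul_of_nonneg_left h6 (by positivity)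
    _ = Real.exp ε := by field_simp

/-- the multiplier in the strip -/
lemma hi_strip {ε e1 : ℝ} (hε : 0 < ε) (he : Real.exp ε ^ 2 ≤ e1) {w : ℂ} (hw : |w.re| ≤ 1) (u q : ℕ) :
    ‖hi u q (sg ε w ^ 2)‖ ≤ e1 ^ (q + 1) * ((1 + e1) ^ u * nb q (u + 1) 1) := by
  have h0 := Real.exp_pos ε
  have hnb : 0 ≤ nb q (u + 1) (1 : ℝ) := nb_nonneg zero_le_one
  have he0 : 0 ≤ e1 := (sq_nonneg _).trans he
  have h1 : ‖sg ε w ^ 2‖ ≤ e1 := by
    rw [norm_pow]
    exact (pow_le_pow_left₀ (norm_nonneg _) (sg_triv hε hw) 2).trans he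
  refine (norm_hi_le h1).trans ?_
  rw [pow_succ e1 q, mul_comm (e1 ^ q) e1, mul_assoc]
  exact mul_le_mul_of_nonneg_right h1 (by positivity)

lemma nb_diff (u q : ℕ) {s : ℂ → ℂ} (hs : Differentiable ℂ s) : Differentiable ℂ fun w => nb u q (s w) := by
  unfold nb
  exact Differentiable.fun_sum fun j _ => (hs.pow j).const_mul _

lemma hi_diff {ε : ℝ} (hε : 0 < ε) (u q : ℕ) : Differentiable ℂ fun w => hi u q (sg ε w ^ 2) := by
  unfold hi
  have h1 : Differentiable ℂ fun w => sg ε w ^ 2 := (sg_diff hε).pow 2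
  exact (h1.pow (q + 1)).mul (nb_diff q (u + 1) ((differentiable_const 1).sub h1))

/-- the value on the line -/
lemma line_nonneg {ε : ℝ} (hε : 0 < ε) (f : ℝ → ℂ) (u q : ℕ) (v : ℝ) :
    0 ≤ (GG f f (v * I) * hi u q (sg ε (v * I) ^ 2)).re := by
  have h7 : sg ε (v * I) ^ 2 = ((sq ε v : ℝ) : ℂ) := by
    rw [sg_line hε]
    unfold Pool.Agent.Zk2.LW.sq
    push_cast
    rfl
  have h8 : hi u q ((sq ε v : ℝ) : ℂ) = ((hi u q (sq ε v) : ℝ) : ℂ) :=
    (hi_map Complex.ofRealHom u q (sq ε v)).symm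
  have h6 : GG f f (v * I) = ((‖TT f (v * I)‖ ^ 2 : ℝ) : ℂ) := by
    have := GG_line f v
    rw [← this]
    congr 1
    apply Complex.ext
    · simp
    · simp
  rw [h6, h7, h8, ← Complex.ofReal_mul, Complex.ofReal_re]
  exact mul_nonneg (sq_nonneg _) (hi_nonneg (sq_nonneg' _ _) (sq_le_one _ _))

section
variable [D : ZD] [EC : ZC]

/-- zeros near the line contribute almost nothing negative -/
lemma near {a ε H : ℝ} (ha : 0 < a) (hε : 0 < ε) {f : ℝ → ℂ} (hf : Fa a f) (u q : ℕ)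
    (hH : ∀ w : ℂ, |w.re| ≤ 1 → ‖hi u q (sg ε w ^ 2)‖ ≤ H) {w : ℂ} (hw : |w.re| < 1) :
    -(2 * (2 * a * Real.exp (2 * a) * N2 f * H) * |w.re|) ≤ (GG f f w * hi u q (sg ε w ^ 2)).re := by
  have hN := N2_nonneg f
  set B : ℝ := 2 * a * Real.exp (2 * a) * N2 f * H with hB
  set Φ : ℂ → ℂ := fun z => GG f f z * hi u q (sg ε z ^ 2) with hΦ
  set c : ℂ := (w.im : ℂ) * I with hc
  have hcre : c.re = 0 := by simp [hc]
  have hb : ∀ z : ℂ, |z.re| ≤ 1 → ‖Φ z‖ ≤ B := by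
    intro z hz
    have h10 := norm_GG ha hf hz
    rw [mul_one] at h10
    show ‖GG f f z * hi u q (sg ε z ^ 2)‖ ≤ B
    rw [norm_mul]
    exact mul_le_mul h10 (hH z hz) (norm_nonneg _) (by positivity)
  have hd : DifferentiableOn ℂ Φ (ball c 1) := ((GG_diff hf hf).mul (hi_diff hε u q)).differentiableOn
  have hmaps : MapsTo Φ (ball c 1) (closedBall (Φ c) (2 * B)) := by
    intro z hz
    rw [mem_ball, dist_eq_norm] at hz
    have h1 : |z.re| ≤ 1 := by
      have h2 := Complex.abs_re_le_norm (z - c)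
      rw [Complex.sub_re, hcre, sub_zero] at h2
      linarith
    have h2 := hb z h1
    have h3 := hb c (by rw [hcre, abs_zero]; exact zero_le_one)
    rw [mem_closedBall, dist_eq_norm]
    refine (norm_sub_le _ _).trans (by linarith)
  have hwc : dist w c = |w.re| := by
    have : w - c = ((w.re : ℝ) : ℂ) := by
      apply Complex.ext
      · simp [hc]
      · simp [hc]
    rw [dist_eq_norm, this, Complex.norm_real, Real.norm_eq_abs]
  have hmem : w ∈ ball c 1 := by rw [mem_ball, hwc]; exact hw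
  have h4 := Complex.dist_le_div_mul_dist_of_mapsTo_ball hd hmaps hmem
  rw [hwc, div_one, dist_eq_norm] at h4
  have h5 := line_nonneg hε f u q w.im
  have h6 : -‖Φ w - Φ c‖ ≤ (Φ w - Φ c).re := neg_le_of_abs_le (Complex.abs_re_le_norm _)
  rw [Complex.sub_re] at h6
  have h7 : 0 ≤ (Φ c).re := h5
  show -(2 * B * |w.re|) ≤ (Φ w).re
  linarith

/-- the lower bound of the high part -/
theorem zero_side' {a ε T y η H : ℝ} (ha : 0 < a) (hε : 0 < ε) (hT : 1 ≤ T) (hy : (Real.exp ε / (ε * T)) ^ 2 ≤ y)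
    (hη0 : 0 < η) (hη1 : η < 1) {f : ℝ → ℂ} (hf : Hd a f) (u q r : ℕ) (hu : u + 1 = 2 * r)
    (hH : ∀ w : ℂ, |w.re| ≤ 1 → ‖hi u q (sg ε w ^ 2)‖ ≤ H)
    (hz : ∀ ρ : Zt, 1 / 2 + η ≤ (ρ : ℂ).re → |(ρ : ℂ).im| ≤ T → TT f ((ρ : ℂ) - 1 / 2) = 0) :
    -((2 * a * Real.exp (2 * a) * N2 f * (y ^ q * ((1 + y) ^ u * nb q (u + 1) 1)) * (2 * (Real.exp ε / ε) ^ 2) +
      2 * (2 * a * Real.exp (2 * a) * N2 f * H) * η * (1 + T ^ 2)) *
      ∑' ρ : Zt, (mu ρ : ℝ) * (1 / (1 + (ρ : ℂ).im ^ 2))) ≤ QQ f - WP ε u q r f := by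
  have hT0 : 0 < T := by linarith
  have hE := Real.exp_pos ε
  have hy0 : 0 ≤ y := le_trans (sq_nonneg _) hy
  have hnb : 0 ≤ nb q (u + 1) (1 : ℝ) := nb_nonneg zero_le_one
  have hH0 : 0 ≤ H := (norm_nonneg _).trans (hH 0 (by simp))
  set Y : ℝ := y ^ q * ((1 + y) ^ u * nb q (u + 1) 1) with hY
  have hY0 : 0 ≤ Y := by positivity
  have hN := N2_nonneg f
  set K : ℝ := 2 * a * Real.exp (2 * a) * N2 f * Y * (2 * (Real.exp ε / ε) ^ 2) with hK
  have hK0 : 0 ≤ K := by positivity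
  set B : ℝ := 2 * (2 * a * Real.exp (2 * a) * N2 f * H) with hB
  have hB0 : 0 ≤ B := by positivity
  have h1 := Complex.hasSum_re (hi_sum ha hε hf u q r hu)
  rw [Complex.ofReal_re] at h1
  have hsz := zsummable (D := D) 0
  simp only [sub_zero] at hsz
  have h2 := (hsz.hasSum.mul_left (K + B * η * (1 + T ^ 2))).neg
  refine hasSum_le (fun ρ => ?_) h2 h1
  have hμ : (0 : ℝ) ≤ mu ρ := Nat.cast_nonneg _
  set w : ℂ := (ρ : ℂ) - 1 / 2 with hw
  have wim : w.im = (ρ : ℂ).im := by rw [hw]; simp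
  have wre : w.re = (ρ : ℂ).re - 1 / 2 := by rw [hw]; simp
  have hsplit : (K + B * η * (1 + T ^ 2)) * ((mu ρ : ℝ) * (1 / (1 + (ρ : ℂ).im ^ 2))) =
      (mu ρ : ℝ) * (K * (1 / (1 + (ρ : ℂ).im ^ 2))) + (mu ρ : ℝ) * (B * η * ((1 + T ^ 2) * (1 / (1 + (ρ : ℂ).im ^ 2)))) := by
    ring
  have ecast : (mu ρ : ℂ) * (GG f f w * hi u q (sg ε w ^ 2)) =
      ((mu ρ : ℝ) : ℂ) * (GG f f w * hi u q (sg ε w ^ 2)) := by push_cast; rfl
  rw [ecast, Complex.re_ofReal_mul, hsplit]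
  have hb1 : 0 ≤ (mu ρ : ℝ) * (K * (1 / (1 + (ρ : ℂ).im ^ 2))) := by positivity
  have hb2 : 0 ≤ (mu ρ : ℝ) * (B * η * ((1 + T ^ 2) * (1 / (1 + (ρ : ℂ).im ^ 2)))) := by positivity
  rcases le_or_gt |(ρ : ℂ).im| T with h | h
  · -- low zeros
    have h3 : -(B * η) ≤ (GG f f w * hi u q (sg ε w ^ 2)).re := by
      have hBη : 0 ≤ B * η := by positivity
      rcases le_or_gt η w.re with h4 | h4
      · have h5 : TT f w = 0 := hz ρ (by linarith) h
        unfold GG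
        rw [h5, zero_mul, zero_mul, Complex.zero_re]
        linarith
      rcases le_or_gt w.re (-η) with h4' | h4'
      · have h5 : TT f (-conj w) = 0 := by
          rw [hw, ← rfZ_sub]
          refine hz (rfZ ρ) ?_ ?_
          · show 1 / 2 + η ≤ (1 - conj (ρ : ℂ)).re
            simp only [Complex.sub_re, Complex.one_re, Complex.conj_re]
            linarith
          · show |(1 - conj (ρ : ℂ)).im| ≤ T
            simpa using h
        unfold GG
        rw [h5, map_zero, mul_zero, zero_mul, Complex.zero_re]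
        linarith
      · have h6 : |w.re| ≤ η := abs_le.2 ⟨h4'.le, h4.le⟩
        have h7 := near ha hε hf.1 u q hH (w := w) (by linarith)
        rw [← hB] at h7
        have h8 := mul_le_mul_of_nonneg_left h6 hB0
        linarith
    have h9 : 1 ≤ (1 + T ^ 2) * (1 / (1 + (ρ : ℂ).im ^ 2)) := by
      rw [mul_one_div, le_div_iff₀ (by positivity)]
      have : (ρ : ℂ).im ^ 2 ≤ T ^ 2 := by
        rw [← sq_abs (ρ : ℂ).im]
        exact pow_le_pow_left₀ (abs_nonneg _) h 2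
      linarith
    have h10 : (mu ρ : ℝ) * (B * η) ≤ (mu ρ : ℝ) * (B * η * ((1 + T ^ 2) * (1 / (1 + (ρ : ℂ).im ^ 2)))) :=
      mul_le_mul_of_nonneg_left (le_mul_of_one_le_right (by positivity) h9) hμ
    have h11 := mul_le_mul_of_nonneg_left h3 hμ
    linarith
  · -- high zeros
    have hw1 : |w.re| ≤ 1 := half_re ρ
    have h3 := sg_far hε hw1
    have hγ0 : 0 < |(ρ : ℂ).im| := by linarith
    have h4 : |(ρ : ℂ).im| * ‖sg ε w‖ ≤ Real.exp ε / ε := by
      refine le_trans ?_ h3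
      refine mul_le_mul_of_nonneg_right ?_ (norm_nonneg _)
      rw [← wim]
      exact Complex.abs_im_le_norm w
    have h5 : (ρ : ℂ).im ^ 2 * ‖sg ε w ^ 2‖ ≤ (Real.exp ε / ε) ^ 2 := by
      have := pow_le_pow_left₀ (by positivity) h4 2
      rwa [mul_pow, sq_abs, ← norm_pow] at this
    have h6 : T ^ 2 ≤ (ρ : ℂ).im ^ 2 := by
      rw [← sq_abs (ρ : ℂ).im]
      exact pow_le_pow_left₀ hT0.le h.le 2
    have hγ1 : 1 ≤ (ρ : ℂ).im ^ 2 := by nlinarith
    have h7 : ‖sg ε w ^ 2‖ ≤ y := by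
      refine le_trans ?_ hy
      have e : (Real.exp ε / (ε * T)) ^ 2 = (Real.exp ε / ε) ^ 2 / T ^ 2 := by rw [← div_div, div_pow (Real.exp ε / ε)]
      rw [e, le_div_iff₀ (by positivity), mul_comm]
      exact (mul_le_mul_of_nonneg_right h6 (norm_nonneg _)).trans h5
    have h8 := norm_hi_le (u := u) (q := q) h7
    have h9 : ‖hi u q (sg ε w ^ 2)‖ ≤ (2 * (Real.exp ε / ε) ^ 2) * Y * (1 / (1 + (ρ : ℂ).im ^ 2)) := by
      refine h8.trans ?_
      have k1 : ‖sg ε w ^ 2‖ ≤ (2 * (Real.exp ε / ε) ^ 2) * (1 / (1 + (ρ : ℂ).im ^ 2)) := by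
        rw [mul_one_div, le_div_iff₀ (by positivity)]
        nlinarith [norm_nonneg (sg ε w ^ 2)]
      calc ‖sg ε w ^ 2‖ * Y ≤ ((2 * (Real.exp ε / ε) ^ 2) * (1 / (1 + (ρ : ℂ).im ^ 2))) * Y :=
            mul_le_mul_of_nonneg_right k1 hY0
        _ = _ := by ring
    have h10 := norm_GG ha hf.1 hw1
    rw [mul_one] at h10
    have h11 : ‖GG f f w * hi u q (sg ε w ^ 2)‖ ≤ K * (1 / (1 + (ρ : ℂ).im ^ 2)) := by
      rw [norm_mul]
      calc ‖GG f f w‖ * ‖hi u q (sg ε w ^ 2)‖ ≤ (2 * a * Real.exp (2 * a) * N2 f) *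
            ((2 * (Real.exp ε / ε) ^ 2) * Y * (1 / (1 + (ρ : ℂ).im ^ 2))) :=
              mul_le_mul h10 h9 (norm_nonneg _) (by positivity)
        _ = _ := by rw [hK]; ring
    have h12 := (Complex.abs_re_le_norm (GG f f w * hi u q (sg ε w ^ 2))).trans h11
    have h13 := neg_le_of_abs_le h12
    have h14 := mul_le_mul_of_nonneg_left h13 hμ
    linarith

end

end Pool.Agent.Zk4.R
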