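import Pool.Agent.Zk4.Bl

/-! # The index form of the converse for a general L-function -/

set_option autoImplicit false

open Complex Finset MeasureTheory Set
open scoped ComplexConjugate

namespace Pool.Agent.Zk4.C

open Pool.Agent.Zk4.B
open Pool.Agent.Y23 (TT Fa)
open Pool.Agent.Y23.G (GG QQ Dom Hd Zt mu ZD ZC Lg one_le_Lg half_re zsummable)

section
variable [D : ZD] [EC : ZC]

/-- separated zeros off the line give a negative definite space of the same dimension -/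
theorem fam_gen {C Λ l : ℝ} (hC : 1 ≤ C) (hΛ : 1 ≤ Λ) (hl : 40 * C * Λ ≤ l)
    (hev : 10 ^ 6 * C * (l + 1) ^ 4 ≤ Real.exp (l / (32 * C)))
    (hcnt0 : ∀ t : ℝ, ∀ S : Finset ℂ, (∀ s ∈ S, s ∈ D.Zs ∧ |s.im - t| ≤ 1) →
      ((∑ s ∈ S, mu s : ℕ) : ℝ) ≤ C * (Λ + Lg t))
    (hKz : ∀ t : ℝ, ∑' ρ : Zt, (mu ρ : ℝ) * (1 / (1 + ((ρ : ℂ).im - t) ^ 2)) ≤ C * (Λ + Lg t)) (S : Finset ℂ)
    (hSz : ∀ s ∈ S, s ∈ D.Zs ∧ |s.im| ≤ Real.exp (l / (32 * C)) ∧ Real.exp (-Real.exp (l / (32 * C))) ≤ s.re - 1 / 2)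
    (hSsep : ∀ s ∈ S, ∀ s' ∈ S, s ≠ s' → Real.exp (-Real.exp (l / (32 * C))) ≤ ‖s - s'‖) :
      ∃ F : {x // x ∈ S} → ℝ → ℂ, ∀ c : {x // x ∈ S} → ℂ, c ≠ 0 →
        Hd (l / 2) (fun x => ∑ i, c i * F i x) ∧ QQ (fun x => ∑ i, c i * F i x) < 0 := by
  have hpi := Real.pi_gt_three
  have hpi4 := Real.pi_le_four
  have hpi5 := Real.pi_lt_d2
  have hC0 : 0 < C := by linarith
  have hCΛ : Λ ≤ C * Λ := le_mul_of_one_le_left (by linarith) hC
  have hCΛ1 : C ≤ C * Λ := le_mul_of_one_le_right hC0.le hΛ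
  have hl40 : 40 ≤ l := by linarith
  have hΛl : 40 * Λ ≤ l := by linarith
  have hCl : 40 * C ≤ l := by linarith
  -- the constant of the counting
  set C' : ℝ := C * (Λ + 1) with hC'
  have hC'0 : 0 < C' := by positivity
  have hcnt : ∀ t : ℝ, ∀ S : Finset ℂ, (∀ s ∈ S, s ∈ D.Zs ∧ |s.im - t| ≤ 1) →
      ((∑ s ∈ S, mu s : ℕ) : ℝ) ≤ C' * Lg t := by
    intro t S hS
    refine (hcnt0 t S hS).trans ?_
    have h1 := one_le_Lg t
    have h2 : Λ ≤ Λ * Lg t := le_mul_of_one_le_right (by linarith) h1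
    rw [hC', mul_assoc]
    refine mul_le_mul_of_nonneg_left ?_ hC0.le
    linarith
  set Lp : ℝ := l + 1 with hLp
  have hLp1 : 1 ≤ Lp := by linarith
  have hLp2 : 1 ≤ Lp ^ 2 := one_le_pow₀ hLp1
  have hLpL : Lp ≤ Lp ^ 2 := by nlinarith
  have hLp23 : Lp ^ 2 ≤ Lp ^ 3 := pow_le_pow_right₀ hLp1 (by norm_num)
  have hLp34 : Lp ^ 3 ≤ Lp ^ 4 := pow_le_pow_right₀ hLp1 (by norm_num)
  have hC'L : C' ≤ C * Lp := by
    rw [hC', hLp]
    exact mul_le_mul_of_nonneg_left (by linarith) hC0.le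
  set E : ℝ := Real.exp (l / (32 * C)) with hE
  set E2 : ℝ := E * E with hE2
  have hE0 : 0 < E := Real.exp_pos _
  have hA1 : 10 ^ 6 * (C * Lp ^ 4) ≤ E := by rw [← mul_assoc]; exact hev
  have hCL4 : C * 1 ≤ C * Lp ^ 4 := mul_le_mul_of_nonneg_left (by linarith) hC0.le
  have hEC : 10 ^ 6 * C ≤ E := by linarith
  have hE6 : 10 ^ 6 ≤ E := by linarith
  have hE1 : 1 ≤ E := by linarith
  have hE20 : 0 < E2 := by positivity
  have hEE2 : 10 ^ 6 * E ≤ E2 := mul_le_mul_of_nonneg_right hE6 hE0.le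
  have hE2L : E2 * E ≤ Real.exp l := by
    have : E2 * E = Real.exp (3 * (l / (32 * C))) := by
      rw [hE2, hE, ← Real.exp_add, ← Real.exp_add]
      congr 1
      ring
    rw [this]
    refine Real.exp_le_exp.2 ?_
    have h1 : l / (32 * C) ≤ l / 32 := div_le_div_of_nonneg_left (by linarith) (by norm_num) (by linarith)
    linarith
  have hE2e : E2 ≤ Real.exp l := (le_mul_of_one_le_right hE20.le hE1).trans hE2L
  -- the window
  set B : ℕ := ⌈E2⌉₊ with hB
  set R : ℝ := B * 2 / 2 with hR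
  have hRB : R = B := by rw [hR]; ring
  have hB1 : E2 ≤ B := Nat.le_ceil _
  have hB2 : (B : ℝ) < E2 + 1 := Nat.ceil_lt_add_one hE20.le
  have hRE : E2 ≤ R := by rw [hRB]; exact hB1
  have hRE2 : R ≤ 2 * E2 := by rw [hRB]; linarith
  have hR0 : 0 < R := by linarith
  have hBpos : 0 < B := by
    have : (0 : ℝ) < B := by linarith
    exact_mod_cast this
  have hBr : (0 : ℝ) < B := by exact_mod_cast hBpos
  set X : ℝ := 3 * E2 + 1 with hX
  have hlogX : Real.log (3 + X) ≤ 2 + l / (16 * C) := by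
    rw [Real.log_le_iff_le_exp (by positivity)]
    have h1 : Real.exp (2 + l / (16 * C)) = Real.exp 2 * E2 := by
      rw [hE2, hE, ← Real.exp_add, ← Real.exp_add]
      congr 1
      field_simp
      ring
    rw [h1]
    have h2 := four_le_exp
    have h3 := mul_le_mul_of_nonneg_right h2 hE20.le
    rw [hX]
    linarith
  have hlogX0 : 1 ≤ Real.log (3 + X) := by
    rw [Real.le_log_iff_exp_le (by positivity)]
    have := Real.exp_one_lt_d9
    rw [hX]
    linarith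
  set x : ℝ := C * (Λ + Real.log (3 + X)) with hx
  set q : ℕ := ⌊x⌋₊ with hq
  have hx0 : 0 ≤ x := by positivity
  have hx2 : 2 ≤ x := by
    rw [hx]
    calc (2 : ℝ) = 1 * (1 + 1) := by norm_num
      _ ≤ C * (Λ + Real.log (3 + X)) := mul_le_mul hC (by linarith) (by norm_num) hC0.le
  have hqx : (q : ℝ) ≤ x := Nat.floor_le hx0
  have hxq : x < q + 1 := Nat.lt_floor_add_one x
  have hqr1 : (1 : ℝ) < q := by linarith
  have hqpos : 0 < q := by
    have : (0 : ℝ) < q := by linarith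
    exact_mod_cast this
  have hqr : (0 : ℝ) < q := by exact_mod_cast hqpos
  have hxle : x ≤ C * Λ + 2 * C + l / 16 := by
    have h1 : C * Real.log (3 + X) ≤ C * (2 + l / (16 * C)) := mul_le_mul_of_nonneg_left hlogX hC0.le
    have h2 : C * (2 + l / (16 * C)) = 2 * C + l / 16 := by field_simp
    rw [hx, mul_add]
    linarith
  have hxl : x ≤ l / 40 + 2 * (l / 40) + l / 16 := by linarith
  have hqL : (q : ℝ) ≤ Lp := by linarith
  -- the number of factors
  set N : ℕ := B * q with hN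
  have hNr : ((N : ℕ) : ℝ) = R * q := by
    rw [hN, hRB]
    push_cast
    ring
  have hN2 : (N : ℝ) ≤ R * Lp := by
    rw [hNr]
    exact mul_le_mul_of_nonneg_left hqL hR0.le
  have hLp4E : 2 * Lp ≤ E := by
    have : C * Lp ^ 4 ≥ 1 * Lp ^ 4 := mul_le_mul_of_nonneg_right hC (by positivity)
    linarith
  have hNL : (N : ℝ) ≤ Real.exp l := by
    refine hN2.trans (le_trans ?_ hE2L)
    calc R * Lp ≤ (2 * E2) * Lp := by gcongr
      _ = E2 * (2 * Lp) := by ring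
      _ ≤ E2 * E := mul_le_mul_of_nonneg_left hLp4E hE20.le
  have hNpos : 0 < N := Nat.mul_pos hBpos hqpos
  have hN0 : (0 : ℝ) < N := by exact_mod_cast hNpos
  have hlogN : Real.log N ≤ l := by
    rw [Real.log_le_iff_le_exp hN0]
    exact hNL
  have hlogN0 : 0 ≤ Real.log N := Real.log_natCast_nonneg N
  -- M and n
  set M : ℝ := 64 * (N + l) with hM
  have hM1 : 1 < M := by rw [hM]; linarith
  have hLe : l + 1 ≤ Real.exp l := Real.add_one_le_exp l
  have he1 : 2 < Real.exp 1 := by linarith [Real.exp_one_gt_d9]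
  have hMe : M ≤ Real.exp (5 * Lp) := by
    have h1 : M ≤ 128 * Real.exp l := by rw [hM]; linarith
    have h2 := le_exp_five
    calc M ≤ 128 * Real.exp l := h1
      _ ≤ Real.exp 5 * Real.exp l := mul_le_mul_of_nonneg_right h2 (Real.exp_pos _).le
      _ = Real.exp (5 + l) := by rw [Real.exp_add]
      _ ≤ _ := Real.exp_le_exp.2 (by rw [hLp]; linarith)
  set n : ℕ := ⌊C' * (2 * Lp)⌋₊ with hn
  have hn1 : C' * (2 * Lp) < n + 1 := Nat.lt_floor_add_one _
  have hn2 : (n : ℝ) ≤ 2 * C * Lp ^ 2 := by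
    refine (Nat.floor_le (by positivity)).trans ?_
    have := mul_le_mul_of_nonneg_right hC'L (show 0 ≤ 2 * Lp by linarith)
    linarith
  have hMn : M ^ n ≤ Real.exp (10 * C * Lp ^ 3) := by
    calc M ^ n ≤ Real.exp (5 * Lp) ^ n := pow_le_pow_left₀ (by linarith) hMe n
      _ = Real.exp (n * (5 * Lp)) := by rw [← Real.exp_nat_mul]
      _ ≤ _ := by
        refine Real.exp_le_exp.2 ?_
        calc (n : ℝ) * (5 * Lp) ≤ 2 * C * Lp ^ 2 * (5 * Lp) := mul_le_mul_of_nonneg_right hn2 (by positivity)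
          _ = _ := by ring
  set t : ℝ := E + 10 * C * Lp ^ 3 + Lp with ht
  have ht0 : 0 ≤ t := by positivity
  have htE : 1 + t ≤ 2 * E := by
    have h1 : C * Lp ^ 3 ≤ C * Lp ^ 4 := mul_le_mul_of_nonneg_left hLp34 hC0.le
    have h2 : Lp ≤ C * Lp ^ 4 := by
      have : 1 * Lp ^ 4 ≤ C * Lp ^ 4 := mul_le_mul_of_nonneg_right hC (by positivity)
      linarith
    have h3 : 1 ≤ C * Lp ^ 4 := by linarith
    rw [ht]
    linarith
  set δ' : ℝ := Real.exp (-E) with hδ'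
  have hδ'0 : 0 < δ' := Real.exp_pos _
  have htM : Real.exp (-t) ≤ δ' / M ^ n * (Real.pi / R / 2) := by
    have e1 : Real.exp (-t) = Real.exp (-E) * (Real.exp (10 * C * Lp ^ 3))⁻¹ * Real.exp (-Lp) := by
      rw [← Real.exp_neg, ← Real.exp_add, ← Real.exp_add]
      congr 1
      rw [ht]
      ring
    rw [e1, div_eq_mul_inv]
    have h1 : (Real.exp (10 * C * Lp ^ 3))⁻¹ ≤ (M ^ n)⁻¹ := inv_anti₀ (by positivity) hMn
    have h2 : Real.exp (-Lp) ≤ Real.pi / R / 2 := exp_neg_le_pi hR0 (by linarith)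
    exact mul_le_mul (mul_le_mul le_rfl h1 (by positivity) hδ'0.le) h2 (by positivity) (by positivity)
  -- k
  set κ : ℝ := l * R / 96 with hκ
  have hκ1 : 1 ≤ κ := by
    rw [hκ, le_div_iff₀ (by norm_num)]
    have h1 : 96 ≤ R := by linarith
    have h2 : 1 * R ≤ l * R := mul_le_mul_of_nonneg_right (by linarith) hR0.le
    linarith
  have hfl : 1 ≤ ⌊κ⌋₊ := by
    rw [Nat.one_le_floor_iff]
    exact hκ1
  obtain ⟨k, hk⟩ : ∃ k : ℕ, ⌊κ⌋₊ = k + 1 := ⟨⌊κ⌋₊ - 1, by omega⟩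
  have hk1 : (k : ℝ) + 1 ≤ κ := by
    have := Nat.floor_le (by linarith : 0 ≤ κ)
    rw [hk] at this
    push_cast at this
    exact this
  have hk2 : κ < k + 2 := by
    have := Nat.lt_floor_add_one κ
    rw [hk] at this
    push_cast at this
    linarith
  have hka : ((k : ℝ) + 1) * (12 / R) ≤ l / 8 := by
    calc ((k : ℝ) + 1) * (12 / R) ≤ κ * (12 / R) := mul_le_mul_of_nonneg_right hk1 (by positivity)
      _ = l / 8 := by rw [hκ]; field_simp; norm_num
  -- the conditions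
  have g2 : ∀ y0 : ℝ, |y0| ≤ E → ∀ m < B, ∀ S : Finset ℂ, (∀ s ∈ S, s ∈ D.Zs ∧ y0 - R + m * 2 ≤ s.im ∧
      s.im ≤ y0 - R + m * 2 + 2) → S.card ≤ q := by
    intro y0 him m hm S hSm
    have hmB : (m : ℝ) * 2 ≤ 2 * R := by
      have h1 : (m : ℝ) ≤ B := by exact_mod_cast hm.le
      rw [hRB]
      linarith
    have hm0 : 0 ≤ (m : ℝ) * 2 := by positivity
    have h1 := hcnt0 (y0 - R + m * 2 + 1) S (fun s hs => by
      obtain ⟨h2, h3, h4⟩ := hSm s hs
      exact ⟨h2, abs_le.2 ⟨by linarith, by linarith⟩⟩)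
    have h2 : (S.card : ℝ) ≤ ((∑ s ∈ S, mu s : ℕ) : ℝ) := by
      have h3 : S.card ≤ ∑ s ∈ S, mu s := by
        rw [Finset.card_eq_sum_ones]
        refine Finset.sum_le_sum fun s hs => ?_
        exact D.mpos s (hSm s hs).1
      exact_mod_cast h3
    have h3 : Lg (y0 - R + m * 2 + 1) ≤ Real.log (3 + X) := by
      unfold Lg
      refine Real.log_le_log (by positivity) ?_
      have h4 : |y0 - R + m * 2 + 1| ≤ X := by
        rw [abs_le]
        have h5 := abs_le.1 him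
        rw [hX]
        constructor <;> linarith [h5.1, h5.2]
      linarith
    refine Nat.le_floor (h2.trans (h1.trans ?_))
    rw [hx]
    exact mul_le_mul_of_nonneg_left (by linarith) hC0.le
  have g3 : 2 * (Real.pi / R * (2 + 5)) ≤ 1 := by
    have e1 : 2 * (Real.pi / R * (2 + 5)) = 14 * Real.pi / R := by ring
    rw [e1, div_le_one hR0]
    linarith
  have g4 : (8 * ((B * q : ℕ) : ℝ) + (k + 1) * (4 * (12 / R))) / M ≤ 1 / 8 := by
    show (8 * ((N : ℕ) : ℝ) + (k + 1) * (4 * (12 / R))) / M ≤ 1 / 8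
    rw [div_le_iff₀ (by linarith)]
    have h1 : ((k : ℝ) + 1) * (4 * (12 / R)) ≤ l / 2 := by
      have : ((k : ℝ) + 1) * (4 * (12 / R)) = 4 * (((k : ℝ) + 1) * (12 / R)) := by ring
      rw [this]
      linarith
    rw [hM]
    linarith
  have hER : E < R := by linarith
  have hcard : (S.card : ℝ) ≤ N := by
    have h1 : S.card ≤ q * (range B).card := by
      refine Finset.card_le_mul_card_image_of_maps_to (f := fun s : ℂ => ⌊(s.im + R) / 2⌋₊) (fun s hs => ?_) q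
        (fun m hm => ?_)
      · rw [Finset.mem_range, Nat.floor_lt (by
          have := abs_le.1 (hSz s hs).2.1
          exact div_nonneg (by linarith [this.1]) (by norm_num)), div_lt_iff₀ (by norm_num)]
        have h2 := abs_le.1 (hSz s hs).2.1
        rw [← hRB]
        linarith [h2.2]
      · rw [Finset.mem_range] at hm
        refine g2 0 (by rw [abs_zero]; exact hE0.le) m hm _ fun s hs => ?_
        rw [Finset.mem_filter] at hs
        obtain ⟨hs1, hs2⟩ := hs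
        have h2 := abs_le.1 (hSz s hs1).2.1
        have h0 : 0 ≤ (s.im + R) / 2 := div_nonneg (by linarith [h2.1]) (by norm_num)
        have h3 := Nat.floor_le h0
        have h4 := Nat.lt_floor_add_one ((s.im + R) / 2)
        rw [hs2] at h3 h4
        rw [le_div_iff₀ (by norm_num)] at h3
        rw [div_lt_iff₀ (by norm_num)] at h4
        exact ⟨(hSz s hs1).1, by linarith, by linarith⟩
    rw [Finset.card_range] at h1
    have h2 : (S.card : ℝ) ≤ ((q * B : ℕ) : ℝ) := by exact_mod_cast h1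
    rw [hN, mul_comm B q]
    exact h2
  set K : ℝ := C * (Λ + 2 * Lp) with hKd
  have hK0 : 0 ≤ K := by positivity
  have hK3 : K ≤ 3 * (C * Lp) := by
    rw [hKd]
    have : C * (Λ + 2 * Lp) ≤ C * (3 * Lp) := mul_le_mul_of_nonneg_left (by linarith) hC0.le
    linarith
  set σ : ℝ := 4 / (12 / R) * (1 / 6) ^ k * Real.exp (3 * (Real.pi / R * (2 + 5)) * (1 + t) *
          (((B * q : ℕ) : ℝ) * (1 + Real.log ((B * q : ℕ) : ℝ)))) with hσ
  have g5 : 4 * σ ^ 2 * K * S.card < 1 := by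
    have hσ2 : σ ^ 2 = R ^ 2 / 9 * Real.exp (6 * (Real.pi / R * (2 + 5)) * (1 + t) *
          ((N : ℝ) * (1 + Real.log (N : ℝ)))) / 36 ^ k := by
      rw [hσ]
      show (4 / (12 / R) * (1 / 6) ^ k * Real.exp (3 * (Real.pi / R * (2 + 5)) * (1 + t) *
          ((N : ℝ) * (1 + Real.log (N : ℝ))))) ^ 2 = _
      have e1 : (Real.exp (3 * (Real.pi / R * (2 + 5)) * (1 + t) * ((N : ℝ) * (1 + Real.log (N : ℝ))))) ^ 2 =
          Real.exp (6 * (Real.pi / R * (2 + 5)) * (1 + t) * ((N : ℝ) * (1 + Real.log (N : ℝ)))) := by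
        rw [← Real.exp_nat_mul]
        congr 1
        push_cast
        ring
      have e2 : ((1 / 6 : ℝ) ^ k) ^ 2 = 1 / 36 ^ k := by
        rw [← pow_mul, mul_comm k 2, pow_mul, show ((1 : ℝ) / 6) ^ 2 = 1 / 36 by norm_num, one_div_pow]
      rw [mul_pow, mul_pow, e1, e2]
      field_simp
      ring
    rw [hσ2]
    have h1 : 4 / 9 * K * R ^ 2 * S.card ≤ Real.exp (4 * l) := by
      have h2 : R ^ 2 ≤ 4 * E2 ^ 2 := by
        have := pow_le_pow_left₀ hR0.le hRE2 2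
        rw [mul_pow] at this
        norm_num at this
        exact this
      have h3 : E2 ^ 2 ≤ Real.exp l ^ 2 := pow_le_pow_left₀ hE20.le hE2e 2
      have h4 : 2 * K ≤ Real.exp l := by
        have h5 : C * Lp ≤ C * Lp ^ 4 := mul_le_mul_of_nonneg_left (by linarith) hC0.le
        have h6 : E ≤ Real.exp l := by linarith
        linarith
      have e3 : Real.exp (4 * l) = Real.exp l * Real.exp l ^ 2 * Real.exp l := by
        rw [← Real.exp_nat_mul, ← Real.exp_add, ← Real.exp_add]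
        congr 1
        push_cast
        ring
      rw [e3]
      calc 4 / 9 * K * R ^ 2 * S.card ≤ 4 / 9 * K * (4 * Real.exp l ^ 2) * Real.exp l := by
            have h6 : R ^ 2 ≤ 4 * Real.exp l ^ 2 := by linarith
            have h7 : (S.card : ℝ) ≤ Real.exp l := hcard.trans hNL
            gcongr
        _ = (16 / 9) * K * Real.exp l ^ 2 * Real.exp l := by ring
        _ ≤ 2 * K * Real.exp l ^ 2 * Real.exp l := by
            have : 0 ≤ K * Real.exp l ^ 2 * Real.exp l := by positivity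
            linarith
        _ ≤ _ := mul_le_mul_of_nonneg_right (mul_le_mul_of_nonneg_right h4 (by positivity)) (Real.exp_pos _).le
    have h2 : 6 * (Real.pi / R * (2 + 5)) * (1 + t) * ((N : ℝ) * (1 + Real.log N)) ≤ 336 * E * Lp ^ 2 := by
      have h4 : (N : ℝ) * (1 + Real.log N) ≤ R * Lp * Lp :=
        mul_le_mul hN2 (by rw [hLp]; linarith) (by linarith) (by positivity)
      calc 6 * (Real.pi / R * (2 + 5)) * (1 + t) * ((N : ℝ) * (1 + Real.log N))
          ≤ 6 * (4 / R * (2 + 5)) * (2 * E) * (R * Lp * Lp) := by gcongr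
        _ = _ := by field_simp; ring
    have h3 : Real.exp (3 * (k : ℝ)) ≤ 36 ^ k := by
      have e1 : Real.exp (3 * (k : ℝ)) = Real.exp 3 ^ k := by rw [← Real.exp_nat_mul]; congr 1; ring
      rw [e1]
      exact pow_le_pow_left₀ (Real.exp_pos _).le exp_three_le k
    have h0 : 4 * (R ^ 2 / 9 * Real.exp (6 * (Real.pi / R * (2 + 5)) * (1 + t) *
          ((N : ℝ) * (1 + Real.log (N : ℝ)))) / 36 ^ k) * K * S.card =
        (4 / 9 * K * R ^ 2 * S.card) * Real.exp (6 * (Real.pi / R * (2 + 5)) * (1 + t) *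
          ((N : ℝ) * (1 + Real.log (N : ℝ)))) / 36 ^ k := by ring
    rw [h0, div_lt_one (by positivity)]
    refine lt_of_lt_of_le ?_ h3
    calc (4 / 9 * K * R ^ 2 * S.card) * Real.exp (6 * (Real.pi / R * (2 + 5)) * (1 + t) *
          ((N : ℝ) * (1 + Real.log N))) ≤ Real.exp (4 * l) * Real.exp (336 * E * Lp ^ 2) :=
          mul_le_mul h1 (Real.exp_le_exp.2 h2) (Real.exp_pos _).le (Real.exp_pos _).le
      _ = Real.exp (4 * l + 336 * E * Lp ^ 2) := by rw [← Real.exp_add]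
      _ < Real.exp (3 * (k : ℝ)) := by
        refine Real.exp_lt_exp.2 ?_
        have h4 : κ - 2 < k := by linarith
        have h5 : 400 * (E * Lp ^ 2) ≤ 3 * κ := by
          have h6 : 12800 * Lp ^ 2 ≤ E := by
            have : 1 * Lp ^ 4 ≤ C * Lp ^ 4 := mul_le_mul_of_nonneg_right hC (by positivity)
            linarith
          have h7 : 12800 * (E * Lp ^ 2) ≤ R := by
            have := mul_le_mul_of_nonneg_left h6 hE0.le
            linarith
          have h11 : 3 * κ = R * l / 32 := by rw [hκ]; ring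
          have h12 : R * 1 ≤ R * l := mul_le_mul_of_nonneg_left (by linarith) hR0.le
          rw [h11]
          linarith
        have h6' : 1 * Lp ^ 2 ≤ E * Lp ^ 2 := mul_le_mul_of_nonneg_right hE1 (by positivity)
        have h7 : l ≤ E * Lp ^ 2 := by linarith
        have h8 : 1 ≤ E * Lp ^ 2 := by linarith
        linarith
  -- the blocks
  have hlen : ((k : ℝ) + 1) * (12 / R) + ((B * q : ℕ) : ℝ) * (Real.pi / R / 2) ≤ l / 2 := by
    have h1 : ((B * q : ℕ) : ℝ) * (Real.pi / R / 2) = Real.pi / 2 * q := by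
      show ((N : ℕ) : ℝ) * (Real.pi / R / 2) = Real.pi / 2 * q
      rw [hNr]
      field_simp
    rw [h1]
    have h2 : Real.pi / 2 * q ≤ 2 * q := mul_le_mul_of_nonneg_right (by linarith) hqr.le
    linarith
  have hLgS : ∀ s ∈ S, Lg s.im ≤ 2 * Lp := by
    intro s hs
    unfold Lg
    rw [Real.log_le_iff_le_exp (by positivity)]
    have h1 : (3 : ℝ) + |s.im| ≤ 4 * Real.exp l := by
      have := (hSz s hs).2.1
      linarith
    have h2 := four_le_exp
    calc (3 : ℝ) + |s.im| ≤ 4 * Real.exp l := h1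
      _ ≤ Real.exp 2 * Real.exp l := mul_le_mul_of_nonneg_right h2 (Real.exp_pos _).le
      _ = Real.exp (2 + l) := by rw [Real.exp_add]
      _ ≤ _ := Real.exp_le_exp.2 (by rw [hLp]; linarith)
  have hblock : ∀ i : {x // x ∈ S}, ∃ f : ℝ → ℂ, ∃ r : ℝ, 0 ≤ r ∧ r ≤ δ' / 64 ∧
      Hd ((k + 1) * (12 / R) + ((B * q : ℕ) : ℝ) * (Real.pi / R / 2)) f ∧
      (∀ ρ : Zt, |(ρ : ℂ).im - (i : ℂ).im| < R →
        (TT f ((ρ : ℂ) - 1 / 2) = 0 ∧ TT f (-conj ((ρ : ℂ) - 1 / 2)) = 0) ∨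
        ((‖((ρ : ℂ) - 1 / 2) - ((i : ℂ) - 1 / 2)‖ ≤ r ∨ ‖-conj ((ρ : ℂ) - 1 / 2) - ((i : ℂ) - 1 / 2)‖ ≤ r) ∧
          (GG f f ((ρ : ℂ) - 1 / 2)).re ≤ 0)) ∧
      (GG f f ((i : ℂ) - 1 / 2)).re ≤ -(1 / 2) ∧
      (∀ ρ : Zt, R ≤ |(ρ : ℂ).im - (i : ℂ).im| → ‖TT f ((ρ : ℂ) - 1 / 2)‖ ≤
        σ / |(ρ : ℂ).im - (i : ℂ).im|) := by
    intro i
    have hi := hSz i i.2
    have e : (((i : ℂ).re - 1 / 2 : ℝ) : ℂ) + ((i : ℂ).im : ℂ) * I = (i : ℂ) - 1 / 2 := by
      apply Complex.ext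
      · simp
      · simp
    have hre1 : (i : ℂ).re - 1 / 2 ≤ 1 := by
      have := (abs_le.1 (half_re (⟨(i : ℂ), hi.1⟩ : Zt))).2
      simpa using this
    have h1 := block_of (C := C') hcnt (y0 := (i : ℂ).im) (Dl := 2)
      (δ := (i : ℂ).re - 1 / 2) (δ' := δ') (M := M) (t := t) (R := R) (q := q) (B := B) (n := n) (k := k) hR hqpos hBpos
      (by norm_num) hδ'0 hi.2.2 hre1 (by
        rw [e]
        have : (1 / 2 : ℂ) + ((i : ℂ) - 1 / 2) = i := by ring
        rw [this]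
        exact hi.1) (g2 _ hi.2.1) (by rw [hM]; linarith) (lt_of_le_of_lt
          (mul_le_mul_of_nonneg_left (hLgS i i.2) hC'0.le) hn1)
      (by linarith) (by linarith) g3 ht0 htM g4
    rw [e] at h1
    exact h1
  choose F r hr0 hr64 hF1 hF2 hF3 hF4 using hblock
  refine ⟨F, fun c hc => ?_⟩
  have hδ'1 : δ' ≤ 1 := by
    rw [hδ']
    exact Real.exp_le_one_iff.2 (by linarith)
  have hvim : ∀ i : {x // x ∈ S}, ((i : ℂ) - 1 / 2).im = (i : ℂ).im := fun i => by simp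
  have hvre : ∀ i : {x // x ∈ S}, ((i : ℂ) - 1 / 2).re = (i : ℂ).re - 1 / 2 := fun i => by simp
  have hb : 0 < ((k : ℝ) + 1) * (12 / R) + ((B * q : ℕ) : ℝ) * (Real.pi / R / 2) := by positivity
  have hmain := comb (ι := {x // x ∈ S}) (R := R) (σ := σ) (K := K) (Lm := 0)
    hb (by linarith) (by rw [hσ]; positivity) (f := F) (v := fun i => (i : ℂ) - 1 / 2) (r := r) hF1
    (fun i => by
      have : (1 / 2 : ℂ) + ((i : ℂ) - 1 / 2) = i := by ring
      rw [this]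
      exact (hSz i i.2).1) hr0 (fun i => by linarith [hr64 i])
    (fun i => by
      rw [hvre]
      have := (hSz i i.2).2.2
      have := hr64 i
      linarith)
    (fun i j hij => by
      have e : ((i : ℂ) - 1 / 2) - ((j : ℂ) - 1 / 2) = (i : ℂ) - j := by ring
      rw [e]
      have h1 := hSsep i i.2 j j.2 (fun h => hij (Subtype.ext h))
      linarith [hr64 i, hr64 j])
    (fun i j => by
      rw [hvim, hvim]
      have h1 := (hSz i i.2).2.1
      have h2 := (hSz j j.2).2.1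
      have h3 : |(i : ℂ).im - (j : ℂ).im| ≤ |(i : ℂ).im| + |(j : ℂ).im| := abs_sub _ _
      linarith)
    (fun i ρ h => by
      rw [hvim] at h
      exact hF2 i ρ h) hF3
    (fun i ρ h => by
      rw [hvim] at h ⊢
      exact hF4 i ρ h)
    (fun i => by
      simp only [hvim]
      refine (hKz _).trans ?_
      rw [hKd]
      exact mul_le_mul_of_nonneg_left (by linarith [hLgS i i.2]) hC0.le)
    (by
      rw [Fintype.card_coe]
      exact g5) c hc
  exact ⟨Hd_mono hmain.1 hlen, hmain.2⟩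

end

/-- THE LOWER BOUND OF THE INDEX FOR A GENERAL L-FUNCTION -/
theorem index_gen {C : ℝ} (hC : 1 ≤ C) : ∃ c A : ℝ, 0 < c ∧ 1 ≤ A ∧ ∀ [D : ZD] [EC : ZC] (Λ : ℝ), 1 ≤ Λ →
    (∀ t : ℝ, ∀ S : Finset ℂ, (∀ s ∈ S, s ∈ D.Zs ∧ |s.im - t| ≤ 1) →
      ((∑ s ∈ S, mu s : ℕ) : ℝ) ≤ C * (Λ + Lg t)) →
    (∀ t : ℝ, ∑' ρ : Zt, (mu ρ : ℝ) * (1 / (1 + ((ρ : ℂ).im - t) ^ 2)) ≤ C * (Λ + Lg t)) →
    ∀ l : ℝ, A * Λ ≤ l → ∀ S : Finset ℂ,
      (∀ s ∈ S, s ∈ D.Zs ∧ |s.im| ≤ Real.exp (c * l) ∧ Real.exp (-Real.exp (c * l)) ≤ s.re - 1 / 2) →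
      (∀ s ∈ S, ∀ s' ∈ S, s ≠ s' → Real.exp (-Real.exp (c * l)) ≤ ‖s - s'‖) →
      ∃ F : {x // x ∈ S} → ℝ → ℂ, ∀ c : {x // x ∈ S} → ℂ, c ≠ 0 →
        Hd (l / 2) (fun x => ∑ i, c i * F i x) ∧ QQ (fun x => ∑ i, c i * F i x) < 0 := by
  have hC0 : 0 < C := by linarith
  obtain ⟨La, hLa1, hLa⟩ := ev (c := 1 / (64 * C)) (by positivity) (10 ^ 6 * C)
  refine ⟨1 / (32 * C), max La (40 * C), by positivity, (by linarith : (1 : ℝ) ≤ 40 * C).trans (le_max_right _ _),
    fun {D EC} Λ hΛ h1 h2 l hl S hS1 hS2 => ?_⟩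
  have hΛ0 : 0 < Λ := by linarith
  have hl1 : La ≤ l := by
    have h3 : max La (40 * C) * 1 ≤ max La (40 * C) * Λ := mul_le_mul_of_nonneg_left hΛ
      ((by linarith : (0 : ℝ) ≤ 40 * C).trans (le_max_right _ _))
    have := le_max_left La (40 * C)
    linarith
  have hl2 : 40 * C * Λ ≤ l := (mul_le_mul_of_nonneg_right (le_max_right _ _) hΛ0.le).trans hl
  have e1 : l / (32 * C) = 1 / (32 * C) * l := by ring
  have h3 := hLa l hl1
  have h4 : 1 ≤ (l + 1) ^ 2 := by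
    have : (1 : ℝ) ≤ l + 1 := by
      have : 0 < C * Λ := by positivity
      linarith
    exact one_le_pow₀ this
  have h5 : (l + 1) ^ 2 ≤ Real.exp (1 / (64 * C) * l) := by
    refine le_trans ?_ h3
    exact le_mul_of_one_le_left (by positivity) (by linarith)
  have hev : 10 ^ 6 * C * (l + 1) ^ 4 ≤ Real.exp (l / (32 * C)) := by
    have e2 : Real.exp (l / (32 * C)) = Real.exp (1 / (64 * C) * l) * Real.exp (1 / (64 * C) * l) := by
      rw [← Real.exp_add]
      congr 1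
      field_simp
      ring
    rw [e2]
    calc 10 ^ 6 * C * (l + 1) ^ 4 = (10 ^ 6 * C * (l + 1) ^ 2) * (l + 1) ^ 2 := by ring
      _ ≤ Real.exp (1 / (64 * C) * l) * Real.exp (1 / (64 * C) * l) :=
          mul_le_mul h3 h5 (by positivity) (Real.exp_pos _).le
  rw [← e1] at hS1 hS2
  exact fam_gen hC hΛ hl2 hev h1 h2 S hS1 hS2

/-- the same with the sum over the zeros only -/
theorem index_gen' {C : ℝ} (hC : 1 ≤ C) : ∃ c A : ℝ, 0 < c ∧ 1 ≤ A ∧ ∀ [D : ZD] [EC : ZC] (Λ : ℝ), 1 ≤ Λ →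
    (∀ t : ℝ, ∑' ρ : Zt, (mu ρ : ℝ) * (1 / (1 + ((ρ : ℂ).im - t) ^ 2)) ≤ C * (Λ + Lg t)) →
    ∀ l : ℝ, A * Λ ≤ l → ∀ S : Finset ℂ,
      (∀ s ∈ S, s ∈ D.Zs ∧ |s.im| ≤ Real.exp (c * l) ∧ Real.exp (-Real.exp (c * l)) ≤ s.re - 1 / 2) →
      (∀ s ∈ S, ∀ s' ∈ S, s ≠ s' → Real.exp (-Real.exp (c * l)) ≤ ‖s - s'‖) →
      ∃ F : {x // x ∈ S} → ℝ → ℂ, ∀ c : {x // x ∈ S} → ℂ, c ≠ 0 →
        Hd (l / 2) (fun x => ∑ i, c i * F i x) ∧ QQ (fun x => ∑ i, c i * F i x) < 0 := by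
  obtain ⟨c, A, hc, hA, h⟩ := index_gen (C := 2 * C) (by linarith)
  refine ⟨c, A, hc, hA, fun {D EC} Λ hΛ h1 => h Λ hΛ (fun t S hS => ?_) fun t => ?_⟩
  · have hsz := zsummable (D := D) t
    have h2 : ∑ s ∈ S.attach, (mu (s : ℂ) : ℝ) ≤ 2 * ∑' ρ : Zt, (mu ρ : ℝ) * (1 / (1 + ((ρ : ℂ).im - t) ^ 2)) := by
      have hinj : Function.Injective (fun s : {x // x ∈ S} => (⟨(s : ℂ), (hS s s.2).1⟩ : Zt (D := D))) := by
        intro a b hab
        have := congrArg Subtype.val hab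
        exact Subtype.ext this
      have h3 : ∑ s ∈ S.attach, (mu (s : ℂ) : ℝ) * (1 / (1 + ((s : ℂ).im - t) ^ 2)) ≤
          ∑' ρ : Zt, (mu ρ : ℝ) * (1 / (1 + ((ρ : ℂ).im - t) ^ 2)) := by
        have h4 := hsz.sum_le_tsum (S.attach.map ⟨_, hinj⟩) (fun ρ _ => by positivity)
        rw [Finset.sum_map] at h4
        exact h4
      refine le_trans ?_ (mul_le_mul_of_nonneg_left h3 (by norm_num))
      rw [Finset.mul_sum]
      refine Finset.sum_le_sum fun s _ => ?_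
      have h5 := (hS s s.2).2
      have h6 : ((s : ℂ).im - t) ^ 2 ≤ 1 := by
        rw [← sq_abs]
        exact pow_le_one₀ (abs_nonneg _) h5
      have h7 : 1 / 2 ≤ 1 / (1 + ((s : ℂ).im - t) ^ 2) := one_div_le_one_div_of_le (by positivity) (by linarith)
      have h8 := mul_le_mul_of_nonneg_left h7 (show (0 : ℝ) ≤ (mu (s : ℂ) : ℝ) from Nat.cast_nonneg _)
      linarith
    have h9 : ((∑ s ∈ S, mu s : ℕ) : ℝ) = ∑ s ∈ S.attach, (mu (s : ℂ) : ℝ) := by
      rw [Nat.cast_sum]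
      exact (Finset.sum_attach S (fun s => (mu s : ℝ))).symm
    rw [h9]
    have := h1 t
    linarith
  · have := h1 t
    have h2 : 0 ≤ C * (Λ + Lg t) := by
      have := one_le_Lg t
      positivity
    linarith

end Pool.Agent.Zk4.C
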