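import Pool.Agent.Zk4.Da
import Pool.Agent.Zk2.LX.F

/-! # The sharp local Weil criterion: the master inequality, a net of the zeros decides -/

set_option autoImplicit false
set_option linter.unusedSectionVars false
set_option maxHeartbeats 1000000

open Complex Filter Topology Set MeasureTheory Metric
open scoped ComplexConjugate

namespace Pool.Agent.Zk4.R2

open Pool.Agent.Zk2.LX (nb lo hi WP nb_nonneg norm_lo_le JJ JJ_nonneg N2_le arch prime_side pole_le M_pos)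
open Pool.Agent.Y23 (TT Fa N2 plancherel N2_nonneg norm_TT_le)
open Pool.Agent.Y23.G (gsq gsq_nonneg gsq_cont gsq_int Lg Hd GD GD_cont LFun GG QQ Zt mu zd aL)
open Pool.Agent.Zk2.WP (Av sg Av_Fa TT_Av sg_sub)
open Pool.Agent.Zk2.LW (sq sq_nonneg' sq_le_one sq_cont Hd_mono norm_GG)

section
variable [L : LFun]

/-- THE MASTER INEQUALITY -/
theorem master2 {a ε b b' M K y T T1 lam κ D0 η H : ℝ} {u q r : ℕ} (ha : 0 < a) (hε : 0 < ε) (hε1 : ε ≤ 1 / 4)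
    (hu : u + 1 = 2 * r) (hb : 0 < b) (hb' : 0 < b') (hab : a + ((u : ℝ) + 1) * ε ≤ b) (hθ : ((u : ℝ) + 1) * ε ≤ b)
    (hab' : a + ((u : ℝ) + 1 + q) * ε ≤ b')
    (hS : ∀ g : ℝ → ℂ, Fa b' g → 2 * (∑ n ∈ Finset.Icc 1 ⌊Real.exp (2 * b')⌋₊, aL (L := L) n *
      ∫ x : ℝ, g (x + Real.log n) * conj (g x)).re ≤ lam * N2 g)
    (hM : 4 * Real.exp 2 * b ^ 2 ≤ M * ((((u : ℝ) + 1) * ε) ^ 2 * (1 - (((u : ℝ) + 1) * ε / b) ^ 2 / 3)))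
    (hK0 : 0 ≤ K) (hK : nb u (q + 1) (1 : ℝ) ≤ K ^ (u + 1)) (hK2 : nb q (u + 1) (1 : ℝ) ≤ K ^ (u + 1))
    (hT0 : 0 ≤ T1) (hT1 : T1 ≤ ((u : ℝ) + 1) / b)
    (hκ : 0 ≤ κ + lam + D0) (hG1 : ∀ v : ℝ, T1 ≤ |v| → lam + κ ≤ GD (L := L) v) (hG2 : ∀ v : ℝ, -D0 ≤ GD (L := L) v)
    (hsm : (κ + lam + D0) * T1 * (2 * b * (K * M * ((ε * T1) ^ 2 / 3)) ^ (u + 1)) ≤ κ)
    (hpole : 2 * L.r * (2 * a * Real.exp a) * ((3 * ε) ^ (u + 1) * ((1 + 3 * ε) ^ q * K ^ (u + 1))) *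
      (2 * ((u : ℝ) + 1) * M ^ (u + 1)) ≤ κ / 8)
    (hT : 1 ≤ T) (hy : (Real.exp ε / (ε * T)) ^ 2 ≤ y)
    (hzero : 2 * a * Real.exp (2 * a) * (y ^ q * ((1 + y) ^ u * K ^ (u + 1))) * (2 * (Real.exp ε / ε) ^ 2) *
      (∑' ρ : Zt (D := zd (L := L)), (mu (D := zd (L := L)) ρ : ℝ) * (1 / (1 + (ρ : ℂ).im ^ 2))) *
      (2 * ((u : ℝ) + 1) * M ^ (u + 1)) ≤ κ / 8)
    (hη0 : 0 < η) (hη1 : η < 1) (hH : ∀ w : ℂ, |w.re| ≤ 2 → ‖hi u q (sg ε w ^ 2)‖ ≤ H)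
    (hnear : 2 * (2 * a * Real.exp (4 * a) * H) * η * (1 + T ^ 2) *
      (∑' ρ : Zt (D := zd (L := L)), (mu (D := zd (L := L)) ρ : ℝ) * (1 / (1 + (ρ : ℂ).im ^ 2))) *
      (2 * ((u : ℝ) + 1) * M ^ (u + 1)) ≤ κ / 8) {f : ℝ → ℂ} (hf : Hd a f)
    (hz : ∀ ρ : Zt (D := zd (L := L)), 1 / 2 + η ≤ (ρ : ℂ).re → |(ρ : ℂ).im| ≤ T →
      ∃ z : ℂ, ‖z - ((ρ : ℂ) - 1 / 2)‖ ≤ η ∧ |z.re| ≤ 1 ∧ TT f z = 0) :
    κ / 8 * JJ ε u q f ≤ QQ (D := zd (L := L)) f := by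
  have hJ := JJ_nonneg ε u q f
  have hN := N2_nonneg f
  have hM0 : 0 < M := M_pos (by positivity) hε hb hθ hM
  have hy0 : 0 ≤ y := le_trans (sq_nonneg _) hy
  have hH0 : 0 ≤ H := (norm_nonneg _).trans (hH 0 (by simp))
  set Z : ℝ := ∑' ρ : Zt (D := zd (L := L)), (mu (D := zd (L := L)) ρ : ℝ) * (1 / (1 + (ρ : ℂ).im ^ 2)) with hZ
  have hZ0 : 0 ≤ Z := tsum_nonneg fun ρ => by positivity
  have hr0 : (0 : ℝ) ≤ L.r := Nat.cast_nonneg _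
  have hnb0 : 0 ≤ nb q (u + 1) (1 : ℝ) := nb_nonneg zero_le_one
  have h1 := zero_side2 (D := zd (L := L)) ha hε hT hy hη0 hη1 hf u q r hu hH hz
  have h2 := prime_side (L := L) hb' hε hf hu q hab' hS
  have h3 := arch (L := L) hε hf hu q hb hab hθ hM hK0 hK hT0 hT1 hκ hG1 hG2 hsm
  have h4 := N2_le hε hf hu q hb hab hθ hM
  -- the poles
  have h5 : 2 * L.r * (‖GG f f (1 / 2)‖ * ‖lo u (q + 1) (sg ε (1 / 2) ^ 2)‖) ≤ κ / 8 * JJ ε u q f := by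
    have k1 : ‖GG f f (1 / 2)‖ ≤ 2 * a * Real.exp a * N2 f := by
      have := norm_GG (w := 1 / 2) (K := 1 / 2) ha hf.1 (by norm_num)
      have e : 2 * a * (1 / 2) = a := by ring
      rwa [e] at this
    have k2 : ‖lo u (q + 1) (sg ε (1 / 2) ^ 2)‖ ≤ (3 * ε) ^ (u + 1) * ((1 + 3 * ε) ^ q * K ^ (u + 1)) := by
      refine (norm_lo_le (pole_le hε hε1)).trans ?_
      gcongr
    calc 2 * L.r * (‖GG f f (1 / 2)‖ * ‖lo u (q + 1) (sg ε (1 / 2) ^ 2)‖)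
        ≤ 2 * L.r * ((2 * a * Real.exp a * N2 f) * ((3 * ε) ^ (u + 1) * ((1 + 3 * ε) ^ q * K ^ (u + 1)))) := by
          refine mul_le_mul_of_nonneg_left ?_ (by positivity)
          exact mul_le_mul k1 k2 (norm_nonneg _) (by positivity)
      _ = 2 * L.r * (2 * a * Real.exp a) * ((3 * ε) ^ (u + 1) * ((1 + 3 * ε) ^ q * K ^ (u + 1))) * N2 f := by ring
      _ ≤ 2 * L.r * (2 * a * Real.exp a) * ((3 * ε) ^ (u + 1) * ((1 + 3 * ε) ^ q * K ^ (u + 1))) *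
            (2 * ((u : ℝ) + 1) * M ^ (u + 1) * JJ ε u q f) := mul_le_mul_of_nonneg_left h4 (by positivity)
      _ = 2 * L.r * (2 * a * Real.exp a) * ((3 * ε) ^ (u + 1) * ((1 + 3 * ε) ^ q * K ^ (u + 1))) *
            (2 * ((u : ℝ) + 1) * M ^ (u + 1)) * JJ ε u q f := by ring
      _ ≤ _ := mul_le_mul_of_nonneg_right hpole hJ
  -- the zeros
  have h6 : 2 * a * Real.exp (2 * a) * N2 f * (y ^ q * ((1 + y) ^ u * nb q (u + 1) 1)) * (2 * (Real.exp ε / ε) ^ 2) * Z ≤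
      κ / 8 * JJ ε u q f := by
    calc 2 * a * Real.exp (2 * a) * N2 f * (y ^ q * ((1 + y) ^ u * nb q (u + 1) 1)) * (2 * (Real.exp ε / ε) ^ 2) * Z
        ≤ 2 * a * Real.exp (2 * a) * N2 f * (y ^ q * ((1 + y) ^ u * K ^ (u + 1))) * (2 * (Real.exp ε / ε) ^ 2) * Z := by
          gcongr
      _ = (2 * a * Real.exp (2 * a) * (y ^ q * ((1 + y) ^ u * K ^ (u + 1))) * (2 * (Real.exp ε / ε) ^ 2) * Z) * N2 f := by
          ring
      _ ≤ (2 * a * Real.exp (2 * a) * (y ^ q * ((1 + y) ^ u * K ^ (u + 1))) * (2 * (Real.exp ε / ε) ^ 2) * Z) *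
            (2 * ((u : ℝ) + 1) * M ^ (u + 1) * JJ ε u q f) := mul_le_mul_of_nonneg_left h4 (by positivity)
      _ = (2 * a * Real.exp (2 * a) * (y ^ q * ((1 + y) ^ u * K ^ (u + 1))) * (2 * (Real.exp ε / ε) ^ 2) * Z *
            (2 * ((u : ℝ) + 1) * M ^ (u + 1))) * JJ ε u q f := by ring
      _ ≤ _ := mul_le_mul_of_nonneg_right hzero hJ
  -- the zeros near the line
  have h7 : 2 * (2 * a * Real.exp (4 * a) * N2 f * H) * η * (1 + T ^ 2) * Z ≤ κ / 8 * JJ ε u q f := by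
    calc 2 * (2 * a * Real.exp (4 * a) * N2 f * H) * η * (1 + T ^ 2) * Z
        = (2 * (2 * a * Real.exp (4 * a) * H) * η * (1 + T ^ 2) * Z) * N2 f := by ring
      _ ≤ (2 * (2 * a * Real.exp (4 * a) * H) * η * (1 + T ^ 2) * Z) * (2 * ((u : ℝ) + 1) * M ^ (u + 1) * JJ ε u q f) :=
          mul_le_mul_of_nonneg_left h4 (by positivity)
      _ = (2 * (2 * a * Real.exp (4 * a) * H) * η * (1 + T ^ 2) * Z * (2 * ((u : ℝ) + 1) * M ^ (u + 1))) * JJ ε u q f := by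
          ring
      _ ≤ _ := mul_le_mul_of_nonneg_right hnear hJ
  have h8 : (2 * a * Real.exp (2 * a) * N2 f * (y ^ q * ((1 + y) ^ u * nb q (u + 1) 1)) * (2 * (Real.exp ε / ε) ^ 2) +
      2 * (2 * a * Real.exp (4 * a) * N2 f * H) * η * (1 + T ^ 2)) * Z =
      2 * a * Real.exp (2 * a) * N2 f * (y ^ q * ((1 + y) ^ u * nb q (u + 1) 1)) * (2 * (Real.exp ε / ε) ^ 2) * Z +
      2 * (2 * a * Real.exp (4 * a) * N2 f * H) * η * (1 + T ^ 2) * Z := by ring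
  rw [← hZ, h8] at h1
  linarith

end

end Pool.Agent.Zk4.R2
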