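import Pool.Agent.H370R2.Local
import Pool.Agent.H370R2.DirGood

set_option autoImplicit false

/-!
Littlewood step (helper4), part 1: the function `ζ(s) M(s)` for a Dirichlet polynomial `M` with `b 1 = 1` and `‖b n‖ ≤ 1`.
-/

namespace Pool.Agent.Zk4

open Filter Topology MeasureTheory Complex Set
open H370 (mult zset GoodL good_zeta)

noncomputable section

/-- the mollifier -/
def Mp (b : ℕ → ℂ) (N : ℕ) (s : ℂ) : ℂ := ∑ n ∈ Finset.Icc 1 N, b n * (n : ℂ) ^ (-s)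

/-- the mollified zeta function -/
def FF (b : ℕ → ℂ) (N : ℕ) (s : ℂ) : ℂ := riemannZeta s * Mp b N s

/-- admissible coefficients -/
structure Adm (b : ℕ → ℂ) : Prop where
  one : b 1 = 1
  le : ∀ n, ‖b n‖ ≤ 1

lemma Mp_diff (b : ℕ → ℂ) (N : ℕ) : Differentiable ℂ (Mp b N) := by
  unfold Mp
  refine Differentiable.fun_sum fun n hn => ?_
  have hn0 : (n : ℂ) ≠ 0 := by
    rw [Finset.mem_Icc] at hn
    exact_mod_cast (by omega : n ≠ 0)
  exact (differentiable_const _).mul ((differentiable_id.neg).const_cpow (Or.inl hn0))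

lemma FF_diffAt (b : ℕ → ℂ) (N : ℕ) {s : ℂ} (hs : s ≠ 1) : DifferentiableAt ℂ (FF b N) s :=
  (differentiableAt_riemannZeta hs).mul (Mp_diff b N s)

lemma FF_an (b : ℕ → ℂ) (N : ℕ) {s : ℂ} (hs : s ≠ 1) : AnalyticAt ℂ (FF b N) s := by
  have h : DifferentiableOn ℂ (FF b N) {1}ᶜ := fun z hz =>
    (FF_diffAt b N (by simpa using hz)).differentiableWithinAt
  exact h.analyticAt (isOpen_compl_singleton.mem_nhds (by simpa using hs))

lemma npow_norm {n : ℕ} (hn : 1 ≤ n) (s : ℂ) : ‖(n : ℂ) ^ (-s)‖ = (n : ℝ) ^ (-s.re) := by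
  rw [Complex.norm_natCast_cpow_of_pos (by omega), Complex.neg_re]

lemma Mp_norm {b : ℕ → ℂ} (hb : Adm b) (N : ℕ) {s : ℂ} (hs : 0 ≤ s.re) : ‖Mp b N s‖ ≤ N := by
  unfold Mp
  refine (norm_sum_le _ _).trans ?_
  calc ∑ n ∈ Finset.Icc 1 N, ‖b n * (n : ℂ) ^ (-s)‖ ≤ ∑ _n ∈ Finset.Icc 1 N, (1 : ℝ) := by
        refine Finset.sum_le_sum fun n hn => ?_
        rw [Finset.mem_Icc] at hn
        rw [norm_mul, npow_norm hn.1]
        have h1 : (n : ℝ) ^ (-s.re) ≤ 1 :=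
          Real.rpow_le_one_of_one_le_of_nonpos (by exact_mod_cast hn.1) (by linarith)
        have h2 := hb.le n
        have h3 : (0 : ℝ) ≤ (n : ℝ) ^ (-s.re) := by positivity
        calc ‖b n‖ * (n : ℝ) ^ (-s.re) ≤ 1 * 1 := mul_le_mul h2 h1 h3 zero_le_one
          _ = 1 := one_mul 1
    _ = N := by simp

/-- the tail of the zeta series -/
lemma tail_sum {σ : ℝ} (hσ : 2 ≤ σ) (N : ℕ) :
    ∑ n ∈ Finset.Icc 2 N, (n : ℝ) ^ (-σ) ≤ 3 * (2 : ℝ) ^ (-σ) := by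
  have h1 : ∀ n ∈ Finset.Icc 2 N, (n : ℝ) ^ (-σ) ≤ (2 : ℝ) ^ (-σ) * (4 * (1 / (n : ℝ) ^ 2)) := by
    intro n hn
    rw [Finset.mem_Icc] at hn
    have hn2 : (2 : ℝ) ≤ n := by exact_mod_cast hn.1
    have hn0 : (0 : ℝ) < n := by linarith
    have e1 : (n : ℝ) ^ (-σ) = (2 : ℝ) ^ (-σ) * (n / 2 : ℝ) ^ (-σ) := by
      rw [← Real.mul_rpow (by norm_num) (by positivity)]
      congr 1
      ring
    rw [e1]
    refine mul_le_mul_of_nonneg_left ?_ (by positivity)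
    have h2 : (n / 2 : ℝ) ^ (-σ) ≤ (n / 2 : ℝ) ^ (-(2:ℝ)) :=
      Real.rpow_le_rpow_of_exponent_le (by rw [le_div_iff₀ (by norm_num)]; linarith) (by linarith)
    refine h2.trans (le_of_eq ?_)
    rw [Real.rpow_neg (by positivity)]
    have : ((n : ℝ) / 2) ^ (2 : ℝ) = (n / 2) ^ 2 := by norm_cast
    rw [this]
    field_simp
    norm_num
  refine (Finset.sum_le_sum h1).trans ?_
  rw [← Finset.mul_sum, ← Finset.mul_sum]
  have hz : HasSum (fun n : ℕ => (1 : ℝ) / (n : ℝ) ^ 2) (Real.pi ^ 2 / 6) := hasSum_zeta_two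
  have h2 : ∑ n ∈ Finset.Icc 2 N, (1 : ℝ) / (n : ℝ) ^ 2 ≤ Real.pi ^ 2 / 6 - 1 := by
    have h3 : ∑ n ∈ insert 1 (Finset.Icc 2 N), (1 : ℝ) / (n : ℝ) ^ 2 ≤ Real.pi ^ 2 / 6 :=
      sum_le_hasSum _ (fun n _ => by positivity) hz
    rw [Finset.sum_insert (by simp)] at h3
    norm_num at h3 ⊢
    linarith
  have h4 : Real.pi ^ 2 / 6 - 1 ≤ 3 / 4 := by
    have := Real.pi_lt_d2
    have := Real.pi_gt_three
    nlinarith
  have h5 : (0 : ℝ) < (2 : ℝ) ^ (-σ) := by positivity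
  calc (2 : ℝ) ^ (-σ) * (4 * ∑ n ∈ Finset.Icc 2 N, (1 : ℝ) / (n : ℝ) ^ 2)
      ≤ (2 : ℝ) ^ (-σ) * (4 * (3 / 4)) := by
        refine mul_le_mul_of_nonneg_left ?_ h5.le
        linarith
    _ = 3 * (2 : ℝ) ^ (-σ) := by ring

lemma Mp_sub_one {b : ℕ → ℂ} (hb : Adm b) {N : ℕ} (hN : 1 ≤ N) {s : ℂ} (hs : 2 ≤ s.re) :
    ‖Mp b N s - 1‖ ≤ 3 * (2 : ℝ) ^ (-s.re) := by
  have e1 : Mp b N s - 1 = ∑ n ∈ Finset.Icc 2 N, b n * (n : ℂ) ^ (-s) := by
    unfold Mp
    have e2 : Finset.Icc 1 N = insert 1 (Finset.Icc 2 N) := by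
      ext n
      simp only [Finset.mem_Icc, Finset.mem_insert]
      omega
    rw [e2, Finset.sum_insert (by simp), hb.one]
    simp
  rw [e1]
  refine (norm_sum_le _ _).trans ((Finset.sum_le_sum fun n hn => ?_).trans (tail_sum hs N))
  rw [Finset.mem_Icc] at hn
  rw [norm_mul, npow_norm (by omega)]
  calc ‖b n‖ * (n : ℝ) ^ (-s.re) ≤ 1 * (n : ℝ) ^ (-s.re) :=
        mul_le_mul_of_nonneg_right (hb.le n) (by positivity)
    _ = _ := one_mul _

lemma zeta_sub_one {s : ℂ} (hs : 2 ≤ s.re) : ‖riemannZeta s - 1‖ ≤ 3 * (2 : ℝ) ^ (-s.re) := by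
  have hs1 : 1 < s.re := by linarith
  have h1 : Tendsto (fun N : ℕ => Mp (fun _ => 1) N s) atTop (𝓝 (riemannZeta s)) := by
    have h2 := zeta_eq_tsum_one_div_nat_add_one_cpow hs1
    have h3 : Summable (fun n : ℕ => 1 / ((n : ℂ) + 1) ^ s) := by
      have h4 := (Complex.summable_one_div_nat_cpow (p := s)).2 hs1
      have h5 := (summable_nat_add_iff 1).2 h4
      refine h5.congr fun n => ?_
      push_cast
      rfl
    have h4 := h3.hasSum.tendsto_sum_nat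
    rw [← h2] at h4
    refine h4.congr fun N => ?_
    unfold Mp
    refine Finset.sum_nbij' (fun i => i + 1) (fun n => n - 1) ?_ ?_ ?_ ?_ ?_
    · intro i hi
      rw [Finset.mem_range] at hi
      rw [Finset.mem_Icc]
      omega
    · intro n hn
      rw [Finset.mem_Icc] at hn
      rw [Finset.mem_range]
      omega
    · intro i _
      simp
    · intro n hn
      rw [Finset.mem_Icc] at hn
      omega
    · intro i _
      rw [one_mul, Complex.cpow_neg, one_div]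
      push_cast
      rfl
  have h2 : Tendsto (fun N : ℕ => ‖Mp (fun _ => 1) N s - 1‖) atTop (𝓝 ‖riemannZeta s - 1‖) :=
    (h1.sub_const 1).norm
  refine le_of_tendsto h2 ?_
  filter_upwards [eventually_ge_atTop 1] with N hN
  exact Mp_sub_one ⟨rfl, fun _ => by simp⟩ hN hs

end

end Pool.Agent.Zk4
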