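import Pool.Agent.Zk4.La

set_option autoImplicit false

/-!
Littlewood step (helper4), part 2: the function `ζ M` to the right of `Re s = 2`, growth, good heights.
-/

namespace Pool.Agent.Zk4

open Filter Topology MeasureTheory Complex Set Metric
open H370 (mult zset GoodL good_zeta)

noncomputable section

lemma two_pow_le {σ : ℝ} (hσ : 2 ≤ σ) : (2 : ℝ) ^ (-σ) ≤ 1 / 4 := by
  have h1 : (2 : ℝ) ^ (-σ) ≤ (2 : ℝ) ^ (-(2:ℝ)) :=
    Real.rpow_le_rpow_of_exponent_le (by norm_num) (by linarith)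
  have h2 : (2 : ℝ) ^ (-(2:ℝ)) = 1 / 4 := by
    rw [Real.rpow_neg (by norm_num)]
    norm_num
  exact h1.trans (le_of_eq h2)

lemma FF_sub_one {b : ℕ → ℂ} (hb : Adm b) {N : ℕ} (hN : 1 ≤ N) {s : ℂ} (hs : 2 ≤ s.re) :
    ‖FF b N s - 1‖ ≤ 9 * (2 : ℝ) ^ (-s.re) := by
  have h1 := Mp_sub_one hb hN hs
  have h2 := zeta_sub_one hs
  have h3 := two_pow_le hs
  have h0 : (0 : ℝ) < (2 : ℝ) ^ (-s.re) := by positivity
  have e : FF b N s - 1 = (riemannZeta s - 1) * (Mp b N s - 1) + (riemannZeta s - 1) + (Mp b N s - 1) := by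
    unfold FF; ring
  rw [e]
  refine (norm_add_le _ _).trans ?_
  have h4 := norm_add_le ((riemannZeta s - 1) * (Mp b N s - 1)) (riemannZeta s - 1)
  rw [norm_mul] at h4
  have h5 : ‖riemannZeta s - 1‖ * ‖Mp b N s - 1‖ ≤ (3 * (2 : ℝ) ^ (-s.re)) * (3 * (1 / 4)) :=
    mul_le_mul h2 (h1.trans (by linarith)) (norm_nonneg _) (by positivity)
  linarith

lemma FF_lower {b : ℕ → ℂ} (hb : Adm b) {N : ℕ} (hN : 1 ≤ N) {s : ℂ} (hs : 2 ≤ s.re) :
    1 / 16 ≤ ‖FF b N s‖ := by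
  have h1 := Mp_sub_one hb hN hs
  have h2 := zeta_sub_one hs
  have h3 := two_pow_le hs
  have h4 : 1 / 4 ≤ ‖Mp b N s‖ := by
    have := norm_sub_norm_le (1 : ℂ) (1 - Mp b N s)
    rw [sub_sub_cancel, norm_one, norm_sub_rev] at this
    linarith
  have h5 : 1 / 4 ≤ ‖riemannZeta s‖ := by
    have := norm_sub_norm_le (1 : ℂ) (1 - riemannZeta s)
    rw [sub_sub_cancel, norm_one, norm_sub_rev] at this
    linarith
  unfold FF
  rw [norm_mul]
  nlinarith

lemma FF_ne {b : ℕ → ℂ} (hb : Adm b) {N : ℕ} (hN : 1 ≤ N) {s : ℂ} (hs : 2 ≤ s.re) : FF b N s ≠ 0 := by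
  have h := FF_lower hb hN hs
  intro h0
  rw [h0, norm_zero] at h
  linarith

/-- the logarithmic derivative to the right of `Re s = 3` -/
lemma FF_ld {b : ℕ → ℂ} (hb : Adm b) {N : ℕ} (hN : 1 ≤ N) {s : ℂ} (hs : 3 ≤ s.re) :
    ‖deriv (FF b N) s / FF b N s‖ ≤ 288 * (2 : ℝ) ^ (-s.re) := by
  have h1 : ‖deriv (FF b N) s‖ ≤ 9 * (2 : ℝ) ^ (-(s.re - 1)) / 1 := by
    have e1 : deriv (FF b N) s = deriv (fun z => FF b N z - 1) s := by
      rw [deriv_sub_const]
    rw [e1]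
    refine Complex.norm_deriv_le_of_forall_mem_sphere_norm_le one_pos ?_ ?_
    · refine DifferentiableOn.diffContOnCl ?_
      intro z hz
      rw [closure_ball _ one_ne_zero, mem_closedBall, dist_eq_norm] at hz
      have h2 := (Complex.abs_re_le_norm (z - s)).trans hz
      rw [sub_re, abs_le] at h2
      have hz1 : z ≠ 1 := by
        rintro rfl
        simp at h2
        linarith
      exact ((FF_diffAt b N hz1).sub_const 1).differentiableWithinAt
    · intro z hz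
      rw [mem_sphere, dist_eq_norm] at hz
      have h2 := (Complex.abs_re_le_norm (z - s)).trans hz.le
      rw [sub_re, abs_le] at h2
      refine (FF_sub_one hb hN (by linarith)).trans ?_
      refine mul_le_mul_of_nonneg_left ?_ (by norm_num)
      exact Real.rpow_le_rpow_of_exponent_le (by norm_num) (by linarith)
  have h2 := FF_lower hb hN (s := s) (by linarith)
  have e : (2 : ℝ) ^ (-(s.re - 1)) = 2 * (2 : ℝ) ^ (-s.re) := by
    rw [show -(s.re - 1) = 1 + -s.re by ring, Real.rpow_add (by norm_num), Real.rpow_one]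
  rw [e, div_one] at h1
  rw [norm_div, div_le_iff₀ (by linarith)]
  have h0 : (0 : ℝ) < (2 : ℝ) ^ (-s.re) := by positivity
  nlinarith

/-- the logarithm to the right of `Re s = 6` -/
lemma FF_log {b : ℕ → ℂ} (hb : Adm b) {N : ℕ} (hN : 1 ≤ N) {s : ℂ} (hs : 6 ≤ s.re) :
    |Real.log ‖FF b N s‖| ≤ 18 * (2 : ℝ) ^ (-s.re) := by
  have h1 := FF_sub_one hb hN (s := s) (by linarith)
  have h3 : (2 : ℝ) ^ (-s.re) ≤ 1 / 64 := by
    have h1 : (2 : ℝ) ^ (-s.re) ≤ (2 : ℝ) ^ (-(6:ℝ)) :=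
      Real.rpow_le_rpow_of_exponent_le (by norm_num) (by linarith)
    have h2 : (2 : ℝ) ^ (-(6:ℝ)) = 1 / 64 := by
      rw [Real.rpow_neg (by norm_num)]
      norm_num
    exact h1.trans (le_of_eq h2)
  have h0 : (0 : ℝ) < (2 : ℝ) ^ (-s.re) := by positivity
  obtain ⟨x, hx⟩ : ∃ x : ℝ, x = ‖FF b N s‖ := ⟨_, rfl⟩
  have h4 : |x - 1| ≤ 9 * (2 : ℝ) ^ (-s.re) := by
    rw [hx]
    have := abs_norm_sub_norm_le (FF b N s) 1
    rw [norm_one] at this
    exact this.trans h1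
  rw [← hx]
  obtain ⟨ha, hb'⟩ := abs_le.1 h4
  have hx0 : 0 < x := by linarith
  rw [abs_le]
  constructor
  · have h5 := Real.one_sub_inv_le_log_of_pos hx0
    have h6 : x⁻¹ ≤ 1 + 18 * (2 : ℝ) ^ (-s.re) := by
      rw [inv_le_comm₀ hx0 (by positivity)]
      rw [inv_le_iff_one_le_mul₀ (by positivity)]
      nlinarith
    linarith
  · have h5 := Real.log_le_sub_one_of_pos hx0
    linarith

/-- growth of `ζ M` -/
lemma FF_growth : ∃ C A : ℝ, 0 < C ∧ 0 < A ∧ ∀ (b : ℕ → ℂ) (N : ℕ), Adm b → ∀ s : ℂ, (1 / 16 : ℝ) ≤ s.re →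
    1 ≤ s.im → ‖FF b N s‖ ≤ C * s.im ^ A * N := by
  obtain ⟨C, A, hC, hA, h⟩ := good_zeta.growth
  refine ⟨C + 2, A, by linarith, hA, fun b N hb s hs hs1 => ?_⟩
  unfold FF
  rw [norm_mul]
  refine mul_le_mul ?_ (Mp_norm hb N (by linarith)) (norm_nonneg _) (by positivity)
  have h1 : 1 ≤ s.im ^ A := Real.one_le_rpow hs1 hA.le
  rcases le_or_gt s.re 4 with h4 | h4
  · refine (h s hs h4 hs1).trans ?_
    nlinarith
  · have h2 := zeta_sub_one (s := s) (by linarith)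
    have h3 := two_pow_le (σ := s.re) (by linarith)
    have h5 : ‖riemannZeta s‖ ≤ 1 + ‖riemannZeta s - 1‖ := by
      have := norm_add_le (1 : ℂ) (riemannZeta s - 1)
      rw [norm_one, add_sub_cancel] at this
      exact this
    nlinarith

end

end Pool.Agent.Zk4
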