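import Pool.Agent.Zk4.Lb

set_option autoImplicit false

/-!
Littlewood step (helper4), part 3: good heights for `ζ M`.
-/

namespace Pool.Agent.Zk4

open Filter Topology MeasureTheory Complex Set Metric
open H370 (mult zset GoodL good_zeta)

noncomputable section

lemma upper_pre : IsPreconnected {s : ℂ | 0 < s.im} := (convex_halfSpace_im_gt 0).isPreconnected

lemma FF_zeros_finite {b : ℕ → ℂ} (hb : Adm b) {N : ℕ} (hN : 1 ≤ N) (x0 x1 y0 y1 : ℝ) (hy0 : 0 < y0) :
    {s : ℂ | s ∈ Icc x0 x1 ×ℂ Icc y0 y1 ∧ FF b N s = 0}.Finite := by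
  by_contra hinf
  have hcomp : IsCompact (Icc x0 x1 ×ℂ Icc y0 y1) := isCompact_Icc.reProdIm isCompact_Icc
  obtain ⟨x, hx, hacc⟩ := Set.Infinite.exists_accPt_of_subset_isCompact hinf hcomp (fun s hs => hs.1)
  have hxU : x ∈ {s : ℂ | 0 < s.im} := lt_of_lt_of_le hy0 hx.2.1
  have hfreq : ∃ᶠ z in 𝓝[≠] x, FF b N z = 0 := by
    rw [accPt_iff_frequently_nhdsNE] at hacc
    exact hacc.mono fun z hz => hz.2
  have hz := AnalyticOnNhd.eqOn_zero_of_preconnected_of_frequently_eq_zero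
    (f := FF b N) (U := {s : ℂ | 0 < s.im}) (fun s hs => FF_an b N (by
      rintro rfl
      simp at hs)) upper_pre hxU hfreq
  have h2 : FF b N ⟨2, 1⟩ = 0 := hz (by
    show (0:ℝ) < 1
    norm_num)
  exact FF_ne hb hN (s := ⟨2, 1⟩) le_rfl h2

/-- number of zeros near height `T` -/
lemma FF_count : ∃ C : ℝ, 0 < C ∧ ∀ (b : ℕ → ℂ) (N : ℕ) (T : ℝ), Adm b → 1 ≤ N → 70 ≤ T → (N : ℝ) ≤ 4 * T →
    ∀ S : Finset ℂ, (∀ z ∈ S, 1 / 5 ≤ z.re ∧ z.re ≤ 4 ∧ |z.im - T| ≤ 7 / 2) →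
      ∑ z ∈ S, (mult (FF b N) z : ℝ) ≤ C * Real.log T := by
  obtain ⟨C, A, hC, hA, hg⟩ := FF_growth
  have hlog : 0 < Real.log (63.93 / 63.9) := Real.log_pos (by norm_num)
  refine ⟨(|Real.log (64 * (C + 1))| + 2 * A + 1) / Real.log (63.93 / 63.9), by positivity, fun b N T hb hN hT hNT S hS => ?_⟩
  have hT0 : 0 < T := by linarith
  have hL1 : 1 ≤ Real.log T := H370.Loc.one_le_log (by linarith)
  have hL0 : 0 ≤ Real.log T := by linarith
  set c : ℂ := ⟨64, T⟩ with hc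
  have hball : ∀ z ∈ closedBall c 63.93, (1 / 16 : ℝ) ≤ z.re ∧ 1 ≤ z.im ∧ z.im ≤ 2 * T := by
    intro z hz
    rw [mem_closedBall, dist_eq_norm] at hz
    have h1 := (Complex.abs_re_le_norm (z - c)).trans hz
    have h2 := (Complex.abs_im_le_norm (z - c)).trans hz
    simp only [hc, sub_re, sub_im] at h1 h2
    rw [abs_le] at h1 h2
    refine ⟨by norm_num at h1 ⊢; linarith [h1.1], by norm_num at h2 ⊢; linarith [h2.1],
      by norm_num at h2 ⊢; linarith [h2.2]⟩
  set M : ℝ := (C + 1) * (2 * T) ^ A * (4 * T) with hM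
  have h2TA : 1 ≤ (2 * T) ^ A := Real.one_le_rpow (by linarith) hA.le
  have hM1 : 1 ≤ M := by
    rw [hM]
    have h1 : 1 ≤ (C + 1) * (2 * T) ^ A := by nlinarith
    nlinarith
  have han : AnalyticOnNhd ℂ (FF b N) (closedBall c 63.93) := by
    intro z hz
    refine FF_an b N ?_
    rintro rfl
    have := (hball 1 hz).2.1
    simp at this
    linarith
  have hc0 : FF b N c ≠ 0 := FF_ne hb hN (by rw [hc]; norm_num)
  have hbd : ∀ z ∈ closedBall c 63.93, ‖FF b N z‖ ≤ M := by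
    intro z hz
    obtain ⟨h1, h2, h3⟩ := hball z hz
    refine (hg b N hb z h1 h2).trans ?_
    rw [hM]
    have h4 : z.im ^ A ≤ (2 * T) ^ A := Real.rpow_le_rpow (by linarith) h3 hA.le
    have h5 : C * z.im ^ A ≤ (C + 1) * (2 * T) ^ A := by
      have h6 : 0 ≤ z.im ^ A := by positivity
      nlinarith
    exact mul_le_mul h5 hNT (by positivity) (by positivity)
  refine (H370.Loc.jensen_mult (c := c) (r := 63.9) (R := 63.93) (by norm_num) (by norm_num) hM1 han hc0 hbd S ?_).trans ?_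
  · intro z hz
    obtain ⟨h1, h2, h3⟩ := hS z hz
    rw [mem_closedBall, dist_eq_norm]
    apply abs_le_of_sq_le_sq' _ (by norm_num) |>.2
    rw [← Complex.normSq_eq_norm_sq, Complex.normSq_apply]
    simp only [hc, sub_re, sub_im]
    rw [abs_le] at h3
    nlinarith
  · rw [div_mul_eq_mul_div]
    refine div_le_div_of_nonneg_right ?_ hlog.le
    have hlo := FF_lower hb hN (s := c) (by rw [hc]; norm_num)
    have hlo0 : 0 < ‖FF b N c‖ := by linarith
    have h1 : M / ‖FF b N c‖ ≤ 16 * M := by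
      rw [div_le_iff₀ hlo0]
      nlinarith
    have h2 : Real.log (M / ‖FF b N c‖) ≤ Real.log (16 * M) := Real.log_le_log (by positivity) h1
    have h3 : Real.log (16 * M) = Real.log (64 * (C + 1)) + A * Real.log (2 * T) + Real.log T := by
      have e : 16 * M = (64 * (C + 1)) * (2 * T) ^ A * T := by rw [hM]; ring
      rw [e, Real.log_mul (by positivity) (by positivity), Real.log_mul (by positivity) (by positivity),
        Real.log_rpow (by positivity)]
    have h4 : Real.log (2 * T) ≤ 2 * Real.log T := by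
      have : Real.log (2 * T) ≤ Real.log (T ^ 2) := Real.log_le_log (by positivity) (by nlinarith)
      rw [Real.log_pow] at this
      exact_mod_cast this
    have h5 := le_abs_self (Real.log (64 * (C + 1)))
    have h6 := abs_nonneg (Real.log (64 * (C + 1)))
    have h7 : A * Real.log (2 * T) ≤ A * (2 * Real.log T) := mul_le_mul_of_nonneg_left h4 hA.le
    nlinarith

lemma mult_one_le {b : ℕ → ℂ} (hb : Adm b) {N : ℕ} (hN : 1 ≤ N) {s : ℂ} (hs : 0 < s.im) (h0 : FF b N s = 0) :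
    1 ≤ mult (FF b N) s :=
  (H370.Loc.mult_pos (f := FF b N) (K := {s : ℂ | 0 < s.im}) upper_pre
    (fun s hs => FF_an b N (by rintro rfl; simp at hs)) (c := ⟨2, 1⟩)
    (by show (0:ℝ) < 1; norm_num) (FF_ne hb hN (s := ⟨2, 1⟩) le_rfl) hs).2 h0

/-- good heights -/
theorem heights : ∃ C : ℝ, 0 < C ∧ ∀ (b : ℕ → ℂ) (N : ℕ) (T : ℝ), Adm b → 1 ≤ N → 74 ≤ T → (N : ℝ) ≤ 2 * T →
    ∃ U ∈ Icc T (T + 1), ∀ x ∈ Icc (1 / 2 : ℝ) 3, FF b N ⟨x, U⟩ ≠ 0 ∧
      ‖deriv (FF b N) ⟨x, U⟩ / FF b N ⟨x, U⟩‖ ≤ C * Real.log T ^ 2 := by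
  classical
  obtain ⟨C, A, hC, hA, hg⟩ := FF_growth
  obtain ⟨C0, hC0, hcount⟩ := FF_count
  obtain ⟨K, hK⟩ : ∃ K : ℝ, K = |Real.log (64 * (C + 1))| + 4 * A + 2 := ⟨_, rfl⟩
  have hK0 : 0 < K := by rw [hK]; positivity
  set q : ℝ := Real.log (1.9 / 1.8) with hq
  have hq0 : 0 < q := Real.log_pos (by norm_num)
  set ℓ : ℝ := Real.log (1.8 / (1.9 - 1.8)) with hℓ
  have hℓ0 : 0 < ℓ := Real.log_pos (by norm_num)
  set D : ℝ := K / q * (2 * (C0 + 1)) +
    2 * (K + K / q * ℓ + 1) * 1.7 / (1.8 - 1.7) / (1.7 - 1.5) with hD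
  have hD0 : 0 < D := by
    have : (0 : ℝ) < 1.8 - 1.7 := by norm_num
    have : (0 : ℝ) < 1.7 - 1.5 := by norm_num
    positivity
  refine ⟨D, hD0, fun b N T hb hN hT hNT => ?_⟩
  have hT0 : 0 < T := by linarith
  have hlT : 1 ≤ Real.log T := H370.Loc.one_le_log (by linarith)
  have hfin := FF_zeros_finite hb hN (1 / 5) 4 (T - 3) (T + 7 / 2) (by linarith)
  set Γ : Finset ℝ := hfin.toFinset.image (fun s : ℂ => s.im) with hΓ
  obtain ⟨U, hU, hUΓ⟩ := H370.Loc.pigeon Γ T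
  have hU1 : T ≤ U := hU.1
  have hU2 : U ≤ T + 1 := hU.2
  have hcard : (Γ.card : ℝ) ≤ C0 * Real.log T := by
    have h1 : Γ.card ≤ hfin.toFinset.card := Finset.card_image_le
    have h2 : (hfin.toFinset.card : ℝ) ≤ ∑ z ∈ hfin.toFinset, (mult (FF b N) z : ℝ) := by
      rw [Finset.card_eq_sum_ones]
      push_cast
      refine Finset.sum_le_sum fun z hz => ?_
      rw [Set.Finite.mem_toFinset] at hz
      have := mult_one_le hb hN (s := z) (lt_of_lt_of_le (by linarith) hz.1.2.1) hz.2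
      exact_mod_cast this
    have h3 := hcount b N T hb hN (by linarith) (by linarith) hfin.toFinset (by
      intro z hz
      rw [Set.Finite.mem_toFinset] at hz
      obtain ⟨⟨⟨a1, a2⟩, a3, a4⟩, -⟩ := hz
      refine ⟨a1, a2, ?_⟩
      rw [abs_le]; constructor <;> linarith)
    have h4 : (Γ.card : ℝ) ≤ hfin.toFinset.card := by exact_mod_cast h1
    linarith
  refine ⟨U, hU, fun x hx => ?_⟩
  -- data in the ball
  have hball : ∀ z ∈ closedBall (⟨2, U⟩ : ℂ) 1.9, (1 / 16 : ℝ) ≤ z.re ∧ 1 ≤ z.im ∧ z.im ≤ 2 * T := by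
    intro z hz
    rw [mem_closedBall, dist_eq_norm] at hz
    have h1 := (Complex.abs_re_le_norm (z - ⟨2, U⟩)).trans hz
    have h2 := (Complex.abs_im_le_norm (z - ⟨2, U⟩)).trans hz
    simp only [sub_re, sub_im] at h1 h2
    rw [abs_le] at h1 h2
    refine ⟨by norm_num at h1 ⊢; linarith [h1.1], by norm_num at h2 ⊢; linarith [h2.1],
      by norm_num at h2 ⊢; linarith [h2.2]⟩
  set M : ℝ := (C + 1) * (2 * T) ^ A * (4 * T) with hM
  have h2TA : 1 ≤ (2 * T) ^ A := Real.one_le_rpow (by linarith) hA.le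
  have hM1 : 1 ≤ M := by
    rw [hM]
    have h1 : 1 ≤ (C + 1) * (2 * T) ^ A := by nlinarith
    nlinarith
  have han : AnalyticOnNhd ℂ (FF b N) (closedBall ⟨2, U⟩ 1.9) := by
    intro z hz
    refine FF_an b N ?_
    rintro rfl
    have := (hball 1 hz).2.1
    simp at this
    linarith
  have hc0 : FF b N ⟨2, U⟩ ≠ 0 := FF_ne hb hN (s := ⟨2, U⟩) le_rfl
  have hbd : ∀ z ∈ closedBall (⟨2, U⟩ : ℂ) 1.9, ‖FF b N z‖ ≤ M := by
    intro z hz
    obtain ⟨h1, h2, h3⟩ := hball z hz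
    refine (hg b N hb z h1 h2).trans ?_
    rw [hM]
    have h4 : z.im ^ A ≤ (2 * T) ^ A := Real.rpow_le_rpow (by linarith) h3 hA.le
    have h5 : C * z.im ^ A ≤ (C + 1) * (2 * T) ^ A := by
      have h6 : 0 ≤ z.im ^ A := by positivity
      nlinarith
    exact mul_le_mul h5 (by linarith) (by positivity) (by positivity)
  have hMc : ‖FF b N ⟨2, U⟩‖ ≤ M := hbd _ (mem_closedBall_self (by norm_num))
  have hlo := FF_lower hb hN (s := ⟨2, U⟩) le_rfl
  have hlo0 : 0 < ‖FF b N ⟨2, U⟩‖ := by linarith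
  set L := Real.log (M / ‖FF b N ⟨2, U⟩‖) with hL
  have hL0 : 0 ≤ L := Real.log_nonneg (by rw [le_div_iff₀ hlo0]; linarith)
  have hLK : L ≤ K * Real.log T := by
    have h1 : M / ‖FF b N ⟨2, U⟩‖ ≤ 16 * M := by
      rw [div_le_iff₀ hlo0]
      nlinarith
    have h2 : L ≤ Real.log (16 * M) := Real.log_le_log (by positivity) h1
    have h3 : Real.log (16 * M) = Real.log (64 * (C + 1)) + A * Real.log (2 * T) + Real.log T := by
      have e : 16 * M = (64 * (C + 1)) * (2 * T) ^ A * T := by rw [hM]; ring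
      rw [e, Real.log_mul (by positivity) (by positivity), Real.log_mul (by positivity) (by positivity),
        Real.log_rpow (by positivity)]
    have h4 : Real.log (2 * T) ≤ 2 * Real.log T := by
      have : Real.log (2 * T) ≤ Real.log (T ^ 2) := Real.log_le_log (by positivity) (by nlinarith)
      rw [Real.log_pow] at this
      exact_mod_cast this
    have h5 := le_abs_self (Real.log (64 * (C + 1)))
    have h6 := abs_nonneg (Real.log (64 * (C + 1)))
    have h7 : A * Real.log (2 * T) ≤ A * (2 * Real.log T) := mul_le_mul_of_nonneg_left h4 hA.le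
    rw [hK]
    have h8 : 0 ≤ A * Real.log T := by positivity
    nlinarith
  have hδ : (0 : ℝ) < 1 / (2 * ((Γ.card : ℝ) + 1)) := by positivity
  have hland := H370.Loc.landau (f := FF b N) (c := ⟨2, U⟩) (r := 1.8) (r1 := 1.7) (r2 := 1.5) (R := 1.9)
    (M := M) (by norm_num) (by norm_num) (by norm_num) (by norm_num) (by norm_num) hM1 hMc han
    hc0 hbd ⟨x, U⟩ (by
      rw [mem_closedBall, dist_eq_norm]
      apply abs_le_of_sq_le_sq' _ (by norm_num) |>.2
      rw [← Complex.normSq_eq_norm_sq, Complex.normSq_apply]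
      simp only [sub_re, sub_im]
      have := hx.1
      have := hx.2
      nlinarith) (1 / (2 * ((Γ.card : ℝ) + 1))) hδ (by
      intro ρ hρ hFρ
      have h1 : |U - ρ.im| ≤ ‖(⟨x, U⟩ : ℂ) - ρ‖ := by
        have := Complex.abs_im_le_norm ((⟨x, U⟩ : ℂ) - ρ)
        simpa using this
      refine le_trans ?_ h1
      rw [mem_closedBall, dist_eq_norm] at hρ
      have h2 := (Complex.abs_re_le_norm (ρ - ⟨2, U⟩)).trans hρ
      have h4 := (Complex.abs_im_le_norm (ρ - ⟨2, U⟩)).trans hρ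
      simp only [sub_re, sub_im] at h2 h4
      rw [abs_le] at h2 h4
      refine hUΓ ρ.im ?_
      rw [hΓ, Finset.mem_image]
      refine ⟨ρ, ?_, rfl⟩
      rw [Set.Finite.mem_toFinset]
      norm_num at h2 h4
      exact ⟨⟨⟨by linarith, by linarith⟩, by linarith, by linarith⟩, hFρ⟩)
  refine ⟨hland.1, hland.2.trans ?_⟩
  rw [← hL, ← hq, ← hℓ]
  have e1 : L / q / (1 / (2 * ((Γ.card : ℝ) + 1))) = L / q * (2 * ((Γ.card : ℝ) + 1)) := by
    rw [div_div_eq_mul_div, div_one]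
  rw [e1]
  have e2 : 2 * ((Γ.card : ℝ) + 1) ≤ 2 * (C0 + 1) * Real.log T := by nlinarith
  have e3 : L / q ≤ K / q * Real.log T := by
    rw [div_mul_eq_mul_div]
    exact div_le_div_of_nonneg_right hLK hq0.le
  have hLq0 : 0 ≤ L / q := by positivity
  have e4 : L / q * (2 * ((Γ.card : ℝ) + 1)) ≤
      (K / q * Real.log T) * (2 * (C0 + 1) * Real.log T) :=
    mul_le_mul e3 e2 (by positivity) (by positivity)
  have e5 : L + L / q * ℓ + 1 ≤ (K + K / q * ℓ + 1) * (Real.log T) ^ 2 := by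
    have f1 : Real.log T ≤ (Real.log T) ^ 2 := by nlinarith
    have f2 : L / q * ℓ ≤ K / q * Real.log T * ℓ := mul_le_mul_of_nonneg_right e3 hℓ0.le
    have f3 : (0 : ℝ) ≤ K / q * ℓ := by positivity
    have f4 : K * Real.log T ≤ K * (Real.log T) ^ 2 :=
      mul_le_mul_of_nonneg_left f1 (by positivity)
    have f5 : K / q * ℓ * Real.log T ≤ K / q * ℓ * (Real.log T) ^ 2 :=
      mul_le_mul_of_nonneg_left f1 f3
    nlinarith
  have e6 : 2 * (L + L / q * ℓ + 1) * 1.7 / (1.8 - 1.7) / (1.7 - 1.5) ≤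
      2 * ((K + K / q * ℓ + 1) * (Real.log T) ^ 2) * 1.7 / (1.8 - 1.7) / (1.7 - 1.5) := by
    have g1 : (0 : ℝ) < 1.8 - 1.7 := by norm_num
    have g2 : (0 : ℝ) < 1.7 - 1.5 := by norm_num
    gcongr
  calc _ ≤ (K / q * Real.log T) * (2 * (C0 + 1) * Real.log T) +
      2 * ((K + K / q * ℓ + 1) * (Real.log T) ^ 2) * 1.7 / (1.8 - 1.7) / (1.7 - 1.5) :=
        add_le_add e4 e6
    _ = D * (Real.log T) ^ 2 := by rw [hD]; ring

end

end Pool.Agent.Zk4
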