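import Pool.Agent.Zk4.Lc
import Pool.Agent.Q121.UM.LIT

set_option autoImplicit false

/-!
Littlewood step (helper4), part 4: the integral of `log ‖ζ M‖` and the zeros.
-/

namespace Pool.Agent.Zk4

open Filter Topology MeasureTheory Complex Set Metric
open H370 (mult zset GoodL good_zeta)

noncomputable section

lemma two_pow_small {T : ℝ} (hT : 1 ≤ T) : (2 : ℝ) ^ (-(4 * Real.log T)) ≤ 1 / T ^ 2 := by
  have hT0 : 0 < T := by linarith
  have hL : 0 ≤ Real.log T := Real.log_nonneg hT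
  have h1 : (2 : ℝ) ^ (-(4 * Real.log T)) = Real.exp (-(4 * Real.log 2 * Real.log T)) := by
    rw [Real.rpow_def_of_pos (by norm_num)]
    congr 1
    ring
  have h2 : 1 / T ^ 2 = Real.exp (-(2 * Real.log T)) := by
    rw [Real.exp_neg, show (2 : ℝ) * Real.log T = Real.log T + Real.log T by ring, Real.exp_add,
      Real.exp_log hT0]
    rw [one_div, sq]
  rw [h1, h2]
  apply Real.exp_le_exp.mpr
  have := Real.log_two_gt_d9
  nlinarith

theorem litt_gen : ∃ C T0 : ℝ, 0 < C ∧ 80 ≤ T0 ∧ ∀ (b : ℕ → ℂ) (N : ℕ) (T a : ℝ), Adm b → 1 ≤ N → T0 ≤ T →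
    (N : ℝ) ≤ T → 1 / 2 ≤ a → a ≤ 3 / 4 → ∃ c d : ℝ, T ≤ c ∧ c ≤ T + 1 ∧ 2 * T - 1 ≤ d ∧ d ≤ 2 * T ∧
      IntervalIntegrable (fun y => Real.log ‖FF b N ⟨a, y⟩‖) volume c d ∧ ∃ Z : Finset ℂ,
        (∀ s : ℂ, s ∈ Z ↔ a < s.re ∧ s.re < 4 * Real.log T ∧ c < s.im ∧ s.im < d ∧ FF b N s = 0) ∧
        |(∫ y in c..d, Real.log ‖FF b N ⟨a, y⟩‖) - 2 * Real.pi * ∑ s ∈ Z, (mult (FF b N) s : ℝ) * (s.re - a)| ≤
          C * Real.log T ^ 4 := by
  obtain ⟨C, hC, hh⟩ := heights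
  refine ⟨32 * (4 * C + 36) + 400, 80, by positivity, le_rfl, fun b N T a hb hN hT hNT ha1 ha2 => ?_⟩
  have hT0 : 0 < T := by linarith
  have hL1 : 1 ≤ Real.log T := H370.Loc.one_le_log (by linarith)
  have hL3 : 3 ≤ Real.log T := by
    rw [Real.le_log_iff_exp_le hT0]
    have h1 : Real.exp 3 = Real.exp 1 ^ 3 := by rw [← Real.exp_nat_mul]; norm_num
    have h2 := Real.exp_one_lt_d9
    have h3 : Real.exp 1 ^ 3 ≤ 2.7182818286 ^ 3 := pow_le_pow_left₀ (Real.exp_pos 1).le h2.le 3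
    rw [h1]
    have h4 : (2.7182818286 : ℝ) ^ 3 ≤ 80 := by norm_num
    linarith
  obtain ⟨c, hc, hcb⟩ := hh b N T hb hN (by linarith) (by linarith)
  obtain ⟨d, hd, hdb⟩ := hh b N (2 * T - 1) hb hN (by linarith) (by linarith)
  obtain ⟨B, hB⟩ : ∃ B : ℝ, B = 4 * Real.log T := ⟨_, rfl⟩
  have hB6 : 6 ≤ B := by rw [hB]; linarith
  have hc1 := hc.1
  have hc2 := hc.2
  have hd1 := hd.1
  have hd2 := hd.2
  have hcd : c < d := by linarith
  have hdc : d - c ≤ T := by linarith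
  have hlog2 : Real.log (2 * T - 1) ≤ 2 * Real.log T := by
    have : Real.log (2 * T - 1) ≤ Real.log (T ^ 2) := Real.log_le_log (by linarith) (by nlinarith)
    rw [Real.log_pow] at this
    exact_mod_cast this
  have hlog20 : 0 ≤ Real.log (2 * T - 1) := Real.log_nonneg (by linarith)
  -- the horizontal bound
  obtain ⟨H, hH⟩ : ∃ H : ℝ, H = 4 * C * Real.log T ^ 2 + 36 := ⟨_, rfl⟩
  have hH0 : 0 ≤ H := by rw [hH]; positivity
  have h2pow : ∀ x : ℝ, 3 ≤ x → (2 : ℝ) ^ (-x) ≤ 1 / 8 := by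
    intro x hx
    have h1 : (2 : ℝ) ^ (-x) ≤ (2 : ℝ) ^ (-(3:ℝ)) :=
      Real.rpow_le_rpow_of_exponent_le (by norm_num) (by linarith)
    have h2 : (2 : ℝ) ^ (-(3:ℝ)) = 1 / 8 := by
      rw [Real.rpow_neg (by norm_num)]
      norm_num
    exact h1.trans (le_of_eq h2)
  have hor : ∀ e : ℝ, (e = c ∨ e = d) → ∀ x : ℝ, 1 / 2 ≤ x → FF b N ⟨x, e⟩ ≠ 0 ∧
      ‖deriv (FF b N) ⟨x, e⟩ / FF b N ⟨x, e⟩‖ ≤ H := by
    intro e he x hx
    rcases le_or_gt x 3 with h3 | h3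
    · rcases he with rfl | rfl
      · obtain ⟨h1, h2⟩ := hcb x ⟨hx, h3⟩
        refine ⟨h1, h2.trans ?_⟩
        rw [hH]
        have : 0 ≤ C * Real.log T ^ 2 := by positivity
        linarith
      · obtain ⟨h1, h2⟩ := hdb x ⟨hx, h3⟩
        refine ⟨h1, h2.trans ?_⟩
        rw [hH]
        have h4 : Real.log (2 * T - 1) ^ 2 ≤ (2 * Real.log T) ^ 2 := pow_le_pow_left₀ hlog20 hlog2 2
        nlinarith
    · refine ⟨FF_ne hb hN (by simp only; linarith), (FF_ld hb hN (by simp only; linarith)).trans ?_⟩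
      have := h2pow x h3.le
      rw [hH]
      have h5 : 0 ≤ C * Real.log T ^ 2 := by positivity
      simp only
      linarith
  -- finiteness of the zeros
  have hfin := FF_zeros_finite hb hN a B c d (by linarith)
  classical
  obtain ⟨Z, hZ⟩ : ∃ Z : Finset ℂ, ∀ s : ℂ, s ∈ Z ↔ a < s.re ∧ s.re < B ∧ c < s.im ∧ s.im < d ∧ FF b N s = 0 := by
    have hsub : {s : ℂ | a < s.re ∧ s.re < B ∧ c < s.im ∧ s.im < d ∧ FF b N s = 0} ⊆
        {s : ℂ | s ∈ Icc a B ×ℂ Icc c d ∧ FF b N s = 0} := by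
      rintro s ⟨h1, h2, h3, h4, h5⟩
      exact ⟨⟨⟨h1.le, h2.le⟩, h3.le, h4.le⟩, h5⟩
    refine ⟨(hfin.subset hsub).toFinset, fun s => ?_⟩
    rw [Set.Finite.mem_toFinset]
    rfl
  have hL := Pool.Agent.Q121.UM.t_LIT (FF b N) (fun _ => 1) a B c d 0 Z (by linarith) hcd
    (fun s hs => FF_an b N (by
      rintro rfl
      have := hs.2.1
      simp at this
      linarith)) (differentiable_const 1) (fun y => by simp)
    (fun x hx => ⟨(hor c (Or.inl rfl) x (by linarith [hx.1])).1, (hor d (Or.inr rfl) x (by linarith [hx.1])).1⟩)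
    (fun y hy => FF_ne hb hN (by simp only; linarith)) hZ
  simp only [one_re, one_mul, mul_one, intervalIntegral.integral_const, smul_eq_mul] at hL
  obtain ⟨hI, hE⟩ := hL
  refine ⟨c, d, hc1, hc2, hd1, by linarith, hI, Z, by rw [← hB]; exact hZ, ?_⟩
  -- the right side
  have hpow : (2 : ℝ) ^ (-B) ≤ 1 / T ^ 2 := by rw [hB]; exact two_pow_small (by linarith)
  have hT2 : T * (1 / T ^ 2) ≤ 1 := by
    rw [mul_one_div, div_le_one (by positivity)]
    nlinarith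
  have hI1 : |∫ y in c..d, Real.log ‖FF b N ⟨B, y⟩‖| ≤ 18 := by
    have h1 := intervalIntegral.norm_integral_le_of_norm_le_const (a := c) (b := d)
      (f := fun y => Real.log ‖FF b N ⟨B, y⟩‖) (C := 18 * (1 / T ^ 2)) (fun y _ => by
        rw [Real.norm_eq_abs]
        refine (FF_log hb hN (s := ⟨B, y⟩) hB6).trans ?_
        simp only
        linarith)
    rw [Real.norm_eq_abs, abs_of_pos (by linarith : 0 < d - c)] at h1
    refine h1.trans ?_
    have h3 : (0:ℝ) < 1 / T ^ 2 := by positivity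
    nlinarith
  have hI2 : |(B - a) * (∫ y in c..d, deriv (FF b N) ⟨B, y⟩ / FF b N ⟨B, y⟩).re| ≤ 288 * B := by
    have h1 := intervalIntegral.norm_integral_le_of_norm_le_const (a := c) (b := d)
      (f := fun y => deriv (FF b N) ⟨B, y⟩ / FF b N ⟨B, y⟩) (C := 288 * (1 / T ^ 2)) (fun y _ => by
        refine (FF_ld hb hN (s := ⟨B, y⟩) (by simp only; linarith)).trans ?_
        simp only
        linarith)
    rw [abs_of_pos (by linarith : 0 < d - c)] at h1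
    rw [abs_mul, abs_of_pos (by linarith : 0 < B - a)]
    have h2 := (Complex.abs_re_le_norm _).trans h1
    have h3 : (0:ℝ) < 1 / T ^ 2 := by positivity
    have h4 : 288 * (1 / T ^ 2) * (d - c) ≤ 288 := by nlinarith
    have h5 := abs_nonneg (∫ y in c..d, deriv (FF b N) ⟨B, y⟩ / FF b N ⟨B, y⟩).re
    nlinarith
  have hI3 : |∫ σ in a..B, ((∫ x in σ..B, deriv (FF b N) ⟨x, c⟩ / FF b N ⟨x, c⟩) -
      (∫ x in σ..B, deriv (FF b N) ⟨x, d⟩ / FF b N ⟨x, d⟩)).im| ≤ 2 * H * B ^ 2 := by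
    have hint : ∀ e : ℝ, (e = c ∨ e = d) → ∀ σ : ℝ, 1 / 2 ≤ σ → σ ≤ B →
        ‖∫ x in σ..B, deriv (FF b N) ⟨x, e⟩ / FF b N ⟨x, e⟩‖ ≤ H * B := by
      intro e he σ hσ hσB
      have h1 := intervalIntegral.norm_integral_le_of_norm_le_const (a := σ) (b := B)
        (f := fun x => deriv (FF b N) ⟨x, e⟩ / FF b N ⟨x, e⟩) (C := H) (fun x hx => by
          rw [uIoc_of_le hσB] at hx
          exact (hor e he x (by linarith [hx.1])).2)
      rw [abs_of_nonneg (by linarith : 0 ≤ B - σ)] at h1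
      nlinarith
    have h1 := intervalIntegral.norm_integral_le_of_norm_le_const (a := a) (b := B)
      (f := fun σ => ((∫ x in σ..B, deriv (FF b N) ⟨x, c⟩ / FF b N ⟨x, c⟩) -
      (∫ x in σ..B, deriv (FF b N) ⟨x, d⟩ / FF b N ⟨x, d⟩)).im) (C := 2 * (H * B)) (fun σ hσ => by
        rw [uIoc_of_le (by linarith)] at hσ
        rw [Real.norm_eq_abs]
        refine (Complex.abs_im_le_norm _).trans ((norm_sub_le _ _).trans ?_)
        have e1 := hint c (Or.inl rfl) σ (by linarith [hσ.1]) hσ.2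
        have e2 := hint d (Or.inr rfl) σ (by linarith [hσ.1]) hσ.2
        linarith)
    rw [Real.norm_eq_abs, abs_of_pos (by linarith : 0 < B - a)] at h1
    refine h1.trans ?_
    have : 0 ≤ H * B := by positivity
    nlinarith
  rw [hE]
  have hX : ∀ x1 x2 x3 x4 : ℝ, |x1| ≤ 18 → |x2| ≤ 288 * B → |x4| ≤ 2 * H * B ^ 2 →
      |x1 - x2 + x3 - x4 - x3| ≤ 18 + 288 * B + 2 * H * B ^ 2 := by
    intro x1 x2 x3 x4 h1 h2 h4
    have e : x1 - x2 + x3 - x4 - x3 = x1 + (-x2) + (-x4) := by ring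
    rw [e]
    refine (abs_add_three _ _ _).trans ?_
    rw [abs_neg, abs_neg]
    linarith
  refine (hX _ _ _ _ hI1 hI2 hI3).trans ?_
  rw [hH, hB]
  have hLL : 1 ≤ Real.log T ^ 2 := one_le_pow₀ hL1
  have h27 : 27 ≤ Real.log T ^ 3 := by
    have := pow_le_pow_left₀ (by norm_num : (0:ℝ) ≤ 3) hL3 3
    norm_num at this ⊢
    linarith
  have hL4 : Real.log T ^ 4 = Real.log T ^ 2 * Real.log T ^ 2 := by ring
  have hL4' : Real.log T ^ 4 = Real.log T ^ 3 * Real.log T := by ring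
  have hm1 : 27 * Real.log T ≤ Real.log T ^ 4 := by
    rw [hL4']
    exact mul_le_mul_of_nonneg_right h27 (by linarith)
  have hm2 : Real.log T ^ 2 ≤ Real.log T ^ 4 := by
    rw [hL4]
    nlinarith
  have hC4 : 0 ≤ C * Real.log T ^ 4 := by positivity
  have e9 : 2 * (4 * C * Real.log T ^ 2 + 36) * (4 * Real.log T) ^ 2 =
      128 * (C * Real.log T ^ 4) + 1152 * Real.log T ^ 2 := by ring
  rw [e9]
  nlinarith

end

end Pool.Agent.Zk4
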