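import Pool.Agent.Zk4.Ld
import Pool.Agent.H370R2.Count
import Pool.Agent.H370R2.PC1

set_option autoImplicit false

/-!
Littlewood step (helper4), part 5: from the mean square of `ζ M` to the zeros of `ζ`.
-/

namespace Pool.Agent.Zk4

open Filter Topology MeasureTheory Complex Set Metric
open H370 (mult zset GoodL good_zeta NN Zf)

noncomputable section

lemma FF_ord_ne_top {b : ℕ → ℂ} (hb : Adm b) {N : ℕ} (hN : 1 ≤ N) {s : ℂ} (hs : 0 < s.im) :
    analyticOrderAt (FF b N) s ≠ ⊤ := by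
  refine H370.Loc.order_ne_top upper_pre (fun s hs => FF_an b N (by
      rintro rfl
      simp at hs)) (c := ⟨2, 1⟩) (by simp) (FF_ne hb hN (by simp)) hs

lemma mult_zeta_le {b : ℕ → ℂ} (hb : Adm b) {N : ℕ} (hN : 1 ≤ N) {s : ℂ} (hs : 0 < s.im) :
    mult riemannZeta s ≤ mult (FF b N) s := by
  have h1 : s ≠ 1 := by
    rintro rfl
    simp at hs
  have hz : AnalyticAt ℂ riemannZeta s := good_zeta.an s hs
  have hM : AnalyticAt ℂ (Mp b N) s := (Mp_diff b N).analyticAt s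
  have hmul : analyticOrderAt (FF b N) s = analyticOrderAt riemannZeta s + analyticOrderAt (Mp b N) s := by
    have : FF b N = riemannZeta * Mp b N := rfl
    rw [this, analyticOrderAt_mul hz hM]
  have htop := FF_ord_ne_top hb hN hs
  have hzt : analyticOrderAt riemannZeta s ≠ ⊤ := by
    intro h
    rw [hmul, h, top_add] at htop
    exact htop rfl
  unfold mult analyticOrderNatAt
  apply ENat.toNat_le_toNat _ htop
  rw [hmul]
  exact le_self_add

lemma log_tan {u V : ℝ} (hu : 0 < u) (hV : 0 < V) : Real.log u ≤ u / V - 1 + Real.log V := by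
  have h := Real.log_le_sub_one_of_pos (show 0 < u / V by positivity)
  rw [Real.log_div hu.ne' hV.ne'] at h
  linarith

lemma FF_line_cont (b : ℕ → ℂ) (N : ℕ) (a : ℝ) {c d : ℝ} (hc : 0 < c) (_hcd : c ≤ d) :
    ContinuousOn (fun y : ℝ => FF b N ⟨a, y⟩) (Icc c d) := by
  intro y hy
  have h1 : ContinuousAt (FF b N) ⟨a, y⟩ := (FF_diffAt b N (by
    intro h
    have := congrArg Complex.im h
    simp at this
    linarith [hy.1])).continuousAt
  have h2 : ContinuousAt (fun y : ℝ => (⟨a, y⟩ : ℂ)) y := by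
    have : (fun y : ℝ => (⟨a, y⟩ : ℂ)) = fun y : ℝ => (a : ℂ) + y * I := by
      funext y
      apply Complex.ext <;> simp
    rw [this]
    fun_prop
  exact (ContinuousAt.comp (f := fun y : ℝ => (⟨a, y⟩ : ℂ)) h1 h2).continuousWithinAt

lemma jensen_step {b : ℕ → ℂ} (hb : Adm b) {N : ℕ} (hN : 1 ≤ N) {a T c d V : ℝ} (hT : 80 ≤ T) (hc : T ≤ c)
    (hc1 : c ≤ T + 1) (hd : 2 * T - 1 ≤ d) (hd1 : d ≤ 2 * T) (hV : 1 ≤ V)
    (hI : IntervalIntegrable (fun y => Real.log ‖FF b N ⟨a, y⟩‖) volume c d)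
    (h2 : ∫ t in T..(2 * T), ‖FF b N ⟨a, t⟩‖ ^ 2 ≤ V * T) :
    ∫ y in c..d, Real.log ‖FF b N ⟨a, y⟩‖ ≤ T * Real.log V / 2 + 1 := by
  have hcd : c ≤ d := by linarith
  have hcont : ContinuousOn (fun y : ℝ => ‖FF b N ⟨a, y⟩‖ ^ 2) (Icc T (2 * T)) :=
    ((FF_line_cont b N a (by linarith) (by linarith)).norm).pow 2
  have hint : IntervalIntegrable (fun y : ℝ => ‖FF b N ⟨a, y⟩‖ ^ 2) volume T (2 * T) := by
    apply ContinuousOn.intervalIntegrable
    rwa [uIcc_of_le (by linarith)]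
  have hint2 : IntervalIntegrable (fun y : ℝ => ‖FF b N ⟨a, y⟩‖ ^ 2) volume c d := by
    apply ContinuousOn.intervalIntegrable
    rw [uIcc_of_le hcd]
    exact hcont.mono (Icc_subset_Icc hc hd1)
  have h3 : ∫ t in c..d, ‖FF b N ⟨a, t⟩‖ ^ 2 ≤ V * T := by
    refine le_trans ?_ h2
    refine intervalIntegral.integral_mono_interval hc hcd hd1 ?_ hint
    exact Filter.Eventually.of_forall fun y => by positivity
  have hfin : {y : ℝ | y ∈ Icc c d ∧ FF b N ⟨a, y⟩ = 0}.Finite := by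
    have h4 := FF_zeros_finite hb hN a a c d (by linarith)
    have h5 : Set.InjOn (fun y : ℝ => (⟨a, y⟩ : ℂ)) ((fun y : ℝ => (⟨a, y⟩ : ℂ)) ⁻¹'
        {s : ℂ | s ∈ Icc a a ×ℂ Icc c d ∧ FF b N s = 0}) := by
      intro x _ y _ hxy
      exact congrArg Complex.im hxy
    refine (h4.preimage h5).subset ?_
    rintro y ⟨h6, h7⟩
    exact ⟨⟨⟨le_rfl, le_rfl⟩, h6⟩, h7⟩
  have hae : (fun y => Real.log ‖FF b N ⟨a, y⟩‖) ≤ᵐ[volume.restrict (Icc c d)]
      (fun y => (‖FF b N ⟨a, y⟩‖ ^ 2 / V - 1 + Real.log V) / 2) := by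
    rw [Filter.EventuallyLE, ae_restrict_iff' measurableSet_Icc]
    have h6 : ∀ᵐ y : ℝ, y ∉ {y : ℝ | y ∈ Icc c d ∧ FF b N ⟨a, y⟩ = 0} :=
      (measure_eq_zero_iff_ae_notMem).mp (hfin.measure_zero _)
    filter_upwards [h6] with y hy hyc
    have h7 : FF b N ⟨a, y⟩ ≠ 0 := fun h => hy ⟨hyc, h⟩
    have h8 : 0 < ‖FF b N ⟨a, y⟩‖ := norm_pos_iff.mpr h7
    have h9 := log_tan (u := ‖FF b N ⟨a, y⟩‖ ^ 2) (V := V) (by positivity) (by linarith)
    rw [Real.log_pow] at h9
    push_cast at h9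
    linarith
  have hmono := intervalIntegral.integral_mono_ae_restrict hcd hI
    (((hint2.div_const V).sub (_root_.intervalIntegrable_const)).add (_root_.intervalIntegrable_const) |>.div_const 2) hae
  refine hmono.trans ?_
  rw [intervalIntegral.integral_div, intervalIntegral.integral_add ((hint2.div_const V).sub
    (_root_.intervalIntegrable_const)) (_root_.intervalIntegrable_const), intervalIntegral.integral_sub (hint2.div_const V)
    (_root_.intervalIntegrable_const), intervalIntegral.integral_div, intervalIntegral.integral_const,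
    intervalIntegral.integral_const, smul_eq_mul, smul_eq_mul]
  have hV0 : 0 < V := by linarith
  have h10 : (∫ t in c..d, ‖FF b N ⟨a, t⟩‖ ^ 2) / V ≤ T := by
    rw [div_le_iff₀ hV0]
    linarith
  have h11 : 0 ≤ Real.log V := Real.log_nonneg hV
  have h12 : (d - c) * Real.log V ≤ T * Real.log V := mul_le_mul_of_nonneg_right (by linarith) h11
  linarith

theorem litt (ε : ℝ) (hε : 0 < ε) : ∃ T0 : ℝ, 80 ≤ T0 ∧ ∀ T : ℝ, T0 ≤ T → ∀ (b : ℕ → ℂ) (N : ℕ) (a V : ℝ),
    Adm b → 1 ≤ N → (N : ℝ) ≤ T → 1 / 2 ≤ a → a ≤ 3 / 4 → 1 ≤ V →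
    (∫ t in T..(2 * T), ‖FF b N ⟨a, t⟩‖ ^ 2 ≤ V * T) →
    2 * Real.pi * ∑ s ∈ Zf riemannZeta T (2 * T), (mult riemannZeta s : ℝ) * max (s.re - a) 0 ≤
      T * (Real.log V / 2 + ε) := by
  classical
  obtain ⟨C, T0, hC, hT0, h⟩ := litt_gen
  obtain ⟨C0, hC0, hz⟩ := H370.zcount good_zeta
  obtain ⟨K, hK⟩ : ∃ K : ℝ, K = C + 1 + 6 * Real.pi * C0 := ⟨_, rfl⟩
  have hpi := Real.pi_pos
  have hKpos : 0 < K := by rw [hK]; positivity
  have hlit : ∀ᶠ T : ℝ in atTop, K * Real.log T ^ 4 ≤ ε * T := by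
    have h1 := (Real.isLittleO_pow_log_id_atTop (n := 4)).def (show 0 < ε / K by positivity)
    filter_upwards [h1, eventually_gt_atTop 0] with T hT hT0
    rw [Real.norm_eq_abs, Real.norm_eq_abs, id, abs_of_pos hT0] at hT
    have h2 := (le_abs_self (Real.log T ^ 4)).trans hT
    calc K * Real.log T ^ 4 ≤ K * (ε / K * T) := mul_le_mul_of_nonneg_left h2 hKpos.le
      _ = ε * T := by field_simp
  obtain ⟨T1, hT1⟩ := hlit.exists_forall_of_atTop
  refine ⟨max T0 T1, hT0.trans (le_max_left _ _), fun T hT b N a V hb hN hNT ha1 ha2 hV hms => ?_⟩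
  have hTT0 : T0 ≤ T := (le_max_left _ _).trans hT
  have hTT1 : T1 ≤ T := (le_max_right _ _).trans hT
  have hT80 : 80 ≤ T := hT0.trans hTT0
  obtain ⟨c, d, hc, hc1, hd, hd1, hI, Z, hZ, hE⟩ := h b N T a hb hN hTT0 hNT ha1 ha2
  have hJ := jensen_step hb hN hT80 hc hc1 hd hd1 hV hI hms
  have hL1 : 1 ≤ Real.log T := H370.Loc.one_le_log (by linarith)
  -- zeros
  have hlogT : Real.log (2 * T - 1) ≤ 2 * Real.log T := by
    have : Real.log (2 * T - 1) ≤ Real.log (T ^ 2) := Real.log_le_log (by linarith) (by nlinarith)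
    rw [Real.log_pow] at this
    exact_mod_cast this
  have hn1 := hz T (by linarith)
  have hn2 := hz (2 * T - 1) (by linarith)
  have hm1 : (1:ℝ) ≤ T - 1 := by linarith
  have hm2 : (1:ℝ) ≤ 2 * T - 1 - 1 := by linarith
  rw [H370.NN_eq good_zeta hm1] at hn1
  rw [H370.NN_eq good_zeta hm2] at hn2
  push_cast at hn1 hn2
  have hT1' : (1:ℝ) ≤ T := by linarith
  have key : ∀ s ∈ Zf riemannZeta T (2 * T), (mult riemannZeta s : ℝ) * max (s.re - a) 0 ≤
      (if s ∈ Z then (mult (FF b N) s : ℝ) * (s.re - a) else 0) +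
      ((if s.im ≤ c then (mult riemannZeta s : ℝ) else 0) + (if d ≤ s.im then (mult riemannZeta s : ℝ) else 0)) := by
    intro s hs
    rw [H370.mem_Zf good_zeta hT1'] at hs
    obtain ⟨s1, s2, s3, s4, s5⟩ := hs
    have hm0 : (0:ℝ) ≤ (mult riemannZeta s : ℝ) := Nat.cast_nonneg _
    have hmax : max (s.re - a) 0 ≤ 1 := max_le (by linarith) (by norm_num)
    have hmax0 : 0 ≤ max (s.re - a) 0 := le_max_right _ _
    have e1 : (0:ℝ) ≤ (if s.im ≤ c then (mult riemannZeta s : ℝ) else 0) := by split_ifs <;> simp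
    have e2 : (0:ℝ) ≤ (if d ≤ s.im then (mult riemannZeta s : ℝ) else 0) := by split_ifs <;> simp
    have e3 : (0:ℝ) ≤ (if s ∈ Z then (mult (FF b N) s : ℝ) * (s.re - a) else 0) := by
      split_ifs with hsZ
      · have := ((hZ s).mp hsZ).1
        exact mul_nonneg (Nat.cast_nonneg _) (by linarith)
      · exact le_rfl
    rcases le_or_gt s.im c with h1 | h1
    · rw [if_pos h1]
      nlinarith
    · rcases le_or_gt d s.im with h2 | h2
      · rw [if_pos h2]
        nlinarith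
      · rcases le_or_gt s.re a with h3 | h3
        · rw [max_eq_right (by linarith)]
          linarith
        · have hsZ : s ∈ Z := (hZ s).mpr ⟨h3, by linarith, h1, h2, by unfold FF; rw [s5, zero_mul]⟩
          rw [if_pos hsZ, max_eq_left (by linarith)]
          have h4 : (mult riemannZeta s : ℝ) ≤ (mult (FF b N) s : ℝ) := by
            exact_mod_cast mult_zeta_le hb hN (by linarith : 0 < s.im)
          have h5 := mul_le_mul_of_nonneg_right h4 (by linarith : 0 ≤ s.re - a)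
          linarith
  have hsum := Finset.sum_le_sum key
  rw [Finset.sum_add_distrib, Finset.sum_add_distrib] at hsum
  have q1 : ∑ s ∈ Zf riemannZeta T (2 * T), (if s ∈ Z then (mult (FF b N) s : ℝ) * (s.re - a) else 0) ≤
      ∑ s ∈ Z, (mult (FF b N) s : ℝ) * (s.re - a) := by
    rw [← Finset.sum_filter]
    refine Finset.sum_le_sum_of_subset_of_nonneg ?_ fun s hs _ => ?_
    · intro s hs
      exact (Finset.mem_filter.mp hs).2
    · have := ((hZ s).mp hs).1
      exact mul_nonneg (Nat.cast_nonneg _) (by linarith)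
  have q2 : ∑ s ∈ Zf riemannZeta T (2 * T), (if s.im ≤ c then (mult riemannZeta s : ℝ) else 0) ≤
      C0 * Real.log T := by
    refine le_trans ?_ hn1
    rw [← Finset.sum_filter]
    refine Finset.sum_le_sum_of_subset_of_nonneg ?_ fun s hs _ => Nat.cast_nonneg _
    intro s hs
    rw [Finset.mem_filter, H370.mem_Zf good_zeta hT1'] at hs
    rw [H370.mem_Zf good_zeta hm1]
    obtain ⟨⟨s1, s2, s3, s4, s5⟩, s6⟩ := hs
    exact ⟨s1, s2, by linarith, by linarith, s5⟩
  have q3 : ∑ s ∈ Zf riemannZeta T (2 * T), (if d ≤ s.im then (mult riemannZeta s : ℝ) else 0) ≤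
      C0 * Real.log (2 * T - 1) := by
    refine le_trans ?_ hn2
    rw [← Finset.sum_filter]
    refine Finset.sum_le_sum_of_subset_of_nonneg ?_ fun s hs _ => Nat.cast_nonneg _
    intro s hs
    rw [Finset.mem_filter, H370.mem_Zf good_zeta hT1'] at hs
    rw [H370.mem_Zf good_zeta hm2]
    obtain ⟨⟨s1, s2, s3, s4, s5⟩, s6⟩ := hs
    exact ⟨s1, s2, by linarith, by linarith, s5⟩
  have hE2 := (abs_le.mp hE).1
  have hfin := hT1 T hTT1
  have hL4 : Real.log T ≤ Real.log T ^ 4 := by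
    calc Real.log T = Real.log T ^ 1 := (pow_one _).symm
      _ ≤ Real.log T ^ 4 := pow_le_pow_right₀ hL1 (by norm_num)
  have q4 : ∑ s ∈ Zf riemannZeta T (2 * T), (mult riemannZeta s : ℝ) * max (s.re - a) 0 ≤
      ∑ s ∈ Z, (mult (FF b N) s : ℝ) * (s.re - a) + 3 * C0 * Real.log T := by
    have : C0 * Real.log (2 * T - 1) ≤ C0 * (2 * Real.log T) := mul_le_mul_of_nonneg_left hlogT hC0.le
    linarith
  have q5 : 2 * Real.pi * ∑ s ∈ Zf riemannZeta T (2 * T), (mult riemannZeta s : ℝ) * max (s.re - a) 0 ≤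
      2 * Real.pi * ∑ s ∈ Z, (mult (FF b N) s : ℝ) * (s.re - a) + 6 * Real.pi * C0 * Real.log T := by
    have := mul_le_mul_of_nonneg_left q4 (by positivity : 0 ≤ 2 * Real.pi)
    linarith
  have q6 : 6 * Real.pi * C0 * Real.log T ≤ 6 * Real.pi * C0 * Real.log T ^ 4 :=
    mul_le_mul_of_nonneg_left hL4 (by positivity)
  rw [hK] at hfin
  nlinarith [hL1.trans hL4]

end

end Pool.Agent.Zk4
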