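import Pool.Agent.TH803.LG.RHq

set_option autoImplicit false

/-!
Good lines (helper4), part 1: the zero free cone, the Laguerre expressions, monotonicity.
-/

namespace Pool.Agent.Zk4

open Complex Filter Topology Set
open Pool.Agent.H24R2.JP (XX Par)
open Pool.Agent.H24R2.JP.B1h (XX_diff)
open Pool.Agent.TH803.LG

noncomputable section

/-- if no zero of `XX` lies in the closed cone with vertex `I t`, all the coefficients are positive -/
theorem cone_pos {t : ℝ} (h : ∀ w : ℂ, XX w = 0 → |w.re| < |w.im - t|) (n : ℕ) : 0 < LC n t := by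
  refine lc_pos (n1 := 0) (fun x _ hx0 h0 => ?_) n (Nat.zero_le n)
  rw [iteratedDeriv_zero] at h0
  obtain ⟨z, hz⟩ := exists_sq x
  rw [← hz] at h0 hx0
  rw [FT_sq] at h0
  have h1 : |z.im| ≤ |z.re| := by
    rw [sq, Complex.mul_re] at hx0
    exact sq_le_sq.mp (by nlinarith)
  unfold EE at h0
  rcases mul_eq_zero.1 h0 with h2 | h2
  · have h3 := h _ h2
    have e1 : (I * (t : ℂ) + z).re = z.re := by simp
    have e2 : (I * (t : ℂ) + z).im - t = z.im := by simp
    rw [e1, e2] at h3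
    linarith
  · have h3 := h _ h2
    have e1 : (I * (t : ℂ) - z).re = -z.re := by simp
    have e2 : (I * (t : ℂ) - z).im - t = -z.im := by simp
    rw [e1, e2, abs_neg, abs_neg] at h3
    linarith

/-- growth of the modulus when all the coefficients are positive -/
theorem mono_step {t : ℝ} (h : ∀ n, 0 < LC n t) {y1 y2 : ℝ} (h0 : 0 ≤ y1) (h12 : y1 ≤ y2) :
    ‖XX (I * t + y1)‖ ^ 2 + LC 1 t * (y2 ^ 2 - y1 ^ 2) ≤ ‖XX (I * t + y2)‖ ^ 2 := by
  have h3 := (hasSum_EE t y2).sub (hasSum_EE t y1)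
  have h4 := sum_le_hasSum {1} (fun k _ => by
    have h5 : y1 ^ (2 * k) ≤ y2 ^ (2 * k) := pow_le_pow_left₀ h0 h12 _
    have := mul_le_mul_of_nonneg_left h5 (h k).le
    linarith) h3
  simp only [Finset.sum_singleton, mul_one] at h4
  linarith

/-- strict monotonicity of the modulus on the half line -/
theorem strict_mono_XX {t : ℝ} (h : ∀ n, 0 < LC n t) :
    StrictMonoOn (fun y : ℝ => ‖XX (I * t + y)‖) (Ici 0) := by
  intro y1 h1 y2 h2 h12
  have h1' : (0:ℝ) ≤ y1 := h1
  have h3 := mono_step h h1' h12.le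
  have h4 : 0 < LC 1 t * (y2 ^ 2 - y1 ^ 2) := mul_pos (h 1) (by nlinarith)
  exact lt_of_pow_lt_pow_left₀ 2 (norm_nonneg _) (by linarith)

/-- the logarithmic derivative has positive real part -/
theorem ld_pos_XX {t : ℝ} (h : ∀ n, 0 < LC n t) {y : ℝ} (hy : 0 < y) :
    0 < (deriv XX (I * t + y) / XX (I * t + y)).re := by
  have hd : HasDerivAt (fun x : ℝ => XX (I * t + x)) (deriv XX (I * t + y)) y := by
    have h1 : HasDerivAt XX (deriv XX (I * t + y)) (I * t + y) := (XX_diff _).hasDerivAt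
    have h2 : HasDerivAt (fun x : ℝ => (I * t + x : ℂ)) 1 y := by
      have := (Complex.ofRealCLM.hasDerivAt (x := y)).const_add (I * (t : ℂ))
      simpa using this
    have h3 := HasDerivAt.comp (h₂ := XX) y h1 h2
    rw [mul_one] at h3
    exact h3
  have hnpos : 0 < ‖XX (I * t + y)‖ := by
    have := strict_mono_XX h (show (0:ℝ) ∈ Ici (0:ℝ) by simp) (show y ∈ Ici (0:ℝ) by simpa using hy.le) hy
    exact (norm_nonneg _).trans_lt this
  -- derivative of the square of the modulus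
  have hsq : HasDerivAt (fun x : ℝ => ‖XX (I * t + x)‖ ^ 2)
      (2 * ((XX (I * t + y)).re * (deriv XX (I * t + y)).re + (XX (I * t + y)).im * (deriv XX (I * t + y)).im)) y := by
    have e : (fun x : ℝ => ‖XX (I * t + x)‖ ^ 2) = fun x : ℝ => (XX (I * t + x)).re ^ 2 + (XX (I * t + x)).im ^ 2 := by
      funext x
      rw [Complex.sq_norm, Complex.normSq_apply]
      ring
    rw [e]
    have hre : HasDerivAt (fun x : ℝ => (XX (I * t + x)).re) (deriv XX (I * t + y)).re y :=
      Complex.reCLM.hasFDerivAt.comp_hasDerivAt y hd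
    have him : HasDerivAt (fun x : ℝ => (XX (I * t + x)).im) (deriv XX (I * t + y)).im y :=
      Complex.imCLM.hasFDerivAt.comp_hasDerivAt y hd
    refine ((hre.pow 2).add (him.pow 2)).congr_deriv ?_
    simp only [Nat.cast_ofNat, Nat.add_one_sub_one, pow_one]
    ring
  have hg : HasDerivAt (fun x : ℝ => ‖XX (I * t + x)‖ ^ 2 - LC 1 t * x ^ 2)
      (2 * ((XX (I * t + y)).re * (deriv XX (I * t + y)).re + (XX (I * t + y)).im * (deriv XX (I * t + y)).im)
        - LC 1 t * (2 * y)) y := by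
    refine hsq.sub ?_
    have := ((hasDerivAt_id y).pow 2).const_mul (LC 1 t)
    simpa using this
  have hmono : MonotoneOn (fun x : ℝ => ‖XX (I * t + x)‖ ^ 2 - LC 1 t * x ^ 2) (Ici 0) := by
    intro a ha b _ hab
    have := mono_step h (show (0:ℝ) ≤ a from ha) hab
    simp only
    linarith
  have hge : 0 ≤ 2 * ((XX (I * t + y)).re * (deriv XX (I * t + y)).re + (XX (I * t + y)).im * (deriv XX (I * t + y)).im)
        - LC 1 t * (2 * y) := by
    have h5 := hmono.derivWithin_nonneg (x := y)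
    rwa [derivWithin_of_mem_nhds (Ici_mem_nhds hy), hg.deriv] at h5
  rw [Complex.div_re]
  have hns : 0 < Complex.normSq (XX (I * t + y)) := by
    rw [← Complex.sq_norm]
    positivity
  rw [← add_div]
  apply div_pos _ hns
  have := mul_pos (h 1) hy
  linarith

/-! ### the same for `ξ` and the Laguerre expressions -/

theorem xi_strict {t : ℝ} (h : ∀ n, 0 < Lag n t) :
    StrictMonoOn (fun σ : ℝ => ‖xi (σ + I * t)‖) (Ici (1 / 2)) := by
  have h' : ∀ n, 0 < LC n t := fun n => by rw [LC_eq_Lag]; linarith [h n]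
  have e : ∀ σ : ℝ, ‖xi (σ + I * t)‖ = (1 / 8) * ‖XX (I * t + ((σ - 1 / 2 : ℝ) : ℂ))‖ := by
    intro σ
    rw [xi_XX, norm_mul]
    congr 1
    · simp
    · congr 2
      push_cast
      ring
  intro a ha b hb hab
  have h1 := strict_mono_XX h' (show a - 1 / 2 ∈ Ici (0:ℝ) by
      have : (1 / 2 : ℝ) ≤ a := ha
      simp only [mem_Ici]; linarith) (show b - 1 / 2 ∈ Ici (0:ℝ) by
      have : (1 / 2 : ℝ) ≤ b := hb
      simp only [mem_Ici]; linarith) (by linarith : a - 1 / 2 < b - 1 / 2)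
  simp only [e]
  simp only at h1
  linarith

theorem xi_ld {t : ℝ} (h : ∀ n, 0 < Lag n t) {σ : ℝ} (hσ : 1 / 2 < σ) :
    0 < (deriv xi (σ + I * t) / xi (σ + I * t)).re := by
  have h' : ∀ n, 0 < LC n t := fun n => by rw [LC_eq_Lag]; linarith [h n]
  have h1 := ld_pos_XX h' (show 0 < σ - 1 / 2 by linarith)
  have e1 : (σ + I * t - 1 / 2 : ℂ) = I * t + ((σ - 1 / 2 : ℝ) : ℂ) := by push_cast; ring
  have e2 : deriv xi (σ + I * t) = (1 / 8) * deriv XX (I * t + ((σ - 1 / 2 : ℝ) : ℂ)) := by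
    have : xi = fun s => (1 / 8) * XX (s - 1 / 2) := funext xi_XX
    rw [this, ← e1]
    have h3 : HasDerivAt (fun s : ℂ => (1 / 8) * XX (s - 1 / 2)) ((1 / 8) * deriv XX (σ + I * t - 1 / 2)) (σ + I * t) := by
      have h4 : HasDerivAt XX (deriv XX (σ + I * t - 1 / 2)) (σ + I * t - 1 / 2) := (XX_diff _).hasDerivAt
      exact (HasDerivAt.comp_sub_const (σ + I * t) (1 / 2) h4).const_mul (1 / 8)
    exact h3.deriv
  rw [e2, xi_XX, e1, mul_div_mul_left _ _ (by norm_num)]
  exact h1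

/-! ### zeros of `XX` and of `ζ` -/

theorem zeta_of_XX {w : ℂ} (h : XX w = 0) : riemannZeta (1 / 2 + w) = 0 ∧ 0 < (1 / 2 + w : ℂ).re ∧
    (1 / 2 + w : ℂ).re < 1 := by
  obtain ⟨h1, h2, h3⟩ := Pool.Agent.H24R2.JP.Zer.completed_zero w h
  have h4 : riemannZeta (1 / 2 + w) = 0 := by
    rw [riemannZeta_def_of_ne_zero h1, h3, zero_div]
  have hlt : (1 / 2 + w : ℂ).re < 1 := by
    by_contra hcon
    exact riemannZeta_ne_zero_of_one_le_re (not_lt.1 hcon) h4
  refine ⟨h4, ?_, hlt⟩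
  have h5 : XX (-w) = 0 := by rw [Pool.Agent.H24R2.JP.B1h.XX_neg]; exact h
  obtain ⟨g1, g2, g3⟩ := Pool.Agent.H24R2.JP.Zer.completed_zero (-w) h5
  have g4 : riemannZeta (1 / 2 + -w) = 0 := by
    rw [riemannZeta_def_of_ne_zero g1, g3, zero_div]
  have hlt2 : (1 / 2 + -w : ℂ).re < 1 := by
    by_contra hcon
    exact riemannZeta_ne_zero_of_one_le_re (not_lt.1 hcon) g4
  simp at hlt2 ⊢
  linarith

/-- a height is good if no zero of `ζ` to the right of the line lies in the closed cone, and there is no zero on the line -/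
theorem good_of_zeros {t : ℝ} (h : ∀ s : ℂ, riemannZeta s = 0 → 1 / 2 ≤ s.re → s.re < 1 → s.re - 1 / 2 < |s.im - t|)
    (n : ℕ) : 0 < Lag n t := by
  have h1 : 0 < LC n t := by
    refine cone_pos (fun w hw => ?_) n
    rcases le_or_gt 0 w.re with h0 | h0
    · obtain ⟨h2, h3, h4⟩ := zeta_of_XX hw
      have h5 := h _ h2 (by simp; linarith) h4
      have e1 : (1 / 2 + w : ℂ).re - 1 / 2 = w.re := by simp
      have e2 : (1 / 2 + w : ℂ).im = w.im := by simp
      rw [e1, e2] at h5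
      rwa [abs_of_nonneg h0]
    · have hw' : XX (-(starRingEnd ℂ) w) = 0 := by
        rw [Pool.Agent.H24R2.JP.B1h.XX_neg, Pool.Agent.H24R2.JP.B1h.XX_conj, hw, map_zero]
      obtain ⟨h2, h3, h4⟩ := zeta_of_XX hw'
      have h5 := h _ h2 (by simp; linarith) h4
      have e1 : (1 / 2 + -(starRingEnd ℂ) w : ℂ).re - 1 / 2 = -w.re := by simp
      have e2 : (1 / 2 + -(starRingEnd ℂ) w : ℂ).im = w.im := by simp
      rw [e1, e2] at h5
      rwa [abs_of_neg h0]
  rw [LC_eq_Lag] at h1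
  linarith

theorem rh_of_null (h : MeasureTheory.volume {t : ℝ | ¬ ∀ n, 0 < Lag n t} = 0) : RiemannHypothesis := by
  refine rh_of_nonneg fun n t => ?_
  by_contra hcon
  push Not at hcon
  have hU : IsOpen {s : ℝ | LC n s < 0} := isOpen_lt (LC_cont n) continuous_const
  have h1 : {s : ℝ | LC n s < 0} ⊆ {t : ℝ | ¬ ∀ n, 0 < Lag n t} := by
    intro s hs hall
    have h2 : LC n s < 0 := hs
    have h3 := hall n
    rw [LC_eq_Lag] at h2
    linarith
  have h4 := MeasureTheory.measure_mono_null h1 h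
  have h5 := hU.measure_pos MeasureTheory.volume ⟨t, hcon⟩
  rw [h4] at h5
  exact lt_irrefl _ h5

end

end Pool.Agent.Zk4
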