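import Pool.Agent.Zk4.Le
import Pool.Agent.H370R2.RightZeros
import Pool.Agent.H370R2.Expl3

set_option autoImplicit false

/-!
Good lines (helper4), part 2: the sum of the distances to the critical line over a dyadic block.
-/

namespace Pool.Agent.Zk4

open Filter Topology MeasureTheory Complex Set Metric
open H370 (mult zset GoodL good_zeta NN Zf NR)

noncomputable section

/-- sum of the distances to the critical line of the zeros to the right of it, with multiplicity -/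
def DD (T1 T2 : ℝ) : ℝ := ∑ s ∈ Zf riemannZeta T1 T2, (mult riemannZeta s : ℝ) * max (s.re - 1 / 2) 0

/-- the mollified second moment near the critical line (helper5) -/
def MSQ : Prop := ∀ a th eps : ℝ, 0 < a → 0 < th → th < 1 / 2 → 0 < eps → ∃ T0 : ℝ, ∀ T : ℝ, T0 ≤ T →
  ∃ (N : ℕ) (b : ℕ → ℂ), 1 ≤ N ∧ (N : ℝ) ≤ T ∧ b 1 = 1 ∧ (∀ n, ‖b n‖ ≤ 1) ∧
    ∫ t in T..(2 * T), ‖riemannZeta ((1 / 2 + a / Real.log T : ℝ) + I * t) *
      ∑ n ∈ Finset.Icc 1 N, b n * (n : ℂ) ^ (-(((1 / 2 + a / Real.log T : ℝ) : ℂ) + I * t))‖ ^ 2 ≤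
      T * (1 + (1 - Real.exp (-(2 * a))) / (Real.exp (2 * th * a) - 1) + eps)

lemma exp_upper_25 : Real.exp (5 / 2) ≤ 12.1825 := by
  have h1 := Real.exp_one_lt_d9
  have h2 : Real.exp (5 / 2) ^ 2 = Real.exp 1 ^ 5 := by
    rw [← Real.exp_nat_mul, ← Real.exp_nat_mul]
    norm_num
  have h3 : Real.exp 1 ^ 5 ≤ 2.7182818286 ^ 5 := pow_le_pow_left₀ (Real.exp_pos 1).le h1.le 5
  have h4 : (2.7182818286 : ℝ) ^ 5 ≤ 12.1825 ^ 2 := by norm_num
  have h5 : Real.exp (5 / 2) ^ 2 ≤ 12.1825 ^ 2 := by linarith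
  exact le_of_sq_le_sq h5 (by norm_num)

lemma exp_lower_125 : (3.49025 : ℝ) ≤ Real.exp (2 * 0.49999 * (5 / 4)) := by
  have h := Real.sum_le_exp_of_nonneg (x := 2 * 0.49999 * (5 / 4)) (by norm_num) 12
  refine le_trans ?_ h
  norm_num [Finset.sum_range_succ, Nat.factorial]

lemma V_num : 1 + (1 - Real.exp (-(2 * (5 / 4 : ℝ)))) / (Real.exp (2 * 0.49999 * (5 / 4)) - 1) + 0.000005 ≤ 1.368614 := by
  have h1 := exp_upper_25
  have h2 := exp_lower_125
  have h3 : (1 / 12.1825 : ℝ) ≤ Real.exp (-(2 * (5 / 4 : ℝ))) := by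
    rw [Real.exp_neg, one_div]
    have e : (2 * (5 / 4) : ℝ) = 5 / 2 := by norm_num
    rw [e]
    exact inv_anti₀ (Real.exp_pos _) h1
  have h4 : (1 - Real.exp (-(2 * (5 / 4 : ℝ)))) / (Real.exp (2 * 0.49999 * (5 / 4)) - 1) ≤ 0.368608 := by
    rw [div_le_iff₀ (by linarith)]
    have : (0.368608 : ℝ) * (3.49025 - 1) ≤ 0.368608 * (Real.exp (2 * 0.49999 * (5 / 4)) - 1) := by
      apply mul_le_mul_of_nonneg_left _ (by norm_num)
      linarith
    refine le_trans ?_ this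
    have h5 : (1 : ℝ) - 1 / 12.1825 ≤ 0.368608 * (3.49025 - 1) := by norm_num
    linarith
  linarith

lemma log_V_num : Real.log 1.368614 ≤ 0.3138 := by
  rw [Real.log_le_iff_le_exp (by norm_num)]
  have h := Real.sum_le_exp_of_nonneg (x := (0.3138 : ℝ)) (by norm_num) 7
  refine le_trans ?_ h
  norm_num [Finset.sum_range_succ, Nat.factorial]

/-- the block estimate -/
theorem block (hms : MSQ) : ∃ T0 : ℝ, 80 ≤ T0 ∧ ∀ T : ℝ, T0 ≤ T → DD T (2 * T) ≤ T * (0.36153 / (2 * Real.pi)) := by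
  obtain ⟨T1, hT1, hlit⟩ := litt 0.000001 (by norm_num)
  obtain ⟨T2, hT2⟩ := hms (5 / 4) 0.49999 0.000005 (by norm_num) (by norm_num) (by norm_num) (by norm_num)
  obtain ⟨T3, hT3⟩ := H370.Expl.main_numeric riemannZeta good_zeta
  obtain ⟨C, T4, hC, hT4, hnn⟩ := H370.nn_asymp good_zeta
  have hpi := Real.pi_pos
  obtain ⟨T5, hT5⟩ := (Real.tendsto_log_atTop.eventually_ge_atTop (max 5 (10 ^ 6 * C * (2 * Real.pi)))).exists_forall_of_atTop
  refine ⟨max T1 (max T2 (max T3 (max T4 T5))), hT1.trans (le_max_left _ _), fun T hT => ?_⟩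
  have g1 : T1 ≤ T := (le_max_left _ _).trans hT
  have g2 : T2 ≤ T := ((le_max_left _ _).trans (le_max_right _ _)).trans hT
  have g3 : T3 ≤ T := (((le_max_left _ _).trans (le_max_right _ _)).trans (le_max_right _ _)).trans hT
  have g4 : T4 ≤ T := ((((le_max_left _ _).trans (le_max_right _ _)).trans (le_max_right _ _)).trans
    (le_max_right _ _)).trans hT
  have g5 : T5 ≤ T := ((((le_max_right _ _).trans (le_max_right _ _)).trans (le_max_right _ _)).trans
    (le_max_right _ _)).trans hT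
  have hT80 : 80 ≤ T := hT1.trans g1
  have hT0 : 0 < T := by linarith
  have hL := hT5 T g5
  have hL5 : 5 ≤ Real.log T := (le_max_left _ _).trans hL
  have hLC : 10 ^ 6 * C * (2 * Real.pi) ≤ Real.log T := (le_max_right _ _).trans hL
  obtain ⟨L, hLd⟩ : ∃ L : ℝ, L = Real.log T := ⟨_, rfl⟩
  rw [← hLd] at hL5 hLC
  have hL0 : 0 < L := by linarith
  obtain ⟨N, b, hN, hNT, hb1, hb, hms1⟩ := hT2 T g2
  -- the sum over the zeros away from the line
  have ha1 : (1 / 2 : ℝ) ≤ 1 / 2 + 5 / 4 / L := by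
    have : 0 < 5 / 4 / L := by positivity
    linarith
  have ha2 : 1 / 2 + 5 / 4 / L ≤ 3 / 4 := by
    have : 5 / 4 / L ≤ 1 / 4 := by
      rw [div_le_iff₀ hL0]
      linarith
    linarith
  have hV := V_num
  have hV1 : (1:ℝ) ≤ 1 + (1 - Real.exp (-(2 * (5 / 4 : ℝ)))) / (Real.exp (2 * 0.49999 * (5 / 4)) - 1) + 0.000005 := by
    have h1 : Real.exp (-(2 * (5 / 4 : ℝ))) ≤ 1 := Real.exp_le_one_iff.mpr (by norm_num)
    have h2 := exp_lower_125
    have h3 : 0 ≤ (1 - Real.exp (-(2 * (5 / 4 : ℝ)))) / (Real.exp (2 * 0.49999 * (5 / 4)) - 1) :=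
      div_nonneg (by linarith) (by linarith)
    linarith
  have hfar := hlit T g1 b N (1 / 2 + 5 / 4 / L) _ ⟨hb1, hb⟩ hN hNT ha1 ha2 hV1 (by
    refine le_trans (le_of_eq ?_) (hms1.trans_eq (mul_comm _ _))
    refine intervalIntegral.integral_congr fun t _ => ?_
    have e : (⟨1 / 2 + 5 / 4 / L, t⟩ : ℂ) = ((1 / 2 + 5 / 4 / Real.log T : ℝ) : ℂ) + I * t := by
      rw [← hLd]
      apply Complex.ext <;> simp
    rw [e]
    rfl)
  have hlogV : Real.log (1 + (1 - Real.exp (-(2 * (5 / 4 : ℝ)))) / (Real.exp (2 * 0.49999 * (5 / 4)) - 1) + 0.000005) ≤ 0.3138 :=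
    (Real.log_le_log (by linarith) hV).trans log_V_num
  have hT1' : (1:ℝ) ≤ T := by linarith
  -- the number of zeros to the right
  have hNR : (NR riemannZeta T (2 * T) : ℝ) ≤ 0.1636975 * (NN riemannZeta T (2 * T) : ℝ) := by
    have h1 : (2 : ℝ) * NR riemannZeta T (2 * T) + H370.Ns riemannZeta T (2 * T) ≤ NN riemannZeta T (2 * T) := by
      exact_mod_cast H370.NR_split good_zeta hT1'
    have h2 := (hT3 T g3).1
    linarith
  have hNN : (NN riemannZeta T (2 * T) : ℝ) ≤ T * L / (2 * Real.pi) + C * T := by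
    have h1 := hnn T g4 T (2 * T) le_rfl (by linarith) (by linarith) le_rfl
    have h2 := (abs_le.mp h1).2
    rw [hLd]
    linarith
  -- splitting
  have hsplit : DD T (2 * T) ≤ (NR riemannZeta T (2 * T) : ℝ) * (5 / 4 / L) +
      ∑ s ∈ Zf riemannZeta T (2 * T), (mult riemannZeta s : ℝ) * max (s.re - (1 / 2 + 5 / 4 / L)) 0 := by
    rw [H370.NR_eq good_zeta hT1']
    push_cast
    rw [Finset.sum_mul, ← Finset.sum_add_distrib]
    unfold DD
    refine Finset.sum_le_sum fun s _ => ?_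
    have hm0 : (0:ℝ) ≤ (mult riemannZeta s : ℝ) := Nat.cast_nonneg _
    have hx : 0 < 5 / 4 / L := by positivity
    split_ifs with hs
    · rw [← mul_add]
      apply mul_le_mul_of_nonneg_left _ hm0
      apply max_le
      · have := le_max_left (s.re - (1 / 2 + 5 / 4 / L)) 0
        linarith
      · have := le_max_right (s.re - (1 / 2 + 5 / 4 / L)) 0
        linarith
    · push Not at hs
      rw [max_eq_right (by linarith), mul_zero, zero_mul, zero_add]
      exact mul_nonneg hm0 (le_max_right _ _)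
  obtain ⟨S, hS⟩ : ∃ S : ℝ, S = ∑ s ∈ Zf riemannZeta T (2 * T),
    (mult riemannZeta s : ℝ) * max (s.re - (1 / 2 + 5 / 4 / L)) 0 := ⟨_, rfl⟩
  rw [← hS] at hsplit hfar
  have h1 : 2 * Real.pi * S ≤ T * (0.3138 / 2 + 0.000001) := by
    refine hfar.trans (mul_le_mul_of_nonneg_left ?_ hT0.le)
    linarith
  have h2 : (NR riemannZeta T (2 * T) : ℝ) * (5 / 4 / L) ≤ 0.1636975 * (T * L / (2 * Real.pi) + C * T) * (5 / 4 / L) := by
    apply mul_le_mul_of_nonneg_right _ (by positivity)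
    linarith
  have h3 : 2 * Real.pi * (0.1636975 * (T * L / (2 * Real.pi) + C * T) * (5 / 4 / L)) =
      0.1636975 * (5 / 4) * T * (1 + C * (2 * Real.pi) / L) := by
    field_simp
  have h4 : C * (2 * Real.pi) / L ≤ 0.000001 := by
    rw [div_le_iff₀ hL0]
    linarith
  have h5 : 2 * Real.pi * DD T (2 * T) ≤ T * 0.36153 := by
    have h6 : 2 * Real.pi * DD T (2 * T) ≤ 2 * Real.pi * (0.1636975 * (T * L / (2 * Real.pi) + C * T) * (5 / 4 / L)) +
        2 * Real.pi * S := by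
      have := mul_le_mul_of_nonneg_left (hsplit.trans (add_le_add_left h2 S)) (by positivity : 0 ≤ 2 * Real.pi)
      linarith
    rw [h3] at h6
    have h7 : 0.1636975 * (5 / 4) * T * (1 + C * (2 * Real.pi) / L) ≤ 0.1636975 * (5 / 4) * T * (1 + 0.000001) := by
      apply mul_le_mul_of_nonneg_left _ (by positivity)
      linarith
    have h8 : 0.1636975 * (5 / 4) * (1 + 0.000001) + (0.3138 / 2 + 0.000001) ≤ (0.36153 : ℝ) := by norm_num
    nlinarith
  rw [← mul_div_assoc, le_div_iff₀ (by positivity)]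
  linarith

end

end Pool.Agent.Zk4
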