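import Pool.Agent.Zk4.Ma
import Pool.Agent.Zk4.Mb

set_option autoImplicit false

/-!
Good lines (helper4), part 3: dyadic sums, the measure of the bad set, the mean of `log |ζ|`.
-/

namespace Pool.Agent.Zk4

open Filter Topology MeasureTheory Complex Set Metric
open H370 (mult zset GoodL good_zeta NN Zf NR)
open Pool.Agent.TH803.LG (Lag)

noncomputable section

lemma dyadic_sum {f : ℝ → ℝ} {κ T0 C : ℝ} (hκ : 0 ≤ κ) (hT0 : 0 < T0)
    (h1 : ∀ X, T0 ≤ X → X ≤ 2 * T0 → f X ≤ C) (h2 : ∀ X, 2 * T0 ≤ X → f X ≤ f (X / 2) + κ * (X / 2)) :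
    ∀ X, T0 ≤ X → f X ≤ C + κ * X := by
  have key : ∀ n : ℕ, ∀ X, T0 ≤ X → X ≤ 2 ^ (n + 1) * T0 → f X ≤ C + κ * X := by
    intro n
    induction n with
    | zero =>
      intro X hX hX2
      have := h1 X hX (by simpa using hX2)
      have h3 : 0 ≤ κ * X := mul_nonneg hκ (by linarith)
      linarith
    | succ n ih =>
      intro X hX hX2
      rcases le_or_gt X (2 * T0) with h | h
      · have := h1 X hX h
        have h3 : 0 ≤ κ * X := mul_nonneg hκ (by linarith)
        linarith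
      · have h4 := ih (X / 2) (by linarith) (by
          rw [pow_succ] at hX2
          linarith)
        have h5 := h2 X h.le
        linarith
  intro X hX
  obtain ⟨n, hn⟩ := pow_unbounded_of_one_lt (X / T0) (one_lt_two (α := ℝ))
  refine key n X hX ?_
  rw [div_lt_iff₀ hT0] at hn
  have : (2:ℝ) ^ n ≤ 2 ^ (n + 1) := pow_le_pow_right₀ (by norm_num) (by omega)
  nlinarith

lemma DD_nonneg (a b : ℝ) : 0 ≤ DD a b :=
  Finset.sum_nonneg fun s _ => mul_nonneg (Nat.cast_nonneg _) (le_max_right _ _)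

lemma DD_add {a b c : ℝ} (h : 1 ≤ a) (hab : a ≤ b) (hbc : b ≤ c) : DD a c = DD a b + DD b c := by
  classical
  unfold DD
  rw [← Finset.sum_union]
  · refine Finset.sum_congr ?_ fun _ _ => rfl
    ext s
    rw [Finset.mem_union, H370.mem_Zf good_zeta h, H370.mem_Zf good_zeta h, H370.mem_Zf good_zeta (h.trans hab)]
    constructor
    · rintro ⟨h1, h2, h3, h4, h5⟩
      by_cases h : s.im ≤ b
      · exact Or.inl ⟨h1, h2, h3, h, h5⟩
      · push Not at h
        exact Or.inr ⟨h1, h2, h, h4, h5⟩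
    · rintro (⟨h1, h2, h3, h4, h5⟩ | ⟨h1, h2, h3, h4, h5⟩)
      · exact ⟨h1, h2, h3, h4.trans hbc, h5⟩
      · exact ⟨h1, h2, hab.trans_lt h3, h4, h5⟩
  · rw [Finset.disjoint_left]
    intro s hs hs'
    rw [H370.mem_Zf good_zeta h] at hs
    rw [H370.mem_Zf good_zeta (h.trans hab)] at hs'
    exact absurd hs.2.2.2.1 (not_le.2 hs'.2.2.1)

theorem DD_total (hms : MSQ) : ∃ A C : ℝ, 80 ≤ A ∧ ∀ X, A ≤ X → DD A X ≤ C + 0.36153 / (2 * Real.pi) * X := by
  obtain ⟨T0, hT0, h⟩ := block hms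
  have hpi := Real.pi_pos
  refine ⟨T0, DD T0 (2 * T0), hT0, ?_⟩
  refine dyadic_sum (f := fun X => DD T0 X) (by positivity) (by linarith) (fun X h1 h2 => ?_) (fun X hX => ?_)
  · have h3 := DD_add (show 1 ≤ T0 by linarith) h1 h2
    have h4 := DD_nonneg X (2 * T0)
    linarith
  · have h3 := DD_add (show 1 ≤ T0 by linarith) (show T0 ≤ X / 2 by linarith) (show X / 2 ≤ X by linarith)
    have h4 := h (X / 2) (by linarith)
    have e : 2 * (X / 2) = X := by ring
    rw [e] at h4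
    rw [h3]
    linarith

/-- the heights where some Laguerre expression is not positive -/
def Bad : Set ℝ := {t : ℝ | ¬ ∀ n, 0 < Lag n t}

lemma bad_cover {A X : ℝ} (hA : 3 / 2 ≤ A) :
    Bad ∩ Icc A X ⊆ ⋃ s ∈ Zf riemannZeta (A - 1 / 2) (X + 1 / 2),
      Icc (s.im - max (s.re - 1 / 2) 0) (s.im + max (s.re - 1 / 2) 0) := by
  rintro t ⟨ht, htA, htX⟩
  have ht' : ¬ ∀ n, 0 < Lag n t := ht
  have h1 : ¬ ∀ s : ℂ, riemannZeta s = 0 → 1 / 2 ≤ s.re → s.re < 1 → s.re - 1 / 2 < |s.im - t| :=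
    fun h => ht' (fun n => good_of_zeros h n)
  push Not at h1
  obtain ⟨s, hs, hs1, hs2, hs3⟩ := h1
  obtain ⟨h2, h3⟩ := abs_le.mp hs3
  simp only [mem_iUnion]
  refine ⟨s, ?_, ?_⟩
  · rw [H370.mem_Zf good_zeta (by linarith)]
    exact ⟨by linarith, hs2, by linarith, by linarith, hs⟩
  · rw [max_eq_left (by linarith)]
    constructor <;> linarith

lemma mult_zeta_pos {A X : ℝ} (hA : 1 ≤ A) {s : ℂ} (hs : s ∈ Zf riemannZeta A X) : 1 ≤ mult riemannZeta s := by
  rw [H370.mem_Zf good_zeta hA] at hs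
  exact H370.Loc.mult_pos' good_zeta (by linarith [hs.2.2.1]) hs.2.2.2.2

lemma bad_measure {A X : ℝ} (hA : 3 / 2 ≤ A) : volume (Bad ∩ Icc A X) ≤ ENNReal.ofReal (2 * DD (A - 1 / 2) (X + 1 / 2)) := by
  refine (measure_mono (bad_cover hA)).trans ?_
  refine (measure_biUnion_finset_le _ _).trans ?_
  unfold DD
  rw [Finset.mul_sum, ENNReal.ofReal_sum_of_nonneg (fun s _ => by positivity)]
  refine Finset.sum_le_sum fun s hs => ?_
  rw [Real.volume_Icc]
  apply ENNReal.ofReal_le_ofReal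
  have h1 : (1:ℝ) ≤ mult riemannZeta s := by exact_mod_cast mult_zeta_pos (by linarith) hs
  have h2 := le_max_right (s.re - 1 / 2) 0
  nlinarith

theorem bad_total (hms : MSQ) : ∃ T0 : ℝ, ∀ T, T0 ≤ T → volume (Bad ∩ Icc 0 T) ≤ ENNReal.ofReal (0.1151 * T) := by
  obtain ⟨A, C, hA, h⟩ := DD_total hms
  have hpi := Real.pi_gt_d6
  refine ⟨max A (10 ^ 6 * (A + 1 + 2 * C + 1)), fun T hT => ?_⟩
  have g1 : A ≤ T := (le_max_left _ _).trans hT
  have g2 : 10 ^ 6 * (A + 1 + 2 * C + 1) ≤ T := (le_max_right _ _).trans hT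
  have hsub : Bad ∩ Icc 0 T ⊆ Icc 0 (A + 1) ∪ (Bad ∩ Icc (A + 1) T) := by
    rintro t ⟨h1, h2, h3⟩
    rcases le_or_gt t (A + 1) with h4 | h4
    · exact Or.inl ⟨h2, h4⟩
    · exact Or.inr ⟨h1, h4.le, h3⟩
  refine (measure_mono hsub).trans ((measure_union_le _ _).trans ?_)
  rw [Real.volume_Icc]
  have h5 : DD (A + 1 - 1 / 2) (T + 1 / 2) ≤ C + 0.36153 / (2 * Real.pi) * (T + 1 / 2) := by
    have h6 := DD_add (show 1 ≤ A by linarith) (show A ≤ A + 1 - 1 / 2 by linarith) (show A + 1 - 1 / 2 ≤ T + 1 / 2 by linarith)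
    have h7 := DD_nonneg A (A + 1 - 1 / 2)
    have h8 := h (T + 1 / 2) (by linarith)
    linarith
  have h9 := bad_measure (A := A + 1) (X := T) (by linarith)
  refine (add_le_add_right h9 _).trans ?_
  rw [← ENNReal.ofReal_add (by linarith) (by have := DD_nonneg (A + 1 - 1 / 2) (T + 1 / 2); linarith)]
  apply ENNReal.ofReal_le_ofReal
  have h10 : 0.36153 / (2 * Real.pi) ≤ 0.05754 := by
    rw [div_le_iff₀ (by positivity)]
    linarith
  have h11 : 0.36153 / (2 * Real.pi) * (T + 1 / 2) ≤ 0.05754 * (T + 1 / 2) :=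
    mul_le_mul_of_nonneg_right h10 (by linarith)
  have h12 : 2 * DD (A + 1 - 1 / 2) (T + 1 / 2) ≤ 2 * (C + 0.05754 * (T + 1 / 2)) := by linarith
  have h13 : A + 1 - 0 + 2 * (C + 0.05754 * (T + 1 / 2)) ≤ (A + 1 + 2 * C + 1) + 0.11508 * T := by linarith
  have h14 : (A + 1 + 2 * C + 1) ≤ T / 10 ^ 6 := by
    rw [le_div_iff₀ (by norm_num)]
    linarith
  have h15 : T / 10 ^ 6 + 0.11508 * T ≤ 0.1151 * T := by
    have : 0 ≤ T := by linarith
    linarith
  linarith

theorem good_total (hms : MSQ) : ∃ T0 : ℝ, ∀ T, T0 ≤ T →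
    ENNReal.ofReal (0.8849 * T) ≤ volume ({t : ℝ | ∀ n, 0 < Lag n t} ∩ Icc 0 T) := by
  obtain ⟨T0, h⟩ := bad_total hms
  refine ⟨max T0 0, fun T hT => ?_⟩
  have g1 : T0 ≤ T := (le_max_left _ _).trans hT
  have g2 : 0 ≤ T := (le_max_right _ _).trans hT
  have h1 : volume (Icc 0 T) ≤ volume ({t : ℝ | ∀ n, 0 < Lag n t} ∩ Icc 0 T) + volume (Bad ∩ Icc 0 T) := by
    refine le_trans (measure_mono ?_) (measure_union_le _ _)
    intro t ht
    by_cases h2 : ∀ n, 0 < Lag n t
    · exact Or.inl ⟨h2, ht⟩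
    · exact Or.inr ⟨h2, ht⟩
  rw [Real.volume_Icc, sub_zero] at h1
  have h2 := h1.trans (add_le_add_right (h T g1) _)
  have h3 : ENNReal.ofReal T = ENNReal.ofReal (0.8849 * T) + ENNReal.ofReal (0.1151 * T) := by
    rw [← ENNReal.ofReal_add (by positivity) (by positivity)]
    congr 1
    ring
  rw [h3] at h2
  exact (ENNReal.add_le_add_iff_right ENNReal.ofReal_ne_top).mp h2

/-- under the Riemann hypothesis the bad set is null -/
theorem null_of_rh (hRH : RiemannHypothesis) : volume Bad = 0 := by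
  have hsub : Bad ⊆ {t : ℝ | Pool.Agent.H24R2.JP.XX (I * t) = 0} := by
    intro t ht
    by_contra h0
    refine ht fun n => ?_
    have := Pool.Agent.TH803.LG.rh_pos hRH h0 n
    rw [Pool.Agent.TH803.LG.LC_eq_Lag] at this
    linarith
  refine measure_mono_null hsub ?_
  have hf : AnalyticOnNhd ℂ (fun z : ℂ => Pool.Agent.H24R2.JP.XX (I * z)) univ := fun z _ =>
    (Pool.Agent.H24R2.JP.B1h.XX_diff.comp (differentiable_id.const_mul I)).analyticAt z
  have hne : ¬ (∀ z : ℂ, Pool.Agent.H24R2.JP.XX (I * z) = 0) := by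
    intro h
    have h5 : I * -I = (1 : ℂ) := by rw [mul_neg, Complex.I_mul_I, neg_neg]
    have h6 := h (-I)
    rw [h5] at h6
    exact Pool.Agent.TH803.LG.XX_ne (z := 1) (by norm_num) h6
  have hcount : {z : ℂ | Pool.Agent.H24R2.JP.XX (I * z) = 0}.Countable := by
    have hcod : {z : ℂ | Pool.Agent.H24R2.JP.XX (I * z) = 0}ᶜ ∈ codiscreteWithin (univ : Set ℂ) := by
      rw [mem_codiscreteWithin]
      intro z _
      rw [disjoint_principal_right]
      rcases (hf z (mem_univ z)).eventually_eq_zero_or_eventually_ne_zero with h | h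
      · exfalso
        have h2 := hf.eqOn_zero_of_preconnected_of_eventuallyEq_zero isPreconnected_univ (mem_univ z) h
        exact hne fun w => h2 (mem_univ w)
      · refine Filter.mem_of_superset h fun w hw => ?_
        simp only [mem_compl_iff, mem_diff, mem_univ, true_and, not_not]
        exact hw
    have := (HereditarilyLindelofSpace.isLindelof _).countable_of_isDiscrete (isDiscrete_of_codiscreteWithin hcod)
    rwa [inter_univ] at this
  have h2 : {t : ℝ | Pool.Agent.H24R2.JP.XX (I * t) = 0}.Countable :=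
    hcount.preimage Complex.ofReal_injective
  exact h2.measure_zero _

end

end Pool.Agent.Zk4
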