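import Pool.Agent.Zk4.Mc

set_option autoImplicit false

/-!
Good lines (helper4), part 4: the mean value of `log |ζ(1/2 + it)|`.
-/

namespace Pool.Agent.Zk4

open Filter Topology MeasureTheory Complex Set Metric
open H370 (mult zset GoodL good_zeta NN Zf NR)

noncomputable section

lemma logz_int (a b : ℝ) : IntervalIntegrable (fun y : ℝ => Real.log ‖riemannZeta ⟨1 / 2, y⟩‖) volume a b := by
  refine MeromorphicOn.intervalIntegrable_log_norm fun y _ => ?_
  have h1 : AnalyticAt ℂ riemannZeta ⟨1 / 2, y⟩ := by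
    have hd : DifferentiableOn ℂ riemannZeta ({1}ᶜ : Set ℂ) := fun z hz =>
      (differentiableAt_riemannZeta hz).differentiableWithinAt
    refine hd.analyticAt (isOpen_compl_singleton.mem_nhds ?_)
    intro h
    have := congrArg Complex.re h
    norm_num at this
  have e : (fun y : ℝ => (⟨1 / 2, y⟩ : ℂ)) = fun y : ℝ => (1 / 2 : ℂ) + I * Complex.ofRealCLM y := by
    funext y
    apply Complex.ext <;> simp
  have h2 : AnalyticAt ℝ (fun y : ℝ => (⟨1 / 2, y⟩ : ℂ)) y := by
    rw [e]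
    exact analyticAt_const.add (analyticAt_const.mul (Complex.ofRealCLM.analyticAt y))
  have h3 : AnalyticAt ℝ (fun y : ℝ => riemannZeta ⟨1 / 2, y⟩) y :=
    AnalyticAt.comp (g := riemannZeta) (f := fun y : ℝ => (⟨1 / 2, y⟩ : ℂ)) h1.restrictScalars h2
  exact h3.meromorphicAt

lemma logz_upper : ∃ K : ℝ, 0 < K ∧ ∀ T y : ℝ, 3 ≤ T → 1 ≤ y → y ≤ 2 * T →
    Real.log ‖riemannZeta ⟨1 / 2, y⟩‖ ≤ K * Real.log T := by
  obtain ⟨C, A, hC, hA, h⟩ := good_zeta.growth
  refine ⟨|Real.log C| + 2 * A, by positivity, fun T y hT hy1 hy2 => ?_⟩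
  have hL1 : 1 ≤ Real.log T := H370.Loc.one_le_log hT
  have hLy : Real.log y ≤ 2 * Real.log T := by
    have : Real.log y ≤ Real.log (T ^ 2) := Real.log_le_log (by linarith) (by nlinarith)
    rw [Real.log_pow] at this
    exact_mod_cast this
  by_cases h0 : riemannZeta ⟨1 / 2, y⟩ = 0
  · rw [h0, norm_zero, Real.log_zero]
    positivity
  · have h1 := h ⟨1 / 2, y⟩ (by norm_num) (by norm_num) hy1
    have h2 := Real.log_le_log (norm_pos_iff.mpr h0) h1
    simp only at h2
    rw [Real.log_mul hC.ne' (by positivity), Real.log_rpow (by linarith)] at h2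
    have h3 := le_abs_self (Real.log C)
    have h4 := abs_nonneg (Real.log C)
    have h5 : A * Real.log y ≤ A * (2 * Real.log T) := mul_le_mul_of_nonneg_left hLy hA.le
    nlinarith

lemma piece {K T a b : ℝ} (hT : 3 ≤ T) (hK : 0 < K) (ha : 1 ≤ a) (hab : a ≤ b) (hb : b ≤ 2 * T) (hba : b - a ≤ 1)
    (h : ∀ T y : ℝ, 3 ≤ T → 1 ≤ y → y ≤ 2 * T → Real.log ‖riemannZeta ⟨1 / 2, y⟩‖ ≤ K * Real.log T) :
    ∫ y in a..b, Real.log ‖riemannZeta ⟨1 / 2, y⟩‖ ≤ K * Real.log T := by
  have hL1 : 1 ≤ Real.log T := H370.Loc.one_le_log hT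
  have h1 := intervalIntegral.integral_mono_on hab (logz_int a b)
    (_root_.intervalIntegrable_const (c := K * Real.log T)) (fun y hy => h T y hT (by linarith [hy.1]) (by linarith [hy.2]))
  rw [intervalIntegral.integral_const, smul_eq_mul] at h1
  have h2 : (b - a) * (K * Real.log T) ≤ 1 * (K * Real.log T) := mul_le_mul_of_nonneg_right hba (by positivity)
  linarith

/-- the integral of `log |ζ(1/2+iy)|` over a dyadic block -/
theorem mean_block : ∃ C T0 : ℝ, 0 < C ∧ 80 ≤ T0 ∧ ∀ T, T0 ≤ T →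
    ∫ y in T..(2 * T), Real.log ‖riemannZeta ⟨1 / 2, y⟩‖ ≤ 2 * Real.pi * DD T (2 * T) + C * Real.log T ^ 4 := by
  obtain ⟨C, T0, hC, hT0, h⟩ := litt_gen
  obtain ⟨K, hK, hup⟩ := logz_upper
  refine ⟨C + 2 * K, T0, by positivity, hT0, fun T hT => ?_⟩
  have hT80 : 80 ≤ T := hT0.trans hT
  have hL1 : 1 ≤ Real.log T := H370.Loc.one_le_log (by linarith)
  have hFF : FF (fun _ => 1) 1 = riemannZeta := by
    funext s
    unfold FF Mp
    simp
  obtain ⟨c, d, hc, hc1, hd, hd1, hI, Z, hZ, hE⟩ := h (fun _ => 1) 1 T (1 / 2) ⟨rfl, fun n => by simp⟩ le_rfl hT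
    (by push_cast; linarith) le_rfl (by norm_num)
  rw [hFF] at hI hZ hE
  have h1 := piece (K := K) (T := T) (a := T) (b := c) (by linarith) hK (by linarith) hc (by linarith) (by linarith) hup
  have h2 := piece (K := K) (T := T) (a := d) (b := 2 * T) (by linarith) hK (by linarith) hd1 (by linarith) (by linarith) hup
  have hs1 := intervalIntegral.integral_add_adjacent_intervals (logz_int T c) (logz_int c d)
  have hs2 := intervalIntegral.integral_add_adjacent_intervals (logz_int T d) (logz_int d (2 * T))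
  have h3 := (abs_le.mp hE).2
  have hT1' : (1:ℝ) ≤ T := by linarith
  have h4 : ∑ s ∈ Z, (mult riemannZeta s : ℝ) * (s.re - 1 / 2) ≤ DD T (2 * T) := by
    unfold DD
    have h5 : ∑ s ∈ Z, (mult riemannZeta s : ℝ) * (s.re - 1 / 2) =
        ∑ s ∈ Z, (mult riemannZeta s : ℝ) * max (s.re - 1 / 2) 0 := by
      refine Finset.sum_congr rfl fun s hs => ?_
      have := ((hZ s).mp hs).1
      rw [max_eq_left (by linarith)]
    rw [h5]
    refine Finset.sum_le_sum_of_subset_of_nonneg ?_ fun s _ _ => mul_nonneg (Nat.cast_nonneg _) (le_max_right _ _)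
    intro s hs
    obtain ⟨z1, z2, z3, z4, z5⟩ := (hZ s).mp hs
    rw [H370.mem_Zf good_zeta hT1']
    refine ⟨by linarith, ?_, by linarith, by linarith, z5⟩
    by_contra hcon
    exact riemannZeta_ne_zero_of_one_le_re (not_lt.1 hcon) z5
  have hL4 : Real.log T ≤ Real.log T ^ 4 := by
    calc Real.log T = Real.log T ^ 1 := (pow_one _).symm
      _ ≤ Real.log T ^ 4 := pow_le_pow_right₀ hL1 (by norm_num)
  have h6 : 2 * Real.pi * ∑ s ∈ Z, (mult riemannZeta s : ℝ) * (s.re - 1 / 2) ≤ 2 * Real.pi * DD T (2 * T) :=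
    mul_le_mul_of_nonneg_left h4 (by positivity)
  have h7 : K * Real.log T ≤ K * Real.log T ^ 4 := mul_le_mul_of_nonneg_left hL4 hK.le
  rw [← hs2, ← hs1]
  linarith

theorem mean_total (hms : MSQ) : ∃ T0 : ℝ, ∀ T, T0 ≤ T →
    ∫ y in (0:ℝ)..T, Real.log ‖riemannZeta ⟨1 / 2, y⟩‖ ≤ 0.3616 * T := by
  obtain ⟨C, T1, hC, hT1, h⟩ := mean_block
  obtain ⟨T2, hT2, hb⟩ := block hms
  have hpi := Real.pi_pos
  have hlit : ∀ᶠ T : ℝ in atTop, C * Real.log T ^ 4 ≤ 0.00001 * T := by
    have h1 := (Real.isLittleO_pow_log_id_atTop (n := 4)).def (show 0 < 0.00001 / C by positivity)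
    filter_upwards [h1, eventually_gt_atTop 0] with T hT hT0
    rw [Real.norm_eq_abs, Real.norm_eq_abs, id, abs_of_pos hT0] at hT
    have h2 := (le_abs_self (Real.log T ^ 4)).trans hT
    calc C * Real.log T ^ 4 ≤ C * (0.00001 / C * T) := mul_le_mul_of_nonneg_left h2 hC.le
      _ = 0.00001 * T := by field_simp
  obtain ⟨T3, hT3⟩ := hlit.exists_forall_of_atTop
  obtain ⟨A, hA⟩ : ∃ A : ℝ, A = max T1 (max T2 T3) := ⟨_, rfl⟩
  have hA1 : T1 ≤ A := by rw [hA]; exact le_max_left _ _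
  have hA2 : T2 ≤ A := by rw [hA]; exact (le_max_left _ _).trans (le_max_right _ _)
  have hA3 : T3 ≤ A := by rw [hA]; exact (le_max_right _ _).trans (le_max_right _ _)
  have hblock : ∀ T, A ≤ T → ∫ y in T..(2 * T), Real.log ‖riemannZeta ⟨1 / 2, y⟩‖ ≤ 0.36154 * T := by
    intro T hT
    have h1 := h T (by linarith)
    have h2 := hb T (by linarith)
    have h3 := hT3 T (by linarith)
    have h4 : 2 * Real.pi * DD T (2 * T) ≤ 2 * Real.pi * (T * (0.36153 / (2 * Real.pi))) :=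
      mul_le_mul_of_nonneg_left h2 (by positivity)
    have h5 : 2 * Real.pi * (T * (0.36153 / (2 * Real.pi))) = 0.36153 * T := by
      field_simp
    linarith
  obtain ⟨B, hB⟩ : ∃ B : ℝ, B = ∫ y in (0:ℝ)..(2 * A), |Real.log ‖riemannZeta ⟨1 / 2, y⟩‖| := ⟨_, rfl⟩
  have hA0 : 0 < A := by linarith
  have hsum := dyadic_sum (f := fun X => ∫ y in (0:ℝ)..X, Real.log ‖riemannZeta ⟨1 / 2, y⟩‖) (κ := 0.36154)
    (T0 := A) (C := B) (by norm_num) hA0 (fun X h1 h2 => by
      have h3 : ∫ y in (0:ℝ)..X, Real.log ‖riemannZeta ⟨1 / 2, y⟩‖ ≤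
          ∫ y in (0:ℝ)..X, |Real.log ‖riemannZeta ⟨1 / 2, y⟩‖| :=
        intervalIntegral.integral_mono_on (by linarith) (logz_int 0 X) (logz_int 0 X).abs (fun y _ => le_abs_self _)
      refine h3.trans ?_
      rw [hB]
      refine intervalIntegral.integral_mono_interval le_rfl (by linarith) h2 ?_ (logz_int 0 (2 * A)).abs
      exact Filter.Eventually.of_forall fun y => abs_nonneg _) (fun X hX => by
      have h1 := hblock (X / 2) (by linarith)
      have e : 2 * (X / 2) = X := by ring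
      rw [e] at h1
      have h2 := intervalIntegral.integral_add_adjacent_intervals (logz_int 0 (X / 2)) (logz_int (X / 2) X)
      linarith)
  refine ⟨max A (10 ^ 5 * B), fun T hT => ?_⟩
  have g1 : A ≤ T := (le_max_left _ _).trans hT
  have g2 : 10 ^ 5 * B ≤ T := (le_max_right _ _).trans hT
  have h1 := hsum T g1
  have h2 : B ≤ 0.00001 * T := by linarith
  have hT0 : 0 < T := by linarith
  linarith

end

end Pool.Agent.Zk4
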