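import Pool.Agent.Zk4.Md

set_option autoImplicit false

/-!
Good lines (helper4), part 5: the sum of all the distances to the critical line.
-/

namespace Pool.Agent.Zk4

open Filter Topology MeasureTheory Complex Set Metric
open H370 (mult zset GoodL good_zeta NN Zf NR)

noncomputable section

/-- the zeros of `ζ` in the critical strip with ordinate in `(0, T]` -/
def zerosUpTo (T : ℝ) : Set ℂ := {s : ℂ | riemannZeta s = 0 ∧ 0 < s.re ∧ s.re < 1 ∧ 0 < s.im ∧ s.im ≤ T}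

lemma zerosUpTo_eq (T : ℝ) : zerosUpTo T = zset riemannZeta 0 T := by
  ext s
  simp only [zerosUpTo, zset, Set.mem_ofPred_eq]
  tauto

lemma dist_DD {a b : ℝ} (h : 1 ≤ a) :
    ∑ s ∈ Zf riemannZeta a b, (mult riemannZeta s : ℝ) * |s.re - 1 / 2| = 2 * DD a b := by
  have h1 : ∑ s ∈ Zf riemannZeta a b, (mult riemannZeta s : ℝ) * max (1 / 2 - s.re) 0 = DD a b := by
    unfold DD
    rw [← H370.sum_refl good_zeta h (fun s => (mult riemannZeta s : ℝ) * max (s.re - 1 / 2) 0)]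
    refine Finset.sum_congr rfl fun s hs => ?_
    have hs' := (H370.mem_Zf good_zeta h).mp hs
    have e1 : (1 - (starRingEnd ℂ) s).re = 1 - s.re := by simp
    rw [e1, H370.mult_refl good_zeta hs'.1 hs'.2.1 (by linarith [hs'.2.2.1])]
    congr 2
    ring
  rw [two_mul]
  nth_rewrite 1 [← h1]
  unfold DD
  rw [← Finset.sum_add_distrib]
  refine Finset.sum_congr rfl fun s _ => ?_
  rw [← mul_add]
  congr 1
  rcases le_total (s.re - 1 / 2) 0 with h2 | h2
  · rw [abs_of_nonpos h2, max_eq_left (by linarith), max_eq_right h2]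
    ring
  · rw [abs_of_nonneg h2, max_eq_right (by linarith), max_eq_left h2]
    ring

theorem dist_total (hms : MSQ) : ∃ T0 : ℝ, ∀ T, T0 ≤ T →
    ∑ᶠ s ∈ zerosUpTo T, (mult riemannZeta s : ℝ) * |s.re - 1 / 2| ≤ 0.1151 * T := by
  obtain ⟨A, C, hA, h⟩ := DD_total hms
  have hpi := Real.pi_gt_d6
  obtain ⟨B, hB⟩ : ∃ B : ℝ, B = ∑ᶠ s ∈ zset riemannZeta 0 A, (mult riemannZeta s : ℝ) * |s.re - 1 / 2| := ⟨_, rfl⟩
  refine ⟨max A (10 ^ 6 * (B + 2 * C)), fun T hT => ?_⟩
  have g1 : A ≤ T := (le_max_left _ _).trans hT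
  have g2 : 10 ^ 6 * (B + 2 * C) ≤ T := (le_max_right _ _).trans hT
  have hset : zset riemannZeta 0 T = zset riemannZeta 0 A ∪ zset riemannZeta A T := by
    ext s
    simp only [zset, Set.mem_ofPred_eq, Set.mem_union]
    constructor
    · rintro ⟨a1, a2, a3, a4, a5⟩
      rcases le_or_gt s.im A with h1 | h1
      · exact Or.inl ⟨a1, a2, a3, h1, a5⟩
      · exact Or.inr ⟨a1, a2, h1, a4, a5⟩
    · rintro (⟨a1, a2, a3, a4, a5⟩ | ⟨a1, a2, a3, a4, a5⟩)
      · exact ⟨a1, a2, a3, a4.trans g1, a5⟩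
      · exact ⟨a1, a2, by linarith, a4, a5⟩
  have hdisj : Disjoint (zset riemannZeta 0 A) (zset riemannZeta A T) := by
    rw [Set.disjoint_left]
    rintro s ⟨a1, a2, a3, a4, a5⟩ ⟨b1, b2, b3, b4, b5⟩
    linarith
  have hA1 : (1:ℝ) ≤ A := by linarith
  rw [zerosUpTo_eq, hset, finsum_mem_union hdisj (H370.zeta_zeros_finite A) (H370.zset_finite good_zeta A T hA1),
    ← hB, H370.finsum_Zf good_zeta hA1, dist_DD hA1]
  have h10 : 0.36153 / (2 * Real.pi) ≤ 0.05754 := by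
    rw [div_le_iff₀ (by positivity)]
    linarith
  have h11 : 0.36153 / (2 * Real.pi) * T ≤ 0.05754 * T := mul_le_mul_of_nonneg_right h10 (by linarith)
  have h12 := h T g1
  have h14 : (B + 2 * C) ≤ T / 10 ^ 6 := by
    rw [le_div_iff₀ (by norm_num)]
    linarith
  have h15 : T / 10 ^ 6 + 0.11508 * T ≤ 0.1151 * T := by
    have : 0 ≤ T := by linarith
    linarith
  linarith

end

end Pool.Agent.Zk4
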