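import Pool.Agent.Zk4.Ma
import Pool.Agent.Y23.Ze
import Pool.Agent.H24R2.JP.Gam
import Pool.Agent.H24R2.JP.Der
import Pool.Agent.H24R2.JP.Had
import Pool.Agent.H24R2.JP.Grow

set_option autoImplicit false

/-!
Horizontal growth of `XX` from its zeros (helper4).
-/

namespace Pool.Agent.Zk4

open Complex Filter Topology Set Polynomial
open Pool.Agent.H24R2.JP (XX FF)
open scoped ComplexConjugate

noncomputable section

/-- product of the squared distances of `x` to the points `±δ + i y` -/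
def Dq (δ y x : ℝ) : ℝ := ((x - δ) ^ 2 + y ^ 2) * ((x + δ) ^ 2 + y ^ 2)

/-- `c` bounds the repulsion of the pair `±δ` at height `y` -/
def Okc (c δ y : ℝ) : Prop := 0 ≤ c ∧ ∀ x, 0 ≤ x → 2 * x * (δ ^ 2 - x ^ 2 - y ^ 2) ≤ c * Dq δ y x

lemma Dq_nonneg (δ y x : ℝ) : 0 ≤ Dq δ y x := by unfold Dq; positivity

lemma okc_zero {δ y : ℝ} (h : |δ| ≤ |y|) : Okc 0 δ y := by
  refine ⟨le_rfl, fun x hx => ?_⟩
  have h1 : δ ^ 2 ≤ y ^ 2 := sq_le_sq.2 h
  rw [zero_mul]
  apply mul_nonpos_of_nonneg_of_nonpos (by positivity)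
  nlinarith [sq_nonneg x]

lemma Dq_mono {c δ y : ℝ} (h : Okc c δ y) :
    MonotoneOn (fun x => Dq δ y x * Real.exp (2 * c * x)) (Ici 0) := by
  have hd : ∀ x, HasDerivAt (fun x => Dq δ y x * Real.exp (2 * c * x))
      ((-4 * x * (δ ^ 2 - x ^ 2 - y ^ 2)) * Real.exp (2 * c * x) +
        Dq δ y x * (Real.exp (2 * c * x) * (2 * c))) x := by
    intro x
    have h1 : HasDerivAt (fun x => Dq δ y x) (-4 * x * (δ ^ 2 - x ^ 2 - y ^ 2)) x := by
      unfold Dq
      have a1 : HasDerivAt (fun x : ℝ => (x - δ) ^ 2 + y ^ 2) (2 * (x - δ)) x := by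
        simpa using (((hasDerivAt_id x).sub_const δ).pow 2).add_const (y ^ 2)
      have a2 : HasDerivAt (fun x : ℝ => (x + δ) ^ 2 + y ^ 2) (2 * (x + δ)) x := by
        simpa using (((hasDerivAt_id x).add_const δ).pow 2).add_const (y ^ 2)
      exact (a1.mul a2).congr_deriv (by ring)
    have h2 : HasDerivAt (fun x : ℝ => Real.exp (2 * c * x)) (Real.exp (2 * c * x) * (2 * c)) x := by
      simpa using ((hasDerivAt_id x).const_mul (2 * c)).exp
    exact h1.mul h2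
  apply monotoneOn_of_deriv_nonneg (convex_Ici 0)
  · exact fun x _ => (hd x).continuousAt.continuousWithinAt
  · exact fun x _ => (hd x).differentiableAt.differentiableWithinAt
  · intro x hx
    rw [interior_Ici] at hx
    rw [(hd x).deriv]
    have h1 := h.2 x hx.le
    have he := Real.exp_pos (2 * c * x)
    have h2 : 0 ≤ Real.exp (2 * c * x) * (2 * (c * Dq δ y x - 2 * x * (δ ^ 2 - x ^ 2 - y ^ 2))) :=
      mul_nonneg he.le (by linarith)
    linarith

/-- the squared modulus of a conjugate pair of factors -/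
def Fa (a : ℂ) (t x : ℝ) : ℝ := (‖(I * t + x : ℂ) ^ 2 - a‖ * ‖(I * t + x : ℂ) ^ 2 - conj a‖) ^ 2

lemma Fa_nonneg (a : ℂ) (t x : ℝ) : 0 ≤ Fa a t x := sq_nonneg _

lemma Fa_eq {a w : ℂ} (h : w ^ 2 = a) (t x : ℝ) :
    Fa a t x = Dq w.re (t - w.im) x * Dq w.re (t + w.im) x := by
  subst h
  unfold Fa Dq
  rw [mul_pow, Complex.sq_norm, Complex.sq_norm, Complex.normSq_apply, Complex.normSq_apply]
  simp [pow_two]
  ring

lemma mono_mul_exp {f g : ℝ → ℝ} {a b : ℝ} (hf0 : ∀ x, 0 ≤ f x) (hg0 : ∀ x, 0 ≤ g x)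
    (hf : MonotoneOn (fun x => f x * Real.exp (2 * a * x)) (Ici 0))
    (hg : MonotoneOn (fun x => g x * Real.exp (2 * b * x)) (Ici 0)) :
    MonotoneOn (fun x => (f x * g x) * Real.exp (2 * (a + b) * x)) (Ici 0) := by
  have h := hf.mul hg (fun x _ => mul_nonneg (hf0 x) (Real.exp_pos _).le)
    (fun x _ => mul_nonneg (hg0 x) (Real.exp_pos _).le)
  refine h.congr fun x _ => ?_
  simp only [Pi.mul_apply]
  rw [show 2 * (a + b) * x = 2 * a * x + 2 * b * x by ring, Real.exp_add]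
  ring

lemma Fa_mono {a w : ℂ} {t c1 c2 : ℝ} (h : w ^ 2 = a) (h1 : Okc c1 w.re (t - w.im))
    (h2 : Okc c2 w.re (t + w.im)) :
    MonotoneOn (fun x => Fa a t x * Real.exp (2 * (c1 + c2) * x)) (Ici 0) := by
  have h3 := mono_mul_exp (Dq_nonneg _ _) (Dq_nonneg _ _) (Dq_mono h1) (Dq_mono h2)
  refine h3.congr fun x _ => ?_
  simp only
  rw [Fa_eq h]

lemma multi_mono (s : Multiset ℂ) (t : ℝ) (c : ℂ → ℝ)
    (hc : ∀ a ∈ s, MonotoneOn (fun x => Fa a t x * Real.exp (2 * c a * x)) (Ici 0)) :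
    MonotoneOn (fun x => (s.map (fun a => Fa a t x)).prod * Real.exp (2 * (s.map c).sum * x)) (Ici 0) := by
  induction s using Multiset.induction_on with
  | empty =>
    intro x _ y _ _
    simp
  | cons a s ih =>
    have h1 := ih fun b hb => hc b (Multiset.mem_cons_of_mem hb)
    have h2 := hc a (Multiset.mem_cons_self a s)
    have h3 := mono_mul_exp (Fa_nonneg a t) (fun x => Multiset.prod_nonneg (by
      intro v hv
      obtain ⟨b, _, rfl⟩ := Multiset.mem_map.1 hv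
      exact Fa_nonneg b t x)) h2 h1
    refine h3.congr fun x _ => ?_
    simp only [Multiset.map_cons, Multiset.prod_cons, Multiset.sum_cons]

lemma aeval_norm (P : ℝ[X]) (z : ℂ) :
    ‖aeval z P‖ = ‖(P.map (algebraMap ℝ ℂ)).leadingCoeff‖ *
      ((P.map (algebraMap ℝ ℂ)).roots.map (fun a => ‖z - a‖)).prod := by
  have h1 : aeval z P = (P.map (algebraMap ℝ ℂ)).eval z := by
    rw [eval_map_algebraMap]
  rw [h1]
  have hs : (P.map (algebraMap ℝ ℂ)).Splits := IsAlgClosed.splits _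
  conv_lhs => rw [hs.eq_prod_roots]
  rw [eval_mul, eval_C, norm_mul, eval_multiset_prod]
  congr 1
  rw [Multiset.map_map]
  have h2 : ∀ s : Multiset ℂ, ‖s.prod‖ = (s.map (fun a => ‖a‖)).prod := by
    intro s
    induction s using Multiset.induction_on with
    | empty => simp
    | cons a s ih => simp [ih]
  rw [h2, Multiset.map_map]
  congr 1
  refine Multiset.map_congr rfl fun a _ => ?_
  simp

lemma aeval_conj' (P : ℝ[X]) (z : ℂ) : ‖aeval (conj z) P‖ = ‖aeval z P‖ := by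
  have h : aeval (conj z) P = conj (aeval z P) := Polynomial.aeval_conj P z
  rw [h, Complex.norm_conj]

lemma poly_four (P : ℝ[X]) (t x : ℝ) :
    ‖aeval ((I * t + x : ℂ) ^ 2) P‖ ^ 4 = ‖(P.map (algebraMap ℝ ℂ)).leadingCoeff‖ ^ 4 *
      ((P.map (algebraMap ℝ ℂ)).roots.map (fun a => Fa a t x)).prod := by
  set z : ℂ := (I * t + x : ℂ) ^ 2 with hz
  have h1 := aeval_norm P z
  have h2 := aeval_norm P (conj z)
  rw [aeval_conj'] at h2
  have h3 : ((P.map (algebraMap ℝ ℂ)).roots.map (fun a => ‖conj z - a‖)) =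
      ((P.map (algebraMap ℝ ℂ)).roots.map (fun a => ‖z - conj a‖)) := by
    refine Multiset.map_congr rfl fun a _ => ?_
    rw [← Complex.norm_conj, map_sub, Complex.conj_conj]
  rw [h3] at h2
  have h5 : ((P.map (algebraMap ℝ ℂ)).roots.map (fun a => Fa a t x)).prod =
      (((P.map (algebraMap ℝ ℂ)).roots.map (fun a => ‖z - a‖)).prod *
        ((P.map (algebraMap ℝ ℂ)).roots.map (fun a => ‖z - conj a‖)).prod) ^ 2 := by
    rw [← Multiset.prod_map_mul, ← Multiset.prod_map_pow]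
    rfl
  rw [h5]
  have h4 : ‖aeval z P‖ ^ 4 = (‖aeval z P‖ * ‖aeval z P‖) ^ 2 := by ring
  rw [h4]
  conv_lhs => rw [sq, mul_mul_mul_comm]
  have h6 : ‖aeval z P‖ * ‖aeval z P‖ = ‖(P.map (algebraMap ℝ ℂ)).leadingCoeff‖ ^ 2 *
      (((P.map (algebraMap ℝ ℂ)).roots.map (fun a => ‖z - a‖)).prod *
        ((P.map (algebraMap ℝ ℂ)).roots.map (fun a => ‖z - conj a‖)).prod) := by
    calc ‖aeval z P‖ * ‖aeval z P‖ = (‖(P.map (algebraMap ℝ ℂ)).leadingCoeff‖ *
          ((P.map (algebraMap ℝ ℂ)).roots.map (fun a => ‖z - a‖)).prod) *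
          (‖(P.map (algebraMap ℝ ℂ)).leadingCoeff‖ *
          ((P.map (algebraMap ℝ ℂ)).roots.map (fun a => ‖z - conj a‖)).prod) := by rw [← h1, ← h2]
      _ = _ := by ring
  rw [h6]
  ring

lemma poly_mono (P : ℝ[X]) (t : ℝ) (c : ℂ → ℝ)
    (hc : ∀ a ∈ (P.map (algebraMap ℝ ℂ)).roots,
      MonotoneOn (fun x => Fa a t x * Real.exp (2 * c a * x)) (Ici 0)) :
    MonotoneOn (fun x : ℝ => ‖aeval ((I * t + x : ℂ) ^ 2) P‖ ^ 4 *
      Real.exp (2 * ((P.map (algebraMap ℝ ℂ)).roots.map c).sum * x)) (Ici 0) := by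
  have h := multi_mono _ t c hc
  intro x hx y hy hxy
  have h1 := h hx hy hxy
  simp only at h1 ⊢
  rw [poly_four, poly_four]
  have h2 := mul_le_mul_of_nonneg_left h1
    (show 0 ≤ ‖(P.map (algebraMap ℝ ℂ)).leadingCoeff‖ ^ 4 by positivity)
  linarith

/-- the polynomials approximating `FF` -/
lemma polys : ∃ P : ℕ → ℝ[X], (∀ (N : ℕ) (x : ℂ), aeval x (P N) = 0 → FF x = 0) ∧
    TendstoLocallyUniformly (fun (N : ℕ) (x : ℂ) => aeval x (P N)) FF atTop := by
  obtain ⟨K, hK⟩ := Pool.Agent.H24R2.JP.grow Pool.Agent.H24R2.JP.b1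
  have h1 := Pool.Agent.H24R2.JP.b1
  have h2 := (Pool.Agent.H24R2.JP.gamS Pool.Agent.H24R2.JP.mom).1 0
  refine Pool.Agent.H24R2.JP.had FF K h1.1 ?_ h1.2.2.1 hK
  have h3 := h1.2.2.2 0
  rw [iteratedDeriv_zero] at h3
  rw [h3]
  exact_mod_cast h2.ne'

lemma FF_diff : Differentiable ℂ FF := Pool.Agent.H24R2.JP.b1.1

lemma FF_sq' (z : ℂ) : FF (z ^ 2) = XX z := Pool.Agent.H24R2.JP.b1.2.1 z

/-- the multiplicities of the approximating polynomials -/
lemma mult_le {P : ℕ → ℝ[X]} (hP0 : ∀ (N : ℕ) (x : ℂ), aeval x (P N) = 0 → FF x = 0)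
    (hP : TendstoLocallyUniformly (fun (N : ℕ) (x : ℂ) => aeval x (P N)) FF atTop) {w : ℂ} (hw : w ≠ 0) :
    ∀ᶠ N in atTop, ((P N).map (algebraMap ℝ ℂ)).rootMultiplicity (w ^ 2) ≤ analyticOrderNatAt XX w := by
  by_contra hcon
  rw [Filter.not_eventually] at hcon
  have hfr : ∃ᶠ N in atTop, analyticOrderNatAt XX w + 1 ≤ ((P N).map (algebraMap ℝ ℂ)).rootMultiplicity (w ^ 2) :=
    hcon.mono fun N hN => by omega
  set m := analyticOrderNatAt XX w with hm
  have happ : Pool.Agent.H24R2.JP.App FF P :=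
    ⟨fun N x hx => Pool.Agent.H24R2.JP.zeros Pool.Agent.H24R2.JP.b1 x (hP0 N x hx), hP⟩
  -- the derivatives vanish
  have hder : ∀ j ≤ m, iteratedDeriv j FF (w ^ 2) = 0 := by
    intro j hj
    have h1 := (tendstoLocallyUniformlyOn_univ.2 (Pool.Agent.H24R2.JP.der FF P happ j).1).tendsto_at (mem_univ (w ^ 2))
    have h2 : ∃ᶠ N in atTop, aeval (w ^ 2) (derivative^[j] (P N)) = 0 := by
      refine hfr.mono fun N hN => ?_
      have hne : (P N).map (algebraMap ℝ ℂ) ≠ 0 := by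
        intro h0
        rw [h0] at hN
        simp at hN
      have h3 := Polynomial.isRoot_iterate_derivative_of_lt_rootMultiplicity (p := (P N).map (algebraMap ℝ ℂ))
        (t := w ^ 2) (n := j) (by omega)
      rw [Polynomial.IsRoot, Polynomial.iterate_derivative_map, eval_map_algebraMap] at h3
      exact h3
    by_contra hne
    have h4 : ∀ᶠ N in atTop, aeval (w ^ 2) (derivative^[j] (P N)) ≠ 0 := h1.eventually_ne hne
    obtain ⟨N, h5, h6⟩ := (h2.and_eventually h4).exists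
    exact h6 h5
  have hFFan : AnalyticAt ℂ FF (w ^ 2) := FF_diff.analyticAt _
  have h1 : ((m + 1 : ℕ) : ℕ∞) ≤ analyticOrderAt FF (w ^ 2) := by
    rw [natCast_le_analyticOrderAt_iff_iteratedDeriv_eq_zero hFFan]
    intro i hi
    exact hder i (by omega)
  have h2 : analyticOrderAt (FF ∘ fun z : ℂ => z ^ 2) w = analyticOrderAt FF (w ^ 2) := by
    apply analyticOrderAt_comp_of_deriv_ne_zero
    · fun_prop
    · simp [hw]
  have h3 : (FF ∘ fun z : ℂ => z ^ 2) = XX := by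
    funext z
    exact FF_sq' z
  rw [h3] at h2
  rw [← h2] at h1
  have h4 : analyticOrderAt XX w = (m : ℕ∞) := by
    rw [hm]
    exact (ENat.natCast_toNat (Pool.Agent.Y23.XX_ne_top w)).symm
  rw [h4] at h1
  have h5 : m + 1 ≤ m := by exact_mod_cast h1
  omega

end

end Pool.Agent.Zk4
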