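import Pool.Agent.Zk4.Na

set_option autoImplicit false

/-!
Horizontal growth of `XX` from its zeros, part 2 (helper4).
-/

namespace Pool.Agent.Zk4

open Complex Filter Topology Set Polynomial
open Pool.Agent.H24R2.JP (XX FF)
open scoped ComplexConjugate

noncomputable section

/-- the cost at height `t` of the four points `±w, ±conj w` -/
def KK (k : ℝ → ℝ → ℝ) (t : ℝ) (w : ℂ) : ℝ := k |w.re| |t - w.im| + k |w.re| |t + w.im|

lemma KK_neg (k : ℝ → ℝ → ℝ) (t : ℝ) (w : ℂ) : KK k t (-w) = KK k t w := by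
  unfold KK
  simp only [Complex.neg_re, Complex.neg_im, abs_neg, sub_neg_eq_add, ← sub_eq_add_neg]
  rw [add_comm]

lemma KK_conj (k : ℝ → ℝ → ℝ) (t : ℝ) (w : ℂ) : KK k t (conj w) = KK k t w := by
  unfold KK
  simp only [Complex.conj_re, Complex.conj_im, sub_neg_eq_add, ← sub_eq_add_neg]
  rw [add_comm]

/-- the cost of the root `a` -/
def cst (k : ℝ → ℝ → ℝ) (t : ℝ) (a : ℂ) : ℝ := KK k t (Classical.choose (Pool.Agent.TH803.LG.exists_sq a))

lemma cst_eq (k : ℝ → ℝ → ℝ) (t : ℝ) {a w : ℂ} (h : w ^ 2 = a) : cst k t a = KK k t w := by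
  have h1 := Classical.choose_spec (Pool.Agent.TH803.LG.exists_sq a)
  unfold cst
  rw [← h] at h1
  rw [← h]
  rcases sq_eq_sq_iff_eq_or_eq_neg.1 h1 with h2 | h2
  · rw [h2]
  · rw [h2, KK_neg]

/-- the zeros of `XX` in the open cone with vertex `I t` to the right -/
def Zc (t : ℝ) : Set ℂ := {w : ℂ | XX w = 0 ∧ |t - w.im| < w.re}

lemma Zc_re {t : ℝ} {w : ℂ} (h : w ∈ Zc t) : 0 < w.re := (abs_nonneg _).trans_lt h.2

lemma XX_re_lt {w : ℂ} (h : XX w = 0) : |w.re| < 1 / 2 := by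
  have h1 := (Pool.Agent.Y23.isZ_iff (w + 1 / 2)).2 (by rw [add_sub_cancel_right]; exact h)
  have h2 := h1.2.1
  have h3 := h1.2.2
  have e : (w + 1 / 2 : ℂ).re = w.re + 1 / 2 := by simp
  rw [e] at h2 h3
  rw [abs_lt]
  constructor <;> linarith

lemma Zc_finite (t : ℝ) : (Zc t).Finite := by
  have h1 := Pool.Agent.Y23.isZ_finite (|t| + 1)
  have h2 := h1.preimage (f := fun w : ℂ => w + 1 / 2) (fun a _ b _ h => by simpa using h)
  refine h2.subset ?_
  rintro w ⟨h3, h4⟩
  refine ⟨(Pool.Agent.Y23.isZ_iff _).2 (by simpa using h3), ?_⟩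
  have h5 := XX_re_lt h3
  have h6 : (w + 1 / 2 : ℂ).im = w.im := by simp
  show |(w + 1 / 2 : ℂ).im| ≤ |t| + 1
  rw [h6]
  have h7 := abs_lt.1 h5
  have h8 : |w.im| ≤ |t| + |t - w.im| := by
    have := abs_sub_abs_le_abs_sub w.im t
    rw [abs_sub_comm] at this
    linarith
  linarith

/-- the finite set of the zeros in the cone -/
def Zcf (t : ℝ) : Finset ℂ := (Zc_finite t).toFinset

lemma mem_Zcf {t : ℝ} {w : ℂ} : w ∈ Zcf t ↔ w ∈ Zc t := (Zc_finite t).mem_toFinset

/-- the total cost -/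
def CC (k : ℝ → ℝ → ℝ) (t : ℝ) : ℝ := ∑ w ∈ Zcf t, (analyticOrderNatAt XX w : ℝ) * k w.re |t - w.im|

lemma roots_sum {k : ℝ → ℝ → ℝ} (hk0 : ∀ δ y, 0 ≤ k δ y) (hk1 : ∀ δ y, δ ≤ y → k δ y = 0) {t : ℝ} (ht : 1 / 2 < t)
    {P : ℝ[X]} (hP0 : ∀ (x : ℂ), aeval x P = 0 → FF x = 0)
    (hm1 : ∀ w ∈ Zcf t, (P.map (algebraMap ℝ ℂ)).rootMultiplicity (w ^ 2) ≤ analyticOrderNatAt XX w)
    (hm2 : ∀ w ∈ Zcf t, (P.map (algebraMap ℝ ℂ)).rootMultiplicity ((conj w) ^ 2) ≤ analyticOrderNatAt XX w) :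
    ((P.map (algebraMap ℝ ℂ)).roots.map (cst k t)).sum ≤ 2 * CC k t := by
  classical
  have hKK0 : ∀ w, 0 ≤ KK k t w := fun w => add_nonneg (hk0 _ _) (hk0 _ _)
  have hc0 : ∀ a, 0 ≤ cst k t a := fun a => hKK0 _
  have hKK : ∀ w ∈ Zcf t, KK k t w = k w.re |t - w.im| := by
    intro w hw
    rw [mem_Zcf] at hw
    have h1 := Zc_re hw
    have h2 := abs_lt.1 hw.2
    have h3 := abs_lt.1 (XX_re_lt hw.1)
    unfold KK
    rw [abs_of_pos h1, hk1 w.re |t + w.im|, add_zero]
    rw [abs_of_pos (by linarith)]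
    linarith
  rw [Finset.sum_multiset_map_count]
  set R := (P.map (algebraMap ℝ ℂ)).roots with hR
  have hcount : ∀ a, R.count a = (P.map (algebraMap ℝ ℂ)).rootMultiplicity a := fun a => count_roots _
  set S1 := (Zcf t).image (fun w => w ^ 2) with hS1
  set S2 := (Zcf t).image (fun w => (conj w) ^ 2) with hS2
  have step1 : ∑ a ∈ R.toFinset, R.count a • cst k t a ≤ ∑ a ∈ S1 ∪ S2, R.count a • cst k t a := by
    have h1 : ∑ a ∈ R.toFinset, R.count a • cst k t a = ∑ a ∈ R.toFinset.filter (fun a => cst k t a ≠ 0), R.count a • cst k t a := by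
      rw [Finset.sum_filter]
      refine Finset.sum_congr rfl fun a _ => ?_
      split_ifs with h
      · rfl
      · push Not at h
        rw [h, smul_zero]
    rw [h1]
    apply Finset.sum_le_sum_of_subset_of_nonneg
    · intro a ha
      rw [Finset.mem_filter, Multiset.mem_toFinset] at ha
      obtain ⟨ha1, ha2⟩ := ha
      obtain ⟨w0, hw0⟩ := Pool.Agent.TH803.LG.exists_sq a
      -- choose the root with nonnegative real part
      obtain ⟨w, hw, hwre⟩ : ∃ w : ℂ, w ^ 2 = a ∧ 0 ≤ w.re := by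
        rcases le_total 0 w0.re with h | h
        · exact ⟨w0, hw0, h⟩
        · exact ⟨-w0, by rw [neg_sq]; exact hw0, by rw [Complex.neg_re]; linarith⟩
      have hz : XX w = 0 := by
        rw [← FF_sq', hw]
        apply hP0
        have h2 : (P.map (algebraMap ℝ ℂ)).IsRoot a := isRoot_of_mem_roots ha1
        rwa [IsRoot, eval_map_algebraMap] at h2
      rw [cst_eq k t hw] at ha2
      rw [Finset.mem_union]
      unfold KK at ha2
      rw [abs_of_nonneg hwre] at ha2
      by_cases h3 : |t - w.im| < w.re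
      · left
        rw [hS1, Finset.mem_image]
        exact ⟨w, mem_Zcf.2 ⟨hz, h3⟩, hw⟩
      · push Not at h3
        rw [hk1 _ _ h3, zero_add] at ha2
        have h4 : |t + w.im| < w.re := by
          by_contra h5
          exact ha2 (hk1 _ _ (not_lt.1 h5))
        right
        rw [hS2, Finset.mem_image]
        refine ⟨conj w, mem_Zcf.2 ⟨?_, ?_⟩, by rw [Complex.conj_conj]; exact hw⟩
        · rw [Pool.Agent.H24R2.JP.B1h.XX_conj, hz, map_zero]
        · rw [Complex.conj_im, Complex.conj_re, sub_neg_eq_add]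
          exact h4
    · intro a _ _
      exact nsmul_nonneg (hc0 a) _
  have step2 : ∑ a ∈ S1 ∪ S2, R.count a • cst k t a ≤
      ∑ a ∈ S1, R.count a • cst k t a + ∑ a ∈ S2, R.count a • cst k t a := by
    rw [← Finset.sum_union_inter]
    have : 0 ≤ ∑ a ∈ S1 ∩ S2, R.count a • cst k t a := Finset.sum_nonneg fun a _ => nsmul_nonneg (hc0 a) _
    linarith
  have step3 : ∑ a ∈ S1, R.count a • cst k t a ≤ CC k t := by
    rw [hS1, Finset.sum_image]
    · refine Finset.sum_le_sum fun w hw => ?_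
      rw [cst_eq k t rfl, hKK w hw, nsmul_eq_mul, hcount]
      apply mul_le_mul_of_nonneg_right _ (hk0 _ _)
      exact_mod_cast hm1 w hw
    · intro w hw w' hw' h
      have h1 := Zc_re (mem_Zcf.1 hw)
      have h2 := Zc_re (mem_Zcf.1 hw')
      rcases sq_eq_sq_iff_eq_or_eq_neg.1 h with h3 | h3
      · exact h3
      · rw [h3, Complex.neg_re] at h1
        linarith
  have step4 : ∑ a ∈ S2, R.count a • cst k t a ≤ CC k t := by
    rw [hS2, Finset.sum_image]
    · refine Finset.sum_le_sum fun w hw => ?_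
      rw [cst_eq k t rfl, KK_conj, hKK w hw, nsmul_eq_mul, hcount]
      apply mul_le_mul_of_nonneg_right _ (hk0 _ _)
      exact_mod_cast hm2 w hw
    · intro w hw w' hw' h
      have h1 := Zc_re (mem_Zcf.1 hw)
      have h2 := Zc_re (mem_Zcf.1 hw')
      rcases sq_eq_sq_iff_eq_or_eq_neg.1 h with h3 | h3
      · exact (starRingEnd ℂ).injective h3
      · have := congrArg Complex.re h3
        rw [Complex.neg_re, Complex.conj_re, Complex.conj_re] at this
        linarith
  linarith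

/-- the main growth estimate -/
theorem XX_growth {k : ℝ → ℝ → ℝ} (hk0 : ∀ δ y, 0 ≤ k δ y) (hk1 : ∀ δ y, δ ≤ y → k δ y = 0) {t : ℝ} (ht : 1 / 2 < t)
    (hok : ∀ w ∈ Zcf t, Okc (k w.re |t - w.im|) w.re (t - w.im)) {x1 x2 : ℝ} (h1 : 0 ≤ x1) (h12 : x1 ≤ x2) :
    ‖XX (I * t + x1)‖ * Real.exp (CC k t * x1) ≤ ‖XX (I * t + x2)‖ * Real.exp (CC k t * x2) := by
  obtain ⟨P, hP0, hP⟩ := polys
  -- the multiplicities
  have hw0 : ∀ w ∈ Zcf t, w ≠ 0 := by
    intro w hw h0
    have := Zc_re (mem_Zcf.1 hw)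
    rw [h0] at this
    simp at this
  have hev1 : ∀ᶠ N in atTop, ∀ w ∈ Zcf t,
      ((P N).map (algebraMap ℝ ℂ)).rootMultiplicity (w ^ 2) ≤ analyticOrderNatAt XX w := by
    rw [Filter.eventually_all_finset]
    exact fun w hw => mult_le hP0 hP (hw0 w hw)
  have hev2 : ∀ᶠ N in atTop, ∀ w ∈ Zcf t,
      ((P N).map (algebraMap ℝ ℂ)).rootMultiplicity ((conj w) ^ 2) ≤ analyticOrderNatAt XX w := by
    rw [Filter.eventually_all_finset]
    intro w hw
    have h3 := mult_le hP0 hP (w := conj w) (by simpa using hw0 w hw)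
    have h4 : analyticOrderNatAt XX (conj w) = analyticOrderNatAt XX w := by
      unfold analyticOrderNatAt
      rw [Pool.Agent.Y23.XX_order_conj]
    rwa [h4] at h3
  -- the polynomials grow
  have hpoly : ∀ᶠ N in atTop, ‖aeval ((I * t + x1 : ℂ) ^ 2) (P N)‖ ^ 4 * Real.exp (4 * CC k t * x1) ≤
      ‖aeval ((I * t + x2 : ℂ) ^ 2) (P N)‖ ^ 4 * Real.exp (4 * CC k t * x2) := by
    filter_upwards [hev1, hev2] with N h3 h4
    have h5 := roots_sum hk0 hk1 ht (hP0 N) h3 h4
    have h6 := poly_mono (P N) t (cst k t) (fun a ha => by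
      obtain ⟨w0, hw0⟩ := Pool.Agent.TH803.LG.exists_sq a
      obtain ⟨w, hw, hwre⟩ : ∃ w : ℂ, w ^ 2 = a ∧ 0 ≤ w.re := by
        rcases le_total 0 w0.re with h | h
        · exact ⟨w0, hw0, h⟩
        · exact ⟨-w0, by rw [neg_sq]; exact hw0, by rw [Complex.neg_re]; linarith⟩
      have hz : XX w = 0 := by
        rw [← FF_sq', hw]
        apply hP0 N
        have h2 : ((P N).map (algebraMap ℝ ℂ)).IsRoot a := isRoot_of_mem_roots ha
        rwa [IsRoot, eval_map_algebraMap] at h2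
      rw [cst_eq k t hw]
      unfold KK
      rw [abs_of_nonneg hwre]
      refine Fa_mono hw ?_ ?_
      · by_cases h : |t - w.im| < w.re
        · exact hok w (mem_Zcf.2 ⟨hz, h⟩)
        · rw [hk1 _ _ (not_lt.1 h)]
          apply okc_zero
          rw [abs_of_nonneg hwre]
          exact not_lt.1 h
      · by_cases h : |t + w.im| < w.re
        · have h7 : conj w ∈ Zcf t := mem_Zcf.2 ⟨by rw [Pool.Agent.H24R2.JP.B1h.XX_conj, hz, map_zero], by
            rw [Complex.conj_im, Complex.conj_re, sub_neg_eq_add]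
            exact h⟩
          have h8 := hok _ h7
          rwa [Complex.conj_im, Complex.conj_re, sub_neg_eq_add] at h8
        · rw [hk1 _ _ (not_lt.1 h)]
          apply okc_zero
          rw [abs_of_nonneg hwre]
          exact not_lt.1 h)
    have h7 := h6 (show x1 ∈ Ici (0:ℝ) from h1) (show x2 ∈ Ici (0:ℝ) from h1.trans h12) h12
    simp only at h7
    set S := (((P N).map (algebraMap ℝ ℂ)).roots.map (cst k t)).sum with hS
    have h8 : Real.exp (4 * CC k t * x1) = Real.exp (2 * S * x1) * Real.exp ((4 * CC k t - 2 * S) * x1) := by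
      rw [← Real.exp_add]; congr 1; ring
    have h9 : Real.exp (4 * CC k t * x2) = Real.exp (2 * S * x2) * Real.exp ((4 * CC k t - 2 * S) * x2) := by
      rw [← Real.exp_add]; congr 1; ring
    rw [h8, h9, ← mul_assoc, ← mul_assoc]
    apply mul_le_mul h7 _ (Real.exp_pos _).le (by positivity)
    apply Real.exp_le_exp.2
    exact mul_le_mul_of_nonneg_left h12 (by linarith)
  -- limits
  have hlim : ∀ x : ℝ, Tendsto (fun N => ‖aeval ((I * t + x : ℂ) ^ 2) (P N)‖ ^ 4 * Real.exp (4 * CC k t * x)) atTop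
      (𝓝 (‖XX (I * t + x)‖ ^ 4 * Real.exp (4 * CC k t * x))) := by
    intro x
    have h3 := (tendstoLocallyUniformlyOn_univ.2 hP).tendsto_at (mem_univ ((I * t + x : ℂ) ^ 2))
    rw [FF_sq'] at h3
    exact ((h3.norm).pow 4).mul_const _
  have hfin := le_of_tendsto_of_tendsto (hlim x1) (hlim x2) hpoly
  have h10 : ∀ x : ℝ, ‖XX (I * t + x)‖ ^ 4 * Real.exp (4 * CC k t * x) = (‖XX (I * t + x)‖ * Real.exp (CC k t * x)) ^ 4 := by
    intro x
    rw [mul_pow, ← Real.exp_nat_mul]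
    congr 2
    push_cast
    ring
  rw [h10, h10] at hfin
  exact le_of_pow_le_pow_left₀ (by norm_num) (by positivity) hfin

end

end Pool.Agent.Zk4
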