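import Pool.Agent.Zk4.Nc

set_option autoImplicit false

/-!
The factor between `ζ` to the left of the critical line and `XX` (helper4).
-/

namespace Pool.Agent.Zk4

open Complex Filter Topology Set
open Pool.Agent.H24R2.JP (XX)
open H370.DG (lG exp_lG hasDerivAt_lG logDeriv_Gamma)
open scoped ComplexConjugate

noncomputable section

/-- the square of the modulus of the cosine -/
lemma norm_cos_sq (a b : ℝ) : ‖Complex.cos (a + b * I)‖ ^ 2 = Real.cos a ^ 2 + Real.sinh b ^ 2 := by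
  rw [Complex.cos_add_mul_I, Complex.sq_norm, Complex.normSq_apply]
  rw [← Complex.ofReal_cos, ← Complex.ofReal_cosh, ← Complex.ofReal_sin, ← Complex.ofReal_sinh]
  simp only [Complex.sub_re, Complex.sub_im, Complex.mul_re, Complex.mul_im, Complex.ofReal_re, Complex.ofReal_im,
    Complex.I_re, Complex.I_im, mul_zero, zero_mul, mul_one, add_zero, sub_zero, zero_sub]
  have h1 := Real.cos_sq_add_sin_sq a
  have h2 := Real.cosh_sq b
  nlinarith [h1, h2]

/-- the logarithm of the factor -/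
def Lam (t x : ℝ) : ℝ := -(x / 2) * Real.log Real.pi + (lG (((3 / 4 + x / 2 : ℝ) : ℂ) + I * ((-t / 2 : ℝ) : ℂ))).re +
  Real.log (Real.cos (Real.pi * (1 / 2 + x) / 2) ^ 2 + Real.sinh (Real.pi * t / 2) ^ 2) / 2 -
  Real.log ((x + 1 / 2) ^ 2 + t ^ 2) / 2 - Real.log ((x - 1 / 2) ^ 2 + t ^ 2) / 2

lemma exp_half_log {a : ℝ} (ha : 0 < a) : Real.exp (Real.log (a ^ 2) / 2) = a := by
  rw [Real.log_pow]
  push_cast
  rw [mul_div_cancel_left₀ _ (by norm_num : (2:ℝ) ≠ 0), Real.exp_log ha]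

theorem norm_zeta_left {t x : ℝ} (ht : 0 < t) (hx : 0 ≤ x) :
    ‖riemannZeta (((1 / 2 - x : ℝ) : ℂ) + t * I)‖ =
      ‖XX (I * t + x)‖ * Real.exp (Lam t x) * (Real.exp (-(3 / 4) * Real.log Real.pi) / 4) := by
  obtain ⟨s, hs⟩ : ∃ s : ℂ, s = ((1 / 2 + x : ℝ) : ℂ) + I * ((-t : ℝ) : ℂ) := ⟨_, rfl⟩
  have hsre : s.re = 1 / 2 + x := by rw [hs]; simp
  have hsim : s.im = -t := by rw [hs]; simp
  have hs0 : s ≠ 0 := fun h => by rw [h] at hsim; simp at hsim; linarith
  have hs1 : s - 1 ≠ 0 := fun h => by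
    have h2 := congrArg Complex.im h
    rw [Complex.sub_im, hsim] at h2
    simp at h2
    linarith
  have hs1' : 1 - s ≠ 0 := fun h => hs1 (by rw [← neg_eq_zero, neg_sub]; exact h)
  have e1 : (((1 / 2 - x : ℝ) : ℂ) + t * I) = 1 - s := by
    rw [hs]
    push_cast
    ring
  have hsinh : 0 < Real.sinh (Real.pi * t / 2) := by
    rw [Real.sinh_pos_iff]
    have := Real.pi_pos
    positivity
  have hcos : ‖Complex.cos (Real.pi * s / 2)‖ ^ 2 =
      Real.cos (Real.pi * (1 / 2 + x) / 2) ^ 2 + Real.sinh (Real.pi * t / 2) ^ 2 := by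
    have e : (Real.pi * s / 2 : ℂ) = ((Real.pi * (1 / 2 + x) / 2 : ℝ) : ℂ) + ((-(Real.pi * t / 2) : ℝ) : ℂ) * I := by
      rw [hs]
      push_cast
      ring
    rw [e, norm_cos_sq, Real.sinh_neg, neg_sq]
  have hcpos : 0 < Real.cos (Real.pi * (1 / 2 + x) / 2) ^ 2 + Real.sinh (Real.pi * t / 2) ^ 2 := by positivity
  have hc0 : Complex.cos (Real.pi * s / 2) ≠ 0 := by
    intro h
    rw [h] at hcos
    simp only [norm_zero] at hcos
    norm_num at hcos
    linarith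
  -- the completed zeta function
  have h1 : riemannZeta (1 - s) = completedRiemannZeta (1 - s) / Gammaℝ (1 - s) := riemannZeta_def_of_ne_zero hs1'
  have h2 : completedRiemannZeta (1 - s) = completedRiemannZeta s := completedRiemannZeta_one_sub s
  have h3 : XX (s - 1 / 2) = 4 * s * (s - 1) * completedRiemannZeta s := by
    unfold Pool.Agent.H24R2.JP.XX
    rw [completedRiemannZeta_eq, show (1 / 2 + (s - 1 / 2) : ℂ) = s by ring]
    field_simp
    ring
  have h4 : (Gammaℝ (1 - s))⁻¹ = Gammaℝ (1 + s) * Complex.cos (Real.pi * s / 2) := by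
    have h5 := Complex.Gammaℝ_one_sub_mul_Gammaℝ_one_add s
    have h6 : Gammaℝ (1 - s) ≠ 0 := by
      intro h0
      rw [h0, zero_mul] at h5
      exact inv_ne_zero hc0 h5.symm
    have h7 : Gammaℝ (1 - s) * (Gammaℝ (1 + s) * Complex.cos (Real.pi * s / 2)) = 1 := by
      rw [← mul_assoc, h5, inv_mul_cancel₀ hc0]
    exact inv_eq_of_mul_eq_one_right h7
  have h5 : riemannZeta (1 - s) = XX (s - 1 / 2) / (4 * s * (s - 1)) * (Gammaℝ (1 + s) * Complex.cos (Real.pi * s / 2)) := by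
    rw [h1, h2, div_eq_mul_inv, h4, h3]
    field_simp
  rw [e1, h5]
  have n1 : ‖XX (s - 1 / 2)‖ = ‖XX (I * t + x)‖ := by
    have e : s - 1 / 2 = conj (I * t + x : ℂ) := by
      rw [hs]
      apply Complex.ext <;> simp
    rw [e, Pool.Agent.H24R2.JP.B1h.XX_conj, Complex.norm_conj]
  have n2 : ‖s‖ = Real.exp (Real.log ((x + 1 / 2) ^ 2 + t ^ 2) / 2) := by
    have e : (x + 1 / 2) ^ 2 + t ^ 2 = ‖s‖ ^ 2 := by
      rw [Complex.sq_norm, Complex.normSq_apply, hsre, hsim]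
      ring
    rw [e, exp_half_log (norm_pos_iff.2 hs0)]
  have n3 : ‖s - 1‖ = Real.exp (Real.log ((x - 1 / 2) ^ 2 + t ^ 2) / 2) := by
    have e : (x - 1 / 2) ^ 2 + t ^ 2 = ‖s - 1‖ ^ 2 := by
      rw [Complex.sq_norm, Complex.normSq_apply, Complex.sub_re, Complex.sub_im, hsre, hsim]
      simp
      ring
    rw [e, exp_half_log (norm_pos_iff.2 hs1)]
  have n4 : ‖Complex.cos (Real.pi * s / 2)‖ =
      Real.exp (Real.log (Real.cos (Real.pi * (1 / 2 + x) / 2) ^ 2 + Real.sinh (Real.pi * t / 2) ^ 2) / 2) := by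
    rw [← hcos, exp_half_log (norm_pos_iff.2 hc0)]
  have n5 : ‖Gammaℝ (1 + s)‖ = Real.exp (-(3 / 4) * Real.log Real.pi) * Real.exp (-(x / 2) * Real.log Real.pi) *
      Real.exp ((lG (((3 / 4 + x / 2 : ℝ) : ℂ) + I * ((-t / 2 : ℝ) : ℂ))).re) := by
    rw [Complex.Gammaℝ_def, norm_mul]
    have e2 : (1 + s) / 2 = ((3 / 4 + x / 2 : ℝ) : ℂ) + I * ((-t / 2 : ℝ) : ℂ) := by
      rw [hs]
      push_cast
      ring
    rw [e2, ← exp_lG (s := ((3 / 4 + x / 2 : ℝ) : ℂ) + I * ((-t / 2 : ℝ) : ℂ)) (by simp; linarith), Complex.norm_exp,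
      Complex.norm_cpow_eq_rpow_re_of_pos Real.pi_pos]
    have e3 : (-(1 + s) / 2).re = -(3 / 4) - x / 2 := by
      have : (-(1 + s) / 2).re = -(1 + s.re) / 2 := by
        rw [Complex.div_ofNat_re]
        simp
      rw [this, hsre]
      ring
    rw [e3, Real.rpow_def_of_pos Real.pi_pos]
    simp only [← Real.exp_add]
    congr 1
    ring
  rw [norm_mul, norm_mul, norm_div, norm_mul, norm_mul, n1, n2, n3, n4, n5]
  unfold Lam
  rw [Real.exp_sub, Real.exp_sub, Real.exp_add, Real.exp_add]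
  have e4 : ‖(4 : ℂ)‖ = 4 := by norm_num
  rw [e4]
  have p1 := Real.exp_pos (Real.log ((x + 1 / 2) ^ 2 + t ^ 2) / 2)
  have p2 := Real.exp_pos (Real.log ((x - 1 / 2) ^ 2 + t ^ 2) / 2)
  field_simp

/-- the derivative of the logarithm of the factor -/
def LamD (t x : ℝ) : ℝ := -(1 / 2) * Real.log Real.pi +
  (logDeriv Gamma (((3 / 4 + x / 2 : ℝ) : ℂ) + I * ((-t / 2 : ℝ) : ℂ))).re / 2 -
  (Real.pi / 2) * (Real.cos (Real.pi * (1 / 2 + x) / 2) * Real.sin (Real.pi * (1 / 2 + x) / 2)) /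
    (Real.cos (Real.pi * (1 / 2 + x) / 2) ^ 2 + Real.sinh (Real.pi * t / 2) ^ 2) -
  hh t (x + 1 / 2) - hh t (x - 1 / 2)

lemma hasDerivAt_Lam {t x : ℝ} (ht : 8 ≤ t) (hx : -1 < x) : HasDerivAt (Lam t) (LamD t x) x := by
  have hb : 16 ≤ t ^ 2 := by nlinarith
  have hsinh : 0 < Real.sinh (Real.pi * t / 2) := by
    rw [Real.sinh_pos_iff]
    have := Real.pi_pos
    positivity
  have hcpos : 0 < Real.cos (Real.pi * (1 / 2 + x) / 2) ^ 2 + Real.sinh (Real.pi * t / 2) ^ 2 := by positivity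
  have d1 : HasDerivAt (fun x : ℝ => -(x / 2) * Real.log Real.pi) (-(1 / 2) * Real.log Real.pi) x :=
    (((hasDerivAt_id x).div_const 2).neg).mul_const _
  have d2 : HasDerivAt (fun x : ℝ => (lG (((3 / 4 + x / 2 : ℝ) : ℂ) + I * ((-t / 2 : ℝ) : ℂ))).re)
      ((logDeriv Gamma (((3 / 4 + x / 2 : ℝ) : ℂ) + I * ((-t / 2 : ℝ) : ℂ))).re / 2) x := by
    have hre : 0 < (((3 / 4 + x / 2 : ℝ) : ℂ) + I * ((-t / 2 : ℝ) : ℂ)).re := by
      simp
      linarith
    have h1 := hasDerivAt_lG hre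
    rw [← logDeriv_Gamma hre] at h1
    have h2 : HasDerivAt (fun x : ℝ => ((3 / 4 + x / 2 : ℝ) : ℂ) + I * ((-t / 2 : ℝ) : ℂ)) (((1 / 2 : ℝ) : ℂ)) x := by
      have h3 : HasDerivAt (fun x : ℝ => (3 / 4 + x / 2 : ℝ)) (1 / 2) x := ((hasDerivAt_id x).div_const 2).const_add _
      exact (h3.ofReal_comp).add_const _
    have h4 := HasDerivAt.comp (h₂ := lG) x h1 h2
    have h5 := Complex.reCLM.hasFDerivAt.comp_hasDerivAt x h4
    refine h5.congr_deriv ?_
    simp only [Complex.reCLM_apply]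
    rw [Complex.re_mul_ofReal]
    ring
  have d3 : HasDerivAt (fun x : ℝ => Real.log (Real.cos (Real.pi * (1 / 2 + x) / 2) ^ 2 + Real.sinh (Real.pi * t / 2) ^ 2) / 2)
      (-((Real.pi / 2) * (Real.cos (Real.pi * (1 / 2 + x) / 2) * Real.sin (Real.pi * (1 / 2 + x) / 2)) /
    (Real.cos (Real.pi * (1 / 2 + x) / 2) ^ 2 + Real.sinh (Real.pi * t / 2) ^ 2))) x := by
    have h1 : HasDerivAt (fun x : ℝ => Real.pi * (1 / 2 + x) / 2) (Real.pi / 2) x := by
      have := (((hasDerivAt_id x).const_add (1 / 2)).const_mul Real.pi).div_const 2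
      simpa using this
    have h2 := (((h1.cos).pow 2).add_const (Real.sinh (Real.pi * t / 2) ^ 2)).log hcpos.ne'
    refine (h2.div_const 2).congr_deriv ?_
    simp only [Pi.pow_apply]
    field_simp
    simp only [Nat.cast_ofNat, Nat.add_one_sub_one, pow_one]
    ring
  have d4 : HasDerivAt (fun x : ℝ => Real.log ((x + 1 / 2) ^ 2 + t ^ 2) / 2) (hh t (x + 1 / 2)) x := by
    have := (hasDerivAt_ll hb (x + 1 / 2)).comp_add_const x (1 / 2)
    exact this
  have d5 : HasDerivAt (fun x : ℝ => Real.log ((x - 1 / 2) ^ 2 + t ^ 2) / 2) (hh t (x - 1 / 2)) x := by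
    have := (hasDerivAt_ll hb (x - 1 / 2)).comp_sub_const x (1 / 2)
    exact this
  have h := (((d1.add d2).add d3).sub d4).sub d5
  refine h.congr_deriv ?_
  unfold LamD
  ring

/-! ### numerical bounds -/

lemma log_pi_le : Real.log Real.pi ≤ 1.145 := by
  rw [Real.log_le_iff_le_exp Real.pi_pos]
  have h := Real.sum_le_exp_of_nonneg (x := (1.145 : ℝ)) (by norm_num) 10
  have h2 : (3.1416 : ℝ) ≤ ∑ i ∈ Finset.range 10, (1.145 : ℝ) ^ i / (Nat.factorial i : ℝ) := by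
    norm_num [Finset.sum_range_succ, Nat.factorial]
  have := Real.pi_lt_d4
  linarith

lemma exp_28_le : Real.exp 2.8 ≤ 16.5625 := by
  have h1 := Real.exp_one_lt_d9
  have h2 : Real.exp 2.8 ^ 5 = Real.exp 1 ^ 14 := by
    rw [← Real.exp_nat_mul, ← Real.exp_nat_mul]
    norm_num
  have h3 : Real.exp 1 ^ 14 ≤ 2.7182818286 ^ 14 := pow_le_pow_left₀ (Real.exp_pos 1).le h1.le 14
  have h4 : (2.7182818286 : ℝ) ^ 14 ≤ 16.5625 ^ 5 := by norm_num
  exact le_of_pow_le_pow_left₀ (by norm_num) (by norm_num) ((h2.trans_le h3).trans h4)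

lemma exp_3_le : Real.exp 3 ≤ 21.0625 := by
  have h1 := Real.exp_one_lt_d9
  have h2 : Real.exp 3 = Real.exp 1 ^ 3 := by
    rw [← Real.exp_nat_mul]
    norm_num
  have h3 : Real.exp 1 ^ 3 ≤ 2.7182818286 ^ 3 := pow_le_pow_left₀ (Real.exp_pos 1).le h1.le 3
  have h4 : (2.7182818286 : ℝ) ^ 3 ≤ 21.0625 := by norm_num
  linarith

/-- `sinh y ≥ (y + y²/2)/2` -/
lemma sinh_lower {y : ℝ} (hy : 0 ≤ y) : (y + y ^ 2 / 2) / 2 ≤ Real.sinh y := by
  rw [Real.sinh_eq]
  have h1 := Real.quadratic_le_exp_of_nonneg hy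
  have h2 : Real.exp (-y) ≤ 1 := Real.exp_le_one_iff.mpr (by linarith)
  linarith

lemma hh_le {t : ℝ} (ht : 0 < t) (x : ℝ) : hh t x ≤ 1 / (2 * t) := by
  unfold hh
  rw [div_le_div_iff₀ (by positivity) (by positivity)]
  nlinarith [sq_nonneg (x - t)]

/-- monotonicity of `hh` in the height -/
lemma hh_le_of {t x c : ℝ} (ht : 8 ≤ t) (hc : 0 ≤ c) (h : x ≤ c * (x ^ 2 + 64)) : hh t x ≤ c := by
  unfold hh
  have h1 : 0 < x ^ 2 + t ^ 2 := by positivity
  rw [div_le_iff₀ h1]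
  have h2 : x ^ 2 + 64 ≤ x ^ 2 + t ^ 2 := by nlinarith
  have := mul_le_mul_of_nonneg_left h2 hc
  linarith

/-- the trigonometric term -/
lemma trig_term {t : ℝ} (ht : 8 ≤ t) (x : ℝ) :
    (Real.pi / 2) * (Real.cos (Real.pi * (1 / 2 + x) / 2) * Real.sin (Real.pi * (1 / 2 + x) / 2)) /
    (Real.cos (Real.pi * (1 / 2 + x) / 2) ^ 2 + Real.sinh (Real.pi * t / 2) ^ 2) ≤ 0.0004 * (8 / t) := by
  have hpi := Real.pi_gt_d2
  have hpi2 := Real.pi_lt_d4
  obtain ⟨θ, hθ⟩ : ∃ θ : ℝ, θ = Real.pi * (1 / 2 + x) / 2 := ⟨_, rfl⟩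
  rw [← hθ]
  have h1 : Real.cos θ * Real.sin θ ≤ 1 / 2 := by
    have := Real.cos_sq_add_sin_sq θ
    nlinarith [sq_nonneg (Real.cos θ - Real.sin θ)]
  have h2 : 1.57 * t ≤ Real.pi * t / 2 := by nlinarith
  have h3 := sinh_lower (y := Real.pi * t / 2) (by positivity)
  have h4 : (1.57 * t + (1.57 * t) ^ 2 / 2) / 2 ≤ (Real.pi * t / 2 + (Real.pi * t / 2) ^ 2 / 2) / 2 := by
    have : (1.57 * t) ^ 2 ≤ (Real.pi * t / 2) ^ 2 := pow_le_pow_left₀ (by positivity) h2 2
    linarith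
  have h5 : 5.6 * t ≤ Real.sinh (Real.pi * t / 2) := by nlinarith
  have h6 : (5.6 * t) ^ 2 ≤ Real.sinh (Real.pi * t / 2) ^ 2 := pow_le_pow_left₀ (by positivity) h5 2
  rw [div_le_iff₀ (by positivity)]
  have h7 : 0.0004 * (8 / t) * (5.6 * t) ^ 2 ≤ 0.0004 * (8 / t) * (Real.cos θ ^ 2 + Real.sinh (Real.pi * t / 2) ^ 2) := by
    apply mul_le_mul_of_nonneg_left _ (by positivity)
    have := sq_nonneg (Real.cos θ)
    linarith
  have h8 : 0.0004 * (8 / t) * (5.6 * t) ^ 2 = 0.100352 * t := by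
    field_simp
    ring
  have h9 : Real.pi / 2 * (Real.cos θ * Real.sin θ) ≤ Real.pi / 2 * (1 / 2) :=
    mul_le_mul_of_nonneg_left h1 (by positivity)
  rw [h8] at h7
  nlinarith

/-- first form of the lower bound -/
lemma LamD_ge {t x : ℝ} (ht : 8 ≤ t) (hx : 0 ≤ x) :
    -(1 / 2) * Real.log Real.pi + (ll (-t / 2) (3 / 4 + x / 2) - hh (-t / 2) (3 / 4 + x / 2) / 2 -
      0.26 * gq (-t / 2) (3 / 4 + x / 2)) / 2 - 0.0004 * (8 / t) - hh t (x + 1 / 2) - hh t (x - 1 / 2) ≤ LamD t x := by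
  have h1 := digamma_lower (b := -t / 2) (x := 3 / 4 + x / 2) (by nlinarith) (by positivity)
  have h2 := trig_term ht x
  unfold LamD
  linarith

/-- lower bound for the derivative for large heights -/
lemma LamD_lower {t x : ℝ} (ht : 8 ≤ t) (hx : 0 ≤ x) :
    Real.log (t / (2 * Real.pi)) / 2 - 2 / t ≤ LamD t x := by
  refine le_trans ?_ (LamD_ge ht hx)
  have hpi := Real.pi_pos
  have ht0 : 0 < t := by linarith
  have h1 : Real.log (t / 2) ≤ ll (-t / 2) (3 / 4 + x / 2) := by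
    unfold ll
    have h2 : Real.log ((t / 2) ^ 2) ≤ Real.log ((3 / 4 + x / 2) ^ 2 + (-t / 2) ^ 2) := by
      apply Real.log_le_log (by positivity)
      nlinarith [sq_nonneg (3 / 4 + x / 2)]
    rw [Real.log_pow] at h2
    push_cast at h2
    linarith
  have h2 : hh (-t / 2) (3 / 4 + x / 2) ≤ 1 / t := by
    have h3 := hh_le (t := t / 2) (by positivity) (3 / 4 + x / 2)
    have e : hh (-t / 2) (3 / 4 + x / 2) = hh (t / 2) (3 / 4 + x / 2) := by
      unfold hh
      congr 2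
      ring
    rw [e]
    refine h3.trans (le_of_eq ?_)
    field_simp
  have h3 : gq (-t / 2) (3 / 4 + x / 2) ≤ 1 / t := by
    unfold gq
    apply one_div_le_one_div_of_le ht0
    nlinarith [sq_nonneg (3 / 4 + x / 2)]
  have h4 := hh_le ht0 (x + 1 / 2)
  have h5 := hh_le ht0 (x - 1 / 2)
  have h6 : Real.log (t / (2 * Real.pi)) = Real.log (t / 2) - Real.log Real.pi := by
    rw [← Real.log_div (by positivity) hpi.ne']
    congr 1
    field_simp
  rw [h6]
  have e1 : 0.0004 * (8 / t) = 0.0032 * (1 / t) := by ring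
  have e2 : 1 / (2 * t) = 0.5 * (1 / t) := by
    field_simp
    norm_num
  have e3 : 2 / t = 2 * (1 / t) := by ring
  rw [e2] at h4 h5
  rw [e1, e3]
  have h7 : 0 < 1 / t := by positivity
  linarith

/-- positivity of the derivative -/
lemma LamD_pos {t x : ℝ} (ht : 8 ≤ t) (hx : 0 ≤ x) : 0 < LamD t x := by
  refine lt_of_lt_of_le ?_ (LamD_ge ht hx)
  have hpi := Real.pi_pos
  have ht0 : 0 < t := by linarith
  have hlp := log_pi_le
  have hb : 16 ≤ (-t / 2) ^ 2 := by nlinarith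
  have e1 : 0.0004 * (8 / t) ≤ 0.0004 := by
    have : 8 / t ≤ 1 := by rw [div_le_one ht0]; exact ht
    linarith
  rcases le_or_gt x 3 with h3 | h3
  · -- small x
    have h1 : 1.4 ≤ ll (-t / 2) (3 / 4 + x / 2) := by
      unfold ll
      have h2 : (2.8 : ℝ) ≤ Real.log ((3 / 4 + x / 2) ^ 2 + (-t / 2) ^ 2) := by
        rw [Real.le_log_iff_exp_le (by positivity)]
        refine exp_28_le.trans ?_
        nlinarith [mul_nonneg hx hx]
      linarith
    have h2 : hh (-t / 2) (3 / 4 + x / 2) ≤ 0.10683 := by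
      unfold hh
      rw [div_le_iff₀ (by positivity)]
      nlinarith [mul_nonneg hx (sub_nonneg.2 h3), sq_nonneg (x - 3)]
    have h4 : gq (-t / 2) (3 / 4 + x / 2) ≤ 0.0625 := by
      unfold gq
      rw [div_le_iff₀ (by positivity)]
      nlinarith [sq_nonneg (3 / 4 + x / 2)]
    have h5 : hh t (x + 1 / 2) ≤ 0.0460 := by
      apply hh_le_of ht (by norm_num)
      nlinarith [mul_nonneg hx (sub_nonneg.2 h3), sq_nonneg (x - 3)]
    have h6 : hh t (x - 1 / 2) ≤ 0.0357 := by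
      apply hh_le_of ht (by norm_num)
      nlinarith [mul_nonneg hx (sub_nonneg.2 h3), sq_nonneg (x - 3)]
    nlinarith
  · have h1 : 1.5 ≤ ll (-t / 2) (3 / 4 + x / 2) := by
      unfold ll
      have h2 : (3 : ℝ) ≤ Real.log ((3 / 4 + x / 2) ^ 2 + (-t / 2) ^ 2) := by
        rw [Real.le_log_iff_exp_le (by positivity)]
        refine exp_3_le.trans ?_
        nlinarith
      linarith
    have h2 : hh (-t / 2) (3 / 4 + x / 2) ≤ 0.125 := by
      unfold hh
      rw [div_le_iff₀ (by positivity)]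
      nlinarith [sq_nonneg (3 / 4 + x / 2 - 4)]
    have h4 : gq (-t / 2) (3 / 4 + x / 2) ≤ 0.048 := by
      unfold gq
      rw [div_le_iff₀ (by positivity)]
      nlinarith [sq_nonneg (3 / 4 + x / 2)]
    have h5 : hh t (x + 1 / 2) ≤ 0.0625 := by
      apply hh_le_of ht (by norm_num)
      nlinarith [sq_nonneg (x + 1 / 2 - 8)]
    have h6 : hh t (x - 1 / 2) ≤ 0.0625 := by
      apply hh_le_of ht (by norm_num)
      nlinarith [sq_nonneg (x - 1 / 2 - 8)]
    nlinarith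

/-- growth of the factor -/
lemma Lam_growth {t κ : ℝ} (ht : 8 ≤ t) (hκ : ∀ x, 0 ≤ x → κ ≤ LamD t x) {x1 x2 : ℝ} (h1 : 0 ≤ x1) (h12 : x1 ≤ x2) :
    Lam t x1 + κ * (x2 - x1) ≤ Lam t x2 := by
  have hd : ∀ x, -1 < x → HasDerivAt (fun x => Lam t x - κ * x) (LamD t x - κ) x := by
    intro x hx
    have h2 : HasDerivAt (fun x : ℝ => κ * x) κ x := by simpa using (hasDerivAt_id x).const_mul κ
    exact (hasDerivAt_Lam ht hx).sub h2
  have hm : MonotoneOn (fun x => Lam t x - κ * x) (Ici 0) := by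
    apply monotoneOn_of_deriv_nonneg (convex_Ici 0)
    · exact fun x hx => (hd x (by have : (0:ℝ) ≤ x := hx; linarith)).continuousAt.continuousWithinAt
    · rw [interior_Ici]
      exact fun x hx => (hd x (by have : (0:ℝ) < x := hx; linarith)).differentiableAt.differentiableWithinAt
    · rw [interior_Ici]
      intro x hx
      have hx' : (0:ℝ) < x := hx
      rw [(hd x (by linarith)).deriv]
      linarith [hκ x hx'.le]
  have h := hm (show x1 ∈ Ici (0:ℝ) from h1) (show x2 ∈ Ici (0:ℝ) from h1.trans h12) h12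
  simp only at h
  linarith

/-- strict growth of the factor -/
lemma Lam_strict {t : ℝ} (ht : 8 ≤ t) : StrictMonoOn (Lam t) (Ici 0) := by
  apply strictMonoOn_of_deriv_pos (convex_Ici 0)
  · exact fun x hx => (hasDerivAt_Lam ht (by have : (0:ℝ) ≤ x := hx; linarith)).continuousAt.continuousWithinAt
  · rw [interior_Ici]
    intro x hx
    have hx' : (0:ℝ) < x := hx
    rw [(hasDerivAt_Lam ht (by linarith)).deriv]
    exact LamD_pos ht hx'.le

end

end Pool.Agent.Zk4
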