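import Pool.Agent.Zk4.Nd
import Pool.Agent.H24R2.JP.Newton

set_option autoImplicit false

/-!
There is no zero off the critical line with small ordinate (helper4).
-/

namespace Pool.Agent.Zk4

open Complex Filter Topology Set Polynomial
open Pool.Agent.H24R2.JP (XX FF gam)
open scoped ComplexConjugate

noncomputable section

lemma XX_half : XX (1 / 2) = 4 := by
  unfold Pool.Agent.H24R2.JP.XX
  norm_num

lemma XX_three_half : XX (3 / 2) = ((4 * Real.pi / 3 : ℝ) : ℂ) := by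
  unfold Pool.Agent.H24R2.JP.XX
  have e : (1 / 2 + 3 / 2 : ℂ) = 2 := by norm_num
  rw [e]
  have h1 : completedRiemannZeta 2 = completedRiemannZeta₀ 2 - 1 / 2 - 1 / (1 - 2) := completedRiemannZeta_eq 2
  have h2 : riemannZeta 2 = completedRiemannZeta 2 / Gammaℝ 2 := riemannZeta_def_of_ne_zero (by norm_num)
  have h3 : Gammaℝ 2 = (Real.pi : ℂ)⁻¹ := by
    rw [Complex.Gammaℝ_def]
    have e2 : (2 / 2 : ℂ) = 1 := by norm_num
    have e3 : (-2 / 2 : ℂ) = -1 := by norm_num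
    rw [e2, e3, Complex.Gamma_one, mul_one, Complex.cpow_neg_one]
  have hpi : (Real.pi : ℂ) ≠ 0 := by exact_mod_cast Real.pi_ne_zero
  have h4 : completedRiemannZeta 2 = Real.pi / 6 := by
    have h5 : completedRiemannZeta 2 = riemannZeta 2 * Gammaℝ 2 := by
      rw [h2, div_mul_cancel₀]
      rw [h3]
      exact inv_ne_zero hpi
    rw [h5, riemannZeta_two, h3]
    field_simp
  have h6 : completedRiemannZeta₀ 2 = Real.pi / 6 - 1 / 2 := by
    have h7 : completedRiemannZeta₀ 2 = completedRiemannZeta 2 + 1 / 2 + 1 / (1 - 2) := by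
      rw [h1]
      ring
    rw [h7, h4]
    ring
  rw [h6]
  push_cast
  ring

/-- the power series on the real axis -/
lemma hasSum_real (x : ℝ) : HasSum (fun k : ℕ => gam k / (k.factorial : ℝ) * (x ^ 2) ^ k) (XX x).re := by
  have h := Complex.hasSum_re (Pool.Agent.H24R2.JP.B1h.hasSum_XX (x : ℂ))
  have e : (fun k : ℕ => (((gam k : ℝ) : ℂ) / (k.factorial : ℂ) * ((x : ℂ) ^ 2) ^ k).re) =
      fun k : ℕ => gam k / (k.factorial : ℝ) * (x ^ 2) ^ k := by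
    funext k
    have : (((gam k : ℝ) : ℂ) / (k.factorial : ℂ) * ((x : ℂ) ^ 2) ^ k) =
        ((gam k / (k.factorial : ℝ) * (x ^ 2) ^ k : ℝ) : ℂ) := by push_cast; ring
    rw [this, Complex.ofReal_re]
  rwa [e] at h

lemma gam_pos (k : ℕ) : 0 < gam k := (Pool.Agent.H24R2.JP.gamS Pool.Agent.H24R2.JP.mom).1 k

lemma XX_ne_disc {w : ℂ} (hw : ‖w‖ ≤ 3 / 2) : XX w ≠ 0 := by
  intro h0
  have hc : ∀ k : ℕ, 0 < gam k / (k.factorial : ℝ) := fun k => div_pos (gam_pos k) (by positivity)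
  have h1 := (hasSum_nat_add_iff' 1).2 (hasSum_real (1 / 2))
  have h2 := (hasSum_nat_add_iff' 1).2 (hasSum_real (3 / 2))
  have h3 := (hasSum_nat_add_iff' 1).2 (Pool.Agent.H24R2.JP.B1h.hasSum_XX w)
  simp only [Finset.range_one, Finset.sum_singleton, Nat.factorial_zero, Nat.cast_one, div_one, pow_zero, mul_one] at h1 h2 h3
  have e1 : (XX ((1 / 2 : ℝ) : ℂ)).re = 4 := by
    have : (((1 / 2 : ℝ) : ℂ)) = 1 / 2 := by push_cast; ring
    rw [this, XX_half]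
    simp
  have e2 : (XX ((3 / 2 : ℝ) : ℂ)).re = 4 * Real.pi / 3 := by
    have : (((3 / 2 : ℝ) : ℂ)) = 3 / 2 := by push_cast; ring
    rw [this, XX_three_half, Complex.ofReal_re]
  rw [e1] at h1
  rw [e2] at h2
  rw [h0] at h3
  have h4 : 4 - gam 0 ≤ 1 / 9 * (4 * Real.pi / 3 - gam 0) := by
    refine hasSum_le (fun k => ?_) h1 (h2.mul_left (1 / 9))
    have h5 : ((1 / 2 : ℝ) ^ 2) ^ (k + 1) ≤ 1 / 9 * ((3 / 2 : ℝ) ^ 2) ^ (k + 1) := by
      rw [pow_succ ((1 / 2 : ℝ) ^ 2) k, pow_succ ((3 / 2 : ℝ) ^ 2) k]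
      have h6 : ((1 / 2 : ℝ) ^ 2) ^ k ≤ ((3 / 2 : ℝ) ^ 2) ^ k := pow_le_pow_left₀ (by positivity) (by norm_num) k
      nlinarith
    have := mul_le_mul_of_nonneg_left h5 (hc (k + 1)).le
    linarith
  have h7 : ‖(0 - ((gam 0 : ℝ) : ℂ))‖ ≤ 4 * Real.pi / 3 - gam 0 := by
    refine h3.norm_le_of_bounded h2 fun k => ?_
    rw [norm_mul, norm_div, Complex.norm_real, Real.norm_eq_abs, abs_of_pos (gam_pos _), norm_pow, norm_pow,
      Complex.norm_natCast]
    apply mul_le_mul_of_nonneg_left _ (hc (k + 1)).le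
    apply pow_le_pow_left₀ (by positivity)
    exact pow_le_pow_left₀ (norm_nonneg _) hw 2
  rw [zero_sub, norm_neg, Complex.norm_real, Real.norm_eq_abs, abs_of_pos (gam_pos 0)] at h7
  have := Real.pi_lt_d2
  linarith

lemma cone0 {w : ℂ} (hw : XX w = 0) : |w.re| ≤ |w.im| ∧ 2 ≤ w.im ^ 2 := by
  have h1 : 3 / 2 < ‖w‖ := by
    by_contra h
    exact XX_ne_disc (not_lt.1 h) hw
  have h2 := XX_re_lt hw
  have h3 : ‖w‖ ^ 2 = w.re ^ 2 + w.im ^ 2 := by
    rw [Complex.sq_norm, Complex.normSq_apply]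
    ring
  have h4 : w.re ^ 2 ≤ (1 / 2) ^ 2 := by
    rw [← sq_abs]
    exact pow_le_pow_left₀ (abs_nonneg _) h2.le 2
  have h5 : (3 / 2 : ℝ) ^ 2 ≤ ‖w‖ ^ 2 := pow_le_pow_left₀ (by norm_num) h1.le 2
  have h6 : 2 ≤ w.im ^ 2 := by nlinarith
  refine ⟨?_, h6⟩
  exact sq_le_sq.1 (by nlinarith)

/-- the zeros of `FF` are isolated -/
lemma FF_iso (a : ℂ) : ∃ ε > 0, ∀ z, ‖z - a‖ ≤ ε → FF z = 0 → z = a := by
  have h0 : FF 0 ≠ 0 := by
    have h3 := Pool.Agent.H24R2.JP.b1.2.2.2 0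
    rw [iteratedDeriv_zero] at h3
    rw [h3]
    exact_mod_cast (gam_pos 0).ne'
  have hev : ∀ᶠ z in 𝓝[≠] a, FF z ≠ 0 := by
    rcases (FF_diff.analyticAt a).eventually_eq_zero_or_eventually_ne_zero with h | h
    · exfalso
      have h2 := (AnalyticOnNhd.eqOn_zero_of_preconnected_of_eventuallyEq_zero (f := FF) (U := univ)
        (fun z _ => FF_diff.analyticAt z) isPreconnected_univ (mem_univ a) h)
      exact h0 (h2 (mem_univ 0))
    · exact h
  rw [eventually_nhdsWithin_iff, Metric.eventually_nhds_iff] at hev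
  obtain ⟨ε, hε, hball⟩ := hev
  refine ⟨ε / 2, by linarith, fun z hz hz0 => ?_⟩
  by_contra hne
  refine hball (y := z) ?_ hne hz0
  rw [dist_eq_norm]
  linarith

theorem ratio {w : ℂ} (hw : XX w = 0) (hre : w.re ≠ 0) :
    ‖XX ((1 / 2 : ℝ) : ℂ)‖ * Dq w.re w.im (3 / 2) ≤ ‖XX ((3 / 2 : ℝ) : ℂ)‖ * Dq w.re w.im (1 / 2) := by
  classical
  obtain ⟨P, hP0, hP⟩ := polys
  obtain ⟨hc1, hc2⟩ := cone0 hw
  have him : w.im ≠ 0 := fun h => by rw [h] at hc2; norm_num at hc2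
  have hFF : FF (w ^ 2) = 0 := by rw [FF_sq', hw]
  have h0 : FF 0 ≠ 0 := by
    have h3 := Pool.Agent.H24R2.JP.b1.2.2.2 0
    rw [iteratedDeriv_zero] at h3
    rw [h3]
    exact_mod_cast (gam_pos 0).ne'
  obtain ⟨ε, hε, hiso⟩ := FF_iso (w ^ 2)
  have hroot : ∀ᶠ N in atTop, aeval (w ^ 2) (P N) = 0 := by
    filter_upwards [Pool.Agent.H24R2.JP.NewtonAux.hurwitz (fun N x => aeval x (P N)) FF
      (fun N => (P N).differentiable_aeval) hP FF_diff 0 h0 (w ^ 2) hFF ε hε] with N hN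
    obtain ⟨z, hz1, hz2⟩ := hN
    have := hiso z hz1 (hP0 N z hz2)
    rwa [this] at hz2
  have hD : ∀ x : ℝ, Fa (w ^ 2) 0 x = Dq w.re w.im x ^ 2 := by
    intro x
    rw [Fa_eq rfl]
    unfold Dq
    ring
  have hD' : ∀ x : ℝ, Fa (conj (w ^ 2)) 0 x = Dq w.re w.im x ^ 2 := by
    intro x
    have h1 : (conj w) ^ 2 = conj (w ^ 2) := by rw [map_pow]
    rw [Fa_eq h1, Complex.conj_re, Complex.conj_im]
    unfold Dq
    ring
  have hpoly : ∀ᶠ N in atTop, ‖aeval ((I * ((0 : ℝ) : ℂ) + ((1 / 2 : ℝ) : ℂ)) ^ 2) (P N)‖ * Dq w.re w.im (3 / 2) ≤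
      ‖aeval ((I * ((0 : ℝ) : ℂ) + ((3 / 2 : ℝ) : ℂ)) ^ 2) (P N)‖ * Dq w.re w.im (1 / 2) := by
    filter_upwards [hroot] with N hN
    have hne : (P N).map (algebraMap ℝ ℂ) ≠ 0 := by
      intro h
      apply h0
      apply hP0 N
      rw [← eval_map_algebraMap, h, eval_zero]
    have hr1 : w ^ 2 ∈ ((P N).map (algebraMap ℝ ℂ)).roots := by
      rw [mem_roots hne, IsRoot, eval_map_algebraMap]
      exact hN
    have hr2 : conj (w ^ 2) ∈ ((P N).map (algebraMap ℝ ℂ)).roots := by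
      rw [mem_roots hne, IsRoot, eval_map_algebraMap]
      rw [Polynomial.aeval_conj, hN, map_zero]
    have hne2 : conj (w ^ 2) ≠ w ^ 2 := by
      intro h
      have h1 := congrArg Complex.im h
      rw [Complex.conj_im, sq, Complex.mul_im] at h1
      have : w.re * w.im = 0 := by linarith
      rcases mul_eq_zero.1 this with h2 | h2
      · exact hre h2
      · exact him h2
    obtain ⟨s1, hs1⟩ := Multiset.exists_cons_of_mem hr1
    rw [hs1] at hr2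
    have hr3 : conj (w ^ 2) ∈ s1 := by
      rcases Multiset.mem_cons.1 hr2 with h | h
      · exact absurd h hne2
      · exact h
    obtain ⟨s2, hs2⟩ := Multiset.exists_cons_of_mem hr3
    have hroots : ((P N).map (algebraMap ℝ ℂ)).roots = w ^ 2 ::ₘ conj (w ^ 2) ::ₘ s2 := by rw [hs1, hs2]
    have hmono := multi_mono s2 0 (fun _ => 0) (fun a ha => by
      have ha' : a ∈ ((P N).map (algebraMap ℝ ℂ)).roots := by
        rw [hroots]
        exact Multiset.mem_cons_of_mem (Multiset.mem_cons_of_mem ha)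
      obtain ⟨v, hv⟩ := Pool.Agent.TH803.LG.exists_sq a
      have hz : XX v = 0 := by
        rw [← FF_sq', hv]
        apply hP0 N
        have h2 : ((P N).map (algebraMap ℝ ℂ)).IsRoot a := isRoot_of_mem_roots ha'
        rwa [IsRoot, eval_map_algebraMap] at h2
      have h1 := (cone0 hz).1
      have := Fa_mono (t := 0) hv (c1 := 0) (c2 := 0) (okc_zero (by rw [zero_sub, abs_neg]; exact h1))
        (okc_zero (by rw [zero_add]; exact h1))
      simpa using this)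
    have h1 := hmono (show (1 / 2 : ℝ) ∈ Ici (0:ℝ) by simp) (show (3 / 2 : ℝ) ∈ Ici (0:ℝ) by
      simp only [mem_Ici]; norm_num) (by norm_num)
    simp only [Multiset.map_const', Multiset.sum_replicate, smul_zero, mul_zero, zero_mul, Real.exp_zero, mul_one] at h1
    have p1 := poly_four (P N) 0 (1 / 2)
    have p2 := poly_four (P N) 0 (3 / 2)
    rw [hroots, Multiset.map_cons, Multiset.map_cons, Multiset.prod_cons, Multiset.prod_cons, hD, hD'] at p1 p2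
    set A1 := ‖aeval ((I * ((0 : ℝ) : ℂ) + ((1 / 2 : ℝ) : ℂ)) ^ 2) (P N)‖ with hA1
    set A2 := ‖aeval ((I * ((0 : ℝ) : ℂ) + ((3 / 2 : ℝ) : ℂ)) ^ 2) (P N)‖ with hA2
    have q1 := Dq_nonneg w.re w.im (1 / 2)
    have q2 := Dq_nonneg w.re w.im (3 / 2)
    have h2 : (A1 * Dq w.re w.im (3 / 2)) ^ 4 ≤ (A2 * Dq w.re w.im (1 / 2)) ^ 4 := by
      rw [mul_pow, mul_pow, p1, p2]
      have := mul_le_mul_of_nonneg_left h1 (show 0 ≤ ‖((P N).map (algebraMap ℝ ℂ)).leadingCoeff‖ ^ 4 *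
        (Dq w.re w.im (1 / 2) ^ 4 * Dq w.re w.im (3 / 2) ^ 4) by positivity)
      linarith
    exact le_of_pow_le_pow_left₀ (by norm_num) (by positivity) h2
  have hlim : ∀ x : ℝ, Tendsto (fun N => ‖aeval ((I * ((0 : ℝ) : ℂ) + (x : ℂ)) ^ 2) (P N)‖) atTop (𝓝 (‖XX (x : ℂ)‖)) := by
    intro x
    have h3 := (tendstoLocallyUniformlyOn_univ.2 hP).tendsto_at (mem_univ ((I * ((0 : ℝ) : ℂ) + (x : ℂ)) ^ 2))
    rw [FF_sq'] at h3
    have e : I * ((0 : ℝ) : ℂ) + (x : ℂ) = x := by simp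
    rw [e] at h3
    rw [e]
    exact h3.norm
  exact le_of_tendsto_of_tendsto ((hlim (1 / 2)).mul_const _) ((hlim (3 / 2)).mul_const _) hpoly

/-- the zeros off the line have ordinates larger than 8 -/
theorem low_zero {w : ℂ} (hw : XX w = 0) (hre : w.re ≠ 0) : 8 < |w.im| := by
  by_contra hcon
  push Not at hcon
  have h := ratio hw hre
  have h2 := (cone0 hw).2
  have h3 := XX_re_lt hw
  have e1 : ‖XX ((1 / 2 : ℝ) : ℂ)‖ = 4 := by
    have : (((1 / 2 : ℝ) : ℂ)) = 1 / 2 := by push_cast; ring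
    rw [this, XX_half]
    simp
  have e2 : ‖XX ((3 / 2 : ℝ) : ℂ)‖ = 4 * Real.pi / 3 := by
    have : (((3 / 2 : ℝ) : ℂ)) = 3 / 2 := by push_cast; ring
    rw [this, XX_three_half, Complex.norm_real, Real.norm_eq_abs, abs_of_pos (by positivity)]
  rw [e1, e2] at h
  have h4 : w.re ^ 2 ≤ 1 / 4 := by
    rw [← sq_abs]
    have := pow_le_pow_left₀ (abs_nonneg _) h3.le 2
    linarith
  have h5 : w.im ^ 2 ≤ 64 := by
    rw [← sq_abs]
    have := pow_le_pow_left₀ (abs_nonneg _) hcon 2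
    linarith
  have h6 : 0 ≤ w.re ^ 2 := sq_nonneg _
  obtain ⟨A, hA⟩ : ∃ A : ℝ, A = w.re ^ 2 := ⟨_, rfl⟩
  obtain ⟨B, hB⟩ : ∃ B : ℝ, B = w.im ^ 2 := ⟨_, rfl⟩
  have d1 : Dq w.re w.im (3 / 2) = (9 / 4 + A + B) ^ 2 - 9 * A := by
    rw [hA, hB]
    unfold Dq
    ring
  have d2 : Dq w.re w.im (1 / 2) = (1 / 4 + A + B) ^ 2 - A := by
    rw [hA, hB]
    unfold Dq
    ring
  rw [d1, d2] at h
  rw [← hA] at h4 h6
  rw [← hB] at h2 h5
  have hpi := Real.pi_lt_d4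
  have h7 : 0 ≤ (1 / 4 + A + B) ^ 2 - A := by nlinarith
  have h8 : 4 * Real.pi / 3 * ((1 / 4 + A + B) ^ 2 - A) ≤ 4 * 3.1416 / 3 * ((1 / 4 + A + B) ^ 2 - A) := by
    apply mul_le_mul_of_nonneg_right _ h7
    linarith
  nlinarith

end

end Pool.Agent.Zk4
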