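import Pool.Agent.Zk4.Ne

set_option autoImplicit false

/-!
Horizontal monotonicity of `ζ` to the left of the critical line and the Riemann hypothesis (helper4).
-/

namespace Pool.Agent.Zk4

open Complex Filter Topology Set
open Pool.Agent.H24R2.JP (XX FF)
open scoped ComplexConjugate

noncomputable section

/-- the modulus of zeta is strictly decreasing to the left of the critical line at the height `t` -/
def Anti (t : ℝ) : Prop := StrictAntiOn (fun σ : ℝ => ‖riemannZeta (σ + t * I)‖) (Iic (1 / 2))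

theorem anti_of_growth {t C : ℝ} (ht : 8 ≤ t)
    (hg : ∀ x1 x2 : ℝ, 0 ≤ x1 → x1 ≤ x2 →
      ‖XX (I * t + x1)‖ * Real.exp (C * x1) ≤ ‖XX (I * t + x2)‖ * Real.exp (C * x2))
    (hne : ∀ x : ℝ, 0 < x → XX (I * t + x) ≠ 0)
    (hs : ∀ x1 x2 : ℝ, 0 ≤ x1 → x1 < x2 → Lam t x1 + C * (x2 - x1) < Lam t x2) : Anti t := by
  have ht0 : 0 < t := by linarith
  intro σ1 h1 σ2 h2 h12
  simp only [mem_Iic] at h1 h2
  obtain ⟨x1, hx1⟩ : ∃ x : ℝ, x = 1 / 2 - σ2 := ⟨_, rfl⟩
  obtain ⟨x2, hx2⟩ : ∃ x : ℝ, x = 1 / 2 - σ1 := ⟨_, rfl⟩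
  have p1 : 0 ≤ x1 := by linarith
  have p2 : x1 < x2 := by linarith
  have p3 : 0 < x2 := by linarith
  have e1 : σ2 = 1 / 2 - x1 := by linarith
  have e2 : σ1 = 1 / 2 - x2 := by linarith
  simp only
  rw [e1, e2, norm_zeta_left ht0 p1, norm_zeta_left ht0 p3.le]
  have hc : 0 < Real.exp (-(3 / 4) * Real.log Real.pi) / 4 := by positivity
  apply mul_lt_mul_of_pos_right _ hc
  have q1 := hg x1 x2 p1 p2.le
  have q2 := hs x1 x2 p1 p2
  have q3 : 0 < ‖XX (I * t + x2)‖ := norm_pos_iff.2 (hne x2 p3)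
  have q4 : ‖XX (I * t + x1)‖ ≤ ‖XX (I * t + x2)‖ * Real.exp (C * (x2 - x1)) := by
    have e : Real.exp (C * (x2 - x1)) = Real.exp (C * x2) / Real.exp (C * x1) := by
      rw [← Real.exp_sub]
      congr 1
      ring
    rw [e, ← mul_div_assoc, le_div_iff₀ (Real.exp_pos _)]
    exact q1
  calc ‖XX (I * t + x1)‖ * Real.exp (Lam t x1)
      ≤ ‖XX (I * t + x2)‖ * Real.exp (C * (x2 - x1)) * Real.exp (Lam t x1) :=
        mul_le_mul_of_nonneg_right q4 (Real.exp_pos _).le
    _ = ‖XX (I * t + x2)‖ * Real.exp (Lam t x1 + C * (x2 - x1)) := by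
        rw [mul_assoc, ← Real.exp_add]
        congr 2
        ring
    _ < ‖XX (I * t + x2)‖ * Real.exp (Lam t x2) := by
        apply mul_lt_mul_of_pos_left _ q3
        exact Real.exp_lt_exp.2 q2

/-- under the Riemann hypothesis all heights `t ≥ 8` are good -/
theorem anti_of_rh (hRH : RiemannHypothesis) {t : ℝ} (ht : 8 ≤ t) : Anti t := by
  have hz : ∀ w : ℂ, XX w = 0 → w.re = 0 := fun w hw => Pool.Agent.TH803.LG.re_zero hRH w hw
  have hemp : ∀ w, w ∉ Zcf t := by
    intro w hw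
    rw [mem_Zcf] at hw
    have h1 := Zc_re hw
    rw [hz w hw.1] at h1
    exact lt_irrefl _ h1
  have hCC : CC (fun _ _ => 0) t = 0 := by
    unfold CC
    exact Finset.sum_eq_zero fun w _ => mul_zero _
  refine anti_of_growth (C := 0) ht (fun x1 x2 h1 h12 => ?_) (fun x hx h0 => ?_) (fun x1 x2 h1 h12 => ?_)
  · have h := XX_growth (k := fun _ _ => 0) (fun _ _ => le_rfl) (fun _ _ _ => rfl) (t := t) (by linarith)
      (fun w hw => absurd hw (hemp w)) h1 h12
    rwa [hCC] at h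
  · have h1 := hz _ h0
    simp at h1
    linarith
  · rw [zero_mul, add_zero]
    exact Lam_strict ht h1 (h1.trans h12.le) h12

lemma cont_zeta {σ : ℝ} (hσ : σ < 1) : Continuous (fun t : ℝ => ‖riemannZeta (σ + t * I)‖) := by
  refine continuous_iff_continuousAt.2 fun t => ?_
  have h1 : ((σ : ℂ) + t * I) ≠ 1 := by
    intro h
    have := congrArg Complex.re h
    simp at this
    linarith
  have h2 : ContinuousAt riemannZeta ((σ : ℂ) + t * I) := (differentiableAt_riemannZeta h1).continuousAt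
  have h3 : ContinuousAt (fun t : ℝ => (σ : ℂ) + t * I) t := by fun_prop
  exact (ContinuousAt.comp (f := fun t : ℝ => (σ : ℂ) + t * I) (g := riemannZeta) h2 h3).norm

/-- if almost all heights are good the Riemann hypothesis holds -/
theorem rh_of_anti (h : MeasureTheory.volume {t : ℝ | 8 ≤ t ∧ ¬ Anti t} = 0) : RiemannHypothesis := by
  apply Pool.Agent.TH803.LG.RH_of
  intro s hs hs1 hz
  have hs2 : s.re < 1 := by
    by_contra hcon
    exact riemannZeta_ne_zero_of_one_le_re (not_lt.1 hcon) hz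
  have hX : XX (s - 1 / 2) = 0 := (Pool.Agent.Y23.isZ_iff s).1 ⟨hz, by linarith, hs2⟩
  have hre : (s - 1 / 2).re = s.re - 1 / 2 := by simp
  have h8 := low_zero hX (by rw [hre]; linarith)
  -- the zero with positive imaginary part
  obtain ⟨w, hw, hw1, hw2⟩ : ∃ w : ℂ, XX w = 0 ∧ 0 < w.re ∧ 8 < w.im := by
    rcases le_total 0 (s - 1 / 2).im with h1 | h1
    · refine ⟨s - 1 / 2, hX, by rw [hre]; linarith, ?_⟩
      rwa [abs_of_nonneg h1] at h8
    · refine ⟨conj (s - 1 / 2), ?_, ?_, ?_⟩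
      · rw [Pool.Agent.H24R2.JP.B1h.XX_conj, hX, map_zero]
      · rw [Complex.conj_re, hre]; linarith
      · rw [Complex.conj_im]
        rwa [abs_of_nonpos h1] at h8
  -- a point between without zero
  obtain ⟨x1, hx1, hx2, hx3⟩ : ∃ x : ℝ, 0 < x ∧ x < w.re ∧ XX (I * w.im + x) ≠ 0 := by
    by_contra hcon
    push Not at hcon
    have h1 := Pool.Agent.Y23.isZ_finite (|w.im|)
    have h2 : (Ioo (0 : ℝ) w.re).Finite := by
      refine (h1.preimage (f := fun x : ℝ => I * w.im + x + 1 / 2) (fun a _ b _ hab => ?_)).subset fun x hx => ?_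
      · have h3 := congrArg Complex.re hab
        simpa using h3
      · refine ⟨(Pool.Agent.Y23.isZ_iff _).2 ?_, ?_⟩
        · rw [add_sub_cancel_right]
          exact hcon x hx.1 hx.2
        · show |(I * w.im + x + 1 / 2 : ℂ).im| ≤ |w.im|
          have : (I * w.im + x + 1 / 2 : ℂ).im = w.im := by simp
          rw [this]
    exact (Ioo_infinite hw1) h2
  have hwre := XX_re_lt hw
  have hwre2 := abs_lt.1 hwre
  have hγ : 0 < w.im := by linarith
  set U : Set ℝ := {t : ℝ | 8 < t ∧ ‖riemannZeta (((1 / 2 - w.re : ℝ) : ℂ) + t * I)‖ <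
    ‖riemannZeta (((1 / 2 - x1 : ℝ) : ℂ) + t * I)‖} with hU
  have hUo : IsOpen U := (isOpen_lt continuous_const continuous_id).inter
    (isOpen_lt (cont_zeta (by linarith)) (cont_zeta (by linarith)))
  have hUne : w.im ∈ U := by
    refine ⟨hw2, ?_⟩
    rw [norm_zeta_left hγ hw1.le, norm_zeta_left hγ hx1.le]
    have e : I * (w.im : ℂ) + (w.re : ℂ) = w := by
      apply Complex.ext <;> simp
    rw [e, hw, norm_zero, zero_mul, zero_mul]
    have := norm_pos_iff.2 hx3
    positivity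
  have hsub : U ⊆ {t : ℝ | 8 ≤ t ∧ ¬ Anti t} := by
    rintro t ⟨h1, h2⟩
    refine ⟨h1.le, fun hA => ?_⟩
    have h3 := hA (show (1 / 2 - w.re) ∈ Iic (1 / 2 : ℝ) by simp only [mem_Iic]; linarith)
      (show (1 / 2 - x1) ∈ Iic (1 / 2 : ℝ) by simp only [mem_Iic]; linarith) (by linarith)
    simp only at h3
    exact absurd h2 (not_lt.2 h3.le)
  have h5 := hUo.measure_pos MeasureTheory.volume ⟨_, hUne⟩
  have h6 := MeasureTheory.measure_mono_null hsub h
  rw [h6] at h5
  exact lt_irrefl _ h5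

theorem rh_iff_anti : RiemannHypothesis ↔ MeasureTheory.volume {t : ℝ | 8 ≤ t ∧ ¬ Anti t} = 0 := by
  constructor
  · intro hRH
    have : {t : ℝ | 8 ≤ t ∧ ¬ Anti t} = ∅ := by
      ext t
      simp only [mem_ofPred_eq, mem_empty_iff_false, iff_false, not_and, not_not]
      exact fun ht => anti_of_rh hRH ht
    rw [this, MeasureTheory.measure_empty]
  · exact rh_of_anti

end

end Pool.Agent.Zk4
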