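import Pool.Agent.Zk4.Ng

set_option autoImplicit false

/-!
The step function bounding the repulsion of a pair of zeros, and the criterion for a good height (helper4).
-/

namespace Pool.Agent.Zk4

open Complex Filter Topology Set
open Pool.Agent.H24R2.JP (XX FF)

noncomputable section

/-- the real form of the bound for the repulsion, at the node -/
lemma poly_node {s g r x Y : ℝ} (hg : 0 ≤ g) (hx : 0 ≤ x)
    (h1 : 0 ≤ g * (3 * r ^ 2 - 2 * (1 - s ^ 2)) + 4 * r) (hr : 0 ≤ r)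
    (h2 : (g * (3 * r ^ 2 - 2 * (1 - s ^ 2)) + 4 * r) * r ^ 2 ≤ g * (1 + s ^ 2) ^ 2)
    (h3 : 2 * (1 - s ^ 2) + (2 + 2 * g * r) * r ^ 2 ≤ 2 * (g * (3 * r ^ 2 - 2 * (1 - s ^ 2)) + 4 * r) * r)
    (hY : s ^ 2 ≤ Y) : 2 * x * (1 - x ^ 2 - Y) ≤ g * (((x - 1) ^ 2 + Y) * ((x + 1) ^ 2 + Y)) := by
  obtain ⟨c, hc⟩ : ∃ c : ℝ, c = g * (3 * r ^ 2 - 2 * (1 - s ^ 2)) + 4 * r := ⟨_, rfl⟩
  rw [← hc] at h1 h2 h3
  obtain ⟨Z, hZ⟩ : ∃ Z : ℝ, Z = Y - s ^ 2 := ⟨_, rfl⟩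
  have hZ0 : 0 ≤ Z := by linarith
  have hY' : Y = s ^ 2 + Z := by linarith
  -- at the node
  have key : g * (((x - 1) ^ 2 + s ^ 2) * ((x + 1) ^ 2 + s ^ 2)) - 2 * x * (1 - x ^ 2 - s ^ 2) =
      (x - r) ^ 2 * (g * x ^ 2 + (2 + 2 * g * r) * x + c) +
      (2 * c * r - (2 + 2 * g * r) * r ^ 2 - 2 * (1 - s ^ 2)) * x + (g * (1 + s ^ 2) ^ 2 - c * r ^ 2) := by
    rw [hc]
    ring
  have k1 : 0 ≤ (x - r) ^ 2 * (g * x ^ 2 + (2 + 2 * g * r) * x + c) := by positivity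
  have k2 : 0 ≤ (2 * c * r - (2 + 2 * g * r) * r ^ 2 - 2 * (1 - s ^ 2)) * x :=
    mul_nonneg (by linarith) hx
  have k3 : 0 ≤ g * (((x - 1) ^ 2 + s ^ 2) * ((x + 1) ^ 2 + s ^ 2)) - 2 * x * (1 - x ^ 2 - s ^ 2) := by
    rw [key]
    linarith
  have k4 : 0 ≤ g * (Z * ((x - 1) ^ 2 + (x + 1) ^ 2 + 2 * s ^ 2 + Z)) := by positivity
  have k5 : 0 ≤ 2 * x * Z := by positivity
  rw [hY']
  nlinarith

/-- the nodes, as real numbers -/
def sR (j : ℕ) : ℝ := (sQ j : ℝ)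

/-- the levels, as real numbers -/
def gR (j : ℕ) : ℝ := (gQ j : ℝ)

lemma gR_nonneg (j : ℕ) : 0 ≤ gR j := by
  unfold gR gQ
  push_cast
  positivity

lemma sR_lt {j : ℕ} (hj : j < 250) : sR j < sR (j + 1) := by
  unfold sR
  exact_mod_cast chk1 j hj

lemma sR_zero : sR 0 = 0.2993 := by
  unfold sR
  rw [chk3.1]
  norm_num

lemma sR_last : sR 250 = 1 := by
  unfold sR
  rw [chk3.2]
  norm_num

lemma sR_sum : ∑ j ∈ Finset.range 250, gR j * (sR (j + 1) - sR j) ≤ 0.20648 := by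
  have h := chk4
  have h2 : ((∑ j ∈ Finset.range 250, gQ j * (sQ (j + 1) - sQ j) : ℚ) : ℝ) ≤ ((0.20648 : ℚ) : ℝ) := by
    exact_mod_cast h
  push_cast at h2
  unfold gR sR
  norm_num at h2 ⊢
  linarith

lemma sR_mono {i j : ℕ} (hij : i ≤ j) (hj : j ≤ 250) : sR i ≤ sR j := by
  induction j, hij using Nat.le_induction with
  | base => exact le_rfl
  | succ n hn ih => exact (ih (by omega)).trans (sR_lt (by omega)).le

lemma sR_nonneg {j : ℕ} (hj : j ≤ 250) : 0 ≤ sR j := by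
  have h := sR_mono (Nat.zero_le j) hj
  rw [sR_zero] at h
  linarith

lemma sR_le_one {j : ℕ} (hj : j ≤ 250) : sR j ≤ 1 := by
  have h := sR_mono hj le_rfl
  rwa [sR_last] at h

/-- the repulsion of a pair beyond the node `j` -/
lemma okc_node {j : ℕ} (hj : j < 250) {δ y : ℝ} (hδ : 0 < δ) (hy : sR j * δ ≤ |y|) : Okc (gR j / δ) δ y := by
  refine ⟨div_nonneg (gR_nonneg j) hδ.le, fun x hx => ?_⟩
  obtain ⟨h1, h2, h3⟩ := chk2 j hj
  have hr : (0 : ℝ) ≤ (rQ j : ℝ) := by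
    unfold rQ
    push_cast
    positivity
  have h1' : (0 : ℝ) ≤ gR j * (3 * (rQ j : ℝ) ^ 2 - 2 * (1 - sR j ^ 2)) + 4 * (rQ j : ℝ) := by
    unfold gR sR
    exact_mod_cast h1
  have h2' : (gR j * (3 * (rQ j : ℝ) ^ 2 - 2 * (1 - sR j ^ 2)) + 4 * (rQ j : ℝ)) * (rQ j : ℝ) ^ 2 ≤
      gR j * (1 + sR j ^ 2) ^ 2 := by
    unfold gR sR
    exact_mod_cast h2
  have h3' : 2 * (1 - sR j ^ 2) + (2 + 2 * gR j * (rQ j : ℝ)) * (rQ j : ℝ) ^ 2 ≤
      2 * (gR j * (3 * (rQ j : ℝ) ^ 2 - 2 * (1 - sR j ^ 2)) + 4 * (rQ j : ℝ)) * (rQ j : ℝ) := by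
    unfold gR sR
    exact_mod_cast h3
  have hY : sR j ^ 2 ≤ (y / δ) ^ 2 := by
    rw [← sq_abs (y / δ), abs_div, abs_of_pos hδ]
    apply pow_le_pow_left₀ (sR_nonneg hj.le)
    rw [le_div_iff₀ hδ]
    exact hy
  have h := poly_node (gR_nonneg j) (show 0 ≤ x / δ by positivity) h1' hr h2' h3' hY
  have e1 : 2 * x * (δ ^ 2 - x ^ 2 - y ^ 2) = δ ^ 3 * (2 * (x / δ) * (1 - (x / δ) ^ 2 - (y / δ) ^ 2)) := by
    field_simp
  have e2 : gR j / δ * Dq δ y x = δ ^ 3 * (gR j * (((x / δ - 1) ^ 2 + (y / δ) ^ 2) * ((x / δ + 1) ^ 2 + (y / δ) ^ 2))) := by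
    unfold Dq
    field_simp
  rw [e1, e2]
  exact mul_le_mul_of_nonneg_left h (by positivity)

/-- the step function -/
def kst (δ y : ℝ) : ℝ := ∑ j ∈ Finset.range 250, if sR j * δ ≤ y ∧ y < sR (j + 1) * δ then gR j / |δ| else 0

lemma kst_nonneg (δ y : ℝ) : 0 ≤ kst δ y := by
  refine Finset.sum_nonneg fun j _ => ?_
  split_ifs
  · exact div_nonneg (gR_nonneg j) (abs_nonneg _)
  · exact le_rfl

lemma kst_zero (δ y : ℝ) (h : δ ≤ y) : kst δ y = 0 := by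
  refine Finset.sum_eq_zero fun j hj => ?_
  have hj' := Finset.mem_range.1 hj
  rw [if_neg]
  rintro ⟨h1, h2⟩
  rcases le_or_gt δ 0 with h3 | h3
  · have := mul_le_mul_of_nonpos_right (sR_lt hj').le h3
    linarith
  · have := mul_le_mul_of_nonneg_right (sR_le_one (show j + 1 ≤ 250 by omega)) h3.le
    linarith

lemma okc_mono {c c' δ y : ℝ} (h : Okc c δ y) (hc : c ≤ c') : Okc c' δ y :=
  ⟨h.1.trans hc, fun x hx => (h.2 x hx).trans (mul_le_mul_of_nonneg_right hc (Dq_nonneg _ _ _))⟩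

/-- a node below -/
lemma exists_node {δ y : ℝ} (h0 : sR 0 * δ ≤ y) (h1 : y < sR 250 * δ) :
    ∃ j < 250, sR j * δ ≤ y ∧ y < sR (j + 1) * δ := by
  classical
  have hex : ∃ j : ℕ, y < sR j * δ := ⟨250, h1⟩
  have hj := Nat.find_spec hex
  have hmin := fun m => Nat.find_min (H := hex) (m := m)
  set n := Nat.find hex with hn
  have hn250 : n ≤ 250 := Nat.find_min' hex h1
  rcases Nat.eq_zero_or_pos n with h | h
  · rw [h] at hj
    exact absurd hj (not_lt.2 h0)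
  · refine ⟨n - 1, by omega, not_lt.1 (hmin (n - 1) (by omega)), ?_⟩
    rw [Nat.sub_add_cancel h]
    exact hj

lemma okc_kst {δ y : ℝ} (hδ : 0 < δ) (h0 : 0.2993 * δ ≤ |y|) (h1 : |y| < δ) : Okc (kst δ |y|) δ y := by
  obtain ⟨j, hj, h2, h3⟩ := exists_node (δ := δ) (y := |y|) (by rw [sR_zero]; exact h0) (by rw [sR_last, one_mul]; exact h1)
  refine okc_mono (okc_node hj hδ h2) ?_
  unfold kst
  have h4 := Finset.single_le_sum (f := fun j => if sR j * δ ≤ |y| ∧ |y| < sR (j + 1) * δ then gR j / |δ| else 0)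
    (s := Finset.range 250) (fun i _ => by
      split_ifs
      · exact div_nonneg (gR_nonneg i) (abs_nonneg _)
      · exact le_rfl) (Finset.mem_range.2 hj)
  rw [if_pos ⟨h2, h3⟩, abs_of_pos hδ] at h4
  rw [abs_of_pos hδ]
  exact h4

/-- the weight of the zero `w` at the height `t` -/
def Wt (K : ℝ) (w : ℂ) (t : ℝ) : ℝ :=
  (if |t - w.im| < 0.2993 * w.re then 1 else 0) + kst w.re |t - w.im| / K

lemma Wt_nonneg {K : ℝ} (hK : 0 < K) (w : ℂ) (t : ℝ) : 0 ≤ Wt K w t := by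
  unfold Wt
  have := kst_nonneg w.re |t - w.im|
  split_ifs <;> positivity

/-- the criterion for a good height -/
theorem good_height {t K : ℝ} (ht : 8 ≤ t) (hK : 0 < K) (hK2 : K ≤ Real.log (t / (2 * Real.pi)) / 2 - 2 / t)
    (h : ∑ w ∈ Zcf t, (analyticOrderNatAt XX w : ℝ) * Wt K w t < 1) : Anti t := by
  have hm : ∀ w ∈ Zcf t, (1 : ℝ) ≤ (analyticOrderNatAt XX w : ℝ) := by
    intro w hw
    have h1 := (Pool.Agent.Y23.isZ_iff (w + 1 / 2)).2 (by rw [add_sub_cancel_right]; exact (mem_Zcf.1 hw).1)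
    have h2 := Pool.Agent.Y23.mu_pos h1
    rw [Pool.Agent.Y23.mu_eq h1.2.1 h1.2.2, add_sub_cancel_right] at h2
    exact_mod_cast h2
  have hcore : ∀ w ∈ Zcf t, 0.2993 * w.re ≤ |t - w.im| := by
    intro w hw
    by_contra hcon
    push Not at hcon
    have h1 : (analyticOrderNatAt XX w : ℝ) * Wt K w t ≤ ∑ w ∈ Zcf t, (analyticOrderNatAt XX w : ℝ) * Wt K w t :=
      Finset.single_le_sum (f := fun w => (analyticOrderNatAt XX w : ℝ) * Wt K w t)
        (fun v _ => mul_nonneg (Nat.cast_nonneg _) (Wt_nonneg hK v t)) hw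
    have h2 : 1 ≤ Wt K w t := by
      unfold Wt
      rw [if_pos hcon]
      have := div_nonneg (kst_nonneg w.re |t - w.im|) hK.le
      linarith
    have h3 := hm w hw
    nlinarith
  have hCC : CC kst t < K := by
    have h1 : CC kst t / K ≤ ∑ w ∈ Zcf t, (analyticOrderNatAt XX w : ℝ) * Wt K w t := by
      unfold CC
      rw [Finset.sum_div]
      refine Finset.sum_le_sum fun w _ => ?_
      rw [mul_div_assoc]
      apply mul_le_mul_of_nonneg_left _ (Nat.cast_nonneg _)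
      unfold Wt
      split_ifs
      · linarith
      · linarith
    have h2 := h1.trans_lt h
    rwa [div_lt_one hK] at h2
  refine anti_of_growth (C := CC kst t) ht (fun x1 x2 h1 h12 => ?_) (fun x hx h0 => ?_) (fun x1 x2 h1 h12 => ?_)
  · refine XX_growth kst_nonneg (fun δ y hy => kst_zero δ y hy) (by linarith) (fun w hw => ?_) h1 h12
    have h2 := mem_Zcf.1 hw
    exact okc_kst (Zc_re h2) (hcore w hw) h2.2
  · have h1 : I * (t : ℂ) + x ∈ Zcf t := by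
      rw [mem_Zcf]
      refine ⟨h0, ?_⟩
      simpa using hx
    have h2 := hcore _ h1
    simp at h2
    linarith
  · have h2 := Lam_growth (κ := Real.log (t / (2 * Real.pi)) / 2 - 2 / t) ht (fun x hx => LamD_lower ht hx) h1 h12.le
    have h3 : CC kst t * (x2 - x1) < (Real.log (t / (2 * Real.pi)) / 2 - 2 / t) * (x2 - x1) :=
      mul_lt_mul_of_pos_right (by linarith) (by linarith)
    linarith

end

end Pool.Agent.Zk4
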