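import Pool.Agent.Zk4.Nh
import Pool.Agent.Zk4.Mc

set_option autoImplicit false

/-!
The measure of the bad heights (helper4).
-/

namespace Pool.Agent.Zk4

open Complex Filter Topology Set MeasureTheory
open Pool.Agent.H24R2.JP (XX FF)
open H370 (mult zset GoodL good_zeta NN Zf NR)

noncomputable section

lemma meas_ring (γ a b : ℝ) : MeasurableSet {t : ℝ | a ≤ |t - γ| ∧ |t - γ| < b} := by
  have h : Measurable (fun t : ℝ => |t - γ|) := by fun_prop
  exact (measurableSet_le measurable_const h).inter (measurableSet_lt h measurable_const)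

lemma Wt_meas (K : ℝ) (w : ℂ) : Measurable (fun t => Wt K w t) := by
  unfold Wt kst
  refine Measurable.add ?_ (Measurable.div_const ?_ K)
  · refine Measurable.ite ?_ measurable_const measurable_const
    exact measurableSet_lt (by fun_prop) measurable_const
  · refine Finset.measurable_sum _ fun j _ => ?_
    refine Measurable.ite ?_ measurable_const measurable_const
    exact meas_ring _ _ _

lemma vol_core (γ c : ℝ) : volume {t : ℝ | |t - γ| < c} ≤ ENNReal.ofReal (2 * c) := by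
  have : {t : ℝ | |t - γ| < c} = Ioo (γ - c) (γ + c) := by
    ext t
    simp only [mem_ofPred_eq, mem_Ioo, abs_lt]
    constructor
    · rintro ⟨h1, h2⟩; constructor <;> linarith
    · rintro ⟨h1, h2⟩; constructor <;> linarith
  rw [this, Real.volume_Ioo]
  apply ENNReal.ofReal_le_ofReal
  linarith

lemma vol_ring {γ a b : ℝ} (hab : a ≤ b) : volume {t : ℝ | a ≤ |t - γ| ∧ |t - γ| < b} ≤ ENNReal.ofReal (2 * (b - a)) := by
  have : {t : ℝ | a ≤ |t - γ| ∧ |t - γ| < b} ⊆ Icc (γ + a) (γ + b) ∪ Icc (γ - b) (γ - a) := by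
    rintro t ⟨h1, h2⟩
    obtain ⟨h3, h4⟩ := abs_lt.1 h2
    rcases le_abs.1 h1 with h5 | h5
    · left; constructor <;> linarith
    · right; constructor <;> linarith
  refine (measure_mono this).trans ((measure_union_le _ _).trans ?_)
  rw [Real.volume_Icc, Real.volume_Icc, ← ENNReal.ofReal_add (by linarith) (by linarith)]
  apply ENNReal.ofReal_le_ofReal
  linarith

lemma lint_W {K : ℝ} (hK : 0 < K) {w : ℂ} (hw : 0 < w.re) :
    ∫⁻ t, ENNReal.ofReal (Wt K w t) ≤ ENNReal.ofReal (0.5986 * w.re + 0.41296 / K) := by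
  set A0 : Set ℝ := {t : ℝ | |t - w.im| < 0.2993 * w.re} with hA0
  set A : ℕ → Set ℝ := fun j => {t : ℝ | sR j * w.re ≤ |t - w.im| ∧ |t - w.im| < sR (j + 1) * w.re} with hA
  have mA0 : MeasurableSet A0 := measurableSet_lt (by fun_prop) measurable_const
  have mA : ∀ j, MeasurableSet (A j) := fun j => meas_ring _ _ _
  have hpt : ∀ t, ENNReal.ofReal (Wt K w t) ≤ A0.indicator (fun _ => (1 : ENNReal)) t +
      ∑ j ∈ Finset.range 250, (A j).indicator (fun _ => ENNReal.ofReal (gR j / w.re / K)) t := by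
    intro t
    unfold Wt
    refine ENNReal.ofReal_add_le.trans (add_le_add (le_of_eq ?_) (le_of_eq ?_))
    · by_cases h : |t - w.im| < 0.2993 * w.re
      · rw [if_pos h, Set.indicator_of_mem (show t ∈ A0 from h), ENNReal.ofReal_one]
      · rw [if_neg h, Set.indicator_of_notMem (show t ∉ A0 from h), ENNReal.ofReal_zero]
    · unfold kst
      rw [Finset.sum_div, ENNReal.ofReal_sum_of_nonneg]
      · refine Finset.sum_congr rfl fun j _ => ?_
        by_cases h : sR j * w.re ≤ |t - w.im| ∧ |t - w.im| < sR (j + 1) * w.re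
        · rw [if_pos h, Set.indicator_of_mem (show t ∈ A j from h), abs_of_pos hw]
        · rw [if_neg h, Set.indicator_of_notMem (show t ∉ A j from h), zero_div, ENNReal.ofReal_zero]
      · intro j _
        have := gR_nonneg j
        split_ifs <;> positivity
  refine (lintegral_mono hpt).trans ?_
  rw [lintegral_add_left (measurable_const.indicator mA0), lintegral_finsetSum _ (fun j _ => measurable_const.indicator (mA j))]
  have h1 : ∫⁻ t, A0.indicator (fun _ => (1 : ENNReal)) t ≤ ENNReal.ofReal (0.5986 * w.re) := by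
    rw [lintegral_indicator_const mA0, one_mul]
    refine (vol_core w.im (0.2993 * w.re)).trans (le_of_eq ?_)
    congr 1
    ring
  have h2 : ∀ j ∈ Finset.range 250, ∫⁻ t, (A j).indicator (fun _ => ENNReal.ofReal (gR j / w.re / K)) t ≤
      ENNReal.ofReal (2 / K * (gR j * (sR (j + 1) - sR j))) := by
    intro j hj
    have hj' := Finset.mem_range.1 hj
    rw [lintegral_indicator_const (mA j)]
    have h3 := vol_ring (γ := w.im) (mul_le_mul_of_nonneg_right (sR_lt hj').le hw.le)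
    refine (mul_le_mul_right h3 _).trans ?_
    rw [← ENNReal.ofReal_mul (by have := gR_nonneg j; positivity)]
    apply ENNReal.ofReal_le_ofReal
    apply le_of_eq
    field_simp
  refine (add_le_add h1 (Finset.sum_le_sum h2)).trans ?_
  rw [← ENNReal.ofReal_sum_of_nonneg, ← Finset.mul_sum, ← ENNReal.ofReal_add]
  · apply ENNReal.ofReal_le_ofReal
    have h4 := sR_sum
    have h5 : 2 / K * ∑ j ∈ Finset.range 250, gR j * (sR (j + 1) - sR j) ≤ 2 / K * 0.20648 :=
      mul_le_mul_of_nonneg_left h4 (by positivity)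
    have h6 : 2 / K * 0.20648 = 0.41296 / K := by ring
    linarith
  · positivity
  · apply mul_nonneg (by positivity)
    refine Finset.sum_nonneg fun j hj => ?_
    exact mul_nonneg (gR_nonneg j) (by linarith [sR_lt (Finset.mem_range.1 hj)])
  · intro j hj
    exact mul_nonneg (by positivity) (mul_nonneg (gR_nonneg j) (by linarith [sR_lt (Finset.mem_range.1 hj)]))

/-- the bad heights -/
def BadZ : Set ℝ := {t : ℝ | ¬ Anti t}

lemma bad_sub {T K : ℝ} (hT : 20 ≤ T) (hK : 0 < K) (hK2 : ∀ t, T ≤ t → K ≤ Real.log (t / (2 * Real.pi)) / 2 - 2 / t) :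
    BadZ ∩ Icc T (2 * T) ⊆ {t : ℝ | 1 ≤ ∑ s ∈ (Zf riemannZeta (T - 1 / 2) (2 * T + 1 / 2)).filter (fun s => 1 / 2 < s.re),
      (mult riemannZeta s : ℝ) * Wt K (s - 1 / 2) t} := by
  classical
  rintro t ⟨h1, h2, h3⟩
  have h4 : 1 ≤ ∑ w ∈ Zcf t, (analyticOrderNatAt XX w : ℝ) * Wt K w t := by
    by_contra hcon
    exact h1 (good_height (by linarith) hK (hK2 t h2) (not_le.1 hcon))
  refine h4.trans ?_
  have hinj : ∀ x ∈ Zcf t, ∀ y ∈ Zcf t, x + 1 / 2 = y + 1 / 2 → x = y := fun x _ y _ h => by simpa using h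
  have h5 : ∑ w ∈ Zcf t, (analyticOrderNatAt XX w : ℝ) * Wt K w t =
      ∑ s ∈ (Zcf t).image (fun w => w + 1 / 2), (mult riemannZeta s : ℝ) * Wt K (s - 1 / 2) t := by
    rw [Finset.sum_image hinj]
    refine Finset.sum_congr rfl fun w hw => ?_
    have h6 := (Pool.Agent.Y23.isZ_iff (w + 1 / 2)).2 (by rw [add_sub_cancel_right]; exact (mem_Zcf.1 hw).1)
    have h7 := Pool.Agent.Y23.mu_eq h6.2.1 h6.2.2
    rw [add_sub_cancel_right] at h7 ⊢
    rw [← h7]
    rfl
  rw [h5]
  apply Finset.sum_le_sum_of_subset_of_nonneg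
  · intro s hs
    rw [Finset.mem_image] at hs
    obtain ⟨w, hw, rfl⟩ := hs
    have hw' := mem_Zcf.1 hw
    have h6 := (Pool.Agent.Y23.isZ_iff (w + 1 / 2)).2 (by rw [add_sub_cancel_right]; exact hw'.1)
    have h8 := Zc_re hw'
    have h9 := XX_re_lt hw'.1
    have h10 := abs_lt.1 hw'.2
    have e1 : (w + 1 / 2 : ℂ).re = w.re + 1 / 2 := by simp
    have e2 : (w + 1 / 2 : ℂ).im = w.im := by simp
    rw [abs_of_pos h8] at h9
    rw [Finset.mem_filter, H370.mem_Zf good_zeta (by linarith), e1]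
    refine ⟨⟨h6.2.1, h6.2.2, ?_, ?_, h6.1⟩, by linarith⟩
    · rw [e2]; linarith
    · rw [e2]; linarith
  · intro s _ _
    exact mul_nonneg (Nat.cast_nonneg _) (Wt_nonneg hK _ _)

lemma bad_block {T K : ℝ} (hT : 20 ≤ T) (hK : 0 < K) (hK2 : ∀ t, T ≤ t → K ≤ Real.log (t / (2 * Real.pi)) / 2 - 2 / t) :
    volume (BadZ ∩ Icc T (2 * T)) ≤ ENNReal.ofReal (0.5986 * DD (T - 1 / 2) (2 * T + 1 / 2) +
      0.41296 / K * (NR riemannZeta (T - 1 / 2) (2 * T + 1 / 2) : ℝ)) := by
  classical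
  refine (measure_mono (bad_sub hT hK hK2)).trans ?_
  set F := (Zf riemannZeta (T - 1 / 2) (2 * T + 1 / 2)).filter (fun s => 1 / 2 < s.re) with hF
  have hmeas : Measurable (fun t => ENNReal.ofReal (∑ s ∈ F, (mult riemannZeta s : ℝ) * Wt K (s - 1 / 2) t)) := by
    apply ENNReal.measurable_ofReal.comp
    exact Finset.measurable_sum _ fun s _ => (Wt_meas K _).const_mul _
  have hsub : {t : ℝ | 1 ≤ ∑ s ∈ F, (mult riemannZeta s : ℝ) * Wt K (s - 1 / 2) t} ⊆
      {t : ℝ | 1 ≤ ENNReal.ofReal (∑ s ∈ F, (mult riemannZeta s : ℝ) * Wt K (s - 1 / 2) t)} := by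
    intro t ht
    have ht' : 1 ≤ ∑ s ∈ F, (mult riemannZeta s : ℝ) * Wt K (s - 1 / 2) t := ht
    show 1 ≤ ENNReal.ofReal _
    rw [← ENNReal.ofReal_one]
    exact ENNReal.ofReal_le_ofReal ht'
  refine (measure_mono hsub).trans ?_
  have hmk := mul_meas_ge_le_lintegral₀ (μ := volume) hmeas.aemeasurable 1
  rw [one_mul] at hmk
  refine hmk.trans ?_
  have h1 : ∀ t, ENNReal.ofReal (∑ s ∈ F, (mult riemannZeta s : ℝ) * Wt K (s - 1 / 2) t) =
      ∑ s ∈ F, ENNReal.ofReal (mult riemannZeta s : ℝ) * ENNReal.ofReal (Wt K (s - 1 / 2) t) := by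
    intro t
    rw [ENNReal.ofReal_sum_of_nonneg (fun s _ => mul_nonneg (Nat.cast_nonneg _) (Wt_nonneg hK _ _))]
    refine Finset.sum_congr rfl fun s _ => ?_
    rw [ENNReal.ofReal_mul (Nat.cast_nonneg _)]
  simp_rw [h1]
  have hm : ∀ s : ℂ, Measurable (fun t => ENNReal.ofReal (Wt K (s - 1 / 2) t)) := fun s =>
    ENNReal.measurable_ofReal.comp (Wt_meas K _)
  rw [lintegral_finsetSum _ (fun s _ => (hm s).const_mul _)]
  have h2 : ∀ s ∈ F, ∫⁻ t, ENNReal.ofReal (mult riemannZeta s : ℝ) * ENNReal.ofReal (Wt K (s - 1 / 2) t) ≤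
      ENNReal.ofReal ((mult riemannZeta s : ℝ) * (0.5986 * max (s.re - 1 / 2) 0 + 0.41296 / K)) := by
    intro s hs
    have hs' : 1 / 2 < s.re := (Finset.mem_filter.1 hs).2
    rw [lintegral_const_mul _ (hm s), ENNReal.ofReal_mul (Nat.cast_nonneg _)]
    apply mul_le_mul_right
    have e : (s - 1 / 2 : ℂ).re = s.re - 1 / 2 := by simp
    have h3 := lint_W hK (w := s - 1 / 2) (by rw [e]; linarith)
    rw [e] at h3
    rw [max_eq_left (by linarith)]
    exact h3
  refine (Finset.sum_le_sum h2).trans ?_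
  rw [← ENNReal.ofReal_sum_of_nonneg (fun s _ => by positivity)]
  apply ENNReal.ofReal_le_ofReal
  have h4 : ∑ s ∈ F, (mult riemannZeta s : ℝ) * (0.5986 * max (s.re - 1 / 2) 0 + 0.41296 / K) =
      0.5986 * ∑ s ∈ F, (mult riemannZeta s : ℝ) * max (s.re - 1 / 2) 0 + 0.41296 / K * ∑ s ∈ F, (mult riemannZeta s : ℝ) := by
    rw [Finset.mul_sum, Finset.mul_sum, ← Finset.sum_add_distrib]
    refine Finset.sum_congr rfl fun s _ => ?_
    ring
  rw [h4]
  have h5 : ∑ s ∈ F, (mult riemannZeta s : ℝ) * max (s.re - 1 / 2) 0 ≤ DD (T - 1 / 2) (2 * T + 1 / 2) := by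
    unfold DD
    apply Finset.sum_le_sum_of_subset_of_nonneg (Finset.filter_subset _ _)
    intro s _ _
    exact mul_nonneg (Nat.cast_nonneg _) (le_max_right _ _)
  have h6 : ∑ s ∈ F, (mult riemannZeta s : ℝ) = (NR riemannZeta (T - 1 / 2) (2 * T + 1 / 2) : ℝ) := by
    rw [H370.NR_eq good_zeta (by linarith), hF, Finset.sum_filter]
    push_cast
    refine Finset.sum_congr rfl fun s _ => ?_
    split_ifs <;> simp
  rw [h6]
  have h7 : 0 ≤ (0.41296 : ℝ) / K := by positivity
  linarith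

end

end Pool.Agent.Zk4
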