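import Pool.Agent.Zk4.Ni

set_option autoImplicit false

/-!
The total measure of the bad heights (helper4).
-/

namespace Pool.Agent.Zk4

open Complex Filter Topology Set MeasureTheory
open Pool.Agent.H24R2.JP (XX FF)
open H370 (mult zset GoodL good_zeta NN Zf NR)

noncomputable section

lemma DD_le_NN {a b : ℝ} (ha : 1 ≤ a) : DD a b ≤ (NN riemannZeta a b : ℝ) / 2 := by
  unfold DD
  rw [H370.NN_eq good_zeta ha]
  push_cast
  rw [Finset.sum_div]
  refine Finset.sum_le_sum fun s hs => ?_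
  have hs' := (H370.mem_Zf good_zeta ha).1 hs
  have h1 : max (s.re - 1 / 2) 0 ≤ 1 / 2 := max_le (by linarith [hs'.2.1]) (by norm_num)
  have h2 : (0 : ℝ) ≤ (mult riemannZeta s : ℝ) := Nat.cast_nonneg _
  nlinarith

lemma NR_le_NN {a b : ℝ} (ha : 1 ≤ a) : (NR riemannZeta a b : ℝ) ≤ (NN riemannZeta a b : ℝ) := by
  have := H370.NR_split good_zeta (a := a) (b := b) ha
  have h2 : NR riemannZeta a b ≤ NN riemannZeta a b := by omega
  exact_mod_cast h2

lemma NR_add {a b c : ℝ} (h : 1 ≤ a) (hab : a ≤ b) (hbc : b ≤ c) :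
    NR riemannZeta a c = NR riemannZeta a b + NR riemannZeta b c := by
  classical
  rw [H370.NR_eq good_zeta h, H370.NR_eq good_zeta h, H370.NR_eq good_zeta (h.trans hab), ← Finset.sum_union]
  · refine Finset.sum_congr ?_ fun _ _ => rfl
    ext s
    rw [Finset.mem_union, H370.mem_Zf good_zeta h, H370.mem_Zf good_zeta h, H370.mem_Zf good_zeta (h.trans hab)]
    constructor
    · rintro ⟨h1, h2, h3, h4, h5⟩
      by_cases h : s.im ≤ b
      · exact Or.inl ⟨h1, h2, h3, h, h5⟩
      · push Not at h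
        exact Or.inr ⟨h1, h2, h, h4, h5⟩
    · rintro (⟨h1, h2, h3, h4, h5⟩ | ⟨h1, h2, h3, h4, h5⟩)
      · exact ⟨h1, h2, h3, h4.trans hbc, h5⟩
      · exact ⟨h1, h2, hab.trans_lt h3, h4, h5⟩
  · rw [Finset.disjoint_left]
    intro s hs hs'
    rw [H370.mem_Zf good_zeta h] at hs
    rw [H370.mem_Zf good_zeta (h.trans hab)] at hs'
    exact absurd hs.2.2.2.1 (not_le.2 hs'.2.2.1)

/-- the number of zeros to the right of the line in a block -/
lemma nr_block : ∃ C T0 : ℝ, 0 < C ∧ 10 ≤ T0 ∧ ∀ T : ℝ, T0 ≤ T →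
    (NR riemannZeta T (2 * T) : ℝ) ≤ 0.1636975 * (T * Real.log T / (2 * Real.pi) + C * T) := by
  obtain ⟨T3, hT3⟩ := H370.Expl.main_numeric riemannZeta good_zeta
  obtain ⟨C, T4, hC, hT4, hnn⟩ := H370.nn_asymp good_zeta
  refine ⟨C, max T3 T4, hC, hT4.trans (le_max_right _ _), fun T hT => ?_⟩
  have g3 : T3 ≤ T := (le_max_left _ _).trans hT
  have g4 : T4 ≤ T := (le_max_right _ _).trans hT
  have hT1' : (1:ℝ) ≤ T := by linarith
  have h1 : (2 : ℝ) * NR riemannZeta T (2 * T) + H370.Ns riemannZeta T (2 * T) ≤ NN riemannZeta T (2 * T) := by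
    exact_mod_cast H370.NR_split good_zeta hT1'
  have h2 := (hT3 T g3).1
  have h3 := hnn T g4 T (2 * T) le_rfl (by linarith) (by linarith) le_rfl
  have h4 := (abs_le.mp h3).2
  have hNR : (NR riemannZeta T (2 * T) : ℝ) ≤ 0.1636975 * (NN riemannZeta T (2 * T) : ℝ) := by linarith
  have hNN : (NN riemannZeta T (2 * T) : ℝ) ≤ T * Real.log T / (2 * Real.pi) + C * T := by linarith
  linarith

set_option maxHeartbeats 1000000 in
/-- the bad heights in a block -/
theorem badz_block (hms : MSQ) : ∃ T0 : ℝ, 80 ≤ T0 ∧ ∀ T : ℝ, T0 ≤ T →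
    volume (BadZ ∩ Icc T (2 * T)) ≤ ENNReal.ofReal (0.05598 * T) := by
  obtain ⟨T1, hT1, hDD⟩ := block hms
  obtain ⟨C, T2, hC, hT2, hNR⟩ := nr_block
  obtain ⟨C0, hC0, hz⟩ := H370.zcount good_zeta
  have hpi := Real.pi_gt_d6
  have hpi2 := Real.pi_lt_d6
  obtain ⟨T5, hT5⟩ := (Real.tendsto_log_atTop.eventually_ge_atTop
    (max (10 ^ 6 * (Real.log (2 * Real.pi) + 4)) (10 ^ 6 * C * (2 * Real.pi)))).exists_forall_of_atTop
  have hsmall : ∀ᶠ T : ℝ in atTop, 0.9 * C0 * Real.log T + 2.5 * C0 ≤ 0.00001 * T := by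
    have h1 : (fun T : ℝ => Real.log T) =o[atTop] (fun T : ℝ => T) := Real.isLittleO_log_id_atTop
    have h2 := h1.bound (show 0 < 0.000005 / (0.9 * C0) by positivity)
    filter_upwards [h2, eventually_ge_atTop 1, eventually_ge_atTop (2.5 * C0 / 0.000005)] with T h3 h4 h5
    rw [Real.norm_eq_abs, Real.norm_eq_abs, abs_of_nonneg (Real.log_nonneg h4), abs_of_nonneg (by linarith)] at h3
    rw [div_le_iff₀ (by norm_num)] at h5
    have h6 : 0.9 * C0 * Real.log T ≤ 0.9 * C0 * (0.000005 / (0.9 * C0) * T) :=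
      mul_le_mul_of_nonneg_left h3 (by positivity)
    have h7 : 0.9 * C0 * (0.000005 / (0.9 * C0) * T) = 0.000005 * T := by
      field_simp
    linarith
  obtain ⟨T6, hT6⟩ := hsmall.exists_forall_of_atTop
  refine ⟨max T1 (max T2 (max T5 T6)), hT1.trans (le_max_left _ _), fun T hT => ?_⟩
  have g1 : T1 ≤ T := (le_max_left _ _).trans hT
  have g2 : T2 ≤ T := ((le_max_left _ _).trans (le_max_right _ _)).trans hT
  have g5 : T5 ≤ T := (((le_max_left _ _).trans (le_max_right _ _)).trans (le_max_right _ _)).trans hT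
  have g6 : T6 ≤ T := (((le_max_right _ _).trans (le_max_right _ _)).trans (le_max_right _ _)).trans hT
  have hT80 : 80 ≤ T := hT1.trans g1
  have hT0 : 0 < T := by linarith
  have hL := hT5 T g5
  have hL1 : 10 ^ 6 * (Real.log (2 * Real.pi) + 4) ≤ Real.log T := (le_max_left _ _).trans hL
  have hL2 : 10 ^ 6 * C * (2 * Real.pi) ≤ Real.log T := (le_max_right _ _).trans hL
  have hsm := hT6 T g6
  obtain ⟨L, hLd⟩ : ∃ L : ℝ, L = Real.log T := ⟨_, rfl⟩
  have hl2pi : 0 < Real.log (2 * Real.pi) := Real.log_pos (by linarith)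
  have hNRT := hNR T g2
  rw [← hLd] at hL1 hL2 hsm hNRT
  have hL0 : 0 < L := by nlinarith
  -- the lower bound for the derivative
  obtain ⟨K, hKd⟩ : ∃ K : ℝ, K = L / 2 * (1 - 0.00001) := ⟨_, rfl⟩
  have hK0 : 0 < K := by rw [hKd]; nlinarith
  have hK2 : ∀ t, T ≤ t → K ≤ Real.log (t / (2 * Real.pi)) / 2 - 2 / t := by
    intro t ht
    have ht0 : 0 < t := by linarith
    rw [Real.log_div ht0.ne' (by positivity)]
    have h1 : L ≤ Real.log t := by
      rw [hLd]
      exact Real.log_le_log hT0 ht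
    have h2 : 2 / t ≤ 1 := by
      rw [div_le_one ht0]
      linarith
    rw [hKd]
    linarith
  have h1 := bad_block (by linarith) hK0 hK2
  refine h1.trans (ENNReal.ofReal_le_ofReal ?_)
  -- boundary terms
  have z1 := hz T (by linarith)
  have z2 := hz (2 * T) (by linarith)
  have z3 : Real.log (2 * T) ≤ 2 * L := by
    rw [Real.log_mul (by norm_num) hT0.ne', ← hLd]
    have h2 : Real.log 2 ≤ Real.log T := Real.log_le_log (by norm_num) (by linarith)
    linarith
  have n1 : (NN riemannZeta (T - 1 / 2) T : ℝ) ≤ C0 * L := by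
    have h2 : NN riemannZeta (T - 1 / 2) T ≤ NN riemannZeta (T - 1) (T + 1) :=
      H370.NN_mono good_zeta (by linarith) (by linarith) (by linarith)
    have h3 : (NN riemannZeta (T - 1 / 2) T : ℝ) ≤ NN riemannZeta (T - 1) (T + 1) := by exact_mod_cast h2
    rw [hLd]
    linarith
  have n2 : (NN riemannZeta (2 * T) (2 * T + 1 / 2) : ℝ) ≤ 2 * C0 * L := by
    have h2 : NN riemannZeta (2 * T) (2 * T + 1 / 2) ≤ NN riemannZeta (2 * T - 1) (2 * T + 1) :=
      H370.NN_mono good_zeta (by linarith) (by linarith) (by linarith)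
    have h3 : (NN riemannZeta (2 * T) (2 * T + 1 / 2) : ℝ) ≤ NN riemannZeta (2 * T - 1) (2 * T + 1) := by exact_mod_cast h2
    nlinarith
  have hDDT := hDD T g1
  have d1 : DD (T - 1 / 2) (2 * T + 1 / 2) ≤ T * (0.36153 / (2 * Real.pi)) + 1.5 * C0 * L := by
    rw [DD_add (a := T - 1 / 2) (b := T) (c := 2 * T + 1 / 2) (by linarith) (by linarith) (by linarith),
      DD_add (a := T) (b := 2 * T) (c := 2 * T + 1 / 2) (by linarith) (by linarith) (by linarith)]
    have h2 := DD_le_NN (a := T - 1 / 2) (b := T) (by linarith)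
    have h3 := DD_le_NN (a := 2 * T) (b := 2 * T + 1 / 2) (by linarith)
    linarith
  have r1 : (NR riemannZeta (T - 1 / 2) (2 * T + 1 / 2) : ℝ) ≤
      0.1636975 * (T * L / (2 * Real.pi) + C * T) + 3 * C0 * L := by
    rw [NR_add (a := T - 1 / 2) (b := T) (c := 2 * T + 1 / 2) (by linarith) (by linarith) (by linarith),
      NR_add (a := T) (b := 2 * T) (c := 2 * T + 1 / 2) (by linarith) (by linarith) (by linarith)]
    push_cast
    have h2 := NR_le_NN (a := T - 1 / 2) (b := T) (by linarith)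
    have h3 := NR_le_NN (a := 2 * T) (b := 2 * T + 1 / 2) (by linarith)
    linarith
  have hKinv : 0.41296 / K ≤ 0.82593 / L := by
    rw [div_le_div_iff₀ hK0 hL0, hKd]
    linarith
  have hCT : C * T ≤ 0.000001 * (T * L / (2 * Real.pi)) := by
    have h2 : 0.000001 * (T * L / (2 * Real.pi)) = 0.000001 * L / (2 * Real.pi) * T := by ring
    rw [h2]
    apply mul_le_mul_of_nonneg_right _ hT0.le
    rw [le_div_iff₀ (by positivity)]
    linarith
  have r2 : 0.41296 / K * (NR riemannZeta (T - 1 / 2) (2 * T + 1 / 2) : ℝ) ≤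
      0.82593 / L * (0.1636993 * (T * L / (2 * Real.pi)) + 3 * C0 * L) := by
    apply mul_le_mul hKinv _ (Nat.cast_nonneg _) (by positivity)
    have h3 : 0 ≤ T * L / (2 * Real.pi) := by positivity
    linarith
  have r3 : 0.82593 / L * (0.1636993 * (T * L / (2 * Real.pi)) + 3 * C0 * L) =
      0.82593 * 0.1636993 * T / (2 * Real.pi) + 0.82593 * 3 * C0 := by
    field_simp
  rw [r3] at r2
  have e1 : 0.5986 * (T * (0.36153 / (2 * Real.pi)) + 1.5 * C0 * L) =
      0.5986 * 0.36153 * T / (2 * Real.pi) + 0.8979 * C0 * L := by ring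
  have e2 : 0.5986 * DD (T - 1 / 2) (2 * T + 1 / 2) ≤ 0.5986 * 0.36153 * T / (2 * Real.pi) + 0.8979 * C0 * L := by
    rw [← e1]
    exact mul_le_mul_of_nonneg_left d1 (by norm_num)
  have e3 : 0.5986 * 0.36153 * T / (2 * Real.pi) + 0.82593 * 0.1636993 * T / (2 * Real.pi) ≤ 0.055965 * T := by
    rw [← add_div, div_le_iff₀ (by positivity)]
    have q : 0.055965 * T * (2 * 3.141592) ≤ 0.055965 * T * (2 * Real.pi) :=
      mul_le_mul_of_nonneg_left (by linarith) (by positivity)
    linarith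
  have e4 : 0 ≤ C0 * L := by positivity
  linarith

theorem badz_total (hms : MSQ) : ∃ T0 : ℝ, ∀ T, T0 ≤ T → volume (BadZ ∩ Icc 0 T) ≤ ENNReal.ofReal (0.056 * T) := by
  obtain ⟨A, hA, h⟩ := badz_block hms
  -- finite measures
  have hfin : ∀ a b : ℝ, volume (BadZ ∩ Icc a b) ≠ ⊤ := fun a b =>
    ((measure_mono inter_subset_right).trans_lt (by rw [Real.volume_Icc]; exact ENNReal.ofReal_lt_top)).ne
  have hstep : ∀ X, A ≤ X → (volume (BadZ ∩ Icc 0 X)).toReal ≤ 2 * A + 0.05598 * X := by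
    refine dyadic_sum (f := fun X => (volume (BadZ ∩ Icc 0 X)).toReal) (by norm_num) (by linarith)
      (fun X h1 h2 => ?_) (fun X hX => ?_)
    · have h3 : volume (BadZ ∩ Icc 0 X) ≤ ENNReal.ofReal X := by
        refine (measure_mono inter_subset_right).trans ?_
        rw [Real.volume_Icc, sub_zero]
      have h4 := ENNReal.toReal_mono ENNReal.ofReal_ne_top h3
      rw [ENNReal.toReal_ofReal (by linarith)] at h4
      linarith
    · have h3 : BadZ ∩ Icc 0 X ⊆ (BadZ ∩ Icc 0 (X / 2)) ∪ (BadZ ∩ Icc (X / 2) (2 * (X / 2))) := by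
        rintro t ⟨h4, h5, h6⟩
        rcases le_or_gt t (X / 2) with h7 | h7
        · exact Or.inl ⟨h4, h5, h7⟩
        · exact Or.inr ⟨h4, h7.le, by linarith⟩
      have h4 := (measure_mono (μ := volume) h3).trans (measure_union_le _ _)
      have h5 := h (X / 2) (by linarith)
      have h6 := h4.trans (add_le_add_right h5 _)
      have h7 := ENNReal.toReal_mono (ENNReal.add_ne_top.2 ⟨hfin _ _, ENNReal.ofReal_ne_top⟩) h6
      rw [ENNReal.toReal_add (hfin _ _) ENNReal.ofReal_ne_top, ENNReal.toReal_ofReal (by linarith)] at h7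
      exact h7
  refine ⟨max A (2 * A / 0.00002), fun T hT => ?_⟩
  have g1 : A ≤ T := (le_max_left _ _).trans hT
  have g2 : 2 * A / 0.00002 ≤ T := (le_max_right _ _).trans hT
  rw [div_le_iff₀ (by norm_num)] at g2
  have h1 := hstep T g1
  rw [← ENNReal.ofReal_toReal (hfin 0 T)]
  apply ENNReal.ofReal_le_ofReal
  linarith

end

end Pool.Agent.Zk4
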